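import Pool.Agent.Lib.MP_3a0c72_gt.Bing.Defs

/-! Combinatorics of the tent itineraries. -/

set_option autoImplicit false

noncomputable section

open Set Filter Topology

namespace Pool.Agent.Lib.MP_3a0c72_gt.Bing

lemma NB_zero (τ : Word) : NB 0 τ = if τ 0 then 1 else 0 := rfl

lemma NB_succ (j : ℕ) (τ : Word) :
    NB (j + 1) τ = if τ 0 then 2 ^ (j + 1) - NB j (sh τ) else NB j (sh τ) := rfl

lemma NB_le (j : ℕ) (τ : Word) : NB j τ ≤ 2 ^ j := by
  induction j generalizing τ with
  | zero => rw [NB_zero]; split_ifs <;> simp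
  | succ j ih =>
    rw [NB_succ]
    have := ih (sh τ)
    split_ifs
    · omega
    · rw [pow_succ]; omega

lemma NB_mod_two (j : ℕ) (τ : Word) : NB j τ % 2 = if τ j then 1 else 0 := by
  induction j generalizing τ with
  | zero => rw [NB_zero]; split_ifs <;> simp
  | succ j ih =>
    rw [NB_succ]
    have h1 := ih (sh τ)
    have h2 := NB_le j (sh τ)
    have h3 : sh τ j = τ (j + 1) := rfl
    rw [h3] at h1
    rw [pow_succ]
    split_ifs at h1 ⊢ <;> omega

lemma bit_eq_of_NB_eq {j : ℕ} {τ τ' : Word} (h : NB j τ = NB j τ') : τ j = τ' j := by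
  have h1 := NB_mod_two j τ
  have h2 := NB_mod_two j τ'
  rw [h, h2] at h1
  cases h3 : τ j <;> cases h4 : τ' j <;> simp_all

lemma NB_sh (j : ℕ) (τ : Word) :
    NB j (sh τ) = min (NB (j + 1) τ) (2 ^ (j + 1) - NB (j + 1) τ) := by
  rw [NB_succ]
  have h2 := NB_le j (sh τ)
  rw [pow_succ]
  split_ifs <;> omega

lemma NB_compare_fin (m : ℕ) (τ τ' : Word) :
    (∀ j ≤ m, NB j τ ≤ NB j τ') ∨ (∀ j ≤ m, NB j τ' ≤ NB j τ) := by
  induction m generalizing τ τ' with
  | zero =>
    rcases le_total (NB 0 τ) (NB 0 τ') with h | h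
    · left; intro j hj; obtain rfl : j = 0 := by omega
      exact h
    · right; intro j hj; obtain rfl : j = 0 := by omega
      exact h
  | succ m ih =>
    have key : ∀ σ σ' : Word, σ 0 = false → σ' 0 = true → ∀ j, NB j σ ≤ NB j σ' := by
      intro σ σ' h h' j
      cases j with
      | zero => simp [NB_zero, h]
      | succ j =>
        have h1 := NB_le j (sh σ)
        have h2 := NB_le j (sh σ')
        simp only [NB_succ, h, h', pow_succ]
        simp
        omega
    cases h : τ 0 <;> cases h' : τ' 0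
    · rcases ih (sh τ) (sh τ') with h1 | h1
      · left; intro j hj
        cases j with
        | zero => simp [NB_zero, h]
        | succ j => simpa [NB_succ, h, h'] using h1 j (by omega)
      · right; intro j hj
        cases j with
        | zero => simp [NB_zero, h']
        | succ j => simpa [NB_succ, h, h'] using h1 j (by omega)
    · left; intro j _; exact key τ τ' h h' j
    · right; intro j _; exact key τ' τ h' h j
    · rcases ih (sh τ) (sh τ') with h1 | h1
      · right; intro j hj
        cases j with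
        | zero => simp [NB_zero, h, h']
        | succ j =>
          have := h1 j (by omega)
          simp only [NB_succ, h, h']
          simp only [if_true]
          omega
      · left; intro j hj
        cases j with
        | zero => simp [NB_zero, h, h']
        | succ j =>
          have := h1 j (by omega)
          simp only [NB_succ, h, h']
          simp only [if_true]
          omega

lemma NB_compare (τ τ' : Word) : (∀ j, NB j τ ≤ NB j τ') ∨ (∀ j, NB j τ' ≤ NB j τ) := by
  by_contra hcon
  push Not at hcon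
  obtain ⟨⟨a, ha⟩, ⟨b, hb⟩⟩ := hcon
  rcases NB_compare_fin (max a b) τ τ' with h | h
  · have := h a (le_max_left _ _); omega
  · have := h b (le_max_right _ _); omega

lemma NB_congr {j : ℕ} {τ τ' : Word} (h : ∀ i ≤ j, τ i = τ' i) : NB j τ = NB j τ' := by
  induction j generalizing τ τ' with
  | zero => rw [NB_zero, NB_zero, h 0 le_rfl]
  | succ j ih =>
    rw [NB_succ, NB_succ, h 0 (by omega),
      ih (τ := sh τ) (τ' := sh τ') (fun i hi => h (i + 1) (by omega))]

lemma continuous_sh : Continuous sh := continuous_pi fun j => continuous_apply (j + 1)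

/-- A function of finitely many symbols is continuous. -/
lemma continuous_of_finite_dep {X : Type*} [TopologicalSpace X] (f : Word → X) (m : ℕ)
    (h : ∀ τ τ' : Word, (∀ i ≤ m, τ i = τ' i) → f τ = f τ') : Continuous f := by
  refine continuous_iff_continuousAt.2 fun τ => ?_
  have hev : ∀ᶠ τ' in 𝓝 τ, ∀ i ∈ Finset.range (m + 1), τ' i = τ i := by
    refine (Finset.range (m + 1)).eventually_all.2 fun i _ => ?_
    have : ContinuousAt (fun σ : Word => σ i) τ := (continuous_apply i).continuousAt
    exact this.eventually (p := fun b => b = τ i) (by simp)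
  refine (continuousAt_const (y := f τ)).congr ?_
  filter_upwards [hev] with τ' hτ'
  exact h τ τ' fun i hi => (hτ' i (Finset.mem_range.2 (by omega))).symm

lemma continuous_NB (j : ℕ) : Continuous (NB j) :=
  continuous_of_finite_dep _ j fun _ _ h => NB_congr h

lemma sh_w0 : sh w0 = w0 := rfl

lemma NB_w0 (j : ℕ) : NB j w0 = 0 := by
  induction j with
  | zero => rfl
  | succ j ih => rw [NB_succ, sh_w0, ih]; rfl

lemma bit_false_of_NB_eq_zero {j : ℕ} {τ : Word} (h : NB j τ = 0) : ∀ i ≤ j, τ i = false := by
  induction j generalizing τ with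
  | zero =>
    intro i hi
    obtain rfl : i = 0 := by omega
    rw [NB_zero] at h
    cases h1 : τ 0 <;> simp_all
  | succ j ih =>
    have h2 := NB_le j (sh τ)
    rw [NB_succ, pow_succ] at h
    have hpos : 0 < 2 ^ j := by positivity
    have h0 : τ 0 = false := by
      cases h1 : τ 0
      · rfl
      · rw [h1] at h; simp only [if_true] at h; omega
    rw [h0] at h
    intro i hi
    cases i with
    | zero => exact h0
    | succ i => exact ih (τ := sh τ) (by simpa using h) i (by omega)

lemma eq_w0_of_NB {τ : Word} {j0 : ℕ} (h : ∀ j, j0 ≤ j → NB j τ = 0) : τ = w0 := by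
  funext i
  exact bit_false_of_NB_eq_zero (h (max i j0) (le_max_right _ _)) i (le_max_left _ _)

/-- The two words of a gap pair of level `g`. -/
def gapW (τ : Word) (g : ℕ) (c : Bool) : Word := fun j =>
  if j < g then τ j else if j = g then c else decide (j = g + 1)

lemma sh_gapW (τ : Word) (g : ℕ) (c : Bool) : sh (gapW τ (g + 1) c) = gapW (sh τ) g c := by
  funext j
  simp [sh, gapW]

lemma NB_one_zero (j : ℕ) : NB j (fun i => decide (i = 0)) = 2 ^ j := by
  cases j with
  | zero => simp [NB_zero]
  | succ j =>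
    have : sh (fun i => decide (i = 0)) = w0 := by funext i; simp [sh, w0]
    simp [NB_succ, this, NB_w0]

lemma NB_gap (τ : Word) {g j : ℕ} (h : g < j) :
    NB j (gapW τ g false) = NB j (gapW τ g true) := by
  induction g generalizing τ j with
  | zero =>
    obtain ⟨j, rfl⟩ : ∃ i, j = i + 1 := ⟨j - 1, by omega⟩
    have h1 : ∀ c, sh (gapW τ 0 c) = fun i => decide (i = 0) := by
      intro c; funext i; simp [sh, gapW]
    rw [NB_succ, NB_succ, h1, h1, NB_one_zero, pow_succ]
    simp [gapW]
    omega
  | succ g ih =>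
    obtain ⟨j, rfl⟩ : ∃ i, j = i + 1 := ⟨j - 1, by omega⟩
    rw [NB_succ, NB_succ, sh_gapW, sh_gapW, ih (sh τ) (by omega)]
    simp [gapW]

lemma eq_one_zero_of_NB {ρ : Word} {j0 : ℕ} (h : ∀ j, j0 ≤ j → NB j ρ = 2 ^ j) :
    ρ = fun i => decide (i = 0) := by
  have h0 : ρ 0 = true := by
    have h1 := h (j0 + 1) (by omega)
    have h2 := NB_le j0 (sh ρ)
    have hpos : 0 < 2 ^ j0 := by positivity
    rw [NB_succ, pow_succ] at h1
    cases h3 : ρ 0
    · rw [h3] at h1; simp at h1; omega
    · rfl
  have h4 : sh ρ = w0 := by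
    refine eq_w0_of_NB (j0 := j0) fun j hj => ?_
    have h1 := h (j + 1) (by omega)
    have h2 := NB_le j (sh ρ)
    rw [NB_succ, h0, pow_succ] at h1
    simp only [if_true] at h1
    omega
  funext i
  cases i with
  | zero => simp [h0]
  | succ i => have := congrFun h4 i; simpa [sh, w0] using this

lemma class_struct_aux (g : ℕ) : ∀ (τ τ' : Word) (j0 : ℕ), (∀ i < g, τ i = τ' i) → τ g ≠ τ' g →
    (∀ j, j0 ≤ j → NB j τ = NB j τ') → ∀ i, g < i → τ i = decide (i = g + 1) := by
  induction g with
  | zero =>
    intro τ τ' j0 _ hne h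
    have h1 : sh τ = fun i => decide (i = 0) := by
      refine eq_one_zero_of_NB (j0 := j0) fun j hj => ?_
      have h1 := h (j + 1) (by omega)
      have h2 := NB_le j (sh τ)
      have h3 := NB_le j (sh τ')
      rw [NB_succ, NB_succ, pow_succ] at h1
      cases h4 : τ 0 <;> cases h5 : τ' 0 <;> simp_all <;> omega
    intro i hi
    obtain ⟨i, rfl⟩ : ∃ k, i = k + 1 := ⟨i - 1, by omega⟩
    have := congrFun h1 i
    simpa [sh] using this
  | succ g ih =>
    intro τ τ' j0 hlt hne h i hi
    obtain ⟨i, rfl⟩ : ∃ k, i = k + 1 := ⟨i - 1, by omega⟩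
    have := ih (sh τ) (sh τ') j0 (fun i hi => hlt (i + 1) (by omega)) hne (fun j hj => by
      have h1 := h (j + 1) (by omega)
      rw [NB_sh, NB_sh, h1]) i (by omega)
    simpa [sh] using this

/-- Two different words with eventually equal positions are a gap pair. -/
lemma class_struct {τ τ' : Word} (hne : τ ≠ τ') {j0 : ℕ} (h : ∀ j, j0 ≤ j → NB j τ = NB j τ') :
    ∃ g c, τ = gapW τ g c ∧ τ' = gapW τ g (!c) := by
  classical
  have hex : ∃ i, τ i ≠ τ' i := by
    by_contra hcon
    push Not at hcon
    exact hne (funext hcon)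
  set g := Nat.find hex with hg
  have h1 : τ g ≠ τ' g := Nat.find_spec hex
  have h2 : ∀ i < g, τ i = τ' i := fun i hi => by
    have := Nat.find_min hex hi
    simpa using this
  have h3 := class_struct_aux g τ τ' j0 h2 h1 h
  have h4 := class_struct_aux g τ' τ j0 (fun i hi => (h2 i hi).symm) h1.symm
    (fun j hj => (h j hj).symm)
  refine ⟨g, τ g, ?_, ?_⟩
  · funext i
    unfold gapW
    split_ifs with ha hb
    · rfl
    · rw [hb]
    · exact h3 i (by omega)
  · funext i
    unfold gapW
    split_ifs with ha hb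
    · exact (h2 i ha).symm
    · rw [hb]; revert h1; cases τ g <;> cases τ' g <;> simp
    · exact h4 i (by omega)

lemma gap_level_unique {τ : Word} {g g' : ℕ} {c c' : Bool} (h : τ = gapW τ g c)
    (h' : τ = gapW τ g' c') : g = g' ∧ c = c' := by
  have key : ∀ {a b : ℕ} {x y : Bool}, τ = gapW τ a x → τ = gapW τ b y → ¬ a < b := by
    intro a b x y ha hb hab
    have h1 := congrFun ha (b + 1)
    have h2 := congrFun hb (b + 1)
    rw [h1] at h2
    simp only [gapW] at h2
    rw [if_neg (by omega), if_neg (by omega), if_neg (by omega), if_neg (by omega)] at h2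
    simp at h2
    omega
  have hg : g = g' := by
    have := key h h'
    have := key h' h
    omega
  subst hg
  have h1 := congrFun h g
  have h2 := congrFun h' g
  rw [h1] at h2
  simpa [gapW] using h2

/-- The class of a word has one or two elements. -/
lemma class_cases (τ : Word) :
    (∀ τ', (∃ j0, ∀ j, j0 ≤ j → NB j τ' = NB j τ) → τ' = τ) ∨
      ∃ τ1 g, (∀ j, g < j → NB j τ1 = NB j τ) ∧ NB g τ1 ≠ NB g τ ∧
        ∀ τ', (∃ j0, ∀ j, j0 ≤ j → NB j τ' = NB j τ) → τ' = τ ∨ τ' = τ1 := by
  by_cases h : ∀ τ', (∃ j0, ∀ j, j0 ≤ j → NB j τ' = NB j τ) → τ' = τ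
  · exact Or.inl h
  right
  push Not at h
  obtain ⟨τ1, ⟨j0, hj0⟩, hne⟩ := h
  obtain ⟨g, c, h1, h2⟩ := class_struct hne.symm (fun j hj => (hj0 j hj).symm)
  refine ⟨τ1, g, ?_, ?_, ?_⟩
  · intro j hj
    have := NB_gap τ hj
    rw [h2]
    conv_rhs => rw [h1]
    cases c
    · simpa using this.symm
    · simpa using this
  · intro he
    have h3 := bit_eq_of_NB_eq he
    have h4 := congrFun h1 g
    have h5 := congrFun h2 g
    rw [h3, h4] at h5
    simp [gapW] at h5
  · rintro τ' ⟨j1, hj1⟩
    by_cases he : τ' = τ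
    · exact Or.inl he
    right
    obtain ⟨g', c', h3, h4⟩ := class_struct (Ne.symm he) (fun j hj => (hj1 j hj).symm)
    obtain ⟨rfl, rfl⟩ := gap_level_unique h1 h3
    rw [h2, h4]

/-- A word with infinitely many ones is alone in its class. -/
lemma alone_of_ones {τ τ' : Word} (h1 : ∀ m, ∃ j, m ≤ j ∧ τ j = true) {j0 : ℕ}
    (h : ∀ j, j0 ≤ j → NB j τ' = NB j τ) : τ' = τ := by
  by_contra hne
  obtain ⟨g, c, h2, -⟩ := class_struct (Ne.symm hne) (fun j hj => (h j hj).symm)
  obtain ⟨j, hj, hτ⟩ := h1 (g + 2)
  have := congrFun h2 j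
  rw [hτ] at this
  simp only [gapW] at this
  rw [if_neg (by omega), if_neg (by omega)] at this
  simp at this
  omega

/-- A locally constant function that agrees on gap pairs is constant. -/
lemma tie (f : Word → ℤ) (hf : Continuous f)
    (hg : ∀ τ g, f (gapW τ g false) = f (gapW τ g true)) (τ : Word) : f τ = f w0 := by
  classical
  let E : ℕ → Set Word := fun m => {σ | ∀ σ' : Word, (∀ i < m, σ' i = σ i) → f σ' = f σ}
  have hopen : ∀ m, IsOpen (E m) := by
    intro m
    have hc : Continuous fun σ : Word => decide (σ ∈ E m) := by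
      refine continuous_of_finite_dep _ m fun σ σ' h => ?_
      have key : ∀ a b : Word, (∀ i ≤ m, a i = b i) → a ∈ E m → b ∈ E m := by
        intro a b hab ha c hc
        rw [ha c (fun i hi => (hc i hi).trans (hab i hi.le).symm),
          ha b (fun i hi => (hab i hi.le).symm)]
      exact decide_eq_decide.2 ⟨key σ σ' h, key σ' σ fun i hi => (h i hi).symm⟩
    have := (isOpen_discrete ({true} : Set Bool)).preimage hc
    simpa [preimage] using this
  have hmono : Monotone E := by
    intro m m' hm σ hσ σ' h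
    exact hσ σ' fun i hi => h i (by omega)
  have hcover : (univ : Set Word) ⊆ ⋃ m, E m := by
    intro σ _
    have h1 : f ⁻¹' {f σ} ∈ 𝓝 σ := hf.continuousAt.preimage_mem_nhds (by simp)
    rw [nhds_pi, Filter.mem_pi] at h1
    obtain ⟨I, hI, t, ht, hsub⟩ := h1
    obtain ⟨m, hm⟩ := hI.bddAbove
    refine mem_iUnion.2 ⟨m + 1, fun σ' h => hsub fun i hi => ?_⟩
    rw [h i (by have := hm hi; omega)]
    exact mem_of_mem_nhds (ht i)
  obtain ⟨m, hm⟩ := isCompact_univ.elim_directed_cover E hopen hcover hmono.directed_le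
  have key : ∀ m, (∀ σ, σ ∈ E m) → ∀ σ, σ ∈ E 0 := by
    intro m
    induction m with
    | zero => exact fun h => h
    | succ m ih =>
      intro h
      refine ih fun σ σ' hσ => ?_
      have h1 : ∀ a : Word, (∀ i < m, a i = σ i) → f a = f (gapW σ m (a m)) := by
        intro a ha
        refine h (gapW σ m (a m)) a fun i hi => ?_
        unfold gapW
        split_ifs with h2 h3
        · exact ha i h2
        · rw [h3]
        · omega
      rw [h1 σ' hσ, h1 σ fun _ _ => rfl]
      have := hg σ m
      cases σ' m <;> cases σ m <;> simp [this]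
  exact key m (fun σ => hm (mem_univ σ)) w0 τ (fun i hi => absurd hi (by omega))

end Pool.Agent.Lib.MP_3a0c72_gt.Bing
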