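import Mathlib

/-! Definitions for the planar continuum with the fixed point property whose cylinder lacks it. -/

set_option autoImplicit false

noncomputable section

open Set Filter Topology

namespace Pool.Agent.Lib.MP_3a0c72_gt.Bing

instance fact_two_pos : Fact ((0 : ℝ) < 2) := ⟨by norm_num⟩

/-- The cylinder: angle modulo two and height. -/
abbrev Cyl : Type := AddCircle (2 : ℝ) × ℝ

/-- Clamp to the unit interval. -/
def cl (x : ℝ) : ℝ := max 0 (min x 1)

/-- The wiggle profile of period five. -/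
def uu (s : ℝ) : ℝ := cl (‖(s : AddCircle (5 : ℝ))‖ - 1)

/-- The angle along a component of an end. -/
def thl (s : ℝ) : ℝ := max (s + 1) 0 / (max (s + 1) 0 + 3)

/-- Height of an end for a given profile value. -/
def ht (e : Bool) (v : ℝ) : ℝ := if e then 20 - v else -4 + v

/-- The arc components of the two ends. -/
def om (e : Bool) (k : ℤ) (s : ℝ) : Cyl :=
  ((((k : ℝ) + thl s : ℝ) : AddCircle (2 : ℝ)), ht e (uu s))

/-- One arc component of an end. -/
def Wc (e : Bool) (k : ℤ) : Set Cyl := om e k '' Ici (-2)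

/-- An end: a double Warsaw circle. -/
def WW (e : Bool) : Set Cyl := ⋃ k : ℤ, Wc e k

/-- Binary words. -/
abbrev Word : Type := ℕ → Bool

/-- The shift. -/
def sh (τ : Word) : Word := fun j => τ (j + 1)

/-- The zero word. -/
def w0 : Word := fun _ => false

/-- Position of a tent itinerary at scale `2 ^ (-j)`. -/
def NB : ℕ → Word → ℕ
  | 0, τ => if τ 0 then 1 else 0
  | j + 1, τ => if τ 0 then 2 ^ (j + 1) - NB j (sh τ) else NB j (sh τ)

/-- Index space of the leaves. -/
abbrev Leaf : Type := Word ⊕ (Fin 5 × ℕ∞)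

/-- The leaf of the zero word. -/
def J0 : Leaf := Sum.inl w0

/-- The word that programs the outer laps. -/
def base : Leaf → Word
  | Sum.inl τ => τ
  | Sum.inr _ => w0

/-- Integer invariants of a leaf. -/
def JJ (j : ℕ) : Leaf → ℤ
  | Sum.inl τ => NB j τ
  | Sum.inr (i, n) => if n < (j : ℕ∞) then -5 * ((j : ℤ) - (n.toNat : ℤ)) + (i : ℕ) else 0

/-- Rank of a ray type. -/
def rk : Fin 5 → ℕ := ![1, 2, 3, 1, 2]

/-- Exponent of the inner program at depth `κ`. -/
def ee (κ : ℕ) : Leaf → ℕ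
  | Sum.inl τ => if τ (κ + 1) then 2 * κ else κ
  | Sum.inr (i, n) =>
      if n + (rk i : ℕ∞) < (κ : ℕ∞) then
        (if κ % 8 = (i : ℕ) then κ - rk i else if κ % 8 = 4 + rk i then 2 * κ else κ)
      else κ

/-- Number of wiggles that follow the end. -/
def NN (k : ℤ) : ℕ := Nat.clog 4 k.natAbs + 1

/-- The periodic words of odd period `2 a + 3`. -/
def per (a : ℕ) : Word := fun j =>
  decide ((j % (2 * a + 3)) % 2 = 0 ∧ j % (2 * a + 3) ≠ 2 * a + 2)

/-- The outer program. -/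
def mW (k : ℕ) (τ : Word) : ℕ :=
  if ∀ j < k, τ j = per (Nat.unpair (Nat.clog 4 k)).1 (j + (4 ^ Nat.clog 4 k - k)) then
    min k (4 ^ Nat.clog 4 k - k) else k

/-- Number of wiggles of a leaf in lap `k`. -/
def MM (L : Leaf) (k : ℤ) : ℕ :=
  NN k + if k < 0 then (ee k.natAbs L).factorial else mW k.natAbs (base L)

/-- The outer shift of the free map. -/
def dd (τ : Word) : ℤ := if τ 0 = τ 1 ∧ (τ 0 = true ∨ τ 2 = false) then 1 else -1

/-- The map on leaves. -/
def phi : Leaf → Leaf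
  | Sum.inl τ => Sum.inl (sh τ)
  | Sum.inr (i, n) => if i = 0 ∨ i = 3 then J0 else Sum.inr (i - 1, n)

/-- Window index. -/
def iota (L : Leaf) (k : ℤ) : ℤ :=
  if k < 0 then JJ (k.natAbs + 1) L
  else -∑ j ∈ Finset.range (k.natAbs + 1), (NB j (base L) : ℤ)

/-- End points of the windows in lap `k`. -/
def win (k : ℤ) (ι : ℤ) : ℝ := (1 / 2) ^ (k.natAbs + 4) * (1 + Real.sigmoid (ι : ℝ))

/-- Angle offset inside a lap. -/
def Th (N M : ℕ) (A B s : ℝ) : ℝ :=
  thl (min s (5 * N - 3)) + (1 + A - thl (5 * N - 3)) * cl (s - (5 * N - 3))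
    + (B - A) * cl ((s - (5 * N - 2)) / (5 * ((M : ℝ) - N) + 1))
    + (1 - 4 * B) * thl (s - 5 * M)

/-- Angle offset in lap `k` of leaf `L`. -/
def ThL (L : Leaf) (k : ℤ) (s : ℝ) : ℝ :=
  Th (NN k) (MM L k) (win k (iota L k)) (win k (iota L k + 1)) s

/-- The wiggle coordinate inside a lap. -/
def sc (L : Leaf) (y : ℝ) : ℝ := Int.fract y * (5 * MM L ⌊y⌋)

/-- The real angle along a leaf. -/
def ang (L : Leaf) (y : ℝ) : ℝ :=
  if 0 ≤ y ∧ y < 6 then y + 1 / 4 else ⌊y⌋ + ThL L ⌊y⌋ (sc L y)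

/-- The profile along a leaf. -/
def prof (L : Leaf) (y : ℝ) : ℝ :=
  if y < 0 then uu (sc L y) else if y < 6 then y / 6 else 1 - uu (sc L y)

/-- Parameter ends of the rays. -/
def rE : Fin 5 → ℝ := ![13, 2, 0, 12, 5]

/-- Fold starts of the rays. -/
def rb : Fin 5 → ℝ := ![4, 0, 0, 5, 0]

/-- Fold widths of the rays. -/
def rc : Fin 5 → ℝ := ![4, 0, 0, 3, 0]

/-- Amount of folding. -/
def fold (i : Fin 5) (σ : ℝ) : ℝ := max 0 (min (σ - rb i) (rc i))

/-- Projection of a folded ray. -/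
def ppi (i : Fin 5) (σ : ℝ) : ℝ := σ - 2 * fold i σ

/-- Parameter space. -/
abbrev Par : Type := Leaf × ℝ

/-- The lap coordinate of a parameter. -/
def yy : Par → ℝ
  | (Sum.inl _, σ) => σ
  | (Sum.inr (i, _), σ) => ppi i (min σ (rE i))

/-- Distance scale of a ray. -/
def wt (n : ℕ∞) : ℝ := if n = ⊤ then 0 else (1 / 2) ^ n.toNat

/-- Weights of the transversal position. -/
def gam (j : ℕ) (θ : ℝ) : ℝ := 1 / 8 * (1 / 4) ^ j * cl (θ - 1 / 4 + j)

/-- Transversal position of a word leaf at the real angle `θ`. -/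
def posT (τ : Word) (θ : ℝ) : ℝ := ∑' j : ℕ, gam j θ * (NB j τ : ℝ)

/-- The real angle of a parameter. -/
def th (p : Par) : ℝ := ang p.1 (yy p)

/-- Transversal position. -/
def pos : Par → ℝ
  | (Sum.inl τ, σ) => posT τ (ang (Sum.inl τ) σ)
  | (Sum.inr (i, n), σ) =>
      -(wt n / 4) * (1 - (((i : ℕ) : ℝ) + fold i (min σ (rE i)) / 8) / 10)

/-- The level function. -/
def bet (z : ℝ) : ℝ := Real.sigmoid z + 2 * max (-2) (min z 9)

/-- The parametrisation of the leaves. -/
def Phi (p : Par) : Cyl :=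
  (((th p : ℝ) : AddCircle (2 : ℝ)), bet (th p + pos p) + prof p.1 (yy p))

/-- The union of the leaves. -/
def DD : Set Cyl := range Phi

/-- The continuum. -/
def KS : Set Cyl := DD ∪ (WW false ∪ WW true)

/-- Same class of leaves. -/
def Sim (L L' : Leaf) : Prop := ∃ j0 : ℕ, ∀ j, j0 ≤ j → JJ j L = JJ j L'

/-- A leaf has the end `e`: every leaf has the inner end, word leaves have the outer end. -/
def HasEnd (e : Bool) (L : Leaf) : Prop := e = true → ∃ τ, L = Sum.inl τ

/-- Sign of an end. -/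
def sg (e : Bool) : ℤ := if e then 1 else -1

open Classical in
/-- A parameter of a point of the leaves. -/
def par (x : Cyl) : Par := if h : x ∈ DD then Classical.choose h else (J0, 0)

/-- Lap coordinate of a point. -/
def yc (x : Cyl) : ℝ := yy (par x)

/-- Real angle of a point. -/
def tc (x : Cyl) : ℝ := th (par x)

/-- Position of a point. -/
def pc (x : Cyl) : ℝ := pos (par x)

/-- Invariants of a point. -/
def Jc (j : ℕ) (x : Cyl) : ℤ := JJ j (par x).1

/-! The free map. -/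

/-- Parameter map on the ends. -/
def push (s : ℝ) : ℝ := max s (min (11 * s) (s + 10))

/-- Lap map in wiggle coordinates. -/
def lam (M M' : ℕ) (s : ℝ) : ℝ :=
  min (push s) (5 * M' - 1 - uu s + max (s - (5 * M - 1)) 0)

/-- Lap map with shift `d`. -/
def lap (L : Leaf) (d : ℤ) (y : ℝ) : ℝ :=
  (⌊y⌋ + d : ℤ) + lam (MM L ⌊y⌋) (MM (phi L) (⌊y⌋ + d)) (sc L y) / (5 * MM (phi L) (⌊y⌋ + d))

/-- Homotopy parameter of the gadget. -/
def pp (x t : ℝ) : ℝ := max (t * cl x) (cl (x - 3))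

/-- First lift of the gadget. -/
def G1 (x p : ℝ) : ℝ :=
  x + 1 + (3 - x) * cl (4 * p) + (4 * cl (x - 2) - 4) * cl (4 * p - 1)
    + (5 - 4 * cl (x - 2)) * cl (4 * p - 2) + (max (x + 1) 3 + 1) * cl (4 * p - 3)

/-- Second lift of the gadget. -/
def G2 (x p : ℝ) : ℝ :=
  x + 1 + (3 - x) * cl (4 * p) + 4 * cl (4 * p - 1)
    + ppi 3 (5 * cl (4 * p - 2) + 4 * cl (4 * p - 3))

/-- The map in the middle zone. -/
def mid (L : Leaf) (x t : ℝ) : ℝ :=
  match L with
  | Sum.inl τ => if dd τ = 1 then ppi 3 (G1 x (pp x t)) else 1 + x / 2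
  | Sum.inr (i, _) =>
      if i = 4 then G1 x (pp x t) else if i = 1 then G2 x (pp x t) else ppi 3 (G1 x (pp x t))

/-- Clamp to the middle zone. -/
def c4 (y : ℝ) : ℝ := max 0 (min y 4)

/-- The homotopy on parameters. -/
def Ft (p : Par) (t : ℝ) : Par :=
  (phi p.1, lap p.1 1 (min (yy p) 0) + (mid p.1 (c4 (yy p)) t - 1)
    + (lap p.1 (dd (base p.1)) (max (yy p) 4) - (4 + dd (base p.1))))

/-- Angle correction of the end map. -/
def Dang (r : ℝ) : ℝ :=
  max (3 * r) (min (33 * r - 10 * (1 - r)) (3 * r + 10 * (1 - r))) /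
    (max (3 * r) (min (33 * r - 10 * (1 - r)) (3 * r + 10 * (1 - r))) + 3 * (1 - r)) - r

/-- Profile correction of the end map. -/
def Dprof (r : ℝ) : ℝ :=
  uu (push (3 * min r (2 / 5) / (1 - min r (2 / 5)) - 1))
    - uu (3 * min r (2 / 5) / (1 - min r (2 / 5)) - 1)

end Pool.Agent.Lib.MP_3a0c72_gt.Bing
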