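import Pool.Agent.Lib.MP_3a0c72_gt.Bing.Rig

/-! Each end is collapsed or swapped. -/

set_option autoImplicit false

noncomputable section

open Set Filter Topology

namespace Pool.Agent.Lib.MP_3a0c72_gt.Bing

/-- The end `e` is collapsed into one class of leaves. -/
def Col (H : Cyl → Cyl) (e : Bool) : Prop :=
  ∃ (L0 : Leaf) (R : ℝ), ∀ L, HasEnd e L →
    (∀ σ, H (Phi (L, σ)) ∈ DD ∧ Sim (par (H (Phi (L, σ)))).1 L0) ∧
    ∃ y0 : ℝ, ∀ y, y0 ≤ (sg e : ℝ) * y → |yc (H (Phi (L, y)))| ≤ R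

lemma sg_sq_h13 (e : Bool) : sg e * sg e = 1 := by cases e <;> simp [sg]

lemma sg_sq_real_h13 (e : Bool) : (sg e : ℝ) * sg e = 1 := by exact_mod_cast sg_sq_h13 e

lemma hasEnd_J0 (e : Bool) : HasEnd e J0 := fun _ => ⟨w0, rfl⟩

lemma tail_preconn (e : Bool) (R : ℝ) : IsPreconnected {y : ℝ | R ≤ (sg e : ℝ) * y} := by
  cases e
  · have : {y : ℝ | R ≤ (sg false : ℝ) * y} = Iic (-R) := by
      ext y; simp [sg]; constructor <;> intro h <;> linarith
    rw [this]; exact isPreconnected_Iic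
  · have : {y : ℝ | R ≤ (sg true : ℝ) * y} = Ici R := by ext y; simp [sg]
    rw [this]; exact isPreconnected_Ici

lemma Free.contOn_om {H : Cyl → Cyl} (hH : Free H) (e : Bool) (k : ℤ) :
    ContinuousOn (fun s => H (om e k s)) (Ici (-2)) :=
  hH.cont.comp (continuous_om e k).continuousOn fun _ hs => om_mem_KS e k hs

lemma Free.maps_DD {H : Cyl → Cyl} (hH : Free H) {e : Bool} {k : ℤ} {s : ℝ} (hs : -2 ≤ s)
    (h : H (om e k s) ∈ DD) : MapsTo H (Wc e k) DD := by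
  rintro _ ⟨s', hs', rfl⟩
  exact path_DD isPreconnected_Ici (hH.contOn_om e k)
    (fun _ hs => hH.maps (om_mem_KS e k hs)) hs hs' h

lemma Free.maps_Wc {H : Cyl → Cyl} (hH : Free H) {e e' : Bool} {k a : ℤ} {s : ℝ} (hs : -2 ≤ s)
    (h : H (om e k s) ∈ Wc e' a) : MapsTo H (Wc e k) (Wc e' a) := by
  rintro _ ⟨s', hs', rfl⟩
  exact path_Wc isPreconnected_Ici (hH.contOn_om e k)
    (fun _ hs => hH.maps (om_mem_KS e k hs)) hs hs' h

lemma Free.bar_limit {H : Cyl → Cyl} (hH : Free H) {e : Bool} {k : ℤ} {C : Set Cyl}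
    (hC : IsClosed C) (h : MapsTo H (Wc e k) C) : H (om e (k + 1) (-1)) ∈ C := by
  rw [← hC.closure_eq, Metric.mem_closure_iff]
  intro ε hε
  obtain ⟨δ, hδ, hu⟩ := hH.unif hε
  obtain ⟨S, hS0, hS⟩ := thl_large hδ
  obtain ⟨m, hm⟩ := exists_nat_ge S
  have hm0 : (0 : ℝ) ≤ m := Nat.cast_nonneg m
  have h1 : uu (5 * m) = 0 := by
    have := uu_add_int 0 m
    rw [zero_add, uu_eq_zero (s := 0) (by norm_num) (by norm_num)] at this
    exact_mod_cast this
  have h2 := dist_om_bar e k (5 * m)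
  rw [h1, sub_zero] at h2
  refine ⟨H (om e k (5 * m)), h (om_mem_Wc e k (by linarith)), ?_⟩
  rw [dist_comm]
  exact hu _ (om_mem_KS e k (by linarith)) _ (om_mem_KS e _ (by norm_num))
    (h2.trans_lt (hS _ (by linarith)))

lemma Free.marker_close {H : Cyl → Cyl} (hH : Free H) {e : Bool} {L : Leaf} (hL : HasEnd e L)
    (k : ℤ) {ε : ℝ} (hε : 0 < ε) (y0 : ℝ) :
    ∃ y, y0 ≤ (sg e : ℝ) * y ∧ dist (H (Phi (L, y))) (H (om e k 0)) < ε := by
  obtain ⟨δ, hδ, hu⟩ := hH.unif hε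
  obtain ⟨k0, hk0⟩ := shadow hδ
  obtain ⟨m, hm⟩ := exists_nat_ge y0
  have hs := sg_sq_h13 e
  have h1 : ((k0 + m : ℕ) : ℤ) ≤ sg e * (k + 2 * (sg e * ((k0 + m + k.natAbs : ℕ) : ℤ))) := by
    have h0 := Int.natAbs_eq k
    generalize k.natAbs = u at h0 ⊢
    cases e <;> simp only [sg] <;> simp <;> omega
  set k' := k + 2 * (sg e * ((k0 + m + k.natAbs : ℕ) : ℤ)) with hk'
  have hM : (1 : ℝ) ≤ MM L k' := by exact_mod_cast one_le_MM L k'
  have h2 := (hk0 e L k' hL (le_trans (by push_cast; omega) h1) 0 ⟨le_rfl, by linarith⟩).1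
    (by linarith)
  have h3 : Bing.mk L k' 0 = k' := by simp [Bing.mk]
  rw [h3, hk', om_add_two_mul, ← hk'] at h2
  refine ⟨k', ?_, hu _ (Phi_mem_KS _) _ (om_mem_KS e k (by norm_num)) h2⟩
  have h4 : (((k0 + m : ℕ) : ℤ) : ℝ) ≤ ((sg e * k' : ℤ) : ℝ) := by exact_mod_cast h1
  push_cast at h4
  have : (0 : ℝ) ≤ k0 := Nat.cast_nonneg k0
  linarith

lemma Free.marker_limit {H : Cyl → Cyl} (hH : Free H) {e : Bool} {L : Leaf} (hL : HasEnd e L)
    (k : ℤ) {C : Set Cyl} (hC : IsClosed C) {y0 : ℝ}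
    (h : ∀ y, y0 ≤ (sg e : ℝ) * y → H (Phi (L, y)) ∈ C) : H (om e k 0) ∈ C := by
  rw [← hC.closure_eq, Metric.mem_closure_iff]
  intro ε hε
  obtain ⟨y, hy, hd⟩ := hH.marker_close hL k hε y0
  exact ⟨_, h y hy, by rwa [dist_comm]⟩

lemma Free.near_image {H : Cyl → Cyl} (hH : Free H) {ε : ℝ} (hε : 0 < ε) :
    ∃ R : ℝ, 0 < R ∧ ∀ (e : Bool) (L : Leaf), HasEnd e L → ∀ y, R ≤ (sg e : ℝ) * y →
      ∃ w ∈ WW e, dist (H (Phi (L, y))) (H w) < ε := by
  obtain ⟨δ, hδ, hu⟩ := hH.unif hε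
  obtain ⟨R, hR0, hR⟩ := near_end hδ
  refine ⟨R, hR0, fun e L hL y hy => ?_⟩
  obtain ⟨w, hw, hd⟩ := hR e (L, y) (by rw [yy_of_hasEnd hL (by linarith)]; exact hy)
  exact ⟨w, hw, hu _ (Phi_mem_KS _) _ (WW_subset_KS e hw) hd⟩

lemma Free.J0_mem_DD {H : Cyl → Cyl} (hH : Free H) (σ : ℝ) : H (Phi (J0, σ)) ∈ DD := by
  rcases mem_KS_cases (hH.maps (Phi_mem_KS (J0, σ))) with h | ⟨e, h⟩
  · exact h
  exfalso
  obtain ⟨c, hc⟩ := mem_iUnion.1 h
  have h1 : ∀ y, H (Phi (J0, y)) ∈ WW e := fun y => Wc_subset_WW e c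
    (path_Wc isPreconnected_univ (hH.cont_leaf J0).continuousOn
      (fun x _ => hH.maps (Phi_mem_KS _)) (mem_univ σ) (mem_univ y) hc)
  have h2 : ∀ k : ℤ, MapsTo H (Wc e k) (Wc e (1 + k)) := by
    intro k
    have h3 := hH.marker_limit (hasEnd_J0 e) k (isClosed_WW e) (y0 := 0) fun y _ => h1 y
    rcases mem_Wc_or h3 k with h4 | h4
    · exact absurd (hH.maps_Wc (by norm_num) h4) (hH.not_self e k)
    · rw [add_comm]
      exact hH.maps_Wc (by norm_num) h4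
  obtain ⟨s0, S, k0, hE⟩ := rig hH h2
  exact notMem_WW_of_DD (hE.inD J0 (hasEnd_J0 e) σ) e h

lemma Free.not_one_comp {H : Cyl → Cyl} (hH : Free H) {e e' : Bool} {a : ℤ}
    (h : MapsTo H (WW e) (Wc e' a)) : False := by
  obtain ⟨R, -, hR⟩ := hH.near_image (ε := 1 / 2) (by norm_num)
  set α : ℝ := a + 3 / 2 with hα
  have hav : ∀ y ∈ {y : ℝ | R ≤ (sg e : ℝ) * y}, ∀ m : ℤ, tc (H (Phi (J0, y))) ≠ α + 2 * m := by
    intro y hy m hm
    obtain ⟨w, hw, hd⟩ := hR e J0 (hasEnd_J0 e) y hy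
    obtain ⟨s, -, hs⟩ := h hw
    have h1 : dist (H (Phi (J0, y))).1 (H w).1 < 1 / 2 := by
      rw [Prod.dist_eq] at hd
      exact (le_max_left _ _).trans_lt hd
    rw [fst_eq_tc (hH.J0_mem_DD y), ← hs] at h1
    obtain ⟨m', hm'⟩ := exists_int_of_dist_lt h1
    rw [hm, hα, abs_lt] at hm'
    have h2 := thl_nonneg s
    have h3 := thl_lt_one s
    have h4 : ((-1 : ℤ) : ℝ) < ((m - m' : ℤ) : ℝ) := by push_cast; linarith [hm'.1]
    have h5 : ((m - m' : ℤ) : ℝ) < ((0 : ℤ) : ℝ) := by push_cast; linarith [hm'.2]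
    have h6 : (-1 : ℤ) < m - m' := by exact_mod_cast h4
    have h7 : m - m' < 0 := by exact_mod_cast h5
    omega
  have ha : (sg e : ℝ) * R ∈ {y : ℝ | R ≤ (sg e : ℝ) * y} := by
    show R ≤ (sg e : ℝ) * (sg e * R)
    rw [← mul_assoc, sg_sq_real_h13, one_mul]
  set T := tc (H (Phi (J0, (sg e : ℝ) * R))) with hT
  have h1 : α + 2 * (⌊(T - α) / 2⌋ : ℤ) < T := by
    have h2 := Int.floor_le ((T - α) / 2)
    exact lt_of_le_of_ne (by linarith) (hav _ ha _).symm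
  have h2 : T < α + 2 * (⌊(T - α) / 2⌋ : ℤ) + 2 := by
    have h2 := Int.lt_floor_add_one ((T - α) / 2)
    linarith
  obtain ⟨C, hC, hCD, hCm⟩ :=
    isCompact_tc_band (α + 2 * (⌊(T - α) / 2⌋ : ℤ)) (α + 2 * (⌊(T - α) / 2⌋ : ℤ) + 2)
  have h3 := hH.marker_limit (hasEnd_J0 e) 0 hC.isClosed (y0 := R) fun y hy => by
    have := path_angle (tail_preconn e R) (hH.cont_leaf J0).continuousOn
      (fun x _ => hH.J0_mem_DD x) hav ha hy h1 h2
    exact hCm _ (hH.J0_mem_DD y) this.1.le this.2.le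
  exact notMem_WW_of_DD (hCD h3) e'
    (Wc_subset_WW _ _ (h (Wc_subset_WW e 0 (om_mem_Wc e 0 (by norm_num)))))

lemma Free.col {H : Cyl → Cyl} (hH : Free H) {e : Bool} (h : MapsTo H (WW e) DD) : Col H e := by
  have hC : IsCompact (H '' WW e) :=
    (isCompact_WW e).image_of_continuousOn (hH.cont.mono (WW_subset_KS e))
  have hCD : H '' WW e ⊆ DD := by
    rintro _ ⟨w, hw, rfl⟩
    exact h hw
  have hyc : ContinuousOn yc (H '' WW e) := fun x hx =>
    (continuousWithinAt_yc (hCD hx)).mono (hCD.trans DD_subset_KS)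
  obtain ⟨R0, hR0⟩ := hC.exists_bound_of_continuousOn hyc
  let Z : Set Cyl := (Phi '' {p | R0 + 1 ≤ (sg false : ℝ) * yy p} ∪ WW false) ∪
    (Phi '' {p | R0 + 1 ≤ (sg true : ℝ) * yy p} ∪ WW true)
  have hZ : IsClosed Z := (isClosed_deep false _).union (isClosed_deep true _)
  have hsub : H '' WW e ⊆ Zᶜ := by
    intro x hx hxZ
    have h1 := abs_le.1 (hR0 x hx)
    rcases hxZ with (⟨p, hp, rfl⟩ | h2) | (⟨p, hp, rfl⟩ | h2)
    · rw [yc_Phi] at h1
      simp [sg] at hp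
      linarith [h1.1]
    · exact notMem_WW_of_DD (hCD hx) _ h2
    · rw [yc_Phi] at h1
      simp [sg] at hp
      linarith [h1.2]
    · exact notMem_WW_of_DD (hCD hx) _ h2
  obtain ⟨δ, hδ, hth⟩ := hC.exists_thickening_subset_open hZ.isOpen_compl hsub
  obtain ⟨R, -, hR⟩ := hH.near_image hδ
  have hw0 : om e 0 0 ∈ WW e := Wc_subset_WW e 0 (om_mem_Wc e 0 (by norm_num))
  refine ⟨(par (H (om e 0 0))).1, R0 + 1, fun L hL => ?_⟩
  have htail : ∀ y, R ≤ (sg e : ℝ) * y →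
      H (Phi (L, y)) ∈ DD ∧ |yc (H (Phi (L, y)))| < R0 + 1 := by
    intro y hy
    obtain ⟨w, hw, hd⟩ := hR e L hL y hy
    have h1 : H (Phi (L, y)) ∉ Z :=
      hth (Metric.mem_thickening_iff.2 ⟨H w, mem_image_of_mem H hw, hd⟩)
    rcases mem_KS_cases (hH.maps (Phi_mem_KS (L, y))) with ⟨p, hp⟩ | ⟨e', h2⟩
    · refine ⟨⟨p, hp⟩, ?_⟩
      rw [← hp] at h1 ⊢
      rw [yc_Phi, abs_lt]
      constructor
      · by_contra h3
        refine h1 (Or.inl (Or.inl ⟨p, ?_, rfl⟩))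
        simp [sg]
        linarith
      · by_contra h3
        refine h1 (Or.inr (Or.inl ⟨p, ?_, rfl⟩))
        simp [sg]
        linarith
    · exfalso
      cases e'
      · exact h1 (Or.inl (Or.inr h2))
      · exact h1 (Or.inr (Or.inr h2))
  have ha : (sg e : ℝ) * R ∈ {y : ℝ | R ≤ (sg e : ℝ) * y} := by
    show R ≤ (sg e : ℝ) * (sg e * R)
    rw [← mul_assoc, sg_sq_real_h13, one_mul]
  have hall : ∀ σ, H (Phi (L, σ)) ∈ DD := fun σ =>
    path_DD isPreconnected_univ (hH.cont_leaf L).continuousOn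
      (fun x _ => hH.maps (Phi_mem_KS _)) (mem_univ _) (mem_univ σ) (htail _ ha).1
  refine ⟨fun σ => ⟨hall σ, ?_⟩, R, fun y hy => (htail y hy).2.le⟩
  refine (path_sim isPreconnected_univ (hH.cont_leaf L).continuousOn (fun x _ => hall x)
    (mem_univ σ) (mem_univ ((sg e : ℝ) * R))).trans ?_
  obtain ⟨j0, hj0⟩ := exists_nat_ge (R0 + 1)
  refine ⟨j0, fun j hj => ?_⟩
  have hj' : (j0 : ℝ) ≤ j := by exact_mod_cast hj
  have h1 : ContinuousWithinAt (Jc j) KS (H (om e 0 0)) := by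
    refine continuousWithinAt_Jc (h hw0) ?_
    have := (abs_le.1 (hR0 _ (mem_image_of_mem H hw0))).1
    linarith
  have h2 : ∀ᶠ x in 𝓝[KS] (H (om e 0 0)), Jc j x = Jc j (H (om e 0 0)) :=
    h1.tendsto.eventually (p := fun z => z = Jc j (H (om e 0 0))) (by simp)
  obtain ⟨ε, hε, h3⟩ := Metric.mem_nhdsWithin_iff.1 h2
  obtain ⟨y, hy, hd⟩ := hH.marker_close hL 0 hε R
  have h4 : Jc j (H (Phi (L, y))) = Jc j (H (om e 0 0)) :=
    h3 ⟨hd, hH.maps (Phi_mem_KS _)⟩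
  have h5 := path_Jc (tail_preconn e R) (hH.cont_leaf L).continuousOn (j := j)
    (fun x hx => ⟨(htail x hx).1, by linarith [(abs_lt.1 (htail x hx).2).1]⟩) ha hy
  exact h5.trans h4

lemma dich {H : Cyl → Cyl} (hH : Free H) (e : Bool) :
    Col H e ∨ ∃ s0 S k0, Ess H e s0 S k0 := by
  have hcomp : ∀ k : ℤ, MapsTo H (Wc e k) DD ∨ ∃ e' a, MapsTo H (Wc e k) (Wc e' a) := by
    intro k
    rcases mem_KS_cases (hH.maps (om_mem_KS e k (s := 0) (by norm_num))) with h | ⟨e', h⟩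
    · exact Or.inl (hH.maps_DD (by norm_num) h)
    · obtain ⟨a, ha⟩ := mem_iUnion.1 h
      exact Or.inr ⟨e', a, hH.maps_Wc (by norm_num) ha⟩
  by_cases hD : ∃ k, MapsTo H (Wc e k) DD
  · left
    obtain ⟨k, hk⟩ := hD
    have h1 : MapsTo H (Wc e (k - 1)) DD := by
      rcases hcomp (k - 1) with h | ⟨e', a, h⟩
      · exact h
      · have h2 := hH.bar_limit (isClosed_WW e') (h.mono_right (Wc_subset_WW e' a))
        rw [sub_add_cancel] at h2
        exact absurd h2 (notMem_WW_of_DD (hk (om_mem_Wc e k (by norm_num))) e')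
    refine hH.col fun w hw => ?_
    rcases mem_Wc_or hw (k - 1) with h | h
    · exact h1 h
    · rw [sub_add_cancel] at h
      exact hk h
  right
  obtain ⟨e0, a0, h0⟩ := (hcomp 0).resolve_left fun h => hD ⟨0, h⟩
  obtain ⟨e1, a1, h1⟩ := (hcomp 1).resolve_left fun h => hD ⟨1, h⟩
  have h2 := hH.bar_limit (isClosed_WW e0) (h0.mono_right (Wc_subset_WW e0 a0))
  rw [zero_add] at h2
  have h3 := h1 (om_mem_Wc e 1 (s := -1) (by norm_num))
  obtain rfl : e0 = e1 := by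
    have h4 := Wc_subset_WW _ _ h3
    cases e0 <;> cases e1
    · rfl
    · linarith [(snd_of_WW_false h2).2, (snd_of_WW_true h4).1]
    · linarith [(snd_of_WW_false h4).2, (snd_of_WW_true h2).1]
    · rfl
  rcases Int.even_or_odd' (a1 - a0) with ⟨m, hm | hm⟩
  · exfalso
    have h4 : a1 = a0 + 2 * m := by omega
    rw [h4, Wc_add_two_mul] at h1
    refine hH.not_one_comp (e := e) (e' := e0) (a := a0) fun w hw => ?_
    rcases mem_Wc_or hw 0 with h | h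
    · exact h0 h
    · exact h1 h
  · have h4 : a1 = a0 + 1 + 2 * m := by omega
    rw [h4, Wc_add_two_mul] at h1
    refine rig hH (e' := e0) (a := a0) fun k => ?_
    rcases Int.even_or_odd' k with ⟨n, rfl | rfl⟩
    · rw [Wc_add_two_mul]
      have := Wc_add_two_mul e 0 n
      rw [zero_add] at this
      rwa [this]
    · have h5 := Wc_add_two_mul e 1 n
      have h6 := Wc_add_two_mul e0 (a0 + 1) n
      rw [show 2 * n + 1 = 1 + 2 * n by ring, h5, show a0 + (1 + 2 * n) = a0 + 1 + 2 * n by ring, h6]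
      exact h1

lemma Ess.mk_mem {H : Cyl → Cyl} {e : Bool} {s0 S : ℝ} {k0 : ℕ} (hE : Ess H e s0 S k0) (L : Leaf)
    {k : ℤ} (hk : (k0 : ℤ) ≤ sg e * k + 1) :
    (k : ℝ) ≤ Bing.mk L k s0 ∧ Bing.mk L k s0 ≤ k + 1 := by
  refine Pool.Agent.Lib.MP_3a0c72_gt.Bing.mk_mem L k ⟨hE.s0_nonneg, ?_⟩
  have h1 := hE.s0_le k hk
  have h2 : (NN k : ℝ) ≤ MM L k := by exact_mod_cast NN_le_MM L k
  linarith

lemma Ess.tail {H : Cyl → Cyl} {e : Bool} {s0 S : ℝ} {k0 : ℕ} (hE : Ess H e s0 S k0) {L : Leaf}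
    {n : ℤ} (hn : ShiftBy H e s0 S k0 L n) {y : ℝ} (hy : (k0 : ℝ) + 2 ≤ (sg e : ℝ) * y) :
    y + n - 5 < yc (H (Phi (L, y))) ∧ yc (H (Phi (L, y))) < y + n + 3 := by
  have hf1 := Int.floor_le y
  have hf2 := Int.lt_floor_add_one y
  have hk : (k0 : ℤ) + 1 ≤ sg e * ⌊y⌋ ∧ (k0 : ℤ) ≤ sg e * (⌊y⌋ - 1) ∧
      (k0 : ℤ) ≤ sg e * (⌊y⌋ + 1) + 1 := by
    cases e
    · simp only [sg] at hy ⊢
      have h1 : (⌊y⌋ : ℝ) ≤ ((-(k0 : ℤ) - 2 : ℤ) : ℝ) := by
        push_cast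
        simp at hy
        linarith
      have h2 : ⌊y⌋ ≤ -(k0 : ℤ) - 2 := by exact_mod_cast h1
      simp
      omega
    · simp only [sg] at hy ⊢
      have h2 : (k0 : ℤ) + 2 ≤ ⌊y⌋ := Int.le_floor.2 (by push_cast; simpa using hy)
      simp
      omega
  have hb := tc_bounds (H (Phi (L, y)))
  rcases le_total (Bing.mk L ⌊y⌋ s0) y with h | h
  · have h1 := (hE.mk_mem L hk.2.2).1
    have h2 := (hn ⌊y⌋ (by omega)).2.2 y ⟨h, by push_cast at h1; linarith⟩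
    push_cast at h2
    constructor <;> linarith [h2.1, h2.2, hb.1, hb.2]
  · have h1 := (hE.mk_mem L (k := ⌊y⌋ - 1) (by omega)).2
    have h2 := (hn (⌊y⌋ - 1) hk.2.1).2.2 y ⟨by push_cast at h1; linarith, by rwa [sub_add_cancel]⟩
    push_cast at h2
    constructor <;> linarith [h2.1, h2.2, hb.1, hb.2]

lemma ShiftBy.yc_mk {H : Cyl → Cyl} {e : Bool} {s0 S : ℝ} {k0 : ℕ} {L : Leaf} {n : ℤ}
    (hn : ShiftBy H e s0 S k0 L n) {k : ℤ} (hk : (k0 : ℤ) ≤ sg e * k) :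
    (k : ℝ) + n < yc (H (Phi (L, mk L k s0))) ∧ yc (H (Phi (L, mk L k s0))) < k + n + 1 := by
  obtain ⟨h1, h2, -⟩ := hn k hk
  have h3 := (lt_ang_iff _ (k + n) _).1 h1
  have h4 := (ang_lt_iff (par (H (Phi (L, mk L k s0)))).1 (k + n + 1)
    (yc (H (Phi (L, mk L k s0))))).1 (by
      have := thl_lt_one S
      push_cast at h2 ⊢
      exact lt_trans h2 (by linarith))
  push_cast at h3 h4
  exact ⟨h3, h4⟩

lemma shift_unique {H : Cyl → Cyl} {e : Bool} {s0 S : ℝ} {k0 : ℕ} {L L' : Leaf} {n n' : ℤ}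
    (hn : ShiftBy H e s0 S k0 L n) (hn' : ShiftBy H e s0 S k0 L' n') {k : ℤ}
    (hk : (k0 : ℤ) ≤ sg e * k) (h : Phi (L, mk L k s0) = Phi (L', mk L' k s0)) : n = n' := by
  have h1 := hn.yc_mk hk
  have h2 := hn'.yc_mk hk
  rw [h] at h1
  have h3 : (n : ℝ) < ((n' + 1 : ℤ) : ℝ) := by push_cast; linarith [h1.1, h2.2]
  have h4 : (n' : ℝ) < ((n + 1 : ℤ) : ℝ) := by push_cast; linarith [h1.2, h2.1]
  have h5 : n < n' + 1 := by exact_mod_cast h3
  have h6 : n' < n + 1 := by exact_mod_cast h4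
  omega

lemma ess_lo {H : Cyl → Cyl} (hH : Free H) {s0 S : ℝ} {k0 : ℕ} (hE : Ess H false s0 S k0) :
    ∃ jf : Leaf → ℤ, Continuous jf ∧ (∀ L, Odd (jf L)) ∧
      (∀ τ g, jf (Sum.inl (gapW τ g false)) = jf (Sum.inl (gapW τ g true))) ∧
      (∀ i, jf (Sum.inr (i, ⊤)) = jf J0) ∧
      (∀ L L', Sim (par (H (Phi (L, 0)))).1 L' → Prog L L' (jf L)) ∧
      (∀ L, 0 < jf L → ∀ b : ℝ, ∃ y ≤ b, y < yc (H (Phi (L, y))) ∧
        yc (H (Phi (L, y))) < y + jf L + 1) := by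
  have hlo : ∀ L : Leaf, HasEnd false L := fun L h => absurd h (by simp)
  choose jf hodd hsh using fun L => hE.shift L (hlo L)
  have hsg : ∀ k : ℤ, sg false * k = -k := fun k => by simp [sg]
  have hsgr : ∀ y : ℝ, (sg false : ℝ) * y = -y := fun y => by simp [sg]
  have hglue : ∀ (L L' : Leaf) (g : ℕ), (∀ j, g < j → JJ j L = JJ j L') → jf L = jf L' := by
    intro L L' g hJ
    have hk8 := hE.k0_ge
    set k : ℤ := -((k0 + g + 1 : ℕ) : ℤ) with hk
    have hk1 : (k0 : ℤ) ≤ sg false * k := by rw [hsg]; omega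
    refine shift_unique (hsh L) (hsh L') hk1 ?_
    have h1 : MM L k = MM L' k := by
      refine MM_eq_of_iota ?_
      simp only [iota, if_pos (show k < 0 by omega)]
      exact hJ _ (by omega)
    have h2 : mk L k s0 = mk L' k s0 := by simp only [mk, h1]
    have h3 := (hE.mk_mem L (k := k) (by omega)).2
    have h4 : (k : ℝ) = -((k0 : ℝ) + g + 1) := by rw [hk]; push_cast; ring
    have h5 : (0 : ℝ) ≤ k0 := Nat.cast_nonneg _
    have h6 : (0 : ℝ) ≤ g := Nat.cast_nonneg _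
    have h7 : (8 : ℝ) ≤ k0 := by exact_mod_cast hk8
    rw [← h2]
    refine Phi_glue (by linarith) fun j hj => hJ j ?_
    have : (g : ℝ) < j := by linarith
    exact_mod_cast this
  refine ⟨jf, ?_, hodd, fun τ g => hglue _ _ g fun j hj => ?_, fun i => hglue _ _ 0 fun j _ => ?_,
    fun L L' hs => ?_, fun L hpos b => ?_⟩
  · have hk1 : (k0 : ℤ) ≤ sg false * (-(k0 : ℤ)) := by rw [hsg]; omega
    have hY : Continuous fun L : Leaf => yc (H (Phi (L, mk L (-(k0 : ℤ)) s0))) := by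
      refine continuous_iff_continuousAt.2 fun L => ?_
      have h1 : Continuous fun L : Leaf => H (Phi (L, mk L (-(k0 : ℤ)) s0)) :=
        hH.cont_par.comp (continuous_id.prodMk (continuous_mk _ _))
      exact continuousWithinAt_univ _ _ |>.1 <|
        (continuousWithinAt_yc (hE.inD L (hlo L) _)).comp (f := fun L : Leaf =>
          H (Phi (L, mk L (-(k0 : ℤ)) s0))) h1.continuousWithinAt
          fun L' _ => hH.maps (Phi_mem_KS _)
    refine continuous_iff_continuousAt.2 fun L => ?_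
    refine (continuousAt_const (y := jf L)).congr ?_
    have h1 := (hsh L).yc_mk hk1
    filter_upwards [hY.continuousAt.eventually (Ioo_mem_nhds h1.1 h1.2)] with L' hL'
    have h2 := (hsh L').yc_mk hk1
    have h3 : (jf L : ℝ) < ((jf L' + 1 : ℤ) : ℝ) := by push_cast; linarith [hL'.1, h2.2]
    have h4 : (jf L' : ℝ) < ((jf L + 1 : ℤ) : ℝ) := by push_cast; linarith [hL'.2, h2.1]
    have h5 : jf L < jf L' + 1 := by exact_mod_cast h3
    have h6 : jf L' < jf L + 1 := by exact_mod_cast h4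
    omega
  · simp only [JJ]
    rw [NB_gap τ hj]
  · rw [JJ_top, JJ_J0]
  · obtain ⟨g, hg⟩ := sim_level L'
    obtain ⟨lm, k2, hc⟩ := cnt hH hE (hlo L) (hlo L') (hsh L)
      (y1 := (k0 : ℝ) + 2 + |(jf L : ℝ)| + g + 3) fun y hy => by
        have ha := le_abs_self (jf L : ℝ)
        have ha0 := abs_nonneg (jf L : ℝ)
        have hg0 : (0 : ℝ) ≤ g := Nat.cast_nonneg _
        have hk0 : (0 : ℝ) ≤ k0 := Nat.cast_nonneg _
        have h1 := (hE.tail (hsh L) (y := y) (by linarith)).2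
        rw [hsgr] at hy
        have hD := hE.inD L (hlo L) y
        have h2 : Sim (par (H (Phi (L, y)))).1 L' :=
          (path_sim isPreconnected_univ (hH.cont_leaf L).continuousOn
            (fun x _ => hE.inD L (hlo L) x) (mem_univ y) (mem_univ 0)).trans hs
        have h3 : yy (par (H (Phi (L, y)))) < 0 := by
          show yc (H (Phi (L, y))) < 0
          linarith
        refine (Phi_par hD).symm.trans ((Phi_of_neg h3).trans (Phi_glue h3.le fun j hj => ?_))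
        refine hg _ h2 j ?_
        have h4 : -(j : ℝ) < yc (H (Phi (L, y))) := hj
        have : (g : ℝ) ≤ j := by linarith
        exact_mod_cast this
    exact prog_of_count (k0 := k2) fun k hk => hc k (by rw [hsg]; omega)
  · set k : ℤ := min (-(k0 : ℤ)) (⌊b⌋ - 1) with hk
    have hk1 : (k0 : ℤ) ≤ sg false * k := by rw [hsg]; omega
    have h1 := hE.mk_mem L (k := k) (by omega)
    have h2 := (hsh L).yc_mk hk1
    have h3 : (k : ℝ) ≤ ((⌊b⌋ - 1 : ℤ) : ℝ) := by exact_mod_cast min_le_right _ _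
    have h4 := Int.floor_le b
    have h5 : (1 : ℝ) ≤ jf L := by exact_mod_cast hpos
    push_cast at h3
    exact ⟨mk L k s0, by linarith [h1.2], by linarith [h1.2, h2.1], by linarith [h1.1, h2.2]⟩

lemma ess_hi {H : Cyl → Cyl} (hH : Free H) {s0 S : ℝ} {k0 : ℕ} (hE : Ess H true s0 S k0)
    (τ : Word) : ∃ (τ' : Word) (n : ℤ), Odd n ∧
      Sim (par (H (Phi (Sum.inl τ, 0)))).1 (Sum.inl τ') ∧
      (∃ lm k2 : ℕ, ∀ k : ℤ, (k2 : ℤ) ≤ k →
        MM (Sum.inl τ') (k + n) ≤ lm * (MM (Sum.inl τ) k + 1)) ∧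
      (n < 0 → ∀ b : ℝ, ∃ y, b ≤ y ∧ yc (H (Phi (Sum.inl τ, y))) < y) := by
  have hhi : ∀ τ : Word, HasEnd true (Sum.inl τ) := fun τ _ => ⟨τ, rfl⟩
  obtain ⟨n, hodd, hsh⟩ := hE.shift _ (hhi τ)
  have hsg : ∀ k : ℤ, sg true * k = k := fun k => by simp [sg]
  have hsgr : ∀ y : ℝ, (sg true : ℝ) * y = y := fun y => by simp [sg]
  have hD := hE.inD _ (hhi τ)
  set y1 : ℝ := (k0 : ℝ) + 2 + |(n : ℝ)| + 12 with hy1
  have hdeep : ∀ y, y1 ≤ y → 6 < yc (H (Phi (Sum.inl τ, y))) := by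
    intro y hy
    have ha := neg_abs_le (n : ℝ)
    have ha0 := abs_nonneg (n : ℝ)
    have hk0 : (0 : ℝ) ≤ k0 := Nat.cast_nonneg _
    have h1 := (hE.tail hsh (y := y) (by rw [hsgr]; linarith)).1
    linarith
  have hword : ∀ y, y1 ≤ y → ∃ τ', par (H (Phi (Sum.inl τ, y))) =
      (Sum.inl τ', yc (H (Phi (Sum.inl τ, y)))) := by
    intro y hy
    have h1 := hdeep y hy
    unfold yc at h1 ⊢
    generalize par (H (Phi (Sum.inl τ, y))) = p at h1 ⊢
    rcases p with ⟨τ' | ⟨i, m⟩, σ⟩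
    · exact ⟨τ', rfl⟩
    · linarith [yy_ray_le i m σ]
  obtain ⟨τ', hτ'⟩ := hword y1 le_rfl
  refine ⟨τ', n, hodd, ?_, ?_, fun hneg b => ?_⟩
  · have := path_sim isPreconnected_univ (hH.cont_leaf (Sum.inl τ)).continuousOn
      (fun x _ => hD x) (mem_univ 0) (mem_univ y1)
    rwa [hτ'] at this
  · obtain ⟨lm, k2, hc⟩ := cnt hH hE (hhi τ) (hhi τ') hsh (y1 := y1) fun y hy => by
      rw [hsgr] at hy
      obtain ⟨τ'', hτ''⟩ := hword y hy
      obtain rfl : τ'' = τ' := by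
        funext j
        refine bit_eq_of_NB_eq ?_
        have h1 := path_Jc isPreconnected_Ici (hH.cont_leaf (Sum.inl τ)).continuousOn (j := j)
          (fun x (hx : x ∈ Ici y1) => ⟨hD x, by
            have := hdeep x hx
            have : (0 : ℝ) ≤ j := Nat.cast_nonneg _
            linarith⟩) (a := y) (b := y1) hy (mem_Ici.2 le_rfl)
        simp only [Jc] at h1
        rw [hτ', hτ''] at h1
        simpa [JJ] using h1
      rw [← hτ'']
      exact (Phi_par (hD y)).symm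
    exact ⟨lm, k2, fun k hk => hc k (by rw [hsg]; exact hk)⟩
  · set k : ℤ := max (k0 : ℤ) ⌈b⌉ with hk
    have hk1 : (k0 : ℤ) ≤ sg true * k := by rw [hsg]; omega
    have h1 := hE.mk_mem (Sum.inl τ) (k := k) (by omega)
    have h2 := hsh.yc_mk hk1
    have h3 : ((⌈b⌉ : ℤ) : ℝ) ≤ k := by exact_mod_cast le_max_right _ _
    have h4 := Int.le_ceil b
    have h5 : (n : ℝ) ≤ ((-1 : ℤ) : ℝ) := by exact_mod_cast (by omega : n ≤ -1)
    push_cast at h5
    exact ⟨mk (Sum.inl τ) k s0, by linarith [h1.1], by linarith [h1.1, h2.2]⟩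

end Pool.Agent.Lib.MP_3a0c72_gt.Bing
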