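import Pool.Agent.Lib.MP_3a0c72_gt.Bing.Final

/-! The planar continuum has empty interior, hence covering dimension one. -/

set_option autoImplicit false

noncomputable section

open Set Filter Topology

namespace Pool.Agent.Lib.MP_3a0c72_gt.Bing

lemma near_h47 {η u : ℝ} (hη : η ≤ 1 / 4) {a a' : ℤ} (ha : a - η < u ∧ u < a + 1 + η)
    (ha' : a' - η < u ∧ u < a' + 1 + η) :
    a = a' ∨ ((a' = a + 1 ∨ a = a' + 1) ∧ ‖(u : UnitAddCircle)‖ < η) := by
  have key : ∀ c c' : ℤ, c < c' → u < c + 1 + η → c' - η < u →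
      c' = c + 1 ∧ ‖(u : UnitAddCircle)‖ < η := by
    intro c c' hcc h1 h2
    have h3 : (c' : ℝ) < ((c + 2 : ℤ) : ℝ) := by
      push_cast
      linarith
    have h4 : c' = c + 1 := by
      have := Int.cast_lt.1 h3
      omega
    refine ⟨h4, ?_⟩
    rw [UnitAddCircle.norm_eq]
    refine (round_le u c').trans_lt ?_
    rw [h4] at h2 ⊢
    push_cast at h2 ⊢
    rw [abs_lt]
    constructor <;> linarith
  rcases lt_trichotomy a a' with h | h | h
  · obtain ⟨h1, h2⟩ := key a a' h ha.2 ha'.1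
    exact Or.inr ⟨Or.inl h1, h2⟩
  · exact Or.inl h
  · obtain ⟨h1, h2⟩ := key a' a h ha'.2 ha.1
    exact Or.inr ⟨Or.inr h1, h2⟩

lemma dist_le_h47 (x y : EuclideanSpace ℝ (Fin 2)) : dist x y ≤ |x 0 - y 0| + |x 1 - y 1| := by
  rw [EuclideanSpace.dist_eq, Fin.sum_univ_two, Real.dist_eq, Real.dist_eq]
  refine Real.sqrt_le_iff.2 ⟨by positivity, ?_⟩
  nlinarith [abs_nonneg (x 0 - y 0), abs_nonneg (x 1 - y 1)]

/-- A compact plane set with empty interior has covering dimension at most one. -/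
theorem dim_le_one {K : Set (EuclideanSpace ℝ (Fin 2))} (hK : IsCompact K)
    (hi : interior K = ∅) (n : ℕ) (U : Fin n → Set K) (hU : ∀ i, IsOpen (U i))
    (hc : (⋃ i, U i) = univ) :
    ∃ (m : ℕ) (V : Fin m → Set K), (∀ j, IsOpen (V j)) ∧ (⋃ j, V j) = univ ∧
      (∀ j, ∃ i, V j ⊆ U i) ∧
      ∀ (x : K) (a b c : Fin m), x ∈ V a → x ∈ V b → x ∈ V c → a = b ∨ a = c ∨ b = c := by
  classical
  have : CompactSpace K := isCompact_iff_compactSpace.1 hK
  obtain ⟨δ, hδ, hL⟩ := lebesgue_number_lemma_of_metric (s := (univ : Set K)) isCompact_univ hU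
    (by rw [hc])
  set d : ℝ := δ / 4 with hd
  have hd0 : 0 < d := by positivity
  let w : ℤ × ℤ → EuclideanSpace ℝ (Fin 2) := fun p => !₂[d * p.1, d * p.2]
  obtain ⟨s, hs⟩ : (⋂ p : ℤ × ℤ, (fun z => z + w p) ⁻¹' Kᶜ).Nonempty :=
    (dense_iInter_of_isOpen
      (fun p => hK.isClosed.isOpen_compl.preimage (continuous_add_const (w p)))
      (fun p => (interior_eq_empty_iff_dense_compl.1 hi).preimage
        (isOpenMap_add_right (w p)))).nonempty
  let u : K → ℝ := fun x => (x.1 0 - s 0) / d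
  let v : K → ℝ := fun x => (x.1 1 - s 1) / d
  have hu : Continuous u := by fun_prop
  have hv : Continuous v := by fun_prop
  have hint : ∀ r : ℝ, ‖(r : UnitAddCircle)‖ = 0 → r = round r := fun r h => by
    rw [UnitAddCircle.norm_eq, abs_eq_zero, sub_eq_zero] at h
    exact h
  obtain ⟨ε, hε, hF⟩ := isCompact_univ.exists_forall_le' (s := (univ : Set K))
    (f := fun x => ‖(u x : UnitAddCircle)‖ + ‖(v x : UnitAddCircle)‖) (a := 0)
    ((((AddCircle.continuous_mk' 1).comp hu).norm.add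
      ((AddCircle.continuous_mk' 1).comp hv).norm).continuousOn) (fun x _ => by
      refine lt_of_le_of_ne (by positivity) fun h => ?_
      have p1 := norm_nonneg (u x : UnitAddCircle)
      have p2 := norm_nonneg (v x : UnitAddCircle)
      have h1 := hint (u x) (by linarith)
      have h2 := hint (v x) (by linarith)
      have h3 : s + w (round (u x), round (v x)) = x.1 := by
        ext i
        fin_cases i
        · have : x.1 0 - s 0 = d * u x := by simp only [u]; field_simp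
          simp only [w, Fin.zero_eta, PiLp.add_apply, Matrix.cons_val_zero]
          rw [← h1]
          linarith
        · have : x.1 1 - s 1 = d * v x := by simp only [v]; field_simp
          simp only [w, Fin.mk_one, PiLp.add_apply, Matrix.cons_val_one, Matrix.cons_val_fin_one]
          rw [← h2]
          linarith
      exact mem_iInter.1 hs (round (u x), round (v x)) (by
        change s + w _ ∈ K
        rw [h3]
        exact x.2))
  set η : ℝ := min (ε / 2) (1 / 4) with hη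
  have hη0 : 0 < η := by positivity
  have hη4 : η ≤ 1 / 4 := min_le_right _ _
  have hηε : η ≤ ε / 2 := min_le_left _ _
  let W : ℤ × ℤ → Set K := fun p =>
    {x | (p.1 - η < u x ∧ u x < p.1 + 1 + η) ∧ (p.2 - η < v x ∧ v x < p.2 + 1 + η)}
  have hWo : ∀ p, IsOpen (W p) := fun p =>
    ((isOpen_lt continuous_const hu).inter (isOpen_lt hu continuous_const)).inter
      ((isOpen_lt continuous_const hv).inter (isOpen_lt hv continuous_const))
  obtain ⟨t, ht⟩ := isCompact_univ.elim_finite_subcover W hWo fun x _ =>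
    mem_iUnion.2 ⟨(⌊u x⌋, ⌊v x⌋),
      ⟨by linarith [Int.floor_le (u x)], by linarith [Int.lt_floor_add_one (u x)]⟩,
      ⟨by linarith [Int.floor_le (v x)], by linarith [Int.lt_floor_add_one (v x)]⟩⟩
  let T := t.filter fun p => (W p).Nonempty
  refine ⟨T.card, fun j => W (T.equivFin.symm j), fun j => hWo _, ?_, fun j => ?_, ?_⟩
  · refine eq_univ_of_forall fun x => ?_
    obtain ⟨p, hp, hx⟩ := mem_iUnion₂.1 (ht (mem_univ x))
    refine mem_iUnion.2 ⟨T.equivFin ⟨p, Finset.mem_filter.2 ⟨hp, x, hx⟩⟩, ?_⟩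
    rw [Equiv.symm_apply_apply]
    exact hx
  · obtain ⟨x, hx⟩ := (Finset.mem_filter.1 (T.equivFin.symm j).2).2
    obtain ⟨i, hi⟩ := hL x (mem_univ x)
    refine ⟨i, fun y hy => hi ?_⟩
    rw [Metric.mem_ball, Subtype.dist_eq]
    refine (dist_le_h47 _ _).trans_lt ?_
    have e1 : y.1 0 - x.1 0 = d * (u y - u x) := by simp only [u]; field_simp; ring
    have e2 : y.1 1 - x.1 1 = d * (v y - v x) := by simp only [v]; field_simp; ring
    have b1 : |u y - u x| < 2 := by
      rw [abs_lt]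
      constructor <;> linarith [hx.1.1, hx.1.2, hy.1.1, hy.1.2]
    have b2 : |v y - v x| < 2 := by
      rw [abs_lt]
      constructor <;> linarith [hx.2.1, hx.2.2, hy.2.1, hy.2.2]
    rw [e1, e2, abs_mul, abs_mul, abs_of_pos hd0]
    nlinarith
  · intro x a b c ha hb hc'
    have inj : ∀ i j : Fin T.card, (T.equivFin.symm i : ℤ × ℤ).1 = (T.equivFin.symm j : ℤ × ℤ).1 →
        (T.equivFin.symm i : ℤ × ℤ).2 = (T.equivFin.symm j : ℤ × ℤ).2 → i = j :=
      fun i j h1 h2 => T.equivFin.symm.injective (Subtype.ext (Prod.ext h1 h2))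
    have u1 := near_h47 hη4 ha.1 hb.1
    have u2 := near_h47 hη4 ha.1 hc'.1
    have u3 := near_h47 hη4 hb.1 hc'.1
    have v1 := near_h47 hη4 ha.2 hb.2
    have v2 := near_h47 hη4 ha.2 hc'.2
    have v3 := near_h47 hη4 hb.2 hc'.2
    have hx := hF x (mem_univ x)
    by_contra hne
    push Not at hne
    have n1 := not_and_or.1 fun h : _ ∧ _ => hne.1 (inj a b h.1 h.2)
    have n2 := not_and_or.1 fun h : _ ∧ _ => hne.2.1 (inj a c h.1 h.2)
    have n3 := not_and_or.1 fun h : _ ∧ _ => hne.2.2 (inj b c h.1 h.2)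
    by_cases hP : ‖(u x : UnitAddCircle)‖ < η
    · have hQ : ¬ ‖(v x : UnitAddCircle)‖ < η := fun hQ => by linarith
      simp only [hQ, and_false, or_false] at v1 v2 v3
      simp only [hP, and_true] at u1 u2 u3
      omega
    · simp only [hP, and_false, or_false] at u1 u2 u3
      have v1' := v1.imp_right And.left
      have v2' := v2.imp_right And.left
      have v3' := v3.imp_right And.left
      omega

/-- A connected space with two points does not have covering dimension zero. -/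
theorem not_dim_zero {X : Type} [TopologicalSpace X] [T1Space X] [PreconnectedSpace X] {x y : X}
    (hxy : x ≠ y) : ¬ ∀ (n : ℕ) (U : Fin n → Set X), (∀ i, IsOpen (U i)) → (⋃ i, U i) = univ →
      ∃ (m : ℕ) (V : Fin m → Set X), (∀ j, IsOpen (V j)) ∧ (⋃ j, V j) = univ ∧
        (∀ j, ∃ i, V j ⊆ U i) ∧ ∀ (z : X) (a b : Fin m), z ∈ V a → z ∈ V b → a = b := by
  intro h
  obtain ⟨m, V, hV, hc, hr, hd⟩ := h 2 ![{x}ᶜ, {y}ᶜ]
    (fun i => by fin_cases i <;> exact isOpen_compl_singleton) (by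
      refine eq_univ_of_forall fun z => ?_
      by_cases hz : z = x
      · exact mem_iUnion.2 ⟨1, fun e => hxy (hz.symm.trans e)⟩
      · exact mem_iUnion.2 ⟨0, hz⟩)
  obtain ⟨a, ha⟩ := mem_iUnion.1 (hc.symm ▸ mem_univ x)
  have hcl : (V a)ᶜ = ⋃ b ∈ {b | b ≠ a}, V b := by
    ext z
    refine ⟨fun hz => ?_, fun hz hza => ?_⟩
    · obtain ⟨b, hb⟩ := mem_iUnion.1 (hc.symm ▸ mem_univ z)
      exact mem_iUnion₂.2 ⟨b, fun e => hz (e ▸ hb), hb⟩
    · obtain ⟨b, hb, hzb⟩ := mem_iUnion₂.1 hz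
      exact hb (hd z b a hzb hza)
  have hclo : IsClopen (V a) :=
    ⟨⟨by rw [hcl]; exact isOpen_biUnion fun b _ => hV b⟩, hV a⟩
  have huniv := hclo.eq_univ ⟨x, ha⟩
  obtain ⟨i, hi⟩ := hr a
  rw [huniv] at hi
  fin_cases i
  · exact hi (mem_univ x) rfl
  · exact hi (mem_univ y) rfl

lemma fib_leaf_h47 (L : Leaf) (θ : ℝ) :
    {t : ℝ | ∃ σ, th (L, σ) = θ ∧ (Phi (L, σ)).2 = t}.Countable := by
  rcases L with τ | ⟨i, n⟩
  · refine Set.Subsingleton.countable ?_
    rintro _ ⟨σ, h, rfl⟩ _ ⟨σ', h', rfl⟩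
    have : σ = σ' := (ang_strictMono (Sum.inl τ)).injective (h.trans h'.symm)
    rw [this]
  · rcases eq_empty_or_nonempty
      {t : ℝ | ∃ σ, th (Sum.inr (i, n), σ) = θ ∧ (Phi (Sum.inr (i, n), σ)).2 = t} with h | h
    · rw [h]
      exact countable_empty
    obtain ⟨_, σ0, h0, -⟩ := h
    set y := ppi i (min σ0 (rE i)) with hy
    refine ((toFinite ({y, 2 * rb i - y, y + 2 * rc i} : Set ℝ)).countable.image
      fun s => (Phi (Sum.inr (i, n), s)).2).mono ?_
    rintro _ ⟨σ, h, rfl⟩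
    have e : ppi i (min σ (rE i)) = y :=
      (ang_strictMono (Sum.inr (i, n))).injective (h.trans h0.symm)
    refine ⟨min σ (rE i), ?_, by rw [Phi_clip i n σ]⟩
    unfold ppi fold at e
    rcases max_choice 0 (min (min σ (rE i) - rb i) (rc i)) with h1 | h1
    · exact Or.inl (by linarith)
    · rcases min_choice (min σ (rE i) - rb i) (rc i) with h2 | h2
      · exact Or.inr (Or.inl (by linarith))
      · exact Or.inr (Or.inr (by rw [mem_singleton_iff]; linarith))

lemma class_countable_h47 (L0 : Leaf) : {L : Leaf | Sim L L0}.Countable := by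
  have : Countable ℕ∞ := inferInstanceAs (Countable (Option ℕ))
  have hw : {τ : Word | Sim (Sum.inl τ) L0}.Countable := by
    rcases eq_empty_or_nonempty {τ : Word | Sim (Sum.inl τ) L0} with h | ⟨τ0, h0⟩
    · rw [h]
      exact countable_empty
    obtain ⟨g, hg⟩ := class_h6 τ0
    exact (mapsTo_univ (NB g) _).countable_of_injOn
      (fun b hb b' hb' e => (hg b b' (hb.trans h0.symm) (hb'.trans h0.symm)).2 e) countable_univ
  refine ((hw.image Sum.inl).union (countable_range Sum.inr)).mono fun L hL => ?_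
  rcases L with τ | q
  · exact Or.inl ⟨τ, hL, rfl⟩
  · exact Or.inr ⟨q, rfl⟩

lemma fib_end_h47 (e : Bool) {c : ℝ} (hc : c ≠ 0) :
    {t : ℝ | ∃ s, thl s = c ∧ ht e (uu s) = t}.Countable := by
  refine Set.Subsingleton.countable ?_
  rintro _ ⟨s, h, rfl⟩ _ ⟨s', h', rfl⟩
  have hs : -1 ≤ s := by
    by_contra h1
    exact hc (h.symm.trans (thl_of_le (by linarith)))
  have hs' : -1 ≤ s' := by
    by_contra h1
    exact hc (h'.symm.trans (thl_of_le (by linarith)))
  rcases lt_trichotomy s s' with h1 | h1 | h1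
  · exact absurd (h.trans h'.symm) (thl_lt_thl hs h1).ne
  · rw [h1]
  · exact absurd (h'.trans h.symm) (thl_lt_thl hs' h1).ne

/-- The continuum contains no nonempty open subset of the cylinder. -/
theorem open_subset_KS {O : Set Cyl} (hO : IsOpen O) (hOK : O ⊆ KS) : O = ∅ := by
  refine eq_empty_of_forall_notMem fun x hx => ?_
  obtain ⟨c, h⟩ := x
  obtain ⟨r, rfl⟩ := QuotientAddGroup.mk_surjective c
  have hψ : Continuous fun q : ℝ × ℝ => (((q.1 : AddCircle (2 : ℝ)), q.2) : Cyl) :=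
    ((AddCircle.continuous_mk' 2).comp continuous_fst).prodMk continuous_snd
  obtain ⟨ε, hε, hb⟩ := Metric.isOpen_iff.1 (hO.preimage hψ) (r, h) hx
  obtain ⟨r', hirr, h1, h2⟩ := exists_irrational_btwn (show r < r + ε by linarith)
  let γ : ℝ → Cyl := fun t => ((r' : AddCircle (2 : ℝ)), t)
  have hγ : ContinuousOn γ (Ioo (h - ε) (h + ε)) :=
    (continuous_const.prodMk continuous_id).continuousOn
  have hK : MapsTo γ (Ioo (h - ε) (h + ε)) KS := fun t ht => hOK (hb (a := (r', t)) (by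
    rw [Metric.mem_ball, Prod.dist_eq, Real.dist_eq, Real.dist_eq, max_lt_iff, abs_lt, abs_lt]
    exact ⟨⟨by linarith, by linarith⟩, ⟨by linarith [ht.1], by linarith [ht.2]⟩⟩))
  have hcount : (Ioo (h - ε) (h + ε)).Countable := by
    by_cases hD : ∃ t0 ∈ Ioo (h - ε) (h + ε), γ t0 ∈ DD
    · obtain ⟨t0, ht0, hD⟩ := hD
      have hall : MapsTo γ (Ioo (h - ε) (h + ε)) DD := fun t ht =>
        path_DD isPreconnected_Ioo hγ hK ht0 ht hD
      refine (((class_countable_h47 (par (γ t0)).1).biUnion fun L _ => countable_iUnion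
        fun m : ℤ => fib_leaf_h47 L (r' + 2 * m))).mono fun t ht => ?_
      have e := Phi_par (hall ht)
      obtain ⟨m, hm⟩ := coe_eq_coe_iff.1 (congrArg Prod.fst e)
      exact mem_iUnion₂.2 ⟨(par (γ t)).1, path_sim isPreconnected_Ioo hγ hall ht ht0,
        mem_iUnion.2 ⟨m, (par (γ t)).2, hm, congrArg Prod.snd e⟩⟩
    · have hne : ∀ k : ℤ, r' + k ≠ 0 := fun k hk =>
        hirr.ne_int (-k) (by push_cast; linarith)
      refine (countable_iUnion fun e : Bool => countable_iUnion fun k : ℤ =>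
        fib_end_h47 e (hne k)).mono fun t ht => ?_
      rcases mem_KS_cases (hK ht) with h3 | ⟨e, h3⟩
      · exact absurd ⟨t, ht, h3⟩ hD
      obtain ⟨k, s, -, hs⟩ := mem_iUnion.1 h3
      obtain ⟨m, hm⟩ := coe_eq_coe_iff.1 (congrArg Prod.fst hs)
      refine mem_iUnion.2 ⟨e, mem_iUnion.2 ⟨2 * m - k, s, ?_, congrArg Prod.snd hs⟩⟩
      push_cast
      linarith
  obtain ⟨t, ht, ht'⟩ := (hcount.dense_compl ℝ).inter_open_nonempty _ isOpen_Ioo
    (nonempty_Ioo.2 (show h - ε < h + ε by linarith))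
  exact ht' ht

theorem plane_curve : ∃ K : Set (EuclideanSpace ℝ (Fin 2)), IsCompact K ∧ IsConnected K ∧
    (∀ f : K → K, Continuous f → ∃ x, f x = x) ∧
    (∃ g : K × unitInterval → K × unitInterval, Continuous g ∧ ∀ p, g p ≠ p) ∧
    interior K = ∅ ∧ ∃ x y : K, x ≠ y := by
  obtain ⟨E0, hE0, hE0i⟩ := exists_embedding
  let T : (ℝ × ℝ) ≃ₜ EuclideanSpace ℝ (Fin 2) :=
    (Homeomorph.finTwoArrow (X := ℝ)).symm.trans (EuclideanSpace.equiv (Fin 2) ℝ).toHomeomorph.symm
  let E : Cyl → EuclideanSpace ℝ (Fin 2) := fun x => T (E0 x)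
  have hE : Continuous E := T.continuous.comp hE0
  have hEi : Function.Injective E := T.injective.comp hE0i
  have : CompactSpace KS := isCompact_iff_compactSpace.1 isCompact_KS
  let φ0 : KS ≃ (E '' KS) := Equiv.Set.image E KS hEi
  have hφ0 : Continuous φ0 := by
    refine Continuous.subtype_mk (hE.comp continuous_subtype_val) _
  let φ : KS ≃ₜ (E '' KS) := hφ0.homeoOfEquivCompactToT2
  refine ⟨E '' KS, isCompact_KS.image hE, isConnected_KS.image _ hE.continuousOn, ?_, ?_, ?_, ?_⟩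
  · intro f hf
    obtain ⟨x, hx⟩ := fpp (fun x => φ.symm (f (φ x))) (by fun_prop)
    exact ⟨φ x, by simpa using congrArg φ hx⟩
  · obtain ⟨g, hg, hfree⟩ := free_map
    let ψ : (KS × unitInterval) ≃ₜ ((E '' KS) × unitInterval) := φ.prodCongr (Homeomorph.refl _)
    refine ⟨fun p => ψ (g (ψ.symm p)), by fun_prop, fun p hp => hfree (ψ.symm p) ?_⟩
    simpa using congrArg ψ.symm hp
  · refine eq_empty_of_forall_notMem fun z hz => ?_
    obtain ⟨x, -, rfl⟩ := interior_subset hz
    have h := open_subset_KS (isOpen_interior.preimage hE) fun y hy =>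
      (hEi.mem_set_image).1 (interior_subset hy)
    exact (h ▸ hz : x ∈ (∅ : Set Cyl))
  · refine ⟨φ ⟨Phi (J0, 0), Phi_mem_KS _⟩, φ ⟨om false 0 0, om_mem_KS false 0 (by norm_num)⟩,
      fun e => ?_⟩
    exact Phi_ne_om (J0, 0) false 0 (s := 0) (by norm_num) (congrArg Subtype.val (φ.injective e))

end Pool.Agent.Lib.MP_3a0c72_gt.Bing
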