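import Pool.Agent.Lib.MP_3a0c72_gt.Bing.Lap

/-! Algebra of the gadget in the middle zone. -/

set_option autoImplicit false

noncomputable section

open Set Filter Topology

namespace Pool.Agent.Lib.MP_3a0c72_gt.Bing

lemma ppi_three (σ : ℝ) : ppi 3 σ = σ - 2 * max 0 (min (σ - 5) 3) := rfl
lemma ppi_zero (σ : ℝ) : ppi 0 σ = σ - 2 * max 0 (min (σ - 4) 4) := rfl
@[fun_prop] lemma continuous_ppi (i : Fin 5) : Continuous (ppi i) := by
  unfold ppi fold
  fun_prop
lemma ppi_three_lo_h6 {σ : ℝ} (h : σ ≤ 5) : ppi 3 σ = σ := by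
  rw [ppi_three, max_eq_left ((min_le_left _ _).trans (by linarith))]
  ring
lemma ppi_three_hi_h6 {σ : ℝ} (h : 8 ≤ σ) : ppi 3 σ = σ - 6 := by
  rw [ppi_three, min_eq_right (by linarith), max_eq_right (by norm_num)]
  ring
lemma ppi_three_ge_h6 {σ : ℝ} (h : 5 ≤ σ) : 2 ≤ ppi 3 σ := by
  rw [ppi_three]
  simp only [max_def, min_def]
  split_ifs <;> linarith
lemma ppi_three_mem_h6 {σ : ℝ} (h0 : 0 ≤ σ) (h1 : σ ≤ 9) : 0 ≤ ppi 3 σ ∧ ppi 3 σ ≤ 5 := by
  rw [ppi_three]
  simp only [max_def, min_def]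
  split_ifs <;> constructor <;> linarith
lemma stairs_h6 (p : ℝ) :
    (cl (4 * p - 1) = 0 ∧ cl (4 * p - 2) = 0 ∧ cl (4 * p - 3) = 0) ∨
    (cl (4 * p) = 1 ∧ cl (4 * p - 2) = 0 ∧ cl (4 * p - 3) = 0) ∨
    (cl (4 * p) = 1 ∧ cl (4 * p - 1) = 1 ∧ cl (4 * p - 3) = 0) ∨
    (cl (4 * p) = 1 ∧ cl (4 * p - 1) = 1 ∧ cl (4 * p - 2) = 1) := by
  rcases le_total (4 * p) 1 with a | a
  · exact Or.inl ⟨cl_of_nonpos (by linarith), cl_of_nonpos (by linarith),
      cl_of_nonpos (by linarith)⟩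
  rcases le_total (4 * p) 2 with b | b
  · exact Or.inr (Or.inl ⟨cl_of_one_le a, cl_of_nonpos (by linarith), cl_of_nonpos (by linarith)⟩)
  rcases le_total (4 * p) 3 with c | c
  · exact Or.inr (Or.inr (Or.inl ⟨cl_of_one_le a, cl_of_one_le (by linarith),
      cl_of_nonpos (by linarith)⟩))
  · exact Or.inr (Or.inr (Or.inr ⟨cl_of_one_le a, cl_of_one_le (by linarith),
      cl_of_one_le (by linarith)⟩))
lemma pp_zero (t : ℝ) : pp 0 t = 0 := by
  rw [pp, cl_of_nonpos le_rfl, cl_of_nonpos (by norm_num), mul_zero, max_self]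
lemma pp_four {t : ℝ} (h : t ≤ 1) : pp 4 t = 1 := by
  rw [pp, cl_of_one_le (by norm_num), cl_of_one_le (by norm_num), mul_one, max_eq_right h]
lemma G1_zero (x : ℝ) : G1 x 0 = x + 1 := by
  rw [G1, cl_of_nonpos (x := 4 * 0) (by norm_num), cl_of_nonpos (x := 4 * 0 - 1) (by norm_num),
    cl_of_nonpos (x := 4 * 0 - 2) (by norm_num), cl_of_nonpos (x := 4 * 0 - 3) (by norm_num)]
  ring
lemma G2_zero (x : ℝ) : G2 x 0 = x + 1 := by
  rw [G2, cl_of_nonpos (x := 4 * 0) (by norm_num), cl_of_nonpos (x := 4 * 0 - 1) (by norm_num),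
    cl_of_nonpos (x := 4 * 0 - 2) (by norm_num), cl_of_nonpos (x := 4 * 0 - 3) (by norm_num),
    ppi_three_lo_h6 (by norm_num)]
  ring
lemma G1_one (x : ℝ) : G1 x 1 = max (x + 1) 3 + 6 := by
  rw [G1, cl_of_one_le (x := 4 * 1) (by norm_num), cl_of_one_le (x := 4 * 1 - 1) (by norm_num),
    cl_of_one_le (x := 4 * 1 - 2) (by norm_num), cl_of_one_le (x := 4 * 1 - 3) (by norm_num)]
  ring
lemma G1_le {x : ℝ} (h0 : 0 ≤ x) (h1 : x ≤ 4) (p : ℝ) : G1 x p ≤ 11 := by
  have m0 : 3 ≤ max (x + 1) 3 := le_max_right _ _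
  have m1 : max (x + 1) 3 ≤ 5 := max_le (by linarith) (by norm_num)
  unfold G1
  rcases stairs_h6 p with ⟨a, b, c⟩ | ⟨a, b, c⟩ | ⟨a, b, c⟩ | ⟨a, b, c⟩ <;> rw [a, b, c]
  · nlinarith [cl_nonneg (4 * p), cl_le_one (4 * p)]
  · nlinarith [cl_nonneg (4 * p - 1), cl_le_one (x - 2)]
  · nlinarith [cl_nonneg (4 * p - 2), cl_le_one (4 * p - 2), cl_le_one (x - 2), cl_nonneg (x - 2)]
  · nlinarith [cl_nonneg (4 * p - 3), cl_le_one (4 * p - 3)]
lemma G2_le {x : ℝ} (h0 : 0 ≤ x) (h1 : x ≤ 2) (p : ℝ) : G2 x p ≤ 13 := by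
  have := (ppi_three_mem_h6 (σ := 5 * cl (4 * p - 2) + 4 * cl (4 * p - 3))
    (by linarith [cl_nonneg (4 * p - 2), cl_nonneg (4 * p - 3)])
    (by linarith [cl_le_one (4 * p - 2), cl_le_one (4 * p - 3)])).2
  unfold G2
  nlinarith [cl_le_one (4 * p), cl_le_one (4 * p - 1)]
lemma ppi_G2 {x : ℝ} (h0 : 0 ≤ x) (h1 : x ≤ 2) (p : ℝ) : ppi 0 (G2 x p) = ppi 3 (G1 x p) := by
  have k : cl (x - 2) = 0 := cl_of_nonpos (by linarith)
  have m : max (x + 1) 3 = 3 := max_eq_right (by linarith)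
  have z : ppi 3 (5 * 0 + 4 * 0) = 0 := by rw [ppi_three_lo_h6 (by norm_num)]; ring
  have l : cl (4 * p) = 1 → cl (4 * p - 1) = 1 → ppi 0 (G2 x p) = ppi 3 (G1 x p) := fun a b => by
    have v := (ppi_three_mem_h6 (σ := 5 * cl (4 * p - 2) + 4 * cl (4 * p - 3))
      (by linarith [cl_nonneg (4 * p - 2), cl_nonneg (4 * p - 3)])
      (by linarith [cl_le_one (4 * p - 2), cl_le_one (4 * p - 3)])).1
    have e : G1 x p = 5 * cl (4 * p - 2) + 4 * cl (4 * p - 3) := by
      rw [G1, a, b, k, m]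
      ring
    rw [e, G2, a, b, ppi_zero, min_eq_right (by linarith), max_eq_right (by norm_num)]
    ring
  rcases stairs_h6 p with ⟨a, b, c⟩ | ⟨a, b, c⟩ | ⟨a, b, c⟩ | ⟨a, b, c⟩
  · have v : x + 1 + (3 - x) * cl (4 * p) ≤ 4 := by nlinarith [cl_le_one (4 * p)]
    rw [G1, G2, a, b, c, z, ppi_three_lo_h6 (by linarith), ppi_zero,
      max_eq_left ((min_le_left _ _).trans (by linarith))]
    ring
  · have v0 := cl_nonneg (4 * p - 1)
    have v1 := cl_le_one (4 * p - 1)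
    rw [G1, G2, a, b, c, k, z, ppi_three_lo_h6 (by linarith), ppi_zero, min_eq_left (by linarith),
      max_eq_right (by linarith)]
    ring
  · exact l a b
  · exact l a b
lemma continuous_pp : Continuous fun q : ℝ × ℝ => pp q.1 q.2 := by
  unfold pp
  fun_prop
lemma continuous_G1 : Continuous fun q : ℝ × ℝ => G1 q.1 q.2 := by
  unfold G1
  fun_prop
lemma continuous_G2 : Continuous fun q : ℝ × ℝ => G2 q.1 q.2 := by
  unfold G2
  fun_prop
/-- The gadget map on the strip has no fixed point. -/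
lemma gadget_free {x t : ℝ} (h0 : 0 ≤ x) (h1 : x ≤ 4) (ht0 : 0 ≤ t) (ht1 : t ≤ 1)
    (hx : ppi 3 (G1 x (pp x t)) = x) : cl (20 * pp x t - 14) ≠ t := by
  intro e
  have k0 := cl_nonneg (x - 2)
  have k1 := cl_le_one (x - 2)
  rcases le_or_gt (pp x t) (7 / 10) with a | a
  · rw [cl_of_nonpos (by linarith)] at e
    subst e
    rw [pp, zero_mul, max_eq_right (cl_nonneg _)] at a hx
    rcases le_total x 3 with b | b
    · rw [cl_of_nonpos (by linarith), G1_zero, ppi_three_lo_h6 (by linarith)] at hx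
      linarith
    rw [cl_of_mem (by linarith) (by linarith)] at a hx
    have g : G1 x (x - 3) = x + 1 + (3 - x) * cl (4 * (x - 3)) + cl (4 * (x - 3) - 2) := by
      rw [G1, cl_of_one_le (x := x - 2) (by linarith),
        cl_of_nonpos (x := 4 * (x - 3) - 3) (by linarith)]
      ring
    have u0 := cl_nonneg (4 * (x - 3))
    have u1 := cl_le_one (4 * (x - 3))
    have v0 := cl_nonneg (4 * (x - 3) - 2)
    have v1 := cl_le_one (4 * (x - 3) - 2)
    have g5 : G1 x (x - 3) ≤ 5 := by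
      rw [g]
      rcases le_total (4 * (x - 3)) 2 with c | c
      · rw [cl_of_nonpos (x := 4 * (x - 3) - 2) (by linarith)]
        nlinarith
      · rw [cl_of_one_le (x := 4 * (x - 3)) (by linarith)]
        linarith
    rw [ppi_three_lo_h6 g5, g] at hx
    nlinarith
  rcases le_total (pp x t) (3 / 4) with b | b
  · have g : G1 x (pp x t) = 4 * cl (x - 2) + (5 - 4 * cl (x - 2)) * (4 * pp x t - 2) := by
      rw [G1, cl_of_one_le (x := 4 * pp x t) (by linarith),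
        cl_of_one_le (x := 4 * pp x t - 1) (by linarith),
        cl_of_mem (x := 4 * pp x t - 2) (by linarith) (by linarith),
        cl_of_nonpos (x := 4 * pp x t - 3) (by linarith)]
      ring
    rw [ppi_three_lo_h6 (by rw [g]; nlinarith), g] at hx
    nlinarith
  · rw [cl_of_one_le (by linarith)] at e
    subst e
    have g : G1 x (pp x 1) = 5 + (max (x + 1) 3 + 1) * cl (4 * pp x 1 - 3) := by
      rw [G1, cl_of_one_le (x := 4 * pp x 1) (by linarith),
        cl_of_one_le (x := 4 * pp x 1 - 1) (by linarith),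
        cl_of_one_le (x := 4 * pp x 1 - 2) (by linarith)]
      ring
    have m0 : 3 ≤ max (x + 1) 3 := le_max_right _ _
    have m1 : x + 1 ≤ max (x + 1) 3 := le_max_left _ _
    rcases le_total x 1 with c | c
    · have := ppi_three_ge_h6 (σ := G1 x (pp x 1))
        (by rw [g]; nlinarith [cl_nonneg (4 * pp x 1 - 3)])
      linarith
    · have p1 : pp x 1 = 1 := by rw [pp, cl_of_one_le c, one_mul, max_eq_left (cl_le_one _)]
      rw [p1, G1_one, ppi_three_hi_h6 (by linarith)] at hx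
      linarith

end Pool.Agent.Lib.MP_3a0c72_gt.Bing
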