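import Pool.Agent.Lib.MP_3a0c72_gt.Bing.Geom2
import Pool.Agent.Lib.MP_3a0c72_gt.Bing.Gadget

/-! The homotopy on parameters. -/

set_option autoImplicit false

noncomputable section

open Set Filter Topology

namespace Pool.Agent.Lib.MP_3a0c72_gt.Bing

lemma MM_pos_real (L : Leaf) (k : ℤ) : (0 : ℝ) < 5 * MM L k := by
  have : (1 : ℝ) ≤ MM L k := by exact_mod_cast one_le_MM L k
  linarith

lemma lap_int (L : Leaf) (d k : ℤ) : lap L d k = k + d := by
  unfold lap sc
  rw [Int.floor_intCast, Int.fract_intCast, zero_mul, lam_zero (one_le_MM _ _) (one_le_MM _ _)]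
  push_cast
  simp

lemma lap_bounds (L : Leaf) (d : ℤ) (y : ℝ) :
    ((⌊y⌋ + d : ℤ) : ℝ) ≤ lap L d y ∧ lap L d y ≤ ((⌊y⌋ + d : ℤ) : ℝ) + 1 := by
  unfold lap
  have h0 := MM_pos_real (phi L) (⌊y⌋ + d)
  have h1 := lam_nonneg (M := MM L ⌊y⌋) (one_le_MM (phi L) (⌊y⌋ + d)) (sc_mem L y).1
  have h2 := lam_le (M' := MM (phi L) (⌊y⌋ + d)) (sc_mem L y).2.le
  constructor
  · have := div_nonneg h1 h0.le
    linarith
  · have := (div_le_one h0).2 h2
    linarith

lemma floor_mk_h13 (L : Leaf) (k : ℤ) {s : ℝ} (h0 : 0 ≤ s) (h1 : s < 5 * MM L k) :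
    ⌊mk L k s⌋ = k := by
  have h := MM_pos_real L k
  rw [Int.floor_eq_iff]
  unfold mk
  have h2 := div_nonneg h0 h.le
  have h3 := (div_lt_one h).2 h1
  constructor <;> linarith

lemma sc_mk_h13 (L : Leaf) (k : ℤ) {s : ℝ} (h0 : 0 ≤ s) (h1 : s < 5 * MM L k) :
    sc L (mk L k s) = s := by
  have h := MM_pos_real L k
  unfold sc
  rw [Int.fract, floor_mk_h13 L k h0 h1]
  unfold mk
  rw [add_sub_cancel_left, div_mul_cancel₀ _ h.ne']

lemma lap_mk (L : Leaf) (d k : ℤ) {s : ℝ} (h0 : 0 ≤ s) (h1 : s < 5 * MM L k) :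
    lap L d (mk L k s) = mk (phi L) (k + d) (lam (MM L k) (MM (phi L) (k + d)) s) := by
  unfold lap
  rw [sc_mk_h13 L k h0 h1, floor_mk_h13 L k h0 h1]
  rfl

lemma ppi_three_of_le {σ : ℝ} (h : σ ≤ 5) : ppi 3 σ = σ := by
  rw [ppi_three, max_eq_left ((min_le_left _ _).trans (by linarith))]; ring

lemma ppi_three_of_ge {σ : ℝ} (h : 8 ≤ σ) : ppi 3 σ = σ - 6 := by
  rw [ppi_three, min_eq_right (by linarith), max_eq_right (by norm_num)]; ring

lemma ppi_zero_of_le {σ : ℝ} (h : σ ≤ 4) : ppi 0 σ = σ := by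
  rw [ppi_zero, max_eq_left ((min_le_left _ _).trans (by linarith))]; ring

lemma ppi_unfolded {i : Fin 5} (hi : i ≠ 0 ∧ i ≠ 3) (σ : ℝ) : ppi i σ = σ := by
  have : rc i = 0 := by
    obtain ⟨h0, h3⟩ := hi
    fin_cases i <;> simp_all [rc]
  unfold ppi fold
  rw [this, max_eq_left (min_le_right _ _)]
  ring

lemma mid_zero (L : Leaf) (t : ℝ) : mid L 0 t = 1 := by
  have h1 : ppi 3 (G1 0 (pp 0 t)) = 1 := by
    rw [pp_zero, G1_zero, ppi_three_of_le (by norm_num)]; norm_num
  rcases L with τ | ⟨i, n⟩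
  · simp only [mid]
    split_ifs
    · exact h1
    · norm_num
  · simp only [mid]
    split_ifs
    · rw [pp_zero, G1_zero]; norm_num
    · rw [pp_zero, G2_zero]; norm_num
    · exact h1

lemma G1_four {t : ℝ} (ht : t ≤ 1) : G1 4 (pp 4 t) = 11 := by
  rw [pp_four ht, G1_one, max_eq_left (by norm_num)]; norm_num

lemma c4_of_nonpos {y : ℝ} (h : y ≤ 0) : c4 y = 0 := max_eq_left ((min_le_left _ _).trans h)

lemma c4_of_ge {y : ℝ} (h : 4 ≤ y) : c4 y = 4 := by
  rw [c4, min_eq_right h, max_eq_right (by norm_num)]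

lemma c4_of_mem {y : ℝ} (h0 : 0 ≤ y) (h : y ≤ 4) : c4 y = y := by
  rw [c4, min_eq_left h, max_eq_right h0]

lemma c4_mem (y : ℝ) : 0 ≤ c4 y ∧ c4 y ≤ 4 :=
  ⟨le_max_left _ _, max_le (by norm_num) (min_le_right _ _)⟩

lemma lap_four (L : Leaf) (d : ℤ) : lap L d 4 = 4 + d := by
  have := lap_int L d 4
  push_cast at this
  exact this

lemma lap_zero (L : Leaf) : lap L 1 0 = 1 := by
  have := lap_int L 1 0
  push_cast at this
  simpa using this

lemma Ft_lo {p : Par} {t : ℝ} (h : yy p ≤ 0) : Ft p t = (phi p.1, lap p.1 1 (yy p)) := by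
  unfold Ft
  rw [min_eq_left h, c4_of_nonpos h, mid_zero, max_eq_right (by linarith), lap_four]
  simp

lemma Ft_hi {τ : Word} {y t : ℝ} (ht : t ≤ 1) (h : 4 ≤ y) :
    Ft (Sum.inl τ, y) t = (Sum.inl (sh τ), lap (Sum.inl τ) (dd τ) y) := by
  have hy : yy (Sum.inl τ, y) = y := rfl
  have hb : base (Sum.inl τ) = τ := rfl
  have hm : mid (Sum.inl τ) 4 t = 4 + dd τ := by
    simp only [mid]
    rcases dd_cases τ with h1 | h1
    · rw [if_pos h1, G1_four ht, ppi_three_of_ge (by norm_num), h1]; norm_num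
    · rw [if_neg (by omega), h1]; norm_num
  unfold Ft
  simp only [hy, hb]
  rw [min_eq_right (by linarith), c4_of_ge h, hm, max_eq_left h, lap_zero]
  refine Prod.ext rfl ?_
  simp only
  ring

lemma Ft_mid {p : Par} {t : ℝ} (h0 : 0 ≤ yy p) (h4 : yy p ≤ 4) :
    Ft p t = (phi p.1, mid p.1 (yy p) t) := by
  unfold Ft
  rw [min_eq_right h0, c4_of_mem h0 h4, max_eq_right h4, lap_four, lap_zero]
  simp

lemma continuous_lapData : Continuous fun q : (ℕ × ℕ) × ℝ =>
    lam q.1.1 q.1.2 (q.2 * (5 * q.1.1)) / (5 * q.1.2) := by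
  refine continuous_prod_of_discrete_left.2 fun a => ?_
  show Continuous fun x : ℝ => lam a.1 a.2 (x * (5 * a.1)) / (5 * a.2)
  exact ((continuous_lam a.1 a.2).comp (continuous_id.mul continuous_const)).div_const _

lemma continuous_MM_pair : Continuous fun q : ℤ × Leaf => MM q.2 q.1 :=
  continuous_prod_of_discrete_left.2 fun k => continuous_MM k

lemma continuous_lap_aux (d : Leaf → ℤ) (hd : Continuous d) (P : ℤ → Prop) [DecidablePred P]
    (hP : ∀ L k, P k → MM (phi L) (k + d L) ≤ MM L k + 2) :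
    Continuous fun q : Leaf × ℝ => if P ⌊q.2⌋ then lap q.1 (d q.1) q.2 else q.2 + d q.1 := by
  let G : ℤ → Leaf × ℝ → ℝ := fun k q => ((k + d q.1 : ℤ) : ℝ) +
    if P k then lam (MM q.1 k) (MM (phi q.1) (k + d q.1)) (q.2 * (5 * MM q.1 k)) /
      (5 * MM (phi q.1) (k + d q.1)) else q.2
  have hG : ∀ k, Continuous (G k) := by
    intro k
    have h1 : Continuous fun q : Leaf × ℝ => k + d q.1 := continuous_const.add (hd.comp continuous_fst)
    refine (continuous_of_discreteTopology.comp h1 :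
      Continuous fun q : Leaf × ℝ => ((k + d q.1 : ℤ) : ℝ)).add ?_
    split_ifs
    · have h2 : Continuous fun q : Leaf × ℝ => MM (phi q.1) (k + d q.1) :=
        continuous_MM_pair.comp (h1.prodMk (continuous_phi.comp continuous_fst))
      exact continuous_lapData.comp
        ((((continuous_MM k).comp continuous_fst).prodMk h2).prodMk continuous_snd)
    · exact continuous_snd
  have hm : ∀ k L, G k (L, 1) = G (k + 1) (L, 0) := by
    intro k L
    have h1 : (if P k then lam (MM L k) (MM (phi L) (k + d L)) (1 * (5 * MM L k)) /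
        (5 * MM (phi L) (k + d L)) else 1) = 1 := by
      split_ifs with h
      · rw [one_mul, lam_last (one_le_MM _ _) (hP L k h) (by linarith) le_rfl, sub_self, add_zero,
          div_self (MM_pos_real _ _).ne']
      · rfl
    have h2 : (if P (k + 1) then lam (MM L (k + 1)) (MM (phi L) (k + 1 + d L))
        (0 * (5 * MM L (k + 1))) / (5 * MM (phi L) (k + 1 + d L)) else 0) = 0 := by
      split_ifs with h
      · rw [zero_mul, lam_zero (one_le_MM _ _) (one_le_MM _ _), zero_div]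
      · rfl
    simp only [G]
    rw [h1, h2]
    push_cast
    ring
  refine (continuous_lapwise G hG hm).congr fun q => ?_
  simp only [G]
  split_ifs
  · rfl
  · rw [Int.fract]; push_cast; ring

lemma continuous_lapLo : Continuous fun q : Leaf × ℝ => lap q.1 1 (min q.2 0) := by
  have h := continuous_lap_aux (fun _ => 1) continuous_const (fun k => k < 0)
    (fun L k hk => MM_phi_lo L hk)
  refine (h.comp (continuous_fst.prodMk (continuous_snd.min continuous_const) :
    Continuous fun q : Leaf × ℝ => (q.1, min q.2 0))).congr fun q => ?_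
  simp only [Function.comp]
  split_ifs with h1
  · rfl
  · have h2 : min q.2 0 = 0 := by
      refine le_antisymm (min_le_right _ _) ?_
      exact Int.floor_nonneg.1 (not_lt.1 h1)
    rw [h2, lap_zero]
    simp

lemma continuous_lapHi : Continuous fun q : Leaf × ℝ => lap q.1 (dd (base q.1)) (max q.2 4) := by
  have h := continuous_lap_aux (fun L => dd (base L)) (continuous_dd.comp continuous_base)
    (fun k => 4 ≤ k) (fun L k hk => MM_phi_hi L hk)
  refine (h.comp (continuous_fst.prodMk (continuous_snd.max continuous_const) :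
    Continuous fun q : Leaf × ℝ => (q.1, max q.2 4))).congr fun q => ?_
  simp only [Function.comp]
  rw [if_pos]
  exact Int.le_floor.2 (by push_cast; exact le_max_right _ _)

/-- Type code of the middle map. -/
def midCode : Leaf → ℕ
  | Sum.inl τ => if dd τ = 1 then 0 else 1
  | Sum.inr (i, _) => if i = 4 then 2 else if i = 1 then 3 else 0

/-- The middle map by type code. -/
def midC (c : ℕ) (x t : ℝ) : ℝ :=
  if c = 0 then ppi 3 (G1 x (pp x t)) else if c = 1 then 1 + x / 2
  else if c = 2 then G1 x (pp x t) else G2 x (pp x t)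

lemma mid_eq (L : Leaf) (x t : ℝ) : mid L x t = midC (midCode L) x t := by
  rcases L with τ | ⟨i, n⟩
  · simp only [mid, midCode, midC]
    split_ifs <;> simp_all
  · simp only [mid, midCode, midC]
    split_ifs <;> simp_all

lemma continuous_midCode : Continuous midCode := by
  refine continuous_sum_dom.2 ⟨?_, ?_⟩
  · exact (continuous_of_discreteTopology (f := fun z : ℤ => if z = 1 then 0 else 1)).comp
      continuous_dd
  · exact (continuous_of_discreteTopology
      (f := fun i : Fin 5 => if i = 4 then 2 else if i = 1 then 3 else 0)).comp continuous_fst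

lemma continuous_midC : Continuous fun q : ℕ × (ℝ × ℝ) => midC q.1 q.2.1 q.2.2 := by
  refine continuous_prod_of_discrete_left.2 fun c => ?_
  have h1 : Continuous fun q : ℝ × ℝ => G1 q.1 (pp q.1 q.2) :=
    continuous_G1.comp (continuous_fst.prodMk continuous_pp)
  have h2 : Continuous fun q : ℝ × ℝ => G2 q.1 (pp q.1 q.2) :=
    continuous_G2.comp (continuous_fst.prodMk continuous_pp)
  simp only [midC]
  split_ifs
  · exact (continuous_ppi 3).comp h1
  · fun_prop
  · exact h1
  · exact h2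

lemma continuous_c4 : Continuous c4 := by unfold c4; fun_prop

lemma continuous_Ft : Continuous fun q : Par × ℝ => Ft q.1 q.2 := by
  have hL : Continuous fun q : Par × ℝ => q.1.1 := continuous_fst.comp continuous_fst
  have hy : Continuous fun q : Par × ℝ => yy q.1 := continuous_yy.comp continuous_fst
  unfold Ft
  refine (continuous_phi.comp hL).prodMk ((Continuous.add ?_ ?_).add (Continuous.sub ?_ ?_))
  · exact continuous_lapLo.comp (hL.prodMk hy)
  · simp only [mid_eq]
    exact (continuous_midC.comp ((continuous_midCode.comp hL).prodMk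
      ((continuous_c4.comp hy).prodMk continuous_snd))).sub continuous_const
  · exact continuous_lapHi.comp (hL.prodMk hy)
  · exact continuous_const.add ((continuous_of_discreteTopology (f := fun z : ℤ => (z : ℝ))).comp
      (continuous_dd.comp (continuous_base.comp hL)))

lemma MM_top (i : Fin 5) (k : ℤ) : MM (Sum.inr (i, ⊤)) k = MM J0 k := by
  rcases lt_or_ge k 0 with h | h
  · refine MM_eq_of_iota ?_
    simp only [iota, if_pos h, JJ_top, JJ_J0]
  · exact MM_congr_base rfl h

lemma phi_J0 : phi J0 = J0 := rfl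

lemma lap_top (i : Fin 5) (d : ℤ) (y : ℝ) : lap (Sum.inr (i, ⊤)) d y = lap J0 d y := by
  have h : ∀ k, MM (phi (Sum.inr (i, ⊤))) k = MM J0 k := by
    intro k
    simp only [phi]
    split_ifs
    · rfl
    · exact MM_top _ _
  unfold lap sc
  rw [MM_top, h, phi_J0]

lemma lap_le_one (L : Leaf) {y : ℝ} (h : y ≤ 0) : lap L 1 y ≤ 1 := by
  rcases h.eq_or_lt with rfl | h
  · exact (lap_zero L).le
  · have h1 := (lap_bounds L 1 y).2
    have h2 : ⌊y⌋ + 1 ≤ 0 := by
      have : ⌊y⌋ < 0 := Int.floor_lt.2 (by simpa using h)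
      omega
    have h3 : ((⌊y⌋ + 1 : ℤ) : ℝ) ≤ 0 := by exact_mod_cast h2
    linarith

lemma Ft_top (i : Fin 5) (σ : ℝ) {t : ℝ} (ht : t ≤ 1) :
    Phi (Ft (Sum.inr (i, ⊤), σ) t) = Phi (Ft (J0, yy (Sum.inr (i, ⊤), σ)) t) := by
  set y := yy (Sum.inr (i, ⊤), σ) with hy
  have hJ : yy (J0, y) = y := rfl
  have hmJ : ∀ x, mid J0 x t = ppi 3 (G1 x (pp x t)) := fun x => by
    simp only [J0, mid, if_pos dd_w0]
  by_cases hi : i = 0 ∨ i = 3
  · congr 1
    unfold Ft
    rw [hJ, ← hy]
    simp only [lap_top]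
    have h1 : phi (Sum.inr (i, ⊤)) = J0 := by simp only [phi, if_pos hi]
    have h2 : mid (Sum.inr (i, ⊤)) (c4 y) t = mid J0 (c4 y) t := by
      rw [hmJ]
      rcases hi with rfl | rfl <;> simp [mid]
    rw [h1, h2]
    rfl
  · have hi' : i ≠ 0 ∧ i ≠ 3 := not_or.1 hi
    have h1 : phi (Sum.inr (i, ⊤)) = Sum.inr (i - 1, ⊤) := by simp only [phi, if_neg hi]
    have hyE : y ≤ rE i := by
      rw [hy]
      simp only [yy]
      rw [ppi_unfolded hi']
      exact min_le_right _ _
    have key : ∀ a b : ℝ, ppi (i - 1) (min a (rE (i - 1))) = b →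
        Phi (phi (Sum.inr (i, ⊤)), a) = Phi (phi J0, b) := by
      intro a b hab
      rw [h1, Phi_top, phi_J0]
      simp only [yy]
      rw [hab]
    rcases le_total y 0 with h0 | h0
    · rw [Ft_lo (p := (Sum.inr (i, ⊤), σ)) h0, Ft_lo (p := (J0, y)) h0]
      refine key _ _ ?_
      simp only [← hy, hJ, lap_top]
      have h2 := lap_le_one J0 h0
      obtain ⟨h3, h4⟩ := hi'
      fin_cases i
      · exact absurd rfl h3
      · show ppi 0 (min _ 13) = _
        rw [min_eq_left (by linarith), ppi_zero_of_le (by linarith)]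
      · show ppi 1 (min _ 2) = _
        rw [min_eq_left (by linarith), ppi_unfolded (by decide)]
      · exact absurd rfl h4
      · show ppi 3 (min _ 12) = _
        rw [min_eq_left (by linarith), ppi_three_of_le (by linarith)]
    · rcases le_total y 4 with h4 | h4
      · rw [Ft_mid (p := (Sum.inr (i, ⊤), σ)) h0 h4, Ft_mid (p := (J0, y)) h0 h4]
        refine key _ _ ?_
        simp only [← hy, hJ, hmJ]
        obtain ⟨h3, h5⟩ := hi'
        fin_cases i
        · exact absurd rfl h3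
        · show ppi 0 (min (G2 y (pp y t)) 13) = _
          have h6 : y ≤ 2 := hyE
          rw [min_eq_left (G2_le h0 h6 _), ppi_G2 h0 h6]
        · show ppi 1 (min (ppi 3 (G1 y (pp y t))) 2) = _
          have h6 : y = 0 := le_antisymm hyE h0
          rw [h6, pp_zero, G1_zero, ppi_three_of_le (by norm_num), min_eq_left (by norm_num),
            ppi_unfolded (by decide)]
        · exact absurd rfl h5
        · show ppi 3 (min (G1 y (pp y t)) 12) = _
          rw [min_eq_left ((G1_le h0 h4 _).trans (by norm_num))]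
      · obtain rfl : i = 4 := by
          obtain ⟨h3, h5⟩ := hi'
          fin_cases i
          · exact absurd rfl h3
          · have h6 : y ≤ 2 := hyE
            linarith
          · have h6 : y ≤ 0 := hyE
            linarith
          · exact absurd rfl h5
          · rfl
        have h5 : y ≤ 5 := hyE
        have h6 : Ft (J0, y) t = (phi J0, lap J0 1 y) := by
          have := Ft_hi (τ := w0) ht h4
          rw [dd_w0] at this
          exact this
        have h7 : Ft (Sum.inr (4, ⊤), σ) t = (phi (Sum.inr (4, ⊤)), lap J0 1 y + 6) := by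
          unfold Ft
          have hb : base (Sum.inr ((4 : Fin 5), (⊤ : ℕ∞))) = w0 := rfl
          have hm : mid (Sum.inr ((4 : Fin 5), (⊤ : ℕ∞))) 4 t = 11 := by
            simp only [mid, if_true]
            exact G1_four ht
          simp only [← hy, hb, dd_w0, lap_top]
          rw [min_eq_right h0, c4_of_ge h4, hm, max_eq_left h4, lap_zero]
          refine Prod.ext rfl ?_
          simp only
          push_cast
          ring
        have h8 : 5 ≤ lap J0 1 y ∧ lap J0 1 y ≤ 6 := by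
          rcases h5.eq_or_lt with h9 | h9
          · have := lap_int J0 1 5
            push_cast at this
            rw [h9, this]
            norm_num
          · have h10 : ⌊y⌋ = 4 := Int.floor_eq_iff.2 ⟨by push_cast; linarith, by push_cast; linarith⟩
            have := lap_bounds J0 1 y
            rw [h10] at this
            push_cast at this
            constructor <;> linarith [this.1, this.2]
        rw [h6, h7]
        refine key _ _ ?_
        show ppi 3 (min _ 12) = _
        rw [min_eq_left (by linarith), ppi_three_of_ge (by linarith)]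
        ring

lemma Ft_congr {p p' : Par} (t : ℝ) (h1 : p.1 = p'.1) (h2 : yy p = yy p') : Ft p t = Ft p' t := by
  unfold Ft
  rw [h1, h2]

lemma ray_or_word_form (p : Par) {t : ℝ} (ht : t ≤ 1) :
    (∃ i n σ, n ≠ ⊤ ∧ p = (Sum.inr (i, n), σ)) ∨
      ∃ τ, Phi p = Phi (Sum.inl τ, yy p) ∧ Phi (Ft p t) = Phi (Ft (Sum.inl τ, yy p) t) := by
  rcases p with ⟨τ | ⟨i, n⟩, σ⟩
  · exact Or.inr ⟨τ, rfl, rfl⟩
  · by_cases hn : n = ⊤
    · subst hn
      exact Or.inr ⟨w0, Phi_top i σ, Ft_top i σ ht⟩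
    · exact Or.inl ⟨i, n, σ, hn, rfl⟩

lemma NB_eq_of_Phi_eq {τ τ' : Word} {y y' : ℝ} (h : Phi (Sum.inl τ, y) = Phi (Sum.inl τ', y'))
    {j : ℕ} (hj : -(j : ℝ) < y) : NB j τ = NB j τ' := by
  have := JJ_eq_of_Phi_eq h (j := j) hj
  simpa [JJ] using this

lemma Ft_descent_word {τ τ' : Word} {y t : ℝ} (h : Phi (Sum.inl τ, y) = Phi (Sum.inl τ', y)) :
    Phi (Ft (Sum.inl τ, y) t) = Phi (Ft (Sum.inl τ', y) t) := by
  rcases lt_or_ge 0 y with h0 | h0
  · obtain rfl : τ = τ' := by
      funext j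
      refine bit_eq_of_NB_eq (NB_eq_of_Phi_eq h ?_)
      have : (0 : ℝ) ≤ j := Nat.cast_nonneg j
      linarith
    rfl
  have hN : ∀ j : ℕ, -(j : ℝ) < y → JJ j (Sum.inl τ) = JJ j (Sum.inl τ') :=
    fun j hj => JJ_eq_of_Phi_eq h hj
  have hfl := Int.floor_le y
  have hl : lap (Sum.inl τ) 1 y = lap (Sum.inl τ') 1 y := by
    rcases h0.eq_or_lt with rfl | h1
    · rw [lap_zero, lap_zero]
    have hk : ⌊y⌋ < 0 := Int.floor_lt.2 (by simpa using h1)
    have hab : (((⌊y⌋).natAbs : ℕ) : ℝ) = -(⌊y⌋ : ℝ) := by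
      have : (((⌊y⌋).natAbs : ℕ) : ℤ) = -⌊y⌋ := by omega
      rw [← Int.cast_natCast, this, Int.cast_neg]
    have hJ := hN ((⌊y⌋).natAbs + 1) (by push_cast [hab]; linarith)
    have h2 : MM (Sum.inl τ) ⌊y⌋ = MM (Sum.inl τ') ⌊y⌋ := by
      refine MM_eq_of_iota ?_
      simp only [iota, if_pos hk, hJ]
    have h3 : MM (phi (Sum.inl τ)) (⌊y⌋ + 1) = MM (phi (Sum.inl τ')) (⌊y⌋ + 1) := by
      rcases (show ⌊y⌋ + 1 < 0 ∨ ⌊y⌋ + 1 = 0 by omega) with h4 | h4
      · refine MM_eq_of_iota ?_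
        have h5 : (⌊y⌋ + 1).natAbs + 1 = (⌊y⌋).natAbs := by omega
        simp only [iota, if_pos h4, h5, JJ_phi_eq hJ]
      · rw [h4, MM_zero, MM_zero]
    unfold lap sc
    rw [h2, h3]
  rw [Ft_lo (p := (Sum.inl τ, y)) h0, Ft_lo (p := (Sum.inl τ', y)) h0]
  show Phi (Sum.inl (sh τ), lap (Sum.inl τ) 1 y) = Phi (Sum.inl (sh τ'), lap (Sum.inl τ') 1 y)
  rw [← hl]
  refine Phi_glue_word fun j hj => ?_
  have h6 : -((j + 1 : ℕ) : ℝ) < y := by
    push_cast
    rcases hfl.eq_or_lt with h7 | h7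
    · rw [← h7, lap_int] at hj
      push_cast at hj
      linarith
    · have h8 := (lap_bounds (Sum.inl τ) 1 y).2
      have h9 : -(j : ℤ) < ⌊y⌋ + 1 + 1 := by
        have : ((-(j : ℤ) : ℤ) : ℝ) < ((⌊y⌋ + 1 + 1 : ℤ) : ℝ) := by
          push_cast at h8 ⊢
          linarith
        exact_mod_cast this
      have h10 : ((-(j : ℤ) - 1 : ℤ) : ℝ) ≤ (⌊y⌋ : ℝ) := by
        exact_mod_cast (by omega : -(j : ℤ) - 1 ≤ ⌊y⌋)
      push_cast at h10
      linarith
  rw [NB_sh, NB_sh, NB_eq_of_Phi_eq h h6]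

lemma Ft_descent {p p' : Par} {t : ℝ} (ht : t ≤ 1) (h : Phi p = Phi p') :
    Phi (Ft p t) = Phi (Ft p' t) := by
  have hy := (Phi_inj h).2.2
  rcases ray_or_word_form p ht with ⟨i, n, σ, hn, rfl⟩ | ⟨τ, h1, h2⟩
  · rw [Ft_congr t (ray_eq_of_Phi_eq hn h).1.symm hy]
  rcases ray_or_word_form p' ht with ⟨i, n, σ, hn, rfl⟩ | ⟨τ', h3, h4⟩
  · rw [Ft_congr t (ray_eq_of_Phi_eq hn h.symm).1 hy]
  rw [h2, h4, ← hy]
  refine Ft_descent_word ?_
  rw [← h1, h, h3, hy]

lemma Ft_free {p : Par} {t : ℝ} (ht0 : 0 ≤ t) (ht1 : t ≤ 1) (h : Phi (Ft p t) = Phi p) :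
    cl (20 * pp (c4 (yy p)) t - 14) ≠ t := by
  rcases ray_or_word_form p ht1 with ⟨i, n, σ, hn, rfl⟩ | ⟨τ, h1, h2⟩
  · exfalso
    have h1 : phi (Sum.inr (i, n)) = Sum.inr (i, n) := (ray_eq_of_Phi_eq hn h.symm).1
    simp only [phi] at h1
    split_ifs at h1
    · simp [J0] at h1
    · have h2 : i - 1 = i := (Prod.mk.inj (Sum.inr.inj h1)).1
      revert h2
      fin_cases i <;> decide
  rw [h1, h2] at h
  set y := yy p with hy
  have hY := (Phi_inj h).2.2
  have hlt := Int.lt_floor_add_one y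
  rcases le_or_gt y 0 with h0 | h0
  · exfalso
    rw [Ft_lo (p := (Sum.inl τ, y)) h0] at hY
    have h3 : lap (Sum.inl τ) 1 y = y := hY
    have h4 := (lap_bounds (Sum.inl τ) 1 y).1
    push_cast at h4
    linarith
  have hτ : sh τ = τ := by
    funext j
    refine bit_eq_of_NB_eq (NB_eq_of_Phi_eq (y := y) (y' := (Ft (Sum.inl τ, y) t).2) h.symm ?_).symm
    have : (0 : ℝ) ≤ j := Nat.cast_nonneg j
    linarith
  have hd := dd_of_sh_eq hτ
  rcases le_total y 4 with h4 | h4
  · rw [Ft_mid (p := (Sum.inl τ, y)) h0.le h4] at hY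
    have h3 : mid (Sum.inl τ) y t = y := hY
    simp only [mid, if_pos hd] at h3
    rw [c4_of_mem h0.le h4]
    exact gadget_free h0.le h4 ht0 ht1 h3
  · exfalso
    rw [Ft_hi ht1 h4, hd] at hY
    have h3 : lap (Sum.inl τ) 1 y = y := hY
    have h5 := (lap_bounds (Sum.inl τ) 1 y).1
    push_cast at h5
    linarith

end Pool.Agent.Lib.MP_3a0c72_gt.Bing
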