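import Pool.Agent.Lib.MP_3a0c72_gt.Bing.Geom3
import Pool.Agent.Lib.MP_3a0c72_gt.Bing.Free1

/-! The free map of the cylinder over the continuum. -/

set_option autoImplicit false

noncomputable section

open Set Filter Topology

namespace Pool.Agent.Lib.MP_3a0c72_gt.Bing

/-- The end map on the cylinder. -/
lemma exists_endMap (e : Bool) : ∃ P : Cyl → Cyl, Continuous P ∧
    ∀ (k : ℤ) (s : ℝ), -2 ≤ s → P (om e k s) = om e (k + 1) (push s) := by
  let f : ℝ → Cyl := fun θ =>
    (((θ + Dang (Int.fract θ) + 1 : ℝ) : AddCircle (2 : ℝ)), -(sg e : ℝ) * Dprof (Int.fract θ))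
  have hf : Continuous f := by
    refine Continuous.prodMk ?_ (continuous_const.mul continuous_Dprof_fract)
    exact (AddCircle.continuous_mk' (2 : ℝ)).comp
      ((continuous_id.add continuous_Dang_fract).add continuous_const)
  have hper : Function.Periodic f (2 : ℝ) := by
    intro θ
    have h1 : Int.fract (θ + 2) = Int.fract θ := by
      have := Int.fract_add_intCast θ 2
      push_cast at this
      exact this
    simp only [f, h1]
    refine Prod.ext (coe_eq_coe_iff.2 ⟨1, ?_⟩) rfl
    push_cast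
    ring
  have hl : Continuous (hper.lift : AddCircle (2 : ℝ) → Cyl) := by
    refine (QuotientAddGroup.isQuotientMap_mk _).continuous_iff.2 ?_
    exact hf
  refine ⟨fun x => ((hper.lift x.1).1, x.2 + (hper.lift x.1).2), ?_, fun k s hs => ?_⟩
  · exact (continuous_fst.comp (hl.comp continuous_fst)).prodMk
      (continuous_snd.add (continuous_snd.comp (hl.comp continuous_fst)))
  · have h1 : hper.lift (om e k s).1 = f (k + thl s) := rfl
    have h2 : Int.fract ((k : ℝ) + thl s) = thl s := by
      rw [Int.fract_intCast_add, Int.fract_eq_self.2 ⟨thl_nonneg s, thl_lt_one s⟩]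
    simp only [h1, f, h2]
    have h3 := Dang_thl hs
    have h4 := Dprof_thl hs
    refine Prod.ext ?_ ?_
    · simp only [om]
      congr 1
      push_cast
      linarith
    · simp only [om, ht, sg]
      cases e <;> simp <;> linarith

lemma sg_mul_h13 {e : Bool} {k : ℤ} {m : ℕ} (h : (m : ℤ) ≤ sg e * k) : m ≤ k.natAbs := by
  cases e <;> simp only [sg] at h <;> simp at h <;> omega

/-- Near an end the homotopy follows the end map of a shadow. -/
lemma Ft_shadow {ε : ℝ} (hε : 0 < ε) : ∃ R : ℝ, 0 < R ∧ ∀ (e : Bool) (p : Par) (t : ℝ), t ≤ 1 →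
    R ≤ (sg e : ℝ) * yy p → ∃ (k : ℤ) (s : ℝ), -2 ≤ s ∧ dist (Phi p) (om e k s) < ε ∧
      dist (Phi (Ft p t)) (om e (k + 1) (push s)) < ε := by
  obtain ⟨k0, hk0⟩ := shadow (half_pos hε)
  obtain ⟨S, hS0, hS⟩ := thl_large (half_pos hε)
  obtain ⟨n, hn⟩ := exists_nat_ge (S + 3)
  obtain ⟨k1, hk1⟩ := NN_large n
  have core : ∀ (e : Bool) (L : Leaf) (y : ℝ) (d : ℤ), (d = 1 ∨ d = -1) → HasEnd e L →
      HasEnd e (phi L) → MM (phi L) (⌊y⌋ + d) ≤ MM L ⌊y⌋ + 2 →
      ((k0 + k1 + 1 : ℕ) : ℤ) ≤ sg e * ⌊y⌋ →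
      ∃ (k : ℤ) (s : ℝ), -2 ≤ s ∧ dist (Phi (L, y)) (om e k s) < ε ∧
        dist (Phi (phi L, lap L d y)) (om e (k + 1) (push s)) < ε := by
    intro e L y d hd hL hL' hM hk
    obtain ⟨hs0, hs1⟩ := sc_mem L y
    have hy := mk_sc L y
    set k := ⌊y⌋ with hkdef
    set s := sc L y with hsdef
    have hkd : ((k0 + k1 : ℕ) : ℤ) ≤ sg e * (k + d) := by
      push_cast at hk ⊢
      cases e <;> simp only [sg] at hk ⊢ <;> simp at hk ⊢ <;> omega
    have hom : ∀ (c : ℤ) (r : ℝ), om e (k + d + c) r = om e (k + 1 + c) r := by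
      intro c r
      rcases hd with rfl | rfl
      · rfl
      · rw [← om_add_two_mul e (k + -1 + c) 1 r]
        congr 1
        ring
    have hN : n ≤ MM (phi L) (k + d) :=
      (hk1 _ (le_trans (by omega) (sg_mul_h13 hkd))).trans (NN_le_MM _ _)
    have hN' : (n : ℝ) ≤ MM (phi L) (k + d) := by exact_mod_cast hN
    have h3 : 3 ≤ MM (phi L) (k + d) := by
      have : (3 : ℝ) ≤ MM (phi L) (k + d) := by linarith
      exact_mod_cast this
    have hsrc := hk0 e L k hL (by push_cast at hk; omega) s ⟨hs0, hs1.le⟩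
    have htgt := hk0 e (phi L) (k + d) hL' (by push_cast at hkd; omega)
      (lam (MM L k) (MM (phi L) (k + d)) s) ⟨lam_nonneg (by omega) hs0, lam_le hs1.le⟩
    rw [← hy, lap_mk L d k hs0 hs1]
    rcases le_total s (5 * MM L k - 1) with h1 | h1
    · refine ⟨k, s, by linarith, (hsrc.1 h1).trans (half_lt_self hε), ?_⟩
      have h2 := htgt.1 (lam_le_pred h1)
      have h4 := hom 0 (push s)
      rw [add_zero, add_zero] at h4
      rw [← h4]
      rcases lam_cases (M := MM L k) h3 hs0 h1 with h5 | ⟨h5, h6, h7⟩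
      · rw [h5] at h2 ⊢
        exact h2.trans (half_lt_self hε)
      · have h8 := dist_om_of_uu e (k + d) h7
        have h9 := hS _ (le_trans (by linarith) h5)
        have h10 := hS _ (le_trans (by linarith) h6)
        have h11 := thl_lt_one (lam (MM L k) (MM (phi L) (k + d)) s)
        have h12 := thl_lt_one (push s)
        have h13 : |thl (lam (MM L k) (MM (phi L) (k + d)) s) - thl (push s)| < ε / 2 :=
          abs_lt.2 ⟨by linarith, by linarith⟩
        have := dist_triangle (Phi (phi L, mk (phi L) (k + d) (lam (MM L k) (MM (phi L) (k + d)) s)))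
          (om e (k + d) (lam (MM L k) (MM (phi L) (k + d)) s)) (om e (k + d) (push s))
        linarith
    · refine ⟨k + 1, s - 5 * MM L k, by linarith, (hsrc.2 (by linarith)).trans (half_lt_self hε), ?_⟩
      have h2 := lam_last (one_le_MM L k) hM h1 hs1.le
      have h4 := htgt.2 (by rw [h2]; linarith)
      rw [push_of_nonpos (by linarith), ← hom 1]
      have h5 : lam (MM L k) (MM (phi L) (k + d)) s - 5 * MM (phi L) (k + d) = s - 5 * MM L k := by
        rw [h2]; ring
      rw [h5] at h4
      exact h4.trans (half_lt_self hε)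
  refine ⟨(k0 + k1 + 8 : ℕ), by positivity, fun e p t ht hp => ?_⟩
  have hc : (0 : ℝ) ≤ (k0 : ℝ) + k1 := by positivity
  push_cast at hp
  cases e
  · simp only [sg] at hp
    have hp' : yy p ≤ -((k0 : ℝ) + k1 + 8) := by
      simp at hp
      linarith
    have hneg : yy p < 0 := by linarith
    have hfl : ⌊yy p⌋ ≤ -((k0 + k1 + 8 : ℕ) : ℤ) := by
      have := Int.floor_le (yy p)
      have h1 : (⌊yy p⌋ : ℝ) ≤ ((-((k0 + k1 + 8 : ℕ) : ℤ) : ℤ) : ℝ) := by push_cast; linarith
      exact_mod_cast h1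
    rw [Ft_lo hneg.le, Phi_of_neg hneg]
    refine core false p.1 (yy p) 1 (Or.inl rfl) (fun h => absurd h (by simp))
      (fun h => absurd h (by simp)) (MM_phi_lo _ (by push_cast at hfl; omega)) ?_
    simp only [sg]
    push_cast at hfl ⊢
    omega
  · simp only [sg] at hp
    have hp' : (k0 : ℝ) + k1 + 8 ≤ yy p := by simpa using hp
    rcases p with ⟨τ | ⟨i, m⟩, y⟩
    · have hy : (k0 : ℝ) + k1 + 8 ≤ y := hp'
      have hfl : ((k0 + k1 + 8 : ℕ) : ℤ) ≤ ⌊y⌋ := Int.le_floor.2 (by push_cast; exact hy)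
      rw [Ft_hi ht (by linarith)]
      refine core true (Sum.inl τ) y (dd τ) (dd_cases τ) (fun _ => ⟨_, rfl⟩) (fun _ => ⟨_, rfl⟩)
        (MM_phi_hi (Sum.inl τ) (by push_cast at hfl; omega)) ?_
      simp only [sg]
      push_cast at hfl ⊢
      omega
    · have := yy_ray_le i m y
      linarith

lemma eventually_deep {e : Bool} {w : Cyl} (hw : w ∈ WW e) (R : ℝ) :
    ∀ᶠ x in 𝓝[KS] w, x ∈ WW e ∨ ∃ p, x = Phi p ∧ R ≤ (sg e : ℝ) * yy p := by
  have hZ := isClosed_deep (!e) (-R)
  have hwZ : w ∉ Phi '' {p | -R ≤ (sg (!e) : ℝ) * yy p} ∪ WW (!e) := by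
    rintro (⟨p, -, rfl⟩ | h)
    · exact notMem_WW_of_DD (Phi_mem_DD p) e hw
    · cases e
      · have h1 := snd_of_WW_false hw
        have h2 := snd_of_WW_true h
        linarith [h1.2, h2.1]
      · have h1 := snd_of_WW_false h
        have h2 := snd_of_WW_true hw
        linarith [h1.2, h2.1]
  filter_upwards [self_mem_nhdsWithin, mem_nhdsWithin_of_mem_nhds (hZ.isOpen_compl.mem_nhds hwZ)]
    with x hx hxZ
  rcases mem_KS_cases hx with ⟨p, rfl⟩ | ⟨e', h⟩
  · refine Or.inr ⟨p, rfl, ?_⟩
    by_contra hlt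
    refine hxZ (Or.inl ⟨p, ?_, rfl⟩)
    show -R ≤ (sg (!e) : ℝ) * yy p
    cases e <;> simp [sg] at hlt ⊢ <;> linarith
  · left
    by_cases he : e' = e
    · rwa [he] at h
    · refine absurd (Or.inr ?_) hxZ
      have : e' = !e := by cases e <;> cases e' <;> simp_all
      rwa [this] at h

theorem free_map : ∃ g : KS × unitInterval → KS × unitInterval, Continuous g ∧ ∀ p, g p ≠ p := by
  classical
  choose P hPc hP using exists_endMap
  let FF : Cyl × unitInterval → Cyl := fun q =>
    if q.1 ∈ DD then Phi (Ft (par q.1) q.2) else P (decide (0 ≤ q.1.2)) q.1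
  let xc : Cyl → ℝ := fun x => if x ∈ DD then c4 (yc x) else if 0 ≤ x.2 then 4 else 0
  have hdec : ∀ {e : Bool} {w : Cyl}, w ∈ WW e → decide (0 ≤ w.2) = e := by
    intro e w hw
    cases e
    · have := (snd_of_WW_false hw).2
      exact decide_eq_false (by linarith)
    · have := (snd_of_WW_true hw).1
      exact decide_eq_true (by linarith)
  have hFD : ∀ (p : Par) (t : unitInterval), FF (Phi p, t) = Phi (Ft p t) := by
    intro p t
    simp only [FF, if_pos (Phi_mem_DD p)]
    exact Ft_descent t.2.2 (Phi_par (Phi_mem_DD p))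
  have hFW : ∀ {e : Bool} {w : Cyl}, w ∈ WW e → ∀ t : unitInterval, FF (w, t) = P e w := by
    intro e w hw t
    have : w ∉ DD := fun h => notMem_WW_of_DD h e hw
    simp only [FF, if_neg this, hdec hw]
  have hmaps : ∀ x ∈ KS, ∀ t, FF (x, t) ∈ KS := by
    intro x hx t
    rcases mem_KS_cases hx with ⟨p, rfl⟩ | ⟨e, h⟩
    · rw [hFD]; exact Phi_mem_KS _
    · rw [hFW h]
      obtain ⟨k, s, hs, rfl⟩ := mem_iUnion.1 h
      rw [hP e k s hs]
      exact om_mem_KS e _ (le_trans hs (le_push s))
  have hFc : ContinuousOn FF (KS ×ˢ univ) := by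
    rintro ⟨x, t⟩ ⟨hx, -⟩
    rcases mem_KS_cases hx with ⟨p, rfl⟩ | ⟨e, hw⟩
    · refine descent FF (fun q => Phi (Ft q.1 q.2)) (yy p - 1) ?_ (fun p t _ => hFD p t) p t
        (by linarith)
      exact continuous_Phi.comp (continuous_Ft.comp
        (continuous_fst.prodMk (continuous_subtype_val.comp continuous_snd)))
    · simp only at hw
      rw [ContinuousWithinAt, hFW hw, Metric.tendsto_nhds]
      intro ε hε
      obtain ⟨δ, hδ, hδP⟩ := Metric.continuousAt_iff.1 (hPc e).continuousAt (ε / 2) (half_pos hε)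
      obtain ⟨R, -, hR⟩ := Ft_shadow (lt_min (half_pos hδ) (half_pos hε))
      have h1 : ∀ᶠ x' in 𝓝[KS] x, dist x' x < δ / 2 :=
        mem_nhdsWithin_of_mem_nhds (Metric.ball_mem_nhds x (half_pos hδ))
      have h2 : Tendsto (fun q : Cyl × unitInterval => q.1) (𝓝[KS ×ˢ univ] (x, t)) (𝓝[KS] x) :=
        continuous_fst.continuousWithinAt.tendsto_nhdsWithin fun q hq => hq.1
      filter_upwards [h2.eventually ((eventually_deep hw R).and h1)] with q hq
      obtain ⟨q1, q2⟩ := q
      obtain ⟨h3 | ⟨p, rfl, hp⟩, h4⟩ := hq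
      · rw [hFW h3]
        exact (hδP (h4.trans (half_lt_self hδ))).trans (half_lt_self hε)
      · obtain ⟨k, s, hs, h5, h6⟩ := hR e p q2 q2.2.2 hp
        rw [hFD]
        have h7 : dist (om e k s) x < δ := by
          have := dist_triangle_left (om e k s) x (Phi p)
          have := min_le_left (δ / 2) (ε / 2)
          simp only at h4
          linarith
        have h8 := hδP h7
        rw [hP e k s hs] at h8
        have := dist_triangle (Phi (Ft p q2)) (om e (k + 1) (push s)) (P e x)
        have := min_le_right (δ / 2) (ε / 2)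
        linarith
  have hxc : ContinuousOn xc KS := by
    intro x hx
    rcases mem_KS_cases hx with hD | ⟨e, hw⟩
    · refine (continuous_c4.continuousAt.comp_continuousWithinAt
        (continuousWithinAt_yc hD)).congr_of_eventuallyEq ?_ (by simp only [xc, if_pos hD]; rfl)
      filter_upwards [DD_mem_nhdsWithin hD] with x' hx'
      simp only [xc, if_pos hx']
      rfl
    · have hval : ∀ w ∈ WW e, xc w = if e then 4 else 0 := by
        intro w hw
        have h1 : w ∉ DD := fun h => notMem_WW_of_DD h e hw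
        have h2 := hdec hw
        simp only [xc, if_neg h1]
        cases e
        · rw [if_neg (of_decide_eq_false h2)]; rfl
        · rw [if_pos (of_decide_eq_true h2)]; rfl
      refine (continuousWithinAt_const (b := if e then (4 : ℝ) else 0)).congr_of_eventuallyEq ?_
        (hval x hw)
      filter_upwards [eventually_deep hw 4] with x' hx'
      rcases hx' with h | ⟨p, rfl, hp⟩
      · exact hval x' h
      · simp only [xc, if_pos (Phi_mem_DD p), yc_Phi]
        cases e
        · simp [sg] at hp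
          exact c4_of_nonpos (by linarith)
        · simp [sg] at hp
          exact c4_of_ge hp
  have hv1 : Continuous fun q : KS × unitInterval => (q.1 : Cyl) :=
    continuous_subtype_val.comp continuous_fst
  refine ⟨fun q => (⟨FF (q.1, q.2), hmaps _ q.1.2 _⟩,
    ⟨cl (20 * pp (xc q.1) q.2 - 14), cl_nonneg _, cl_le_one _⟩), ?_, ?_⟩
  · refine Continuous.prodMk (Continuous.subtype_mk ?_ _) (Continuous.subtype_mk ?_ _)
    · exact hFc.comp_continuous (hv1.prodMk continuous_snd) fun q => ⟨q.1.2, mem_univ _⟩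
    · have h1 : Continuous fun q : KS × unitInterval => xc q.1 :=
        hxc.comp_continuous hv1 fun q => q.1.2
      exact continuous_cl.comp ((continuous_const.mul (continuous_pp.comp
        (h1.prodMk (continuous_subtype_val.comp continuous_snd)))).sub continuous_const)
  · rintro ⟨⟨x, hx⟩, t⟩ h
    have h1 : FF (x, t) = x := congrArg (fun q : KS × unitInterval => (q.1 : Cyl)) h
    have h2 : cl (20 * pp (xc x) t - 14) = t := congrArg (fun q : KS × unitInterval => (q.2 : ℝ)) h
    rcases mem_KS_cases hx with ⟨p, rfl⟩ | ⟨e, hw⟩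
    · rw [hFD] at h1
      simp only [xc, if_pos (Phi_mem_DD p), yc_Phi] at h2
      exact Ft_free t.2.1 t.2.2 h1 h2
    · rw [hFW hw] at h1
      obtain ⟨k, s, hs, rfl⟩ := mem_iUnion.1 hw
      rw [hP e k s hs] at h1
      obtain ⟨-, ⟨m, hm⟩, -⟩ := om_inj (le_trans hs (le_push s)) hs h1
      omega

end Pool.Agent.Lib.MP_3a0c72_gt.Bing
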