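import Pool.Agent.Lib.MP_3a0c72_gt.Bing.Fpp
import Pool.Agent.Lib.MP_3a0c72_gt.Bing.Free2

/-! Transport to the plane. -/

set_option autoImplicit false

noncomputable section

open Set Filter Topology

namespace Pool.Agent.Lib.MP_3a0c72_gt.Bing

theorem planar_counterexample : ∃ K : Set (EuclideanSpace ℝ (Fin 2)), IsCompact K ∧ IsConnected K ∧
    (∀ f : K → K, Continuous f → ∃ x, f x = x) ∧
    ∃ g : K × unitInterval → K × unitInterval, Continuous g ∧ ∀ p, g p ≠ p := by
  obtain ⟨E0, hE0, hE0i⟩ := exists_embedding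
  let T : (ℝ × ℝ) ≃ₜ EuclideanSpace ℝ (Fin 2) :=
    (Homeomorph.finTwoArrow (X := ℝ)).symm.trans (EuclideanSpace.equiv (Fin 2) ℝ).toHomeomorph.symm
  let E : Cyl → EuclideanSpace ℝ (Fin 2) := fun x => T (E0 x)
  have hE : Continuous E := T.continuous.comp hE0
  have hEi : Function.Injective E := T.injective.comp hE0i
  have : CompactSpace KS := isCompact_iff_compactSpace.1 isCompact_KS
  let φ0 : KS ≃ (E '' KS) := Equiv.Set.image E KS hEi
  have hφ0 : Continuous φ0 := by
    refine Continuous.subtype_mk (hE.comp continuous_subtype_val) _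
  let φ : KS ≃ₜ (E '' KS) := hφ0.homeoOfEquivCompactToT2
  refine ⟨E '' KS, isCompact_KS.image hE, isConnected_KS.image _ hE.continuousOn, ?_, ?_⟩
  · intro f hf
    obtain ⟨x, hx⟩ := fpp (fun x => φ.symm (f (φ x))) (by fun_prop)
    exact ⟨φ x, by simpa using congrArg φ hx⟩
  · obtain ⟨g, hg, hfree⟩ := free_map
    let ψ : (KS × unitInterval) ≃ₜ ((E '' KS) × unitInterval) := φ.prodCongr (Homeomorph.refl _)
    refine ⟨fun p => ψ (g (ψ.symm p)), by fun_prop, fun p hp => hfree (ψ.symm p) ?_⟩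
    simpa using congrArg ψ.symm hp

end Pool.Agent.Lib.MP_3a0c72_gt.Bing
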