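import Pool.Agent.Lib.MP_3a0c72_gt.Bing.Paths

/-! Fixed points on a class and the gadget. -/

set_option autoImplicit false

noncomputable section

open Set Filter Topology

namespace Pool.Agent.Lib.MP_3a0c72_gt.Bing

lemma cont_yc_h6 {X : Type*} [TopologicalSpace X] {γ : X → Cyl} (hγ : Continuous γ)
    (hD : ∀ x, γ x ∈ DD) : Continuous fun x => yc (γ x) :=
  ContinuousOn.comp_continuous (g := yc) (s := DD)
    (fun _ hx => (continuousWithinAt_yc hx).mono DD_subset_KS) hγ hD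

lemma cont_pc_h6 {X : Type*} [TopologicalSpace X] {γ : X → Cyl} (hγ : Continuous γ)
    (hD : ∀ x, γ x ∈ DD) : Continuous fun x => pc (γ x) :=
  ContinuousOn.comp_continuous (g := pc) (s := DD)
    (fun _ hx => (continuousWithinAt_pc hx).mono DD_subset_KS) hγ hD

lemma ivt_h6 {f : ℝ → ℝ} (hf : Continuous f) {a b c : ℝ} (hab : a ≤ b) (ha : f a ≤ c)
    (hb : c ≤ f b) : ∃ y, a ≤ y ∧ y ≤ b ∧ f y = c := by
  obtain ⟨y, hy, e⟩ := intermediate_value_Icc hab hf.continuousOn ⟨ha, hb⟩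
  exact ⟨y, hy.1, hy.2, e⟩

lemma fix_h6 {f : ℝ → ℝ} (hf : Continuous f) {a b : ℝ} (hab : a ≤ b) (ha : a ≤ f a)
    (hb : f b ≤ b) : ∃ y, a ≤ y ∧ y ≤ b ∧ f y = y := by
  obtain ⟨y, h1, h2, e⟩ := ivt_h6 (f := fun y => y - f y) (c := 0) (continuous_id.sub hf) hab
    (sub_nonpos.2 ha) (sub_nonneg.2 hb)
  exact ⟨y, h1, h2, (sub_eq_zero.1 e).symm⟩

lemma first_h6 {f : ℝ → ℝ} (hf : Continuous f) {a b : ℝ} (hab : a ≤ b) (ha : a ≤ f a)
    (hb : f b ≤ b) : ∃ y, a ≤ y ∧ f y = y ∧ ∀ z, a ≤ z → z ≤ y → z ≤ f z := by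
  obtain ⟨y0, h1, h2, h3⟩ := fix_h6 hf hab ha hb
  have hc : IsCompact (Icc a b ∩ {y | f y = y}) :=
    isCompact_Icc.inter_right (isClosed_eq hf continuous_id)
  obtain ⟨y, ⟨hy, e⟩, hl⟩ := hc.exists_isLeast ⟨y0, ⟨h1, h2⟩, h3⟩
  refine ⟨y, hy.1, e, fun z z1 z2 => ?_⟩
  by_contra hz
  obtain ⟨w, w1, w2, w3⟩ := fix_h6 hf z1 ha (not_le.1 hz).le
  have : y ≤ w := hl ⟨⟨w1, w2.trans (z2.trans hy.2)⟩, w3⟩
  obtain rfl : z = y := le_antisymm z2 (this.trans w2)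
  exact hz (le_of_eq (Eq.symm e))

lemma class_h6 (τ : Word) : ∃ g : ℕ, ∀ b b', Sim (Sum.inl b) (Sum.inl τ) →
    Sim (Sum.inl b') (Sum.inl τ) → (∀ j, g < j → NB j b = NB j b') ∧ (NB g b = NB g b' → b = b') := by
  rcases class_cases τ with h | ⟨τ1, g, h1, h2, h3⟩
  · refine ⟨0, fun b b' hb hb' => ?_⟩
    rw [h b (sim_word_iff.1 hb), h b' (sim_word_iff.1 hb')]
    exact ⟨fun _ _ => rfl, fun _ => rfl⟩
  · refine ⟨g, fun b b' hb hb' => ?_⟩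
    rcases h3 b (sim_word_iff.1 hb) with rfl | rfl <;>
      rcases h3 b' (sim_word_iff.1 hb') with rfl | rfl
    · exact ⟨fun _ _ => rfl, fun _ => rfl⟩
    · exact ⟨fun j hj => (h1 j hj).symm, fun e => absurd e.symm h2⟩
    · exact ⟨h1, fun e => absurd e h2⟩
    · exact ⟨fun _ _ => rfl, fun _ => rfl⟩

lemma tree_word {H : Cyl → Cyl} (hH : Free H) (τ : Word)
    (h : ∀ τ', Sim (Sum.inl τ') (Sum.inl τ) →
      (∀ σ, H (Phi (Sum.inl τ', σ)) ∈ DD ∧ Sim (par (H (Phi (Sum.inl τ', σ)))).1 (Sum.inl τ)) ∧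
      (∀ b : ℝ, ∃ y ≤ b, y < yc (H (Phi (Sum.inl τ', y)))) ∧
      (∀ b : ℝ, ∃ y, b ≤ y ∧ yc (H (Phi (Sum.inl τ', y))) < y)) : False := by
  obtain ⟨g, hg⟩ := class_h6 τ
  have glue : ∀ b b', Sim (Sum.inl b) (Sum.inl τ) → Sim (Sum.inl b') (Sum.inl τ) →
      ∀ y ≤ -(g : ℝ), Phi (Sum.inl b, y) = Phi (Sum.inl b', y) := fun b b' hb hb' y hy =>
    Phi_glue_word fun j hj => (hg b b' hb hb').1 j (by exact_mod_cast (by linarith : (g : ℝ) < j))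
  obtain ⟨h0, -, -⟩ := h τ (Sim.refl _)
  obtain ⟨b, hb, e0⟩ := word_rep (h0 (-g)).1 (h0 (-g)).2
  rw [glue τ b (Sim.refl _) hb _ le_rfl] at e0
  obtain ⟨h1, h2, h3⟩ := h b hb
  have hc := cont_yc_h6 (hH.cont_leaf (Sum.inl b)) fun σ => (h1 σ).1
  rcases le_or_gt (yc (H (Phi (Sum.inl b, -(g : ℝ))))) (-g) with c | c
  · obtain ⟨a, a1, a2⟩ := h2 (-g)
    obtain ⟨y, -, y2, y3⟩ := fix_h6 hc a1 a2.le c
    obtain ⟨b', hb', e⟩ := word_rep (h1 y).1 (h1 y).2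
    rw [y3, glue b' b hb' hb y y2] at e
    exact hH.free _ (Phi_mem_KS _) e
  · obtain ⟨a, a1, a2⟩ := h3 (-g)
    obtain ⟨y, y1, y2, y3⟩ := first_h6 hc a1 c.le a2.le
    have k : ∀ z ∈ Icc (-(g : ℝ)) y, -(g : ℝ) < yc (H (Phi (Sum.inl b, z))) := fun z hz => by
      rcases hz.1.eq_or_lt with rfl | d
      · exact c
      · exact d.trans_le (y3 z hz.1 hz.2)
    have j := path_Jc isPreconnected_Icc (hH.cont_leaf (Sum.inl b)).continuousOn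
      (fun z hz => ⟨(h1 z).1, k z hz⟩) (left_mem_Icc.2 y1) (right_mem_Icc.2 y1)
    obtain ⟨b', hb', e⟩ := word_rep (h1 y).1 (h1 y).2
    have j1 := Jc_Phi (Sum.inl b, yc (H (Phi (Sum.inl b, -(g : ℝ))))) (j := g) c
    have j2 := Jc_Phi (Sum.inl b', yc (H (Phi (Sum.inl b, y)))) (j := g) (k y (right_mem_Icc.2 y1))
    rw [← e0] at j1
    rw [← e] at j2
    have j3 : (NB g b : ℤ) = NB g b' := (j1.symm.trans j).trans j2
    rw [y2, ← (hg b b' hb hb').2 (by exact_mod_cast j3)] at e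
    exact hH.free _ (Phi_mem_KS _) e

lemma lift_h6 {γ : ℝ → Cyl} (hγ : Continuous γ) {i : Fin 5} {n : ℕ∞} (hn : n ≠ ⊤)
    (h : ∀ σ, γ σ ∈ DD ∧ Sim (par (γ σ)).1 (Sum.inr (i, n))) : ∃ a : ℝ → ℝ, Continuous a ∧
      ∀ σ, γ σ = Phi (Sum.inr (i, n), a σ) ∧ a σ ≤ rE i ∧ yc (γ σ) = ppi i (a σ) := by
  have h1 := cont_yc_h6 hγ fun σ => (h σ).1
  have h2 := cont_pc_h6 hγ fun σ => (h σ).1
  refine ⟨fun σ => sgc i n (γ σ), ?_, fun σ => ray_rep (h σ).1 hn (h σ).2⟩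
  unfold sgc
  fun_prop

lemma ppi_le_h6 (i : Fin 5) (σ : ℝ) : ppi i σ ≤ σ := by
  have : 0 ≤ fold i σ := le_max_left _ _
  unfold ppi
  linarith

lemma tree_ray {H : Cyl → Cyl} (hH : Free H) {i : Fin 5} {n : ℕ∞} (hn : n ≠ ⊤)
    (h : ∀ σ, H (Phi (Sum.inr (i, n), σ)) ∈ DD ∧
      Sim (par (H (Phi (Sum.inr (i, n), σ)))).1 (Sum.inr (i, n)))
    (hlo : ∀ b : ℝ, ∃ y ≤ b, y < yc (H (Phi (Sum.inr (i, n), y)))) : False := by
  obtain ⟨a, ha, h1⟩ := lift_h6 (hH.cont_leaf _) hn h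
  obtain ⟨y, y1, y2⟩ := hlo (rE i)
  rw [(h1 y).2.2] at y2
  obtain ⟨z, -, -, e⟩ := fix_h6 ha y1 (y2.le.trans (ppi_le_h6 _ _)) (h1 _).2.1
  exact hH.free _ (Phi_mem_KS _) (by rw [(h1 z).1, e])

lemma pos_ray_h6 (i : Fin 5) (n : ℕ∞) (σ : ℝ) : pos (Sum.inr (i, n), σ) ≤ 0 := by
  have h1 : 0 ≤ wt n := by unfold wt; split_ifs <;> positivity
  have h2 : ((i : ℕ) : ℝ) ≤ 4 := by exact_mod_cast Nat.le_of_lt_succ i.2
  have h3 : rc i ≤ 4 := by fin_cases i <;> simp [rc] <;> norm_num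
  have h4 : fold i (min σ (rE i)) ≤ 4 := max_le (by norm_num) ((min_le_right _ _).trans h3)
  show -(wt n / 4) * (1 - (((i : ℕ) : ℝ) + fold i (min σ (rE i)) / 8) / 10) ≤ 0
  nlinarith

lemma onJ0_h6 {τ : Word} {y : ℝ} (h : pos (Sum.inl τ, y) ≤ 0) :
    Phi (Sum.inl τ, y) = Phi (J0, y) := by
  refine Phi_glue_word fun j hj => ?_
  have h0 : ∀ j, 0 ≤ gam j (ang (Sum.inl τ) y) * (NB j τ : ℝ) := fun j =>
    mul_nonneg (mul_nonneg (by positivity) (cl_nonneg _)) (Nat.cast_nonneg _)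
  have h1 := ((summable_pos τ _).le_tsum j fun k _ => h0 k).trans h
  have h2 := (gam_pos_iff (Sum.inl τ) j y).2 hj
  rw [NB_w0]
  by_contra hc
  have : (0 : ℝ) < NB j τ := Nat.cast_pos.2 (Nat.pos_of_ne_zero hc)
  exact absurd (mul_pos h2 this) (not_lt.2 h1)

lemma top_h6 {i : Fin 5} (hi : i ≠ 0 ∧ i ≠ 3) {y : ℝ} (hy : y ≤ rE i) :
    Phi (Sum.inr (i, ⊤), y) = Phi (J0, y) := by
  have h1 : rc i = 0 := by fin_cases i <;> simp [rc] at hi ⊢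
  have h2 : yy (Sum.inr (i, ⊤), y) = y := by
    show ppi i (min y (rE i)) = y
    rw [min_eq_left hy, ppi, fold, h1, max_eq_left (min_le_right _ _)]
    ring
  rw [Phi_top, h2]

lemma gadget {H : Cyl → Cyl} (hH : Free H) (hD : ∀ L σ, H (Phi (L, σ)) ∈ DD) {τ : Word}
    (hJ : Sim (par (H (Phi (J0, 0)))).1 (Sum.inl τ))
    (hlo : ∀ b : ℝ, ∃ y ≤ b, y < yc (H (Phi (J0, y))) ∧ yc (H (Phi (J0, y))) < y + 2)
    {n0 : ℕ} (hray : ∀ n : ℕ, n0 ≤ n → ∀ i : Fin 5, i ≠ 0 ∧ i ≠ 3 → ∃ n', n' ≠ ⊤ ∧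
      Sim (par (H (Phi (Sum.inr (i, (n : ℕ∞)), 0)))).1 (Sum.inr (i - 1, n'))) : False := by
  have hsim : ∀ L σ, Sim (par (H (Phi (L, σ)))).1 (par (H (Phi (L, 0)))).1 := fun L σ =>
    path_sim isPreconnected_univ (hH.cont_leaf L).continuousOn (fun x _ => hD L x)
      (mem_univ σ) (mem_univ 0)
  have hlift : ∀ n : ℕ, n0 ≤ n → ∀ i : Fin 5, i ≠ 0 ∧ i ≠ 3 → ∃ (n' : ℕ∞) (a : ℝ → ℝ),
      Continuous a ∧ ∀ σ, H (Phi (Sum.inr (i, (n : ℕ∞)), σ)) = Phi (Sum.inr (i - 1, n'), a σ) ∧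
        a σ ≤ rE (i - 1) ∧ yc (H (Phi (Sum.inr (i, (n : ℕ∞)), σ))) = ppi (i - 1) (a σ) := by
    intro n hn i hi
    obtain ⟨n', h1, h2⟩ := hray n hn i hi
    exact ⟨n', lift_h6 (hH.cont_leaf _) h1 fun σ => ⟨hD _ _, (hsim _ σ).trans h2⟩⟩
  have hc : ∀ i : Fin 5, Continuous fun z : ℕ∞ × ℝ => H (Phi (Sum.inr (i, z.1), z.2)) := fun i =>
    hH.cont_par.comp (f := fun z : ℕ∞ × ℝ => ((Sum.inr (i, z.1), z.2) : Par)) (by fun_prop)
  have hη := cont_yc_h6 (hH.cont_leaf J0) (hD J0)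
  have on0 : ∀ y ≤ (5 : ℝ), yc (H (Phi (J0, y))) ≠ y := by
    intro y hy e
    have c1 : Continuous fun n : ℕ∞ => pc (H (Phi (Sum.inr (4, n), y))) :=
      cont_pc_h6 ((hc 4).comp (f := fun n : ℕ∞ => (n, y)) (by fun_prop)) fun _ => hD _ _
    have c2 := le_of_tendsto ((c1.tendsto ⊤).comp ENat.tendsto_natCast_nhds_top) (b := 0)
      ((eventually_ge_atTop n0).mono fun n hn => by
        obtain ⟨n', a, -, h⟩ := hlift n hn 4 (by decide)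
        show pc (H (Phi (Sum.inr (4, (n : ℕ∞)), y))) ≤ 0
        rw [(h y).1, pc_Phi]
        exact pos_ray_h6 _ _ _)
    rw [top_h6 (by decide) hy] at c2
    obtain ⟨τ', -, e1⟩ := word_rep (hD J0 y) ((hsim J0 y).trans hJ)
    rw [e] at e1
    rw [e1, pc_Phi] at c2
    exact hH.free _ (Phi_mem_KS _) (e1.trans (onJ0_h6 c2))
  obtain ⟨y0, y1, y2, y3⟩ := hlo (-10)
  have up : ∀ y, y0 ≤ y → y ≤ 5 → y < yc (H (Phi (J0, y))) := fun y a b => by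
    by_contra c
    obtain ⟨z, -, z2, z3⟩ := fix_h6 hη a y2.le (not_lt.1 c)
    exact on0 z (z2.trans b) z3
  have tube : ∀ i : Fin 5, ∀ᶠ n : ℕ in atTop, i ≠ 0 ∧ i ≠ 3 → ∀ y ∈ Icc y0 (rE i),
      y < yc (H (Phi (Sum.inr (i, (n : ℕ∞)), y))) ∧
      |yc (H (Phi (Sum.inr (i, (n : ℕ∞)), y))) - yc (H (Phi (J0, y)))| < 1 / 2 := by
    intro i
    by_cases hi : i ≠ 0 ∧ i ≠ 3
    swap
    · exact Eventually.of_forall fun n h => absurd h hi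
    have r5 : rE i ≤ 5 := by fin_cases i <;> simp [rE] at hi ⊢ <;> norm_num
    have c1 := cont_yc_h6 (hc i) fun _ => hD _ _
    refine (ENat.tendsto_natCast_nhds_top.eventually
      (isCompact_Icc.eventually_forall_of_forall_eventually (K := Icc y0 (rE i))
        (P := fun n y => y < yc (H (Phi (Sum.inr (i, n), y))) ∧
          |yc (H (Phi (Sum.inr (i, n), y))) - yc (H (Phi (J0, y)))| < 1 / 2)
        fun y hy => ?_)).mono fun n h _ => h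
    refine ((isOpen_lt continuous_snd c1).inter (isOpen_lt (c1.sub (hη.comp continuous_snd)).abs
      continuous_const)).mem_nhds ⟨?_, ?_⟩
    · show y < yc (H (Phi (Sum.inr (i, ⊤), y)))
      rw [top_h6 hi hy.2]
      exact up y hy.1 (hy.2.trans r5)
    · show |yc (H (Phi (Sum.inr (i, ⊤), y))) - yc (H (Phi (J0, y)))| < 1 / 2
      rw [top_h6 hi hy.2, sub_self, abs_zero]
      norm_num
  obtain ⟨n, hn, ht⟩ := ((eventually_ge_atTop n0).and (eventually_all.2 tube)).exists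
  obtain ⟨_, a, ha, hA⟩ := hlift n hn 4 (by decide)
  obtain ⟨_, b, hb, hB⟩ := hlift n hn 1 (by decide)
  obtain ⟨_, c, -, hC⟩ := hlift n hn 2 (by decide)
  have tA : ∀ y, y0 ≤ y → y ≤ 5 → y < a y - 2 * max 0 (min (a y - 5) 3) ∧
      |a y - 2 * max 0 (min (a y - 5) 3) - yc (H (Phi (J0, y)))| < 1 / 2 := fun y h1 h2 => by
    have := ht 4 (by decide) y ⟨h1, h2⟩
    rwa [(hA y).2.2] at this
  have tB : ∀ y, y0 ≤ y → y ≤ 2 → y < b y - 2 * max 0 (min (b y - 4) 4) ∧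
      |b y - 2 * max 0 (min (b y - 4) 4) - yc (H (Phi (J0, y)))| < 1 / 2 := fun y h1 h2 => by
    have := ht 1 (by decide) y ⟨h1, h2⟩
    rwa [(hB y).2.2] at this
  have tC : ∀ y, y0 ≤ y → y ≤ 0 → yc (H (Phi (J0, y))) < 5 / 2 := fun y h1 h2 => by
    have h3 := (abs_lt.1 (ht 2 (by decide) y ⟨h1, h2⟩).2).1
    have h4 : c y ≤ 2 := (hC y).2.1
    rw [(hC y).2.2] at h3
    linarith [ppi_le_h6 (2 - 1) (c y)]
  have a0 : a y0 ≤ 5 := by
    have := (abs_lt.1 (tA y0 le_rfl (by linarith)).2).2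
    simp only [max_def, min_def] at this
    split_ifs at this <;> linarith
  have a5 : 8 ≤ a 5 := by
    have := (tA 5 (by linarith) le_rfl).1
    simp only [max_def, min_def] at this
    split_ifs at this <;> linarith
  obtain ⟨x2, p1, p2, p3⟩ := ivt_h6 ha (by linarith : y0 ≤ 5) (a0.trans (by norm_num)) a5
  obtain ⟨x1, q1, q2, q3⟩ := ivt_h6 ha p1 a0 (by linarith)
  have p4 := (tA x2 p1 p2).1
  have q4 := (abs_lt.1 (tA x1 q1 (q2.trans p2)).2).2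
  rw [p3] at p4
  rw [q3] at q4
  norm_num at p4 q4
  have b0 : b y0 ≤ 4 := by
    have := (abs_lt.1 (tB y0 le_rfl (by linarith)).2).2
    simp only [max_def, min_def] at this
    split_ifs at this <;> linarith
  have b1 : 8 ≤ b x1 := by
    have := (abs_lt.1 (tB x1 q1 (by linarith)).2).1
    simp only [max_def, min_def] at this
    split_ifs at this <;> linarith
  obtain ⟨x4, r1, r2, r3⟩ := ivt_h6 hb q1 (b0.trans (by norm_num)) b1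
  obtain ⟨x3, s1, s2, s3⟩ := ivt_h6 hb r1 b0 (by linarith)
  have r4 := (tB x4 r1 (by linarith)).1
  have s4 := (abs_lt.1 (tB x3 s1 (by linarith)).2).2
  rw [r3] at r4
  rw [s3] at s4
  norm_num at r4 s4
  linarith [tC x3 s1 (by linarith)]

end Pool.Agent.Lib.MP_3a0c72_gt.Bing
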