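import Pool.Agent.Lib.MP_3a0c72_gt.Bing.Dich
import Pool.Agent.Lib.MP_3a0c72_gt.Bing.Tree

/-! The continuum has the fixed point property. -/

set_option autoImplicit false

noncomputable section

open Set Filter Topology

namespace Pool.Agent.Lib.MP_3a0c72_gt.Bing

theorem not_free {H : Cyl → Cyl} (hH : Free H) : False := by
  have hlo : ∀ L : Leaf, HasEnd false L := fun L h => absurd h (by simp)
  have hhi : ∀ τ : Word, HasEnd true (Sum.inl τ) := fun τ _ => ⟨τ, rfl⟩
  have bdd_lo : ∀ {R y0 : ℝ} {Y : ℝ → ℝ}, (∀ y, y0 ≤ (sg false : ℝ) * y → |Y y| ≤ R) →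
      ∀ b : ℝ, ∃ y ≤ b, y < Y y := by
    intro R y0 Y h b
    refine ⟨min b (min (-y0) (-R - 1)), min_le_left _ _, ?_⟩
    have h1 : min b (min (-y0) (-R - 1)) ≤ -y0 := (min_le_right _ _).trans (min_le_left _ _)
    have h2 : min b (min (-y0) (-R - 1)) ≤ -R - 1 := (min_le_right _ _).trans (min_le_right _ _)
    have h3 := h (min b (min (-y0) (-R - 1))) (by simp only [sg]; push_cast; simp; linarith)
    have h4 := (abs_le.1 h3).1
    linarith
  have bdd_hi : ∀ {R y0 : ℝ} {Y : ℝ → ℝ}, (∀ y, y0 ≤ (sg true : ℝ) * y → |Y y| ≤ R) →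
      ∀ b : ℝ, ∃ y, b ≤ y ∧ Y y < y := by
    intro R y0 Y h b
    refine ⟨max b (max y0 (R + 1)), le_max_left _ _, ?_⟩
    have h1 : y0 ≤ max b (max y0 (R + 1)) := (le_max_left _ _).trans (le_max_right _ _)
    have h2 : R + 1 ≤ max b (max y0 (R + 1)) := (le_max_right _ _).trans (le_max_right _ _)
    have h3 := h (max b (max y0 (R + 1))) (by simp only [sg]; push_cast; simpa using h1)
    have h4 := (abs_le.1 h3).2
    linarith
  rcases dich hH false with ⟨L0, R, hC⟩ | ⟨s0, S, k0, hE⟩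
  · rcases dich hH true with ⟨L1, R', hC'⟩ | ⟨s0', S', k0', hE'⟩
    · rcases ray_or_word L0 with ⟨i, n, hn, rfl⟩ | ⟨τ, hτ⟩
      · obtain ⟨h1, y0, h2⟩ := hC _ (hlo (Sum.inr (i, n)))
        exact tree_ray hH hn h1 (bdd_lo h2)
      · refine tree_word hH τ fun τ' _ => ?_
        obtain ⟨h1, y0, h2⟩ := hC _ (hlo (Sum.inl τ'))
        obtain ⟨-, y1, h3⟩ := hC' _ (hhi τ')
        exact ⟨fun σ => ⟨(h1 σ).1, (h1 σ).2.trans hτ⟩, bdd_lo h2, bdd_hi h3⟩
    · obtain ⟨τ0, n0, -, hs0, ⟨lm0, k20, hc0⟩, -⟩ := ess_hi hH hE' (per 0)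
      obtain ⟨τ1, n1, -, hs1, ⟨lm1, k21, hc1⟩, -⟩ := ess_hi hH hE' (per 1)
      obtain ⟨r0, -, hr0⟩ := count_per hc0
      obtain ⟨r1, -, hr1⟩ := count_per hc1
      have h0 := ((hC _ (hlo (Sum.inl (per 0)))).1 0).2
      have h1 := ((hC _ (hlo (Sum.inl (per 1)))).1 0).2
      have hs : Sim (Sum.inl τ1) (Sum.inl τ0) :=
        (hs1.symm.trans h1).trans (h0.symm.trans hs0)
      obtain ⟨j0, hj0⟩ := sim_word_iff.1 hs
      have he : τ1 = τ0 := alone_of_ones (fun m => by
        obtain ⟨j, hj, h⟩ := per_ones 0 r0 m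
        exact ⟨j, hj, (hr0 j).trans h⟩) hj0
      exact per_zero_ne_one r0 r1 fun j => by rw [← hr0 j, ← hr1 j, he]
  · obtain ⟨jf, hjc, hodd, hgap, htop, hprog, hup⟩ := ess_lo hH hE
    have hconst : ∀ τ, jf (Sum.inl τ) = jf J0 :=
      tie (fun τ => jf (Sum.inl τ)) (hjc.comp continuous_inl) hgap
    have hpos : 0 < jf J0 := by
      have h1 := prog_J0_nonneg (hprog J0 _ (Sim.refl _))
      obtain ⟨m, hm⟩ := hodd J0
      omega
    have hword : ∃ τ, Sim (par (H (Phi (J0, 0)))).1 (Sum.inl τ) := by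
      rcases ray_or_word (par (H (Phi (J0, 0)))).1 with ⟨i, n, hn, h⟩ | h
      · have h1 := hprog J0 _ (Sim.refl _)
        rw [h] at h1
        exact absurd (prog_J0_ray h1) hn
      · exact h
    have hsim : ∀ L σ, Sim (par (H (Phi (L, σ)))).1 (par (H (Phi (L, 0)))).1 := fun L σ =>
      path_sim isPreconnected_univ (hH.cont_leaf L).continuousOn
        (fun x _ => hE.inD L (hlo L) x) (mem_univ σ) (mem_univ 0)
    rcases dich hH true with ⟨L1, R', hC'⟩ | ⟨s0', S', k0', hE'⟩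
    · obtain ⟨τ, hτ⟩ := hword
      have h0 := ((hC' _ (hhi w0)).1 0).2
      refine tree_word hH τ fun τ' _ => ?_
      obtain ⟨h1, y1, h3⟩ := hC' _ (hhi τ')
      refine ⟨fun σ => ⟨(h1 σ).1, (h1 σ).2.trans (h0.symm.trans hτ)⟩, fun b => ?_, bdd_hi h3⟩
      obtain ⟨y, hy, h4, -⟩ := hup (Sum.inl τ') (by rw [hconst]; exact hpos) b
      exact ⟨y, hy, h4⟩
    · by_cases hone : jf J0 = 1
      · obtain ⟨τ, hτ⟩ := hword
        have hev : ∀ i : Fin 5, ∀ᶠ n : ℕ in atTop, jf (Sum.inr (i, (n : ℕ∞))) = 1 := by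
          intro i
          have h1 : Continuous fun n : ℕ∞ => jf (Sum.inr (i, n)) :=
            hjc.comp (continuous_inr.comp (continuous_const.prodMk continuous_id))
          have h2 := (h1.tendsto ⊤).comp ENat.tendsto_natCast_nhds_top
          rw [htop i, hone] at h2
          simpa using h2
        obtain ⟨n0, hn0⟩ := eventually_atTop.1 (eventually_all.2 hev)
        refine gadget hH (fun L σ => hE.inD L (hlo L) σ) hτ (fun b => ?_) (n0 := n0)
          fun n hn i hi => ?_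
        · obtain ⟨y, hy, h4, h5⟩ := hup J0 hpos b
          rw [hone] at h5
          refine ⟨y, hy, h4, ?_⟩
          push_cast at h5
          linarith
        · have h1 := hprog (Sum.inr (i, (n : ℕ∞))) _ (Sim.refl _)
          rw [hn0 n hn i] at h1
          obtain ⟨n', hn', h2⟩ := prog_ray hi (ENat.natCast_ne_top n) h1
          exact ⟨n', hn', h2 ▸ Sim.refl _⟩
      · obtain ⟨a, ha⟩ : ∃ a : ℕ, jf J0 = 2 * a + 3 := by
          obtain ⟨m, hm⟩ := hodd J0
          exact ⟨(m - 1).toNat, by omega⟩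
        obtain ⟨τ', n, hn, hs, ⟨lm, k2, hc⟩, hdown⟩ := ess_hi hH hE' (per a)
        obtain ⟨r, hr, hτ'⟩ := count_per hc
        have h1 := hprog _ _ hs
        rw [hconst, ha] at h1
        have h2 : τ' = per a := prog_per hτ' h1
        have hneg : n < 0 := by
          obtain ⟨m, hm⟩ := hn
          omega
        refine tree_word hH (per a) fun τ'' h'' => ?_
        obtain ⟨j0, hj0⟩ := sim_word_iff.1 h''
        obtain rfl : τ'' = per a := alone_of_ones (fun m => by simpa using per_ones a 0 m) hj0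
        refine ⟨fun σ => ⟨hE.inD _ (hlo _) σ, (hsim _ σ).trans (h2 ▸ hs)⟩, fun b => ?_, hdown hneg⟩
        obtain ⟨y, hy, h4, -⟩ := hup (Sum.inl (per a)) (by rw [hconst]; exact hpos) b
        exact ⟨y, hy, h4⟩

theorem fpp (f : KS → KS) (hf : Continuous f) : ∃ x, f x = x := by
  classical
  by_contra hcon
  push Not at hcon
  refine not_free (H := fun x => if hx : x ∈ KS then (f ⟨x, hx⟩ : Cyl) else x) ⟨?_, ?_, ?_⟩
  · rw [continuousOn_iff_continuous_domRestrict]
    refine (continuous_subtype_val.comp hf).congr fun x => ?_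
    simp [x.2]
  · intro x hx
    simp [hx]
  · intro x hx h
    simp only [hx, dif_pos] at h
    exact hcon ⟨x, hx⟩ (Subtype.ext h)

end Pool.Agent.Lib.MP_3a0c72_gt.Bing
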