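import Pool.Agent.Lib.MP_3a0c72_gt.Bing.Defs

/-! Real analysis of one lap. -/

set_option autoImplicit false

noncomputable section

open Set Filter Topology

namespace Pool.Agent.Lib.MP_3a0c72_gt.Bing

lemma cl_nonneg (x : ℝ) : 0 ≤ cl x := le_max_left _ _
lemma cl_le_one (x : ℝ) : cl x ≤ 1 := max_le zero_le_one (min_le_right _ _)
lemma cl_of_nonpos {x : ℝ} (h : x ≤ 0) : cl x = 0 := max_eq_left ((min_le_left _ _).trans h)
lemma cl_of_one_le {x : ℝ} (h : 1 ≤ x) : cl x = 1 := by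
  rw [cl, min_eq_right h, max_eq_right zero_le_one]
lemma cl_of_mem {x : ℝ} (h0 : 0 ≤ x) (h1 : x ≤ 1) : cl x = x := by
  rw [cl, min_eq_left h1, max_eq_right h0]
lemma cl_mono : Monotone cl := fun _ _ h => max_le_max le_rfl (min_le_min h le_rfl)
lemma cl_pos {x : ℝ} (h : 0 < x) : 0 < cl x := lt_max_of_lt_right (lt_min h one_pos)
@[fun_prop] lemma continuous_cl : Continuous cl := by unfold cl; fun_prop

lemma cl_lt_h6 {x y : ℝ} (h0 : 0 ≤ x) (h1 : x < 1) (h : x < y) : cl x < cl y := by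
  rw [cl_of_mem h0 h1.le]
  exact lt_max_of_lt_right (lt_min h h1)
lemma abs_cl_sub_le_h6 (x y : ℝ) : |cl x - cl y| ≤ |x - y| := by
  have h1 := le_abs_self (x - y)
  have h2 := neg_abs_le (x - y)
  have h3 := abs_nonneg (x - y)
  unfold cl
  simp only [max_def, min_def]
  split_ifs <;> exact abs_le.2 ⟨by linarith, by linarith⟩
lemma uu_abs_h6 {s : ℝ} (h0 : -(5 / 2) ≤ s) (h1 : s ≤ 5 / 2) : uu s = cl (|s| - 1) := by
  rw [uu, (AddCircle.norm_coe_eq_abs_iff (5 : ℝ) (by norm_num)).2]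
  rw [abs_of_pos (by norm_num : (0 : ℝ) < 5)]
  exact abs_le.2 ⟨h0, h1⟩

lemma uu_nonneg (s : ℝ) : 0 ≤ uu s := cl_nonneg _
lemma uu_le_one (s : ℝ) : uu s ≤ 1 := cl_le_one _
lemma uu_add_int (s : ℝ) (m : ℤ) : uu (s + 5 * m) = uu s := by
  have h : ((5 * m : ℝ) : AddCircle (5 : ℝ)) = 0 :=
    (AddCircle.coe_eq_zero_iff _).2 ⟨m, by rw [zsmul_eq_mul, mul_comm]⟩
  rw [uu, uu, AddCircle.coe_add, h, add_zero]
lemma uu_sub_nat_h6 (s : ℝ) (m : ℕ) : uu (s - 5 * m) = uu s := by
  rw [← uu_add_int (s - 5 * m) m, Int.cast_natCast, sub_add_cancel]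
lemma uu_add_five_h6 (s : ℝ) : uu (s + 5) = uu s := by simpa using uu_add_int s 1
lemma uu_add_ten_h6 (s : ℝ) : uu (s + 10) = uu s := by
  rw [show s + 10 = s + 5 + 5 by ring, uu_add_five_h6, uu_add_five_h6]
lemma uu_eq_zero {s : ℝ} (h0 : -1 ≤ s) (h1 : s ≤ 1) : uu s = 0 := by
  rw [uu_abs_h6 (by linarith) (by linarith)]
  exact cl_of_nonpos (by linarith [abs_le.2 ⟨h0, h1⟩])
lemma uu_eq_one {s : ℝ} (h0 : 2 ≤ s) (h1 : s ≤ 3) : uu s = 1 := by
  rcases le_total s (5 / 2) with h | h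
  · rw [uu_abs_h6 (by linarith) h]
    exact cl_of_one_le (by linarith [le_abs_self s])
  · rw [show s = s - 5 + 5 by ring, uu_add_five_h6, uu_abs_h6 (by linarith) (by linarith)]
    exact cl_of_one_le (by linarith [neg_le_abs (s - 5)])
lemma uu_bar {s : ℝ} (h0 : -2 ≤ s) (h1 : s ≤ -1) : uu s = -1 - s := by
  rw [uu_abs_h6 (by linarith) (by linarith), abs_of_nonpos (by linarith),
    cl_of_mem (by linarith) (by linarith)]
  ring
lemma abs_uu_sub_le (s s' : ℝ) : |uu s - uu s'| ≤ |s - s'| := by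
  refine (abs_cl_sub_le_h6 _ _).trans ?_
  rw [sub_sub_sub_cancel_right]
  refine (abs_norm_sub_norm_le _ _).trans ?_
  rw [← AddCircle.coe_sub]
  exact QuotientAddGroup.norm_mk_le_norm
@[fun_prop] lemma continuous_uu : Continuous uu := by
  unfold uu
  exact continuous_cl.comp ((AddCircle.continuous_mk' (5 : ℝ)).norm.sub continuous_const)

lemma thl_eq_h6 (s : ℝ) : thl s = 1 - 3 / (max (s + 1) 0 + 3) := by
  have := le_max_right (s + 1) 0
  unfold thl
  field_simp
  ring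
lemma thl_nonneg (s : ℝ) : 0 ≤ thl s := by
  unfold thl
  positivity
lemma thl_lt_one (s : ℝ) : thl s < 1 := by
  have : 0 < 3 / (max (s + 1) 0 + 3) := by positivity
  rw [thl_eq_h6]
  linarith
lemma thl_mono : Monotone thl := by
  intro s s' h
  rw [thl_eq_h6, thl_eq_h6]
  gcongr
lemma thl_lt_thl {s s' : ℝ} (h : -1 ≤ s) (h' : s < s') : thl s < thl s' := by
  rw [thl_eq_h6, thl_eq_h6, max_eq_left (by linarith), max_eq_left (by linarith)]
  have : 0 < s + 1 + 3 := by linarith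
  gcongr
lemma thl_of_le {s : ℝ} (h : s ≤ -1) : thl s = 0 := by
  rw [thl, max_eq_right (by linarith), zero_div]
lemma thl_zero : thl 0 = 1 / 4 := by
  norm_num [thl]
lemma thl_one : thl 1 = 2 / 5 := by
  norm_num [thl]
lemma abs_thl_sub_le (s s' : ℝ) : |thl s - thl s'| ≤ |s - s'| := by
  have h1 := le_max_right (s + 1) 0
  have h2 := le_max_right (s' + 1) 0
  have h3 := abs_max_sub_max_le_abs (s + 1) (s' + 1) 0
  rw [add_sub_add_right_eq_sub] at h3
  refine le_trans ?_ h3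
  rw [thl_eq_h6, thl_eq_h6]
  generalize max (s + 1) 0 = a at h1 ⊢
  generalize max (s' + 1) 0 = b at h2 ⊢
  have e : 1 - 3 / (a + 3) - (1 - 3 / (b + 3)) = (a - b) * (3 / ((a + 3) * (b + 3))) := by
    field_simp
    ring
  rw [e, abs_mul]
  refine mul_le_of_le_one_right (abs_nonneg _) ?_
  rw [abs_of_pos (by positivity), div_le_one (by positivity)]
  nlinarith [mul_nonneg h1 h2]
@[fun_prop] lemma continuous_thl : Continuous thl := by
  unfold thl
  exact Continuous.div (by fun_prop) (by fun_prop) fun s => by positivity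
lemma thl_large {ε : ℝ} (hε : 0 < ε) : ∃ S : ℝ, 0 ≤ S ∧ ∀ s, S ≤ s → 1 - thl s < ε := by
  refine ⟨3 / ε, by positivity, fun s hs => ?_⟩
  have h1 := le_max_left (s + 1) 0
  rw [thl_eq_h6, sub_sub_cancel, div_lt_iff₀ (by positivity), ← div_lt_iff₀' hε]
  linarith

/-- Admissible lap data. -/
structure Good (N M : ℕ) (A B : ℝ) : Prop where
  one_le : 1 ≤ N
  le : N ≤ M
  pos : 0 < A
  lt : A < B
  small : B ≤ 1 / 8

lemma Good.cast_h6 {N M : ℕ} {A B : ℝ} (h : Good N M A B) : (1 : ℝ) ≤ N ∧ (N : ℝ) ≤ M :=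
  ⟨by exact_mod_cast h.one_le, by exact_mod_cast h.le⟩
lemma Th_mono_h6 {N M : ℕ} {A B : ℝ} (h : Good N M A B) : Monotone (Th N M A B) := by
  intro s s' hs
  obtain ⟨c1, c2⟩ := h.cast_h6
  have a1 := thl_mono (min_le_min_right (5 * (N : ℝ) - 3) hs)
  have a2 := mul_le_mul_of_nonneg_left (cl_mono (sub_le_sub_right hs (5 * N - 3)))
    (by linarith [h.pos, thl_lt_one (5 * N - 3)] : 0 ≤ 1 + A - thl (5 * N - 3))
  have a3 := mul_le_mul_of_nonneg_left (cl_mono (div_le_div_of_nonneg_right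
    (sub_le_sub_right hs (5 * N - 2)) (by linarith : 0 ≤ 5 * ((M : ℝ) - N) + 1)))
    (by linarith [h.lt] : 0 ≤ B - A)
  have a4 := mul_le_mul_of_nonneg_left (thl_mono (sub_le_sub_right hs (5 * M)))
    (by linarith [h.small] : 0 ≤ 1 - 4 * B)
  unfold Th
  linarith
lemma Th_late_h6 {N M : ℕ} {A B s : ℝ} (hs : 5 * N - 2 ≤ s) : Th N M A B s =
    1 + A + (B - A) * cl ((s - (5 * N - 2)) / (5 * ((M : ℝ) - N) + 1))
      + (1 - 4 * B) * thl (s - 5 * M) := by
  rw [Th, min_eq_right (by linarith), cl_of_one_le (by linarith)]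
  ring
lemma Th_last_h6 {N M : ℕ} {A B s : ℝ} (h : Good N M A B) (hs : 5 * M - 1 ≤ s) :
    Th N M A B s = 1 + B + (1 - 4 * B) * thl (s - 5 * M) := by
  obtain ⟨c1, c2⟩ := h.cast_h6
  rw [Th_late_h6 (by linarith), cl_of_one_le ((one_le_div (by linarith)).2 (by linarith))]
  ring
lemma Th_top_h6 {N M : ℕ} {A B : ℝ} (h : Good N M A B) : Th N M A B (5 * M - 1) = 1 + B := by
  rw [Th_last_h6 h le_rfl, thl_of_le (by linarith)]
  ring
lemma Th_ge_h6 {N M : ℕ} {A B s : ℝ} (h : Good N M A B) (hs : 5 * N - 2 ≤ s) :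
    1 + A ≤ Th N M A B s := by
  have a3 := mul_nonneg (by linarith [h.lt] : 0 ≤ B - A)
    (cl_nonneg ((s - (5 * N - 2)) / (5 * ((M : ℝ) - N) + 1)))
  have a4 := mul_nonneg (by linarith [h.small] : 0 ≤ 1 - 4 * B) (thl_nonneg (s - 5 * M))
  rw [Th_late_h6 hs]
  linarith
lemma uu_top_h6 {N : ℕ} {s : ℝ} (h0 : 5 * N - 3 ≤ s) (h1 : s ≤ 5 * N - 2) : uu s = 1 := by
  rw [← uu_sub_nat_h6 s N, ← uu_add_five_h6]
  exact uu_eq_one (by linarith) (by linarith)
lemma uu_last_h6 {M : ℕ} {s : ℝ} (h0 : 5 * M - 1 ≤ s) (h1 : s ≤ 5 * M) : uu s = 0 := by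
  rw [← uu_sub_nat_h6 s M]
  exact uu_eq_zero (by linarith) (by linarith)

lemma Th_link {N M : ℕ} {A B s : ℝ} (h : Good N M A B) (hs : s ≤ 5 * N - 3) :
    Th N M A B s = thl s := by
  obtain ⟨c1, c2⟩ := h.cast_h6
  rw [Th, min_eq_left hs, cl_of_nonpos (by linarith), cl_of_nonpos
    (div_nonpos_of_nonpos_of_nonneg (by linarith) (by linarith)), thl_of_le (s := s - 5 * M)
    (by linarith)]
  ring
lemma Th_zero {N M : ℕ} {A B : ℝ} (h : Good N M A B) : Th N M A B 0 = 1 / 4 := by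
  rw [Th_link h (by linarith [h.cast_h6.1]), thl_zero]
lemma Th_end {N M : ℕ} {A B : ℝ} (h : Good N M A B) : Th N M A B (5 * M) = 5 / 4 := by
  rw [Th_last_h6 h (by linarith), sub_self, thl_zero]
  ring
lemma Th_lt_Th {N M : ℕ} {A B s s' : ℝ} (h : Good N M A B) (h0 : 0 ≤ s) (h1 : s < s')
    (h2 : s' ≤ 5 * M) : Th N M A B s < Th N M A B s' := by
  obtain ⟨c1, c2⟩ := h.cast_h6
  have hs := h1.le
  have p2 : 0 < 1 + A - thl (5 * N - 3) := by linarith [h.pos, thl_lt_one (5 * N - 3)]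
  have p3 : 0 < B - A := by linarith [h.lt]
  have p4 : 0 < 1 - 4 * B := by linarith [h.small]
  have p5 : 0 < 5 * ((M : ℝ) - N) + 1 := by linarith
  have a1 := thl_mono (min_le_min_right (5 * (N : ℝ) - 3) hs)
  have a2 := mul_le_mul_of_nonneg_left (cl_mono (sub_le_sub_right hs (5 * N - 3))) p2.le
  have a3 := mul_le_mul_of_nonneg_left (cl_mono (div_le_div_of_nonneg_right
    (sub_le_sub_right hs (5 * N - 2)) p5.le)) p3.le
  have a4 := mul_le_mul_of_nonneg_left (thl_mono (sub_le_sub_right hs (5 * M))) p4.le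
  unfold Th
  rcases lt_or_ge s (5 * N - 3) with b1 | b1
  · have : thl (min s (5 * N - 3)) < thl (min s' (5 * N - 3)) := by
      rw [min_eq_left b1.le]
      exact thl_lt_thl (by linarith) (lt_min h1 b1)
    linarith
  rcases lt_or_ge s (5 * N - 2) with b2 | b2
  · have := mul_lt_mul_of_pos_left (cl_lt_h6 (by linarith) (by linarith)
      (sub_lt_sub_right h1 (5 * N - 3))) p2
    linarith
  rcases lt_or_ge s (5 * M - 1) with b3 | b3
  · have := mul_lt_mul_of_pos_left (cl_lt_h6 (div_nonneg (by linarith) p5.le)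
      ((div_lt_one p5).2 (by linarith))
      (div_lt_div_of_pos_right (sub_lt_sub_right h1 (5 * N - 2)) p5)) p3
    linarith
  · have := mul_lt_mul_of_pos_left (thl_lt_thl (by linarith) (sub_lt_sub_right h1 (5 * M))) p4
    linarith
lemma continuous_Th (N M : ℕ) (A B : ℝ) : Continuous (Th N M A B) := by
  unfold Th
  fun_prop
/-- Earlier window and longer link give the lower profile. -/
lemma Th_compare {N M N' M' : ℕ} {A B A' B' s s' : ℝ} (h : Good N M A B) (h' : Good N' M' A' B')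
    (hN : N' ≤ N) (hB : B ≤ A') (hs : s ∈ Icc (0 : ℝ) (5 * M)) (hs' : s' ∈ Icc (0 : ℝ) (5 * M'))
    (he : Th N M A B s = Th N' M' A' B' s') : uu s ≤ uu s' := by
  obtain ⟨c1, c2⟩ := h.cast_h6
  have c3 : (N' : ℝ) ≤ N := by exact_mod_cast hN
  rcases le_total s' (5 * N' - 3) with b1 | b1
  · rw [Th_link h' b1, ← Th_link h (by linarith)] at he
    rcases lt_trichotomy s s' with b | b | b
    · exact absurd he (Th_lt_Th h hs.1 b (by linarith)).ne
    · rw [b]
    · exact absurd he (Th_lt_Th h hs'.1 b hs.2).ne'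
  rcases le_total s' (5 * N' - 2) with b2 | b2
  · rw [uu_top_h6 b1 b2]
    exact uu_le_one s
  rcases lt_or_ge s (5 * M - 1) with b3 | b3
  · have := Th_lt_Th h hs.1 b3 (by linarith)
    linarith [Th_top_h6 h, Th_ge_h6 h' b2]
  · rw [uu_last_h6 b3 hs.2]
    exact uu_nonneg s'
lemma Th_compare_end {N M : ℕ} {A B s s' : ℝ} (h : Good N M A B) (hs : -2 ≤ s)
    (hs' : s' ∈ Icc (0 : ℝ) (5 * M))
    (he : Th N M A B s' = thl s ∨ Th N M A B s' = 1 + thl s) : uu s ≤ uu s' := by
  have z : -1 ≤ s → s ≤ 1 → uu s ≤ uu s' := fun a b => by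
    rw [uu_eq_zero a b]
    exact uu_nonneg s'
  have t0 := thl_nonneg s
  have t1 := thl_lt_one s
  rcases le_total s' (5 * N - 3) with b1 | b1
  · rw [Th_link h b1] at he
    rcases he with he | he
    · rcases lt_trichotomy s s' with b | b | b
      · rcases le_total s (-1) with c | c
        · have := thl_mono hs'.1
          rw [he, thl_of_le c, thl_zero] at this
          linarith
        · exact absurd he (thl_lt_thl c b).ne'
      · rw [b]
      · exact absurd he (thl_lt_thl (by linarith [hs'.1]) b).ne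
    · linarith [thl_lt_one s']
  rcases le_total s' (5 * N - 2) with b2 | b2
  · rw [uu_top_h6 b1 b2]
    exact uu_le_one s
  have g := Th_ge_h6 h b2
  have hA := h.pos
  rcases he with he | he
  · linarith
  · refine z ?_ ?_
    · by_contra c
      rw [thl_of_le (not_le.1 c).le] at he
      linarith
    · by_contra c
      have := thl_mono (not_le.1 c).le
      have := Th_mono_h6 h hs'.2
      linarith [Th_end h, thl_one]
lemma Th_shadow1 {N M : ℕ} {A B s : ℝ} (h : Good N M A B) (h0 : 0 ≤ s) (h1 : s ≤ 5 * M - 1) :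
    |Th N M A B s - thl s| ≤ 1 - thl (5 * N - 3) + B := by
  have hB : 0 < B := h.pos.trans h.lt
  have t1 := thl_lt_one (5 * N - 3)
  rcases le_total s (5 * N - 3) with b | b
  · rw [Th_link h b, sub_self, abs_zero]
    linarith
  · have a1 := Th_mono_h6 h b
    have a2 := Th_mono_h6 h h1
    have a3 := thl_mono b
    rw [Th_link h le_rfl] at a1
    rw [Th_top_h6 h] at a2
    exact abs_le.2 ⟨by linarith [thl_lt_one s], by linarith⟩
lemma Th_shadow2 {N M : ℕ} {A B s : ℝ} (h : Good N M A B) (h0 : 5 * M - 2 ≤ s) (h1 : s ≤ 5 * M) :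
    |Th N M A B s - (1 + thl (s - 5 * M))| ≤ 1 - thl (5 * N - 3) + B := by
  obtain ⟨c1, c2⟩ := h.cast_h6
  have hB : 0 < B := h.pos.trans h.lt
  have t1 := thl_lt_one (5 * N - 3)
  have t2 := thl_mono (sub_nonpos.2 h1)
  rw [thl_zero] at t2
  have p3 : 0 ≤ B - A := by linarith [h.lt]
  have a1 := mul_nonneg p3 (cl_nonneg ((s - (5 * N - 2)) / (5 * ((M : ℝ) - N) + 1)))
  have a2 := mul_le_of_le_one_right p3 (cl_le_one ((s - (5 * N - 2)) / (5 * ((M : ℝ) - N) + 1)))
  have a3 := mul_nonneg hB.le (thl_nonneg (s - 5 * M))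
  have a4 := mul_le_mul_of_nonneg_left t2 hB.le
  rw [Th_late_h6 (by linarith)]
  exact abs_le.2 ⟨by linarith [h.pos], by linarith⟩

lemma push_of_nonpos {s : ℝ} (h : s ≤ 0) : push s = s := by
  exact max_eq_left ((min_le_left _ _).trans (by linarith))
lemma push_of_one_le {s : ℝ} (h : 1 ≤ s) : push s = s + 10 := by
  rw [push, min_eq_right (by linarith), max_eq_right (by linarith)]
lemma le_push (s : ℝ) : s ≤ push s := le_max_left _ _
@[fun_prop] lemma continuous_push : Continuous push := by unfold push; fun_prop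
lemma lam_zero {M M' : ℕ} (h : 1 ≤ M) (h' : 1 ≤ M') : lam M M' 0 = 0 := by
  have c1 : (1 : ℝ) ≤ M := by exact_mod_cast h
  have c2 : (1 : ℝ) ≤ M' := by exact_mod_cast h'
  rw [lam, push_of_nonpos le_rfl, min_eq_left]
  linarith [uu_le_one 0, le_max_right (0 - (5 * (M : ℝ) - 1)) 0]
lemma lam_last {M M' : ℕ} {s : ℝ} (h : 1 ≤ M) (h' : M' ≤ M + 2) (h0 : 5 * M - 1 ≤ s)
    (h1 : s ≤ 5 * M) : lam M M' s = 5 * M' + (s - 5 * M) := by
  have c1 : (1 : ℝ) ≤ M := by exact_mod_cast h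
  have c2 : (M' : ℝ) ≤ M + 2 := by exact_mod_cast h'
  rw [lam, push_of_one_le (by linarith), uu_last_h6 h0 h1, max_eq_left (by linarith),
    min_eq_right (by linarith)]
  ring
lemma lam_nonneg {M M' : ℕ} {s : ℝ} (h' : 1 ≤ M') (h0 : 0 ≤ s) : 0 ≤ lam M M' s := by
  have c2 : (1 : ℝ) ≤ M' := by exact_mod_cast h'
  exact le_min (h0.trans (le_push s))
    (by linarith [uu_le_one s, le_max_right (s - (5 * (M : ℝ) - 1)) 0])
lemma lam_le {M M' : ℕ} {s : ℝ} (h1 : s ≤ 5 * M) : lam M M' s ≤ 5 * M' := by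
  have : max (s - (5 * (M : ℝ) - 1)) 0 ≤ 1 := max_le (by linarith) zero_le_one
  exact (min_le_right _ _).trans (by linarith [uu_nonneg s])
lemma lam_le_pred {M M' : ℕ} {s : ℝ} (h1 : s ≤ 5 * M - 1) : lam M M' s ≤ 5 * M' - 1 := by
  have : max (s - (5 * (M : ℝ) - 1)) 0 ≤ 0 := max_le (by linarith) le_rfl
  exact (min_le_right _ _).trans (by linarith [uu_nonneg s])
lemma continuous_lam (M M' : ℕ) : Continuous (lam M M') := by
  unfold lam
  fun_prop
/-- Before the last flat the lap map follows the end map up to a late shortcut of equal height. -/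
lemma lam_cases {M M' : ℕ} {s : ℝ} (h' : 3 ≤ M') (h0 : 0 ≤ s) (h1 : s ≤ 5 * M - 1) :
    lam M M' s = push s ∨
      (5 * M' - 2 ≤ lam M M' s ∧ 5 * M' - 2 ≤ push s ∧ uu (lam M M' s) = uu (push s)) := by
  have c2 : (3 : ℝ) ≤ M' := by exact_mod_cast h'
  have u0 := uu_nonneg s
  have u1 := uu_le_one s
  rw [lam, max_eq_right (by linarith), add_zero]
  rcases le_total (push s) (5 * M' - 1 - uu s) with b | b
  · exact Or.inl (min_eq_left b)
  rw [min_eq_right b]
  refine Or.inr ⟨by linarith, by linarith, ?_⟩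
  have : 1 ≤ s := by
    by_contra c
    have : push s ≤ 11 := max_le (by linarith) ((min_le_right _ _).trans (by linarith))
    linarith
  rw [push_of_one_le this, uu_add_ten_h6, ← uu_sub_nat_h6 _ M', uu_bar (by linarith) (by linarith)]
  ring

/-- Gluing of lap functions. -/
lemma continuous_lapwise {X Z : Type*} [TopologicalSpace X] [TopologicalSpace Z]
    (G : ℤ → X × ℝ → Z) (hG : ∀ k, Continuous (G k))
    (hm : ∀ k x, G k (x, 1) = G (k + 1) (x, 0)) :
    Continuous fun q : X × ℝ => G ⌊q.2⌋ (q.1, Int.fract q.2) := by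
  have hf : LocallyFinite fun k : ℤ => {q : X × ℝ | q.2 ∈ Icc (k : ℝ) (k + 1)} := by
    intro q
    refine ⟨Prod.snd ⁻¹' Ioo (q.2 - 1) (q.2 + 1), continuous_snd.continuousAt.preimage_mem_nhds
      (Ioo_mem_nhds (by linarith) (by linarith)), (finite_Icc (⌊q.2⌋ - 2) (⌊q.2⌋ + 2)).subset ?_⟩
    rintro k ⟨z, ⟨a1, a2⟩, a3, a4⟩
    have b1 := Int.floor_le q.2
    have b2 := Int.lt_floor_add_one q.2
    constructor
    · exact_mod_cast (by linarith : (⌊q.2⌋ : ℝ) - 2 ≤ k)
    · exact_mod_cast (by linarith : (k : ℝ) ≤ ⌊q.2⌋ + 2)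
  refine hf.continuous (eq_univ_of_forall fun q => mem_iUnion.2
    ⟨⌊q.2⌋, Int.floor_le _, (Int.lt_floor_add_one _).le⟩)
    (fun k => isClosed_Icc.preimage continuous_snd) fun k => ?_
  refine ((hG k).comp (f := fun q : X × ℝ => (q.1, q.2 - k)) (by fun_prop)).continuousOn.congr ?_
  rintro ⟨x, y⟩ ⟨a1, a2⟩
  show G ⌊y⌋ (x, Int.fract y) = G k (x, y - k)
  rcases a2.lt_or_eq with a | a
  · rw [Int.fract, Int.floor_eq_iff.2 ⟨a1, a⟩]
  · have a' : y = ((k + 1 : ℤ) : ℝ) := by exact_mod_cast a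
    rw [a', Int.floor_intCast, Int.fract_intCast, ← hm]
    simp

lemma Dang_thl {s : ℝ} (h : -2 ≤ s) : thl s + Dang (thl s) = thl (push s) := by
  rcases le_total s (-1) with b | b
  · rw [push_of_nonpos (by linarith), thl_of_le b]
    norm_num [Dang]
  have p : 0 < s + 4 := by linarith
  have q : 0 ≤ push s + 1 := by linarith [le_push s]
  have e : thl s = (s + 1) / (s + 4) := by
    rw [thl, max_eq_left (by linarith)]
    ring_nf
  have c : 0 ≤ 3 / (s + 4) := by positivity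
  have e1 : max (3 * thl s) (min (33 * thl s - 10 * (1 - thl s)) (3 * thl s + 10 * (1 - thl s))) =
      3 / (s + 4) * (push s + 1) := by
    rw [push, ← max_add_add_right, ← min_add_add_right, mul_max_of_nonneg _ _ c,
      mul_min_of_nonneg _ _ c, e]
    congr 1
    · ring
    · congr 1 <;> field_simp <;> ring
  have e2 : 3 / (s + 4) * (push s + 1) + 3 * (1 - thl s) = 3 / (s + 4) * (push s + 1 + 3) := by
    rw [e]
    field_simp
    ring
  rw [Dang, e1, add_sub_cancel, e2, mul_div_mul_left _ _ (by positivity), thl, max_eq_left q]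
lemma Dprof_thl {s : ℝ} (h : -2 ≤ s) : uu s + Dprof (thl s) = uu (push s) := by
  have d1 : push (-1) = -1 := push_of_nonpos (by norm_num)
  rcases le_total s (-1) with b | b
  · rw [push_of_nonpos (by linarith), thl_of_le b]
    norm_num [Dprof, d1]
  rcases le_total s 1 with c | c
  · have p : 0 < s + 4 := by linarith
    have e : 3 * thl s / (1 - thl s) - 1 = s := by
      rw [thl, max_eq_left (by linarith)]
      have : s + 1 + 3 ≠ 0 := by linarith
      field_simp
      ring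
    rw [Dprof, min_eq_left (thl_one ▸ thl_mono c), e]
    ring
  · have e : (3 : ℝ) * (2 / 5) / (1 - 2 / 5) - 1 = 1 := by norm_num
    rw [Dprof, min_eq_right (thl_one ▸ thl_mono c), e, push_of_one_le le_rfl, push_of_one_le c,
      uu_add_ten_h6, uu_add_ten_h6]
    ring
lemma continuous_Dang_fract : Continuous fun θ : ℝ => Dang (Int.fract θ) := by
  have h : Continuous Dang := by
    unfold Dang
    refine (Continuous.div (by fun_prop) (by fun_prop) fun r => ?_).sub continuous_id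
    have := le_max_left (3 * r) (min (33 * r - 10 * (1 - r)) (3 * r + 10 * (1 - r)))
    linarith
  exact h.continuousOn.comp_fract'' (by norm_num [Dang])
lemma continuous_Dprof_fract : Continuous fun θ : ℝ => Dprof (Int.fract θ) := by
  have h1 : Continuous fun r : ℝ => 3 * min r (2 / 5) / (1 - min r (2 / 5)) - 1 := by
    refine (Continuous.div (by fun_prop) (by fun_prop) fun r => ?_).sub continuous_const
    have := min_le_right r (2 / 5)
    linarith
  have h : Continuous Dprof :=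
    (continuous_uu.comp (continuous_push.comp h1)).sub (continuous_uu.comp h1)
  refine h.continuousOn.comp_fract'' ?_
  have d1 : push (-1) = -1 := push_of_nonpos (by norm_num)
  have e : (3 : ℝ) * (2 / 5) / (1 - 2 / 5) - 1 = 1 := by norm_num
  rw [Dprof, Dprof, min_eq_right (by norm_num : (2 / 5 : ℝ) ≤ 1), e, push_of_one_le le_rfl,
    uu_add_ten_h6]
  norm_num [d1]

end Pool.Agent.Lib.MP_3a0c72_gt.Bing
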