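import Pool.Agent.Lib.MP_3a0c72_gt.Bing.Prog
import Pool.Agent.Lib.MP_3a0c72_gt.Bing.Lap

/-! Angles, profiles and continuity of the parametrisation. -/

set_option autoImplicit false

noncomputable section

open Set Filter Topology

namespace Pool.Agent.Lib.MP_3a0c72_gt.Bing

/-- The point of lap `k` with wiggle coordinate `s`. -/
def mk (L : Leaf) (k : ℤ) (s : ℝ) : ℝ := k + s / (5 * MM L k)

lemma MM_pos_h9 (L : Leaf) (k : ℤ) : (0 : ℝ) < 5 * MM L k := by
  have : (1 : ℝ) ≤ MM L k := by exact_mod_cast one_le_MM L k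
  linarith

lemma win_le (k ι : ℤ) : win k ι ≤ (1 / 2) ^ (k.natAbs + 3) := by
  have h := Real.sigmoid_le_one (ι : ℝ)
  have h2 : (0 : ℝ) < (1 / 2) ^ (k.natAbs + 3) := by positivity
  rw [win, pow_succ (1 / 2 : ℝ) (k.natAbs + 3)]
  nlinarith

lemma le_win_h9 (k ι : ℤ) : (1 / 2) ^ (k.natAbs + 4) ≤ win k ι := by
  have h := Real.sigmoid_nonneg (ι : ℝ)
  have h2 : (0 : ℝ) < (1 / 2) ^ (k.natAbs + 4) := by positivity
  rw [win]
  nlinarith

lemma good_lap (L : Leaf) (k : ℤ) :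
    Good (NN k) (MM L k) (win k (iota L k)) (win k (iota L k + 1)) := by
  have h2 : (0 : ℝ) < (1 / 2) ^ (k.natAbs + 4) := by positivity
  refine ⟨one_le_NN k, NN_le_MM L k, h2.trans_le (le_win_h9 _ _), ?_, (win_le _ _).trans ?_⟩
  · have h := Real.sigmoid_lt (a := (iota L k : ℝ)) (b := ((iota L k + 1 : ℤ) : ℝ))
      (by push_cast; linarith)
    exact mul_lt_mul_of_pos_left (by linarith) h2
  · have h : ((1 : ℝ) / 2) ^ (k.natAbs + 3) ≤ (1 / 2) ^ 3 :=
      pow_le_pow_of_le_one (by norm_num) (by norm_num) (by omega)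
    exact h.trans (by norm_num)

lemma win_mono (k : ℤ) {ι ι' : ℤ} (h : ι ≤ ι') : win k ι ≤ win k ι' := by
  have h1 := Real.sigmoid_le (a := (ι : ℝ)) (b := (ι' : ℝ)) (by exact_mod_cast h)
  exact mul_le_mul_of_nonneg_left (by linarith) (by positivity)

lemma win_le_of_lt {k k' : ℤ} (h : k'.natAbs < k.natAbs) (ι ι' : ℤ) : win k ι ≤ win k' ι' :=
  (win_le k ι).trans ((pow_le_pow_of_le_one (by norm_num) (by norm_num) (by omega)).trans
    (le_win_h9 k' ι'))

lemma sc_mem (L : Leaf) (y : ℝ) : 0 ≤ sc L y ∧ sc L y < 5 * MM L ⌊y⌋ := by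
  have h := MM_pos_h9 L ⌊y⌋
  exact ⟨mul_nonneg (Int.fract_nonneg y) h.le, mul_lt_of_lt_one_left h (Int.fract_lt_one y)⟩

lemma mk_sc (L : Leaf) (y : ℝ) : mk L ⌊y⌋ (sc L y) = y := by
  rw [mk, sc, mul_div_cancel_right₀ _ (MM_pos_h9 L ⌊y⌋).ne', Int.floor_add_fract]

lemma mk_mem (L : Leaf) (k : ℤ) {s : ℝ} (hs : s ∈ Icc (0 : ℝ) (5 * MM L k)) :
    (k : ℝ) ≤ mk L k s ∧ mk L k s ≤ k + 1 := by
  have h := MM_pos_h9 L k
  have h1 := div_nonneg hs.1 h.le
  have h2 := (div_le_one h).2 hs.2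
  rw [mk]
  exact ⟨by linarith, by linarith⟩

lemma continuous_mk (k : ℤ) (s : ℝ) : Continuous fun L => mk L k s :=
  (continuous_of_discreteTopology (f := fun m : ℕ => (k : ℝ) + s / (5 * m))).comp
    (continuous_MM k)

lemma mk_end_h9 (L : Leaf) (k : ℤ) : mk L k (5 * MM L k) = ((k + 1 : ℤ) : ℝ) := by
  rw [mk, div_self (MM_pos_h9 L k).ne']
  push_cast
  rfl

lemma mk_lt_h9 (L : Leaf) (k : ℤ) {s : ℝ} (h0 : 0 ≤ s) (h1 : s < 5 * MM L k) :
    ⌊mk L k s⌋ = k ∧ sc L (mk L k s) = s := by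
  have h := MM_pos_h9 L k
  have h2 := div_nonneg h0 h.le
  have h3 := (div_lt_one h).2 h1
  have e : ⌊mk L k s⌋ = k := by
    rw [Int.floor_eq_iff, mk]
    exact ⟨by linarith, by linarith⟩
  refine ⟨e, ?_⟩
  rw [sc, Int.fract, e, mk, add_sub_cancel_left, div_mul_cancel₀ _ h.ne']

lemma sc_int_h9 (L : Leaf) (k : ℤ) : sc L k = 0 := by simp [sc]

lemma uu_zero_h9 : uu 0 = 0 := uu_eq_zero (by norm_num) (by norm_num)

lemma uu_end_h9 (M : ℕ) : uu (5 * M) = 0 := by
  have := uu_add_int 0 M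
  rw [zero_add, uu_zero_h9] at this
  exact_mod_cast this

lemma mid_iff_h9 (y : ℝ) : (0 ≤ y ∧ y < 6) ↔ (0 ≤ ⌊y⌋ ∧ ⌊y⌋ < 6) := by
  rw [Int.floor_nonneg, Int.floor_lt]
  norm_num

lemma ang_int (L : Leaf) (k : ℤ) : ang L k = k + 1 / 4 := by
  rw [ang]
  split_ifs
  · rfl
  · rw [Int.floor_intCast, sc_int_h9, ThL, Th_zero (good_lap L k)]

lemma ang_mk (L : Leaf) {k : ℤ} (hk : k < 0 ∨ 6 ≤ k) {s : ℝ}
    (hs : s ∈ Icc (0 : ℝ) (5 * MM L k)) : ang L (mk L k s) = k + ThL L k s := by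
  rcases hs.2.lt_or_eq with h | rfl
  · obtain ⟨e1, e2⟩ := mk_lt_h9 L k hs.1 h
    rw [ang, if_neg (by rw [mid_iff_h9, e1]; omega), e1, e2]
  · rw [mk_end_h9, ang_int, ThL, Th_end (good_lap L k)]
    push_cast
    ring

lemma prof_mk_lo (L : Leaf) {k : ℤ} (hk : k < 0) {s : ℝ}
    (hs : s ∈ Icc (0 : ℝ) (5 * MM L k)) : prof L (mk L k s) = uu s := by
  rcases hs.2.lt_or_eq with h | rfl
  · obtain ⟨e1, e2⟩ := mk_lt_h9 L k hs.1 h
    rw [prof, if_pos (Int.floor_lt_zero.1 (by rw [e1]; exact hk)), e2]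
  · rw [mk_end_h9, uu_end_h9, prof]
    split_ifs with h1 h2
    · rw [sc_int_h9, uu_zero_h9]
    · have : k + 1 = 0 := by
        have : ¬ k + 1 < 0 := by exact_mod_cast h1
        omega
      rw [this]
      simp
    · exact absurd (by exact_mod_cast (by omega : k + 1 < 6)) h2

lemma prof_hi_h9 (L : Leaf) {y : ℝ} (h : 6 ≤ y) : prof L y = 1 - uu (sc L y) := by
  rw [prof, if_neg (by linarith), if_neg (by linarith)]

lemma prof_mk_hi (L : Leaf) {k : ℤ} (hk : 6 ≤ k) {s : ℝ}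
    (hs : s ∈ Icc (0 : ℝ) (5 * MM L k)) : prof L (mk L k s) = 1 - uu s := by
  have h6 : (6 : ℝ) ≤ k := by exact_mod_cast hk
  rw [prof_hi_h9 L (h6.trans (mk_mem L k hs).1)]
  rcases hs.2.lt_or_eq with h | rfl
  · rw [(mk_lt_h9 L k hs.1 h).2]
  · rw [mk_end_h9, uu_end_h9, sc_int_h9, uu_zero_h9]

lemma ang_lap_h9 (L : Leaf) (y : ℝ) :
    (⌊y⌋ : ℝ) + 1 / 4 ≤ ang L y ∧ ang L y < ⌊y⌋ + 1 + 1 / 4 := by
  rw [ang]
  split_ifs
  · exact ⟨by linarith [Int.floor_le y], by linarith [Int.lt_floor_add_one y]⟩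
  · obtain ⟨h0, h1⟩ := sc_mem L y
    have g := good_lap L ⌊y⌋
    have h2 := Th_lt_Th g h0 h1 le_rfl
    rw [Th_end g] at h2
    refine ⟨?_, by rw [ThL]; linarith⟩
    rcases h0.lt_or_eq with h3 | h3
    · have h4 := Th_lt_Th g le_rfl h3 h1.le
      rw [Th_zero g] at h4
      rw [ThL]
      linarith
    · rw [← h3, ThL, Th_zero g]

lemma ang_strictMono (L : Leaf) : StrictMono (ang L) := by
  intro y y' h
  rcases (Int.floor_mono h.le).lt_or_eq with h1 | h1
  · have h2 : (⌊y⌋ : ℝ) + 1 ≤ ⌊y'⌋ := by exact_mod_cast h1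
    linarith [(ang_lap_h9 L y).2, (ang_lap_h9 L y').1]
  · rw [ang, ang]
    by_cases h2 : 0 ≤ y ∧ y < 6
    · rw [if_pos h2, if_pos (by rw [mid_iff_h9] at h2 ⊢; rwa [← h1])]
      linarith
    · rw [if_neg h2, if_neg (by rw [mid_iff_h9] at h2 ⊢; rwa [← h1]), h1]
      have h3 : sc L y < sc L y' := by
        rw [sc, sc, Int.fract, Int.fract, h1]
        exact mul_lt_mul_of_pos_right (by linarith) (MM_pos_h9 _ _)
      have := Th_lt_Th (good_lap L ⌊y'⌋) (sc_mem L y).1 h3 (sc_mem L y').2.le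
      rw [ThL, ThL]
      linarith

lemma lt_ang_iff (L : Leaf) (k : ℤ) (y : ℝ) : (k : ℝ) + 1 / 4 < ang L y ↔ (k : ℝ) < y := by
  rw [← ang_int L, (ang_strictMono L).lt_iff_lt]

lemma ang_lt_iff (L : Leaf) (k : ℤ) (y : ℝ) : ang L y < (k : ℝ) + 1 / 4 ↔ y < (k : ℝ) := by
  rw [← ang_int L, (ang_strictMono L).lt_iff_lt]

lemma ang_bounds (L : Leaf) (y : ℝ) : y - 1 < ang L y ∧ ang L y < y + 2 :=
  ⟨by linarith [(ang_lap_h9 L y).1, Int.lt_floor_add_one y],
    by linarith [(ang_lap_h9 L y).2, Int.floor_le y]⟩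

lemma prof_mem (L : Leaf) (y : ℝ) : 0 ≤ prof L y ∧ prof L y ≤ 1 := by
  have h0 := uu_nonneg (sc L y)
  have h1 := uu_le_one (sc L y)
  rw [prof]
  split_ifs with h2 h3
  · exact ⟨h0, h1⟩
  · exact ⟨by linarith, by linarith⟩
  · exact ⟨by linarith, by linarith⟩

lemma ray_data_h9 (i : Fin 5) : 0 ≤ rE i ∧ 0 ≤ rb i ∧ 0 ≤ rc i ∧ rc i ≤ 4 := by
  fin_cases i <;> simp [rE, rb, rc] <;> norm_num

lemma fold_mem_h9 (i : Fin 5) (σ : ℝ) : 0 ≤ fold i σ ∧ fold i σ ≤ 4 :=
  ⟨le_max_left _ _, max_le (by norm_num) ((min_le_right _ _).trans (ray_data_h9 i).2.2.2)⟩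

lemma yy_of_nonpos (L : Leaf) {y : ℝ} (h : y ≤ 0) : yy (L, y) = y := by
  rcases L with τ | ⟨i, n⟩
  · rfl
  · obtain ⟨h1, h2, -⟩ := ray_data_h9 i
    change ppi i (min y (rE i)) = y
    rw [min_eq_left (h.trans h1), ppi, fold,
      max_eq_left ((min_le_left _ _).trans (by linarith)), mul_zero, sub_zero]

lemma yy_of_hasEnd {e : Bool} {L : Leaf} (hL : HasEnd e L) {y : ℝ} (h : 0 ≤ (sg e : ℝ) * y) :
    yy (L, y) = y := by
  cases e
  · refine yy_of_nonpos L ?_
    simpa [sg] using h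
  · obtain ⟨τ, rfl⟩ := hL rfl
    rfl

lemma yy_ray_le (i : Fin 5) (n : ℕ∞) (σ : ℝ) : yy (Sum.inr (i, n), σ) ≤ 6 := by
  change ppi i (min σ (rE i)) ≤ 6
  have h1 : min σ (rE i) ≤ rE i := min_le_right _ _
  generalize min σ (rE i) = x at h1
  have h2 : 0 ≤ fold i x := le_max_left _ _
  have h3 : min (x - rb i) (rc i) ≤ fold i x := le_max_right _ _
  rw [ppi]
  have h4 : rE i ≤ 6 ∨ (rE i - 2 * rc i ≤ 6 ∧ rb i ≤ 6) := by
    fin_cases i <;> simp [rE, rb, rc] <;> norm_num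
  rcases h4 with h4 | ⟨h4, h5⟩
  · linarith
  · rcases min_le_iff.1 h3 with h6 | h6 <;> linarith

lemma gam_pos_iff (L : Leaf) (j : ℕ) (y : ℝ) : 0 < gam j (ang L y) ↔ -(j : ℝ) < y := by
  have h := lt_ang_iff L (-(j : ℤ)) y
  push_cast at h
  rw [← h, gam, mul_pos_iff_of_pos_left (by positivity)]
  refine ⟨fun h1 => ?_, fun h1 => cl_pos (by linarith)⟩
  by_contra h2
  rw [cl_of_nonpos (by linarith [not_lt.1 h2])] at h1
  exact lt_irrefl _ h1

lemma term_mem_h9 (τ : Word) (θ : ℝ) (j : ℕ) :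
    0 ≤ gam j θ * (NB j τ : ℝ) ∧ gam j θ * (NB j τ : ℝ) ≤ 1 / 8 * (1 / 2) ^ j := by
  have h0 := cl_nonneg (θ - 1 / 4 + j)
  have h1 := cl_le_one (θ - 1 / 4 + j)
  have h2 : (NB j τ : ℝ) ≤ 2 ^ j := by exact_mod_cast NB_le j τ
  refine ⟨by rw [gam]; positivity, ?_⟩
  have h3 : gam j θ ≤ 1 / 8 * (1 / 4) ^ j := mul_le_of_le_one_right (by positivity) h1
  refine (mul_le_mul h3 h2 (by positivity) (by positivity)).trans (le_of_eq ?_)
  rw [mul_assoc, ← mul_pow]
  norm_num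

lemma summable_pos (τ : Word) (θ : ℝ) : Summable fun j : ℕ => gam j θ * (NB j τ : ℝ) :=
  .of_nonneg_of_le (fun j => (term_mem_h9 τ θ j).1) (fun j => (term_mem_h9 τ θ j).2)
    (summable_geometric_two.mul_left _)

lemma wt_mem_h9 (n : ℕ∞) : 0 ≤ wt n ∧ wt n ≤ 1 := by
  rw [wt]
  split_ifs
  · exact ⟨le_rfl, zero_le_one⟩
  · exact ⟨by positivity, pow_le_one₀ (by norm_num) (by norm_num)⟩

lemma pos_mem (p : Par) : -(1 / 4) ≤ pos p ∧ pos p ≤ 1 / 4 := by
  rcases p with ⟨τ | ⟨i, n⟩, σ⟩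
  · change -(1 / 4) ≤ posT τ _ ∧ posT τ _ ≤ 1 / 4
    generalize ang (Sum.inl τ) σ = θ
    have h0 : 0 ≤ posT τ θ := tsum_nonneg fun j => (term_mem_h9 τ θ j).1
    have h1 := (summable_pos τ θ).tsum_le_tsum (fun j => (term_mem_h9 τ θ j).2)
      (summable_geometric_two.mul_left _)
    rw [tsum_mul_left, tsum_geometric_two] at h1
    exact ⟨by linarith, h1.trans (by norm_num)⟩
  · obtain ⟨h0, h1⟩ := wt_mem_h9 n
    obtain ⟨h2, h3⟩ := fold_mem_h9 i (min σ (rE i))
    have h4 : (0 : ℝ) ≤ (i : ℕ) := Nat.cast_nonneg _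
    have h5 : ((i : ℕ) : ℝ) ≤ 4 := by exact_mod_cast Nat.le_of_lt_succ i.2
    simp only [pos]
    constructor <;> nlinarith

lemma bet_strictMono : StrictMono bet := fun _ _ h =>
  add_lt_add_of_lt_of_le (Real.sigmoid_lt h) (mul_le_mul_of_nonneg_left
    (max_le_max le_rfl (min_le_min h.le le_rfl)) zero_le_two)

lemma continuous_par_h9 {Z : Type*} [TopologicalSpace Z] {f : Par → Z}
    (h1 : Continuous fun q : Word × ℝ => f (Sum.inl q.1, q.2))
    (h2 : Continuous fun q : (Fin 5 × ℕ∞) × ℝ => f (Sum.inr q.1, q.2)) : Continuous f :=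
  (Homeomorph.sumProdDistrib.symm.comp_continuous_iff').1 (continuous_sum_dom.2 ⟨h1, h2⟩)

lemma continuous_fold_h9 :
    Continuous fun q : (Fin 5 × ℕ∞) × ℝ => fold q.1.1 (min q.2 (rE q.1.1)) := by
  have h1 : Continuous rE := continuous_of_discreteTopology
  have h2 : Continuous rb := continuous_of_discreteTopology
  have h3 : Continuous rc := continuous_of_discreteTopology
  unfold fold
  fun_prop

lemma continuous_yy : Continuous yy := by
  refine continuous_par_h9 continuous_snd ?_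
  have h1 : Continuous rE := continuous_of_discreteTopology
  exact Continuous.sub (by fun_prop) (continuous_const.mul continuous_fold_h9)

lemma continuous_data_h9 (k : ℤ) (F : ℕ → ℤ → ℝ → ℝ) (hF : ∀ M ι, Continuous (F M ι)) :
    Continuous fun q : Leaf × ℝ => F (MM q.1 k) (iota q.1 k) q.2 :=
  (continuous_prod_of_discrete_left (f := fun q : (ℕ × ℤ) × ℝ => F q.1.1 q.1.2 q.2)).2
    (fun a => hF a.1 a.2) |>.comp
    ((((continuous_MM k).prodMk (continuous_iota k)).comp continuous_fst).prodMk continuous_snd)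

lemma continuous_ang_h9 : Continuous fun q : Leaf × ℝ => ang q.1 q.2 := by
  have h := continuous_lapwise (X := Leaf) (fun k q => if 0 ≤ k ∧ k < 6 then (k : ℝ) + q.2 + 1 / 4
      else k + ThL q.1 k (q.2 * (5 * MM q.1 k))) (fun k => ?_) fun k L => ?_
  · refine h.congr fun q => ?_
    simp only [ang, mid_iff_h9, Int.floor_add_fract, sc]
  · split_ifs
    · fun_prop
    · exact continuous_const.add (continuous_data_h9 k
        (fun M ι r => Th (NN k) M (win k ι) (win k (ι + 1)) (r * (5 * M)))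
        fun M ι => (continuous_Th _ _ _ _).comp (continuous_mul_const _))
  · simp only [one_mul, zero_mul, ThL, Th_end (good_lap L k), Th_zero (good_lap L (k + 1))]
    push_cast
    split_ifs <;> ring

lemma continuous_prof_h9 : Continuous fun q : Leaf × ℝ => prof q.1 q.2 := by
  have c : ∀ k, Continuous fun q : Leaf × ℝ => uu (q.2 * (5 * MM q.1 k)) := fun k =>
    continuous_data_h9 k (fun M _ r => uu (r * (5 * M)))
      fun M _ => continuous_uu.comp (continuous_mul_const _)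
  have h := continuous_lapwise (X := Leaf) (fun k q => if k < 0 then uu (q.2 * (5 * MM q.1 k))
      else if k < 6 then ((k : ℝ) + q.2) / 6 else 1 - uu (q.2 * (5 * MM q.1 k)))
      (fun k => ?_) fun k L => ?_
  · refine h.congr fun q => ?_
    have e : ⌊q.2⌋ < 6 ↔ q.2 < 6 := by
      rw [Int.floor_lt]
      norm_num
    simp only [prof, Int.floor_lt_zero, e, Int.floor_add_fract, sc]
  · split_ifs
    · exact c k
    · fun_prop
    · exact continuous_const.sub (c k)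
  · simp only [one_mul, zero_mul, uu_end_h9, uu_zero_h9]
    split_ifs with h1 h2 h3 h4 h5 h6 h7 h8
    · rfl
    · obtain rfl : k = -1 := by omega
      simp
    · omega
    · omega
    · push_cast
      ring
    · obtain rfl : k = 5 := by omega
      norm_num
    · omega
    · omega
    · rfl

lemma continuous_th : Continuous th :=
  continuous_ang_h9.comp (continuous_fst.prodMk continuous_yy)

lemma continuous_pos : Continuous pos := by
  refine continuous_par_h9 ?_ ?_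
  · have h1 : Continuous fun q : Word × ℝ => ang (Sum.inl q.1) q.2 :=
      continuous_ang_h9.comp ((continuous_inl.comp continuous_fst).prodMk continuous_snd)
    refine continuous_tsum (f := fun (j : ℕ) (q : Word × ℝ) =>
      gam j (ang (Sum.inl q.1) q.2) * (NB j q.1 : ℝ)) (fun j => ?_)
      (summable_geometric_two.mul_left (1 / 8)) fun j q => ?_
    · refine Continuous.mul ?_ ((continuous_of_discreteTopology (f := fun m : ℕ => (m : ℝ))).comp
        ((continuous_NB j).comp continuous_fst))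
      unfold gam
      fun_prop
    · rw [Real.norm_of_nonneg (term_mem_h9 _ _ _).1]
      exact (term_mem_h9 _ _ _).2
  · have h1 := continuous_fold_h9
    have h2 := continuous_wt
    have h3 : Continuous fun i : Fin 5 => ((i : ℕ) : ℝ) := continuous_of_discreteTopology
    simp only [pos]
    fun_prop

lemma continuous_Phi : Continuous Phi := by
  have h1 : Continuous bet := by
    have := continuous_sigmoid
    unfold bet
    fun_prop
  exact ((AddCircle.continuous_mk' 2).comp continuous_th).prodMk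
    ((h1.comp (continuous_th.add continuous_pos)).add
      (continuous_prof_h9.comp (continuous_fst.prodMk continuous_yy)))

end Pool.Agent.Lib.MP_3a0c72_gt.Bing
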