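import Pool.Agent.Lib.MP_3a0c72_gt.Bing.Geom1

/-! Injectivity of the parametrisation up to the gluing. -/

set_option autoImplicit false

noncomputable section

open Set Filter Topology

namespace Pool.Agent.Lib.MP_3a0c72_gt.Bing

lemma coe_eq_coe_iff {a b : ℝ} :
    (a : AddCircle (2 : ℝ)) = (b : AddCircle (2 : ℝ)) ↔ ∃ m : ℤ, a = b + 2 * m := by
  rw [← sub_eq_zero, ← AddCircle.coe_sub, AddCircle.coe_eq_zero_iff]
  refine exists_congr fun m => ?_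
  rw [zsmul_eq_mul]
  constructor <;> intro h <;> linarith

lemma ang_floor_h12 (L : Leaf) (y : ℝ) :
    (⌊y⌋ : ℝ) + 1 / 4 ≤ ang L y ∧ ang L y < (⌊y⌋ : ℝ) + 1 + 1 / 4 := by
  refine ⟨not_lt.1 fun h => ((ang_lt_iff L ⌊y⌋ y).1 h).not_ge (Int.floor_le y), ?_⟩
  have := (ang_lt_iff L (⌊y⌋ + 1) y).2 (by push_cast; exact Int.lt_floor_add_one y)
  push_cast at this
  exact this

lemma floor_eq_h12 {L L' : Leaf} {y y' : ℝ} {m : ℤ} (h : ang L' y' = ang L y + m) :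
    ⌊y'⌋ = ⌊y⌋ + m := by
  obtain ⟨a1, a2⟩ := ang_floor_h12 L y
  obtain ⟨b1, b2⟩ := ang_floor_h12 L' y'
  have h1 : ((⌊y'⌋ : ℤ) : ℝ) < ((⌊y⌋ + m + 1 : ℤ) : ℝ) := by push_cast; linarith
  have h2 : ((⌊y⌋ + m : ℤ) : ℝ) < ((⌊y'⌋ + 1 : ℤ) : ℝ) := by push_cast; linarith
  have h3 := Int.cast_lt.1 h1
  have h4 := Int.cast_lt.1 h2
  omega

lemma ang_out_h12 (L : Leaf) {y : ℝ} (h : y < 0 ∨ 6 ≤ y) :
    ang L y = ⌊y⌋ + ThL L ⌊y⌋ (sc L y) :=
  if_neg fun h' => h.elim (fun a => a.not_ge h'.1) fun a => a.not_gt h'.2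

lemma prof_lo_h12 (L : Leaf) {y : ℝ} (h : y < 0) : prof L y = uu (sc L y) := if_pos h

lemma prof_hi_h12 (L : Leaf) {y : ℝ} (h : 6 ≤ y) : prof L y = 1 - uu (sc L y) := by
  rw [prof, if_neg (by linarith), if_neg (by linarith)]

lemma sc_Icc_h12 (L : Leaf) (y : ℝ) : sc L y ∈ Icc (0 : ℝ) (5 * MM L ⌊y⌋) :=
  ⟨(sc_mem L y).1, (sc_mem L y).2.le⟩

lemma ang_congr_h12 {L L' : Leaf} {y : ℝ} (h : y < 0 ∨ 6 ≤ y → iota L ⌊y⌋ = iota L' ⌊y⌋) :
    ang L y = ang L' y ∧ prof L y = prof L' y := by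
  by_cases hy : y < 0 ∨ 6 ≤ y
  · have h1 := h hy
    have h2 := MM_eq_of_iota h1
    have h3 : sc L y = sc L' y := by rw [sc, sc, h2]
    refine ⟨by rw [ang_out_h12 L hy, ang_out_h12 L' hy, ThL, ThL, h1, h2, h3], ?_⟩
    rw [prof, prof, h3]
  · push Not at hy
    rw [ang, ang, if_pos hy, if_pos hy, prof, prof, if_neg hy.1.not_gt, if_neg hy.1.not_gt,
      if_pos hy.2, if_pos hy.2]
    exact ⟨rfl, rfl⟩

lemma cmp_h12 {L L' : Leaf} {y y' : ℝ} {m : ℤ} (hy : y < 0 ∨ 6 ≤ y) (hy' : y' < 0 ∨ 6 ≤ y')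
    (h : ang L' y' = ang L y + m) (hN : NN ⌊y'⌋ ≤ NN ⌊y⌋)
    (hB : win ⌊y⌋ (iota L ⌊y⌋ + 1) ≤ win ⌊y'⌋ (iota L' ⌊y'⌋)) : uu (sc L y) ≤ uu (sc L' y') := by
  refine Th_compare (good_lap L ⌊y⌋) (good_lap L' ⌊y'⌋) hN hB (sc_Icc_h12 L y)
    (sc_Icc_h12 L' y') ?_
  have h1 := floor_eq_h12 h
  rw [ang_out_h12 L hy, ang_out_h12 L' hy'] at h
  have h2 : ((⌊y'⌋ : ℤ) : ℝ) = ⌊y⌋ + m := by rw [h1]; push_cast; rfl
  unfold ThL at h
  linarith

lemma side_h12 {y y' : ℝ} (h : ⌊y'⌋ = ⌊y⌋) : (y < 0 ↔ y' < 0) ∧ (6 ≤ y ↔ 6 ≤ y') := by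
  have a : ∀ x : ℝ, x < 0 ↔ ⌊x⌋ < 0 := fun x => by rw [Int.floor_lt]; simp
  have b : ∀ x : ℝ, 6 ≤ x ↔ 6 ≤ ⌊x⌋ := fun x => by rw [Int.le_floor]; simp
  rw [a, a, b, b, h]
  exact ⟨Iff.rfl, Iff.rfl⟩

lemma y_eq_h12 {L L' : Leaf} {y y' : ℝ} (h : ang L y = ang L' y')
    (hi : y < 0 ∨ 6 ≤ y → iota L ⌊y⌋ = iota L' ⌊y⌋) : y = y' :=
  (ang_strictMono L').injective ((ang_congr_h12 hi).1.symm.trans h)

lemma prof_le_h12 {L L' : Leaf} {y y' : ℝ} (h : ang L y = ang L' y')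
    (h1 : ∀ j, JJ j L ≤ JJ j L') (h2 : ∀ j, NB j (base L) ≤ NB j (base L')) :
    prof L y ≤ prof L' y' := by
  have hf : ⌊y'⌋ = ⌊y⌋ := by simpa using floor_eq_h12 (m := 0) (by simpa using h.symm)
  obtain ⟨s1, s2⟩ := side_h12 hf
  by_cases hi : y < 0 ∨ 6 ≤ y → iota L ⌊y⌋ = iota L' ⌊y⌋
  · rw [← y_eq_h12 h hi, (ang_congr_h12 hi).2]
  push Not at hi
  obtain ⟨hy | hy, hne⟩ := hi
  · have hk : ⌊y⌋ < 0 := by rw [Int.floor_lt]; simpa using hy
    have h3 : iota L ⌊y⌋ ≤ iota L' ⌊y⌋ := by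
      rw [iota, iota, if_pos hk, if_pos hk]
      exact h1 _
    rw [prof_lo_h12 L hy, prof_lo_h12 L' (s1.1 hy)]
    refine cmp_h12 (m := 0) (Or.inl hy) (Or.inl (s1.1 hy)) (by simpa using h.symm) (by rw [hf]) ?_
    rw [hf]
    exact win_mono _ (by omega)
  · have hk : ¬ ⌊y⌋ < 0 := by rw [Int.floor_lt]; simp; linarith
    have h3 : iota L' ⌊y⌋ ≤ iota L ⌊y⌋ := by
      rw [iota, iota, if_neg hk, if_neg hk]
      exact neg_le_neg (Finset.sum_le_sum fun j _ => Nat.cast_le.2 (h2 j))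
    rw [prof_hi_h12 L hy, prof_hi_h12 L' (s2.1 hy)]
    refine sub_le_sub_left (cmp_h12 (m := 0) (Or.inr (s2.1 hy)) (Or.inr hy) (by simpa using h)
      (by rw [hf]) ?_) 1
    rw [hf]
    exact win_mono _ (by omega)

lemma gam_nonneg_h12 (j : ℕ) (θ : ℝ) : 0 ≤ gam j θ := by
  have := cl_nonneg (θ - 1 / 4 + j)
  unfold gam
  positivity

lemma posT_mono_h12 {τ τ' : Word} (h : ∀ j, NB j τ ≤ NB j τ') (θ : ℝ) : posT τ θ ≤ posT τ' θ :=
  (summable_pos τ θ).tsum_le_tsum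
    (fun j => mul_le_mul_of_nonneg_left (Nat.cast_le.2 (h j)) (gam_nonneg_h12 j θ))
    (summable_pos τ' θ)

lemma posT_inj_h12 {τ τ' : Word} {θ : ℝ} (h : posT τ θ = posT τ' θ) {j : ℕ} (hj : 0 < gam j θ) :
    NB j τ = NB j τ' := by
  have key : ∀ {a b : Word}, (∀ j, NB j a ≤ NB j b) → posT a θ = posT b θ → NB j a = NB j b := by
    intro a b h1 h2
    by_contra hne
    exact ((summable_pos a θ).tsum_lt_tsum (i := j)
      (fun j => mul_le_mul_of_nonneg_left (Nat.cast_le.2 (h1 j)) (gam_nonneg_h12 j θ))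
      (mul_lt_mul_of_pos_left (Nat.cast_lt.2 (lt_of_le_of_ne (h1 j) hne)) hj)
      (summable_pos b θ)).ne h2
  rcases NB_compare τ τ' with h1 | h1
  · exact key h1 h
  · exact (key h1 h.symm).symm

lemma posT_w0_h12 (θ : ℝ) : posT w0 θ = 0 := by simp [posT, NB_w0]

lemma posT_nonneg_h12 (τ : Word) (θ : ℝ) : 0 ≤ posT τ θ :=
  posT_w0_h12 θ ▸ posT_mono_h12 (fun j => by rw [NB_w0]; exact Nat.zero_le _) θ

lemma fold_mem_h12 (i : Fin 5) (s : ℝ) : 0 ≤ fold i s ∧ fold i s ≤ 4 := by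
  refine ⟨le_max_left _ _, max_le (by norm_num) ((min_le_right _ _).trans ?_)⟩
  fin_cases i <;> simp [rc] <;> norm_num

lemma wt_nonneg_h12 (n : ℕ∞) : 0 ≤ wt n := by
  unfold wt
  split_ifs <;> positivity

lemma wt_pos_h12 {n : ℕ∞} (h : n ≠ ⊤) : 0 < wt n := by
  rw [wt, if_neg h]
  positivity

lemma wt_half_h12 {n n' : ℕ∞} (h : n < n') : wt n' ≤ wt n / 2 := by
  have h0 := wt_pos_h12 h.ne_top
  by_cases h' : n' = ⊤
  · rw [h', wt, if_pos rfl]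
    linarith
  lift n to ℕ using h.ne_top
  lift n' to ℕ using h'
  have h1 : n + 1 ≤ n' := by exact_mod_cast h
  have h2 := pow_le_pow_of_le_one (a := (1 / 2 : ℝ)) (by norm_num) (by norm_num) h1
  rw [pow_succ] at h2
  rw [wt, wt, if_neg (ENat.natCast_ne_top _), if_neg (ENat.natCast_ne_top _), ENat.toNat_natCast,
    ENat.toNat_natCast]
  linarith

lemma pos_ray_h12 (i : Fin 5) (n : ℕ∞) (σ : ℝ) : -(wt n / 4) ≤ pos (Sum.inr (i, n), σ) ∧
    pos (Sum.inr (i, n), σ) ≤ -(wt n / 4) * (11 / 20) := by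
  have h0 := wt_nonneg_h12 n
  obtain ⟨h1, h2⟩ := fold_mem_h12 i (min σ (rE i))
  have h3 : ((i : ℕ) : ℝ) ≤ 4 := by exact_mod_cast Nat.lt_succ_iff.1 i.2
  have h4 : (0 : ℝ) ≤ (i : ℕ) := Nat.cast_nonneg _
  simp only [pos]
  constructor <;> nlinarith

lemma ray_ord_h12 {i i' : Fin 5} {n n' : ℕ∞} {σ σ' : ℝ} (hn : n ≠ ⊤)
    (h : pos (Sum.inr (i, n), σ) ≤ pos (Sum.inr (i', n'), σ')) :
    n < n' ∨ n = n' ∧ ((i : ℕ) : ℝ) + fold i (min σ (rE i)) / 8 ≤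
      ((i' : ℕ) : ℝ) + fold i' (min σ' (rE i')) / 8 := by
  rcases lt_trichotomy n n' with h1 | rfl | h1
  · exact Or.inl h1
  · have h0 := wt_pos_h12 hn
    simp only [pos] at h
    exact Or.inr ⟨rfl, by nlinarith⟩
  · linarith [wt_half_h12 h1, wt_pos_h12 h1.ne_top, (pos_ray_h12 i n σ).1,
      (pos_ray_h12 i' n' σ').2]

lemma idx_le_h12 {i i' : Fin 5} {s s' : ℝ}
    (h : ((i : ℕ) : ℝ) + fold i s / 8 ≤ ((i' : ℕ) : ℝ) + fold i' s' / 8) : (i : ℕ) ≤ i' := by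
  have h1 : ((i : ℕ) : ℝ) < ((i' : ℕ) + 1 : ℕ) := by
    push_cast
    linarith [(fold_mem_h12 i s).1, (fold_mem_h12 i' s').2]
  exact Nat.lt_succ_iff.1 (Nat.cast_lt.1 h1)

lemma ord_h12 {p p' : Par} (ht : th p = th p') (h : pos p < pos p') :
    (∀ j, JJ j p.1 ≤ JJ j p'.1) ∧ ∀ j, NB j (base p.1) ≤ NB j (base p'.1) := by
  obtain ⟨τ | ⟨i, n⟩, σ⟩ := p <;> obtain ⟨τ' | ⟨i', n'⟩, σ'⟩ := p'
  · have e : ang (Sum.inl τ) σ = ang (Sum.inl τ') σ' := ht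
    have h1 : ∀ j, NB j τ ≤ NB j τ' := (NB_compare τ τ').resolve_right fun h1 =>
      h.not_ge (by simp only [pos, e]; exact posT_mono_h12 h1 _)
    exact ⟨fun j => Nat.cast_le.2 (h1 j), h1⟩
  · have h1 : 0 ≤ pos (Sum.inl τ, σ) := posT_nonneg_h12 _ _
    linarith [(pos_ray_h12 i' n' σ').2, wt_nonneg_h12 n']
  · exact ⟨fun j => (JJ_ray_nonpos j i n).trans (Nat.cast_nonneg _),
      fun j => (NB_w0 j).le.trans (Nat.zero_le _)⟩
  · refine ⟨fun j => ?_, fun j => le_rfl⟩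
    have hn : n ≠ ⊤ := by
      rintro rfl
      have h1 : wt ⊤ = 0 := if_pos rfl
      linarith [(pos_ray_h12 i ⊤ σ).1, (pos_ray_h12 i' n' σ').2, wt_nonneg_h12 n']
    by_cases hj : n' < (j : ℕ∞)
    swap
    · exact (JJ_ray_nonpos j i n).trans (if_neg hj).ge
    rcases ray_ord_h12 hn h.le with h1 | ⟨rfl, h1⟩
    · lift n to ℕ using hn
      lift n' to ℕ using hj.ne_top
      have h2 : n < n' := by exact_mod_cast h1
      have h3 := i.2
      simp only [JJ, if_pos hj, if_pos (h1.trans hj), ENat.toNat_natCast]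
      omega
    · have h2 := idx_le_h12 h1
      simp only [JJ, if_pos hj]
      omega

lemma ray_eq_h12 {i : Fin 5} {n : ℕ∞} {σ : ℝ} {p' : Par} (hn : n ≠ ⊤)
    (h : pos (Sum.inr (i, n), σ) = pos p') :
    p'.1 = Sum.inr (i, n) ∧ fold i (min p'.2 (rE i)) = fold i (min σ (rE i)) := by
  have h0 := wt_pos_h12 hn
  obtain ⟨τ' | ⟨i', n'⟩, σ'⟩ := p'
  · have h1 : 0 ≤ pos (Sum.inl τ', σ') := posT_nonneg_h12 _ _
    linarith [(pos_ray_h12 i n σ).2]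
  have hn' : n' ≠ ⊤ := by
    rintro rfl
    have h1 : wt ⊤ = 0 := if_pos rfl
    linarith [(pos_ray_h12 i' ⊤ σ').1, (pos_ray_h12 i n σ).2]
  rcases ray_ord_h12 hn h.le with h1 | ⟨rfl, h1⟩ <;>
    rcases ray_ord_h12 hn' h.ge with h2 | ⟨h3, h2⟩
  · exact absurd h1 h2.not_gt
  · exact absurd h1 h3.not_gt
  · exact absurd h2 (lt_irrefl _)
  · obtain rfl : i = i' := Fin.ext (le_antisymm (idx_le_h12 h1) (idx_le_h12 h2))
    exact ⟨rfl, by linarith⟩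

lemma not_ray_h12 (L : Leaf) : (∃ i n, n ≠ ⊤ ∧ L = Sum.inr (i, n)) ∨
    (∀ j, JJ j L = NB j (base L)) ∧ ∀ σ, pos (L, σ) = posT (base L) (th (L, σ)) := by
  obtain τ | ⟨i, n⟩ := L
  · exact Or.inr ⟨fun _ => rfl, fun _ => rfl⟩
  by_cases hn : n = ⊤
  · subst hn
    refine Or.inr ⟨fun j => by rw [JJ_top, base, NB_w0]; rfl, fun σ => ?_⟩
    rw [base, posT_w0_h12]
    simp [pos, wt]
  · exact Or.inl ⟨i, n, hn, rfl⟩

lemma inv_eq_h12 {p p' : Par} (ht : th p = th p') (h : pos p = pos p') {j : ℕ}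
    (hj : -(j : ℝ) < yy p) : JJ j p.1 = JJ j p'.1 ∧ NB j (base p.1) = NB j (base p'.1) := by
  obtain ⟨L, σ⟩ := p
  obtain ⟨L', σ'⟩ := p'
  rcases not_ray_h12 L with ⟨i, n, hn, rfl⟩ | ⟨a1, a2⟩
  · rw [(ray_eq_h12 hn h).1]
    exact ⟨rfl, rfl⟩
  rcases not_ray_h12 L' with ⟨i, n, hn, rfl⟩ | ⟨b1, b2⟩
  · rw [(ray_eq_h12 hn h.symm).1]
    exact ⟨rfl, rfl⟩
  rw [a2, b2, ← ht] at h
  have h1 := posT_inj_h12 h ((gam_pos_iff L j _).2 hj)
  exact ⟨by rw [a1, b1, h1], h1⟩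

lemma iota_eq_h12 {L L' : Leaf} {y : ℝ}
    (h : ∀ j : ℕ, -(j : ℝ) < y → JJ j L = JJ j L' ∧ NB j (base L) = NB j (base L'))
    (hy : y < 0 ∨ 6 ≤ y) : iota L ⌊y⌋ = iota L' ⌊y⌋ := by
  unfold iota
  split_ifs with hk
  · refine (h _ ?_).1
    have h1 : ((⌊y⌋.natAbs : ℤ) : ℝ) = ((-⌊y⌋ : ℤ) : ℝ) := by rw [Int.ofNat_natAbs_of_nonpos hk.le]
    rw [Int.cast_natCast, Int.cast_neg] at h1
    rw [Nat.cast_add, Nat.cast_one, h1]
    linarith [Int.floor_le y]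
  · have h1 : 6 ≤ y := hy.resolve_left fun h1 => hk (by rw [Int.floor_lt]; simpa using h1)
    congr 1
    refine Finset.sum_congr rfl fun j _ => ?_
    rw [(h j (by linarith [Nat.cast_nonneg (α := ℝ) j])).2]

lemma snd_lt_h12 {p p' : Par} {m : ℤ} (hm : 0 < m) (h : th p' = th p + 2 * m) :
    (Phi p).2 < (Phi p').2 := by
  have hm' : (1 : ℝ) ≤ m := by exact_mod_cast hm
  obtain ⟨a1, a2⟩ := pos_mem p
  obtain ⟨b1, b2⟩ := pos_mem p'
  have hz : th p + pos p < th p' + pos p' := by linarith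
  have hb := bet_strictMono hz
  have h' : ang p'.1 (yy p') = ang p.1 (yy p) + ((2 * m : ℤ) : ℝ) := by push_cast; exact h
  have hf := floor_eq_h12 h'
  change bet _ + _ < bet _ + _
  by_cases h1 : yy p' < 0
  · have k1 : ⌊yy p'⌋ < 0 := by rw [Int.floor_lt]; simpa using h1
    have h2 : yy p < 0 := by simpa using Int.floor_lt.1 (show ⌊yy p⌋ < 0 by omega)
    rw [prof_lo_h12 _ h1, prof_lo_h12 _ h2]
    linarith [cmp_h12 (Or.inl h2) (Or.inl h1) h' (NN_mono (by omega))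
      (win_le_of_lt (by omega) _ _)]
  by_cases h2 : 6 ≤ yy p
  · have k1 : 6 ≤ ⌊yy p⌋ := Int.le_floor.2 (by simpa using h2)
    have h3 : 6 ≤ yy p' := by simpa using Int.le_floor.1 (show 6 ≤ ⌊yy p'⌋ by omega)
    rw [prof_hi_h12 _ h2, prof_hi_h12 _ h3]
    linarith [cmp_h12 (L := p'.1) (L' := p.1) (m := -(2 * m)) (Or.inr h3) (Or.inr h2)
      (by rw [h']; push_cast; ring) (NN_mono (by omega)) (win_le_of_lt (by omega) _ _)]
  have c1 : ¬ th p' < ((0 : ℤ) : ℝ) + 1 / 4 := fun c => h1 (by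
    simpa using (ang_lt_iff p'.1 0 _).1 c)
  have c2 : th p < ((6 : ℤ) : ℝ) + 1 / 4 := (ang_lt_iff p.1 6 _).2 (by simpa using h2)
  push_cast at c1 c2
  have c3 := Real.sigmoid_strictMono hz
  have c4 : max (-2) (min (th p + pos p) 9) + 1 ≤ max (-2) (min (th p' + pos p') 9) := by
    refine le_trans ?_ (le_max_right _ _)
    rw [min_eq_left (by linarith : th p + pos p ≤ 9), ← max_add_add_right]
    exact max_le (le_min (by linarith) (by norm_num)) (le_min (by linarith) (by linarith))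
  unfold bet
  linarith [(prof_mem p.1 (yy p)).2, (prof_mem p'.1 (yy p')).1]

lemma Phi_inj {p p' : Par} (h : Phi p = Phi p') :
    th p = th p' ∧ pos p = pos p' ∧ yy p = yy p' := by
  have h2 := congrArg Prod.snd h
  obtain ⟨m, hm⟩ := coe_eq_coe_iff.1 (congrArg Prod.fst h)
  have ht : th p = th p' := by
    rcases lt_trichotomy m 0 with h0 | rfl | h0
    · exact absurd h2 (snd_lt_h12 (m := -m) (by omega) (by push_cast; linarith)).ne
    · simpa using hm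
    · exact absurd h2 (snd_lt_h12 h0 hm).ne'
  have key : ∀ {p p' : Par}, th p = th p' → pos p < pos p' → (Phi p).2 < (Phi p').2 := by
    intro p p' ht hp
    exact add_lt_add_of_lt_of_le (bet_strictMono (by linarith))
      (prof_le_h12 ht (ord_h12 ht hp).1 (ord_h12 ht hp).2)
  have hp : pos p = pos p' := by
    rcases lt_trichotomy (pos p) (pos p') with h0 | h0 | h0
    · exact absurd h2 (key ht h0).ne
    · exact h0
    · exact absurd h2 (key ht.symm h0).ne'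
  exact ⟨ht, hp, y_eq_h12 ht (iota_eq_h12 fun j hj => inv_eq_h12 ht hp hj)⟩

lemma JJ_eq_of_Phi_eq {p p' : Par} (h : Phi p = Phi p') {j : ℕ} (hj : -(j : ℝ) < yy p) :
    JJ j p.1 = JJ j p'.1 := (inv_eq_h12 (Phi_inj h).1 (Phi_inj h).2.1 hj).1

lemma ray_eq_of_Phi_eq {i : Fin 5} {n : ℕ∞} {σ : ℝ} {p' : Par} (hn : n ≠ ⊤)
    (h : Phi (Sum.inr (i, n), σ) = Phi p') :
    p'.1 = Sum.inr (i, n) ∧ min p'.2 (rE i) = min σ (rE i) := by
  obtain ⟨h1, h2⟩ := ray_eq_h12 hn (Phi_inj h).2.1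
  have h3 := (Phi_inj h).2.2
  obtain ⟨L, σ'⟩ := p'
  obtain rfl : L = Sum.inr (i, n) := h1
  simp only [yy, ppi] at h2 h3
  exact ⟨rfl, by linarith⟩

lemma Phi_clip (i : Fin 5) (n : ℕ∞) (σ : ℝ) :
    Phi (Sum.inr (i, n), σ) = Phi (Sum.inr (i, n), min σ (rE i)) := by
  simp only [Phi, th, yy, pos, min_assoc, min_self]

lemma Phi_top (i : Fin 5) (σ : ℝ) :
    Phi (Sum.inr (i, ⊤), σ) = Phi (J0, yy (Sum.inr (i, ⊤), σ)) := by
  obtain ⟨h1, h2⟩ := ang_congr_h12 (L := Sum.inr (i, ⊤)) (L' := J0)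
    (y := yy (Sum.inr (i, ⊤), σ)) (iota_eq_h12 fun j _ => ⟨by rw [JJ_top, JJ_J0], rfl⟩)
  have h3 : pos (Sum.inr (i, ⊤), σ) = 0 := by simp [pos, wt]
  have h4 : ∀ y, pos (J0, y) = 0 := fun y => posT_w0_h12 _
  have h5 : ∀ y, yy (J0, y) = y := fun y => rfl
  simp only [Phi, th, h1, h2, h3, h4, h5]

lemma Phi_glue_word {τ τ' : Word} {y : ℝ} (h : ∀ j : ℕ, -(j : ℝ) < y → NB j τ = NB j τ') :
    Phi (Sum.inl τ, y) = Phi (Sum.inl τ', y) := by
  obtain ⟨h1, h2⟩ := ang_congr_h12 (L := Sum.inl τ) (L' := Sum.inl τ') (y := y)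
    (iota_eq_h12 fun j hj => ⟨congrArg Nat.cast (h j hj), h j hj⟩)
  have h3 : posT τ (ang (Sum.inl τ') y) = posT τ' (ang (Sum.inl τ') y) := by
    refine tsum_congr fun j => ?_
    rcases (gam_nonneg_h12 j (ang (Sum.inl τ') y)).lt_or_eq with h0 | h0
    · rw [h j ((gam_pos_iff _ j y).1 h0)]
    · rw [← h0, zero_mul, zero_mul]
  simp only [Phi, th, yy, pos, h1, h2, h3]

lemma Phi_glue {L L' : Leaf} {y : ℝ} (hy : y ≤ 0)
    (h : ∀ j : ℕ, -(j : ℝ) < y → JJ j L = JJ j L') : Phi (L, y) = Phi (L', y) := by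
  have ex : ∀ n : ℕ∞, n ≠ ⊤ → ∃ j : ℕ, -(j : ℝ) < y ∧ n < (j : ℕ∞) := fun n hn => by
    lift n to ℕ using hn
    obtain ⟨j, hj⟩ := exists_nat_gt (-y)
    refine ⟨j + n + 1, ?_, by exact_mod_cast (by omega : n < j + n + 1)⟩
    push_cast
    linarith [Nat.cast_nonneg (α := ℝ) n]
  have red : ∀ L : Leaf, (∀ j, JJ j L = NB j (base L)) → Phi (L, y) = Phi (Sum.inl (base L), y) := by
    rintro (τ | ⟨i, n⟩) h1
    · rfl
    by_cases hn : n = ⊤
    · subst hn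
      rw [Phi_top, yy_of_nonpos _ hy]
      rfl
    · obtain ⟨j, -, hj⟩ := ex n hn
      cases eq_ray_of_JJ (L := Sum.inl w0) hj (h1 j).symm
  rcases not_ray_h12 L with ⟨i, n, hn, rfl⟩ | ⟨a1, -⟩
  · obtain ⟨j, j1, j2⟩ := ex n hn
    rw [eq_ray_of_JJ j2 (h j j1).symm]
  rcases not_ray_h12 L' with ⟨i, n, hn, rfl⟩ | ⟨b1, -⟩
  · obtain ⟨j, j1, j2⟩ := ex n hn
    rw [eq_ray_of_JJ j2 (h j j1)]
  rw [red L a1, red L' b1]
  exact Phi_glue_word fun j hj => by exact_mod_cast (a1 j).symm.trans ((h j hj).trans (b1 j))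

lemma Phi_of_neg {p : Par} (h : yy p < 0) : Phi p = Phi (p.1, yy p) := by
  obtain ⟨τ | ⟨i, n⟩, σ⟩ := p
  · rfl
  have key : ∀ s, ppi i s < 0 → ppi i s = s := fun s hs => by
    have h1 : rc i ≤ rb i ∧ 0 ≤ rb i := by fin_cases i <;> simp [rb, rc] <;> norm_num
    unfold ppi fold at hs ⊢
    rcases max_cases 0 (min (s - rb i) (rc i)) with ⟨h2, -⟩ | ⟨h2, h3⟩
    · rw [h2]
      ring
    · rw [h2] at hs
      linarith [min_le_left (s - rb i) (rc i), min_le_right (s - rb i) (rc i)]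
  rw [Phi_clip]
  exact congrArg (fun s => Phi (Sum.inr (i, n), s)) (key _ h).symm

lemma om_add_two_mul (e : Bool) (k m : ℤ) (s : ℝ) : om e (k + 2 * m) s = om e k s :=
  Prod.ext (coe_eq_coe_iff.2 ⟨m, by push_cast; ring⟩) rfl

lemma om_inj {e e' : Bool} {k k' : ℤ} {s s' : ℝ} (hs : -2 ≤ s) (hs' : -2 ≤ s')
    (h : om e k s = om e' k' s') : e = e' ∧ Even (k - k') ∧ s = s' := by
  have h2 : ht e (uu s) = ht e' (uu s') := congrArg Prod.snd h
  obtain ⟨m, hm⟩ := coe_eq_coe_iff.1 (congrArg Prod.fst h)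
  have h3 : e = e' ∧ uu s = uu s' := by
    have := uu_le_one s
    have := uu_le_one s'
    cases e <;> cases e' <;> simp only [ht, if_true, Bool.false_eq_true, if_false] at h2
    · exact ⟨rfl, by linarith⟩
    · linarith
    · linarith
    · exact ⟨rfl, by linarith⟩
  have h4 : (k : ℝ) < ((k' + 2 * m + 1 : ℤ) : ℝ) := by
    push_cast
    linarith [thl_nonneg s, thl_lt_one s']
  have h5 : ((k' + 2 * m : ℤ) : ℝ) < ((k + 1 : ℤ) : ℝ) := by
    push_cast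
    linarith [thl_nonneg s', thl_lt_one s]
  have h6 : k = k' + 2 * m := by
    have := Int.cast_lt.1 h4
    have := Int.cast_lt.1 h5
    omega
  have h7 : thl s = thl s' := by
    rw [h6] at hm
    push_cast at hm
    linarith
  have key : ∀ {a b : ℝ}, -2 ≤ a → a < b → thl a = thl b → uu a = uu b → False := by
    intro a b h0 h1 h2 h3
    rcases le_or_gt b (-1) with h4 | h4
    · rw [uu_bar h0 (by linarith), uu_bar (by linarith) h4] at h3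
      linarith
    rcases le_total a (-1) with h5 | h5
    · linarith [thl_lt_thl le_rfl h4, thl_of_le h5, thl_of_le (le_refl (-1 : ℝ))]
    · exact (thl_lt_thl h5 h1).ne h2
  refine ⟨h3.1, ⟨m, by omega⟩, ?_⟩
  rcases lt_trichotomy s s' with h0 | h0 | h0
  · exact (key hs h0 h7 h3.2).elim
  · exact h0
  · exact (key hs' h0 h7.symm h3.2.symm).elim

lemma Phi_ne_om (p : Par) (e : Bool) (k : ℤ) {s : ℝ} (hs : -2 ≤ s) : Phi p ≠ om e k s := by
  intro h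
  have h2 : bet (th p + pos p) + prof p.1 (yy p) = ht e (uu s) := congrArg Prod.snd h
  obtain ⟨m, hm⟩ := coe_eq_coe_iff.1 (congrArg Prod.fst h)
  have key : yy p < 0 ∨ 6 ≤ yy p → uu s ≤ uu (sc p.1 (yy p)) := fun hy => by
    refine Th_compare_end (good_lap p.1 ⌊yy p⌋) hs (sc_Icc_h12 _ _) ?_
    obtain ⟨a1, a2⟩ := ang_floor_h12 p.1 (yy p)
    have a3 := ang_out_h12 p.1 hy
    have a4 : ang p.1 (yy p) = k + thl s + 2 * m := hm
    have b1 : ((⌊yy p⌋ : ℤ) : ℝ) < ((k + 2 * m + 1 : ℤ) : ℝ) := by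
      push_cast
      linarith [thl_lt_one s]
    have b2 : ((k + 2 * m : ℤ) : ℝ) < ((⌊yy p⌋ + 2 : ℤ) : ℝ) := by
      push_cast
      linarith [thl_nonneg s]
    have b3 := Int.cast_lt.1 b1
    have b4 := Int.cast_lt.1 b2
    unfold ThL at a3
    rcases (by omega : k + 2 * m = ⌊yy p⌋ ∨ k + 2 * m = ⌊yy p⌋ + 1) with c | c
    · have c' : (k : ℝ) + 2 * m = ⌊yy p⌋ := by exact_mod_cast c
      exact Or.inl (by linarith)
    · have c' : (k : ℝ) + 2 * m = ⌊yy p⌋ + 1 := by exact_mod_cast c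
      exact Or.inr (by linarith)
  obtain ⟨a1, a2⟩ := pos_mem p
  obtain ⟨b1, b2⟩ := prof_mem p.1 (yy p)
  have c1 := Real.sigmoid_pos (th p + pos p)
  have c2 := Real.sigmoid_lt_one (th p + pos p)
  have c3 := uu_le_one s
  unfold bet at h2
  cases e <;> simp only [ht, if_true, Bool.false_eq_true, if_false] at h2
  · by_cases hy : yy p < 0
    · linarith [key (Or.inl hy), prof_lo_h12 p.1 hy, le_max_left (-2) (min (th p + pos p) 9)]
    · have d1 : ¬ th p < ((0 : ℤ) : ℝ) + 1 / 4 := fun c => hy (by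
        simpa using (ang_lt_iff p.1 0 _).1 c)
      push_cast at d1
      have d2 : 0 ≤ min (th p + pos p) 9 := le_min (by linarith) (by norm_num)
      linarith [le_max_right (-2) (min (th p + pos p) 9)]
  · by_cases hy : 6 ≤ yy p
    · have d2 : max (-2) (min (th p + pos p) 9) ≤ 9 := max_le (by norm_num) (min_le_right _ _)
      linarith [key (Or.inr hy), prof_hi_h12 p.1 hy]
    · have d1 : th p < ((6 : ℤ) : ℝ) + 1 / 4 := (ang_lt_iff p.1 6 _).2 (by simpa using hy)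
      push_cast at d1
      have d2 : max (-2) (min (th p + pos p) 9) ≤ 7 :=
        max_le (by norm_num) ((min_le_left _ _).trans (by linarith))
      linarith

lemma dist_coe_le_h12 (a b : ℝ) :
    dist (a : AddCircle (2 : ℝ)) (b : AddCircle (2 : ℝ)) ≤ |a - b| := by
  rw [dist_eq_norm, ← AddCircle.coe_sub]
  exact QuotientAddGroup.norm_mk_le_norm

lemma dist_ht_h12 (e : Bool) (a b : ℝ) : dist (ht e a) (ht e b) = |a - b| := by
  cases e <;> simp only [ht, if_true, Bool.false_eq_true, if_false, Real.dist_eq]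
  · congr 1
    ring
  · rw [abs_sub_comm]
    congr 1
    ring

lemma dist_om_le (e : Bool) (k : ℤ) (s s' : ℝ) : dist (om e k s) (om e k s') ≤ |s - s'| := by
  refine max_le ((dist_coe_le_h12 _ _).trans ?_) ((dist_ht_h12 e _ _).le.trans (abs_uu_sub_le s s'))
  rw [add_sub_add_left_eq_sub]
  exact abs_thl_sub_le s s'

lemma dist_om_of_uu (e : Bool) (k : ℤ) {s s' : ℝ} (h : uu s = uu s') :
    dist (om e k s) (om e k s') ≤ |thl s - thl s'| := by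
  refine max_le ((dist_coe_le_h12 _ _).trans ?_) ((dist_ht_h12 e _ _).le.trans ?_)
  · rw [add_sub_add_left_eq_sub]
  · rw [h, sub_self, abs_zero]
    exact abs_nonneg _

lemma dist_om_bar (e : Bool) (k : ℤ) (s : ℝ) :
    dist (om e k s) (om e (k + 1) (-1 - uu s)) ≤ 1 - thl s := by
  have h0 := uu_nonneg s
  have h1 := uu_le_one s
  have h2 := thl_lt_one s
  refine max_le ((dist_coe_le_h12 _ _).trans ?_) ((dist_ht_h12 e _ _).le.trans ?_)
  · rw [thl_of_le (s := -1 - uu s) (by linarith), abs_le]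
    push_cast
    constructor <;> linarith
  · rw [uu_bar (s := -1 - uu s) (by linarith) (by linarith), abs_le]
    constructor <;> linarith

lemma continuous_om (e : Bool) (k : ℤ) : Continuous (om e k) :=
  (LipschitzWith.of_dist_le_mul (K := 1) fun s s' => by
    rw [NNReal.coe_one, one_mul, Real.dist_eq]
    exact dist_om_le e k s s').continuous

lemma Wc_add_two_mul (e : Bool) (k m : ℤ) : Wc e (k + 2 * m) = Wc e k := by
  rw [Wc, Wc, funext (om_add_two_mul e k m)]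
lemma Wc_subset_WW (e : Bool) (k : ℤ) : Wc e k ⊆ WW e := subset_iUnion (Wc e) k
lemma mem_Wc_or {e : Bool} {x : Cyl} (h : x ∈ WW e) (k : ℤ) : x ∈ Wc e k ∨ x ∈ Wc e (k + 1) := by
  obtain ⟨k0, h⟩ := mem_iUnion.1 h
  rcases (by omega : k0 = k + 2 * ((k0 - k) / 2) ∨ k0 = k + 1 + 2 * ((k0 - k) / 2)) with c | c
  · rw [c, Wc_add_two_mul] at h
    exact Or.inl h
  · rw [c, Wc_add_two_mul] at h
    exact Or.inr h
lemma notMem_Wc_succ {e : Bool} {k : ℤ} {x : Cyl} (h : x ∈ Wc e k) : x ∉ Wc e (k + 1) := by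
  rintro ⟨s', hs', h'⟩
  obtain ⟨s, hs, rfl⟩ := h
  obtain ⟨m, hm⟩ := (om_inj hs' hs h').2.1
  omega
lemma notMem_WW_of_DD {x : Cyl} (h : x ∈ DD) (e : Bool) : x ∉ WW e := by
  intro h'
  obtain ⟨k, s, hs, h1⟩ := mem_iUnion.1 h'
  obtain ⟨p, rfl⟩ := h
  exact Phi_ne_om p e k hs h1.symm
lemma snd_of_WW_false {x : Cyl} (h : x ∈ WW false) : -4 ≤ x.2 ∧ x.2 ≤ -3 := by
  obtain ⟨k, s, -, rfl⟩ := mem_iUnion.1 h
  have h1 : (om false k s).2 = -4 + uu s := rfl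
  constructor <;> linarith [uu_nonneg s, uu_le_one s]
lemma snd_of_WW_true {x : Cyl} (h : x ∈ WW true) : 19 ≤ x.2 ∧ x.2 ≤ 20 := by
  obtain ⟨k, s, -, rfl⟩ := mem_iUnion.1 h
  have h1 : (om true k s).2 = 20 - uu s := rfl
  constructor <;> linarith [uu_nonneg s, uu_le_one s]
lemma DD_subset_KS : DD ⊆ KS := subset_union_left
lemma WW_subset_KS (e : Bool) : WW e ⊆ KS := by
  cases e
  · exact subset_union_left.trans subset_union_right
  · exact subset_union_right.trans subset_union_right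
lemma Phi_mem_DD (p : Par) : Phi p ∈ DD := mem_range_self p
lemma Phi_mem_KS (p : Par) : Phi p ∈ KS := DD_subset_KS (Phi_mem_DD p)
lemma om_mem_Wc (e : Bool) (k : ℤ) {s : ℝ} (hs : -2 ≤ s) : om e k s ∈ Wc e k := ⟨s, hs, rfl⟩
lemma om_mem_KS (e : Bool) (k : ℤ) {s : ℝ} (hs : -2 ≤ s) : om e k s ∈ KS :=
  WW_subset_KS e (Wc_subset_WW e k (om_mem_Wc e k hs))
lemma mem_KS_cases {x : Cyl} (h : x ∈ KS) : x ∈ DD ∨ ∃ e, x ∈ WW e := by
  rcases h with h | h | h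
  · exact Or.inl h
  · exact Or.inr ⟨false, h⟩
  · exact Or.inr ⟨true, h⟩
lemma Phi_par {x : Cyl} (h : x ∈ DD) : Phi (par x) = x := by
  rw [par, dif_pos h]
  exact Classical.choose_spec h
lemma yc_Phi (p : Par) : yc (Phi p) = yy p := (Phi_inj (Phi_par (Phi_mem_DD p))).2.2
lemma tc_Phi (p : Par) : tc (Phi p) = th p := (Phi_inj (Phi_par (Phi_mem_DD p))).1
lemma pc_Phi (p : Par) : pc (Phi p) = pos p := (Phi_inj (Phi_par (Phi_mem_DD p))).2.1
lemma Jc_Phi (p : Par) {j : ℕ} (hj : -(j : ℝ) < yy p) : Jc j (Phi p) = JJ j p.1 :=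
  (JJ_eq_of_Phi_eq (Phi_par (Phi_mem_DD p)).symm hj).symm
lemma fst_eq_tc {x : Cyl} (h : x ∈ DD) : x.1 = ((tc x : ℝ) : AddCircle (2 : ℝ)) :=
  (congrArg Prod.fst (Phi_par h)).symm
lemma sim_par_Phi (p : Par) : Sim (par (Phi p)).1 p.1 := by
  obtain ⟨j0, h⟩ := exists_nat_gt (-yy p)
  refine ⟨j0, fun j hj => Jc_Phi p ?_⟩
  have : (j0 : ℝ) ≤ j := Nat.cast_le.2 hj
  linarith
/-- A point in the class of a word lies on a word leaf of that class. -/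
lemma word_rep {x : Cyl} (h : x ∈ DD) {τ : Word} (hs : Sim (par x).1 (Sum.inl τ)) :
    ∃ τ', Sim (Sum.inl τ') (Sum.inl τ) ∧ x = Phi (Sum.inl τ', yc x) := by
  have h1 := Phi_par h
  unfold yc
  generalize par x = p at hs h1
  subst h1
  obtain ⟨τ' | ⟨i, n⟩, σ⟩ := p
  · exact ⟨τ', hs, rfl⟩
  by_cases hn : n = ⊤
  · subst hn
    exact ⟨w0, Sim.trans ⟨0, fun j _ => (JJ_J0 j).trans (JJ_top j i).symm⟩ hs, Phi_top i σ⟩
  · cases eq_ray_of_sim hn hs.symm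
/-- The ray parameter as a function of the point. -/
def sgc (i : Fin 5) (n : ℕ∞) (x : Cyl) : ℝ :=
  yc x + 16 * (10 * (1 + 4 * pc x / wt n) - ((i : ℕ) : ℝ))
lemma ray_rep {x : Cyl} (h : x ∈ DD) {i : Fin 5} {n : ℕ∞} (hn : n ≠ ⊤)
    (hs : Sim (par x).1 (Sum.inr (i, n))) :
    x = Phi (Sum.inr (i, n), sgc i n x) ∧ sgc i n x ≤ rE i ∧ yc x = ppi i (sgc i n x) := by
  have h1 := Phi_par h
  have h2 := eq_ray_of_sim hn hs
  have h0 := (wt_pos_h12 hn).ne'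
  have h3 : sgc i n x = min (par x).2 (rE i) ∧ yc x = ppi i (min (par x).2 (rE i)) := by
    unfold sgc yc pc
    generalize par x = p at h2
    obtain ⟨L, σ⟩ := p
    obtain rfl : L = Sum.inr (i, n) := h2
    refine ⟨?_, rfl⟩
    simp only [yy, pos, ppi]
    field_simp
    ring
  rw [h3.1, ← Phi_clip, ← h2]
  exact ⟨h1.symm, min_le_right _ _, h3.2⟩
lemma exists_int_of_dist_lt {a b ε : ℝ}
    (h : dist (a : AddCircle (2 : ℝ)) (b : AddCircle (2 : ℝ)) < ε) :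
    ∃ m : ℤ, |a - (b + 2 * m)| < ε := by
  rw [dist_eq_norm, ← AddCircle.coe_sub, AddCircle.norm_eq] at h
  refine ⟨round (2⁻¹ * (a - b)), lt_of_eq_of_lt ?_ h⟩
  congr 1
  ring
lemma dist_coe_le (a b : ℝ) : dist (a : AddCircle (2 : ℝ)) (b : AddCircle (2 : ℝ)) ≤ |a - b| :=
  dist_coe_le_h12 a b

end Pool.Agent.Lib.MP_3a0c72_gt.Bing
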