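import Pool.Agent.Lib.MP_3a0c72_gt.Bing.Geom2

/-! Shadows, compactness, connectedness and continuity of the coordinates. -/

set_option autoImplicit false

noncomputable section

open Set Filter Topology

namespace Pool.Agent.Lib.MP_3a0c72_gt.Bing

/-- Far out the level function is close to the level of the end. -/
lemma bet_far_h16 {ε : ℝ} (hε : 0 < ε) : ∃ R : ℝ, 0 < R ∧ ∀ z : ℝ,
    (z ≤ -R → |bet z + 4| < ε) ∧ (R ≤ z → |bet z - 19| < ε) := by
  obtain ⟨a, ha⟩ := eventually_atBot.1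
    (Real.tendsto_sigmoid_atBot.eventually (gt_mem_nhds hε))
  obtain ⟨b, hb⟩ := eventually_atTop.1
    (Real.tendsto_sigmoid_atTop.eventually (lt_mem_nhds (show 1 - ε < 1 by linarith)))
  refine ⟨max 9 (max (-a) b), lt_max_of_lt_left (by norm_num), fun z => ⟨fun h => ?_, fun h => ?_⟩⟩
  · have h1 := le_max_left (9 : ℝ) (max (-a) b)
    have h2 := (le_max_left (-a) b).trans (le_max_right (9 : ℝ) _)
    have h3 := ha z (by linarith)
    have h4 := Real.sigmoid_pos z
    rw [bet, min_eq_left (by linarith), max_eq_left (by linarith), abs_lt]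
    constructor <;> linarith
  · have h1 := le_max_left (9 : ℝ) (max (-a) b)
    have h2 := (le_max_right (-a) b).trans (le_max_right (9 : ℝ) _)
    have h3 := hb z (by linarith)
    have h4 := Real.sigmoid_lt_one z
    rw [bet, min_eq_right (by linarith), max_eq_right (by norm_num), abs_lt]
    constructor <;> linarith

lemma shadow {ε : ℝ} (hε : 0 < ε) : ∃ k0 : ℕ, ∀ (e : Bool) (L : Leaf) (k : ℤ), HasEnd e L →
    (k0 : ℤ) ≤ sg e * k → ∀ s ∈ Icc (0 : ℝ) (5 * MM L k),
      (s ≤ 5 * MM L k - 1 → dist (Phi (L, mk L k s)) (om e k s) < ε) ∧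
      (5 * MM L k - 2 ≤ s → dist (Phi (L, mk L k s)) (om e (k + 1) (s - 5 * MM L k)) < ε) := by
  obtain ⟨R, hR0, hR⟩ := bet_far_h16 hε
  obtain ⟨S, hS0, hS⟩ := thl_large (half_pos hε)
  obtain ⟨k1, hk1⟩ := NN_large (⌈S⌉₊ + 1)
  obtain ⟨k2, hk2⟩ := exists_pow_lt_of_lt_one (half_pos hε) (show (1 / 2 : ℝ) < 1 by norm_num)
  refine ⟨k1 + k2 + ⌈R⌉₊ + 6, fun e L k hL hk s hs => ?_⟩
  have hRc := Nat.le_ceil R
  obtain ⟨y1, y2⟩ := mk_mem L k hs
  have hk' : (k1 + k2 + ⌈R⌉₊ + 6 : ℝ) ≤ (sg e : ℝ) * k := by exact_mod_cast hk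
  have n1 : (0 : ℝ) ≤ k1 := Nat.cast_nonneg _
  have n2 : (0 : ℝ) ≤ k2 := Nat.cast_nonneg _
  have habs : k1 + k2 ≤ k.natAbs := by
    cases e <;> simp only [sg] at hk <;> push_cast at hk <;> omega
  have hside : k < 0 ∨ 6 ≤ k := by
    cases e <;> simp only [sg] at hk <;> push_cast at hk <;> omega
  have hy : yy (L, mk L k s) = mk L k s := by
    refine yy_of_hasEnd hL ?_
    cases e <;> simp only [sg] at hk' ⊢ <;> push_cast at hk' ⊢ <;> linarith
  have hth : th (L, mk L k s) = k + ThL L k s := by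
    rw [th, hy]
    exact ang_mk L hside hs
  have hsm : 1 - thl (5 * NN k - 3) + win k (iota L k + 1) < ε := by
    have a1 : ((⌈S⌉₊ + 1 : ℕ) : ℝ) ≤ NN k := Nat.cast_le.2 (hk1 k (by omega))
    have a2 := Nat.le_ceil S
    push_cast at a1
    have a3 := hS (5 * NN k - 3) (by linarith)
    have a4 := win_le k (iota L k + 1)
    have a5 : (1 / 2 : ℝ) ^ (k.natAbs + 3) ≤ (1 / 2) ^ k2 :=
      pow_le_pow_of_le_one (by norm_num) (by norm_num) (by omega)
    linarith
  have hsnd : dist (Phi (L, mk L k s)).2 (ht e (uu s)) < ε := by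
    obtain ⟨b1, b2⟩ := ang_bounds L (mk L k s)
    obtain ⟨b3, b4⟩ := pos_mem (L, mk L k s)
    have e1 : th (L, mk L k s) = ang L (mk L k s) := by rw [th, hy]
    rw [Real.dist_eq]
    change |bet (th (L, mk L k s) + pos (L, mk L k s)) + prof L (yy (L, mk L k s)) - _| < ε
    rw [hy, e1]
    cases e
    · simp only [sg] at hk hk'
      push_cast at hk hk'
      have := (hR (ang L (mk L k s) + pos (L, mk L k s))).1 (by linarith)
      rw [prof_mk_lo L (by omega) hs]
      refine lt_of_eq_of_lt (congrArg abs ?_) this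
      simp only [ht, Bool.false_eq_true, if_false]
      ring
    · simp only [sg] at hk hk'
      push_cast at hk hk'
      have := (hR (ang L (mk L k s) + pos (L, mk L k s))).2 (by linarith)
      rw [prof_mk_hi L (by omega) hs]
      refine lt_of_eq_of_lt (congrArg abs ?_) this
      simp only [ht, if_true]
      ring
  refine ⟨fun h => ?_, fun h => ?_⟩
  · rw [Prod.dist_eq]
    refine max_lt ((dist_coe_le (th (L, mk L k s)) (k + thl s)).trans_lt ?_) hsnd
    rw [hth, add_sub_add_left_eq_sub]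
    exact (Th_shadow1 (good_lap L k) hs.1 h).trans_lt hsm
  · rw [Prod.dist_eq]
    refine max_lt ((dist_coe_le (th (L, mk L k s))
      (((k + 1 : ℤ) : ℝ) + thl (s - 5 * MM L k))).trans_lt ?_) ?_
    · rw [hth]
      refine lt_of_eq_of_lt (congrArg abs ?_)
        ((Th_shadow2 (good_lap L k) h hs.2).trans_lt hsm)
      push_cast
      unfold ThL
      ring
    · have e2 : uu (s - 5 * MM L k) = uu s := by
        rw [← uu_add_int s (-(MM L k : ℤ))]
        push_cast
        ring_nf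
      change dist _ (ht e (uu (s - 5 * MM L k))) < ε
      rw [e2]
      exact hsnd

/-- Deep points are close to the end. -/
lemma near_end {ε : ℝ} (hε : 0 < ε) : ∃ R : ℝ, 0 < R ∧ ∀ (e : Bool) (p : Par),
    R ≤ (sg e : ℝ) * yy p → ∃ w ∈ WW e, dist (Phi p) w < ε := by
  obtain ⟨k0, hk0⟩ := shadow hε
  have n0 : (0 : ℝ) ≤ k0 := Nat.cast_nonneg _
  refine ⟨k0 + 7, by linarith, fun e p hp => ?_⟩
  have h1 : HasEnd e p.1 ∧ Phi p = Phi (p.1, yy p) := by
    cases e
    · simp only [sg] at hp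
      push_cast at hp
      exact ⟨fun h => absurd h (by simp), Phi_of_neg (by linarith)⟩
    · simp only [sg] at hp
      push_cast at hp
      obtain ⟨τ | ⟨i, n⟩, σ⟩ := p
      · exact ⟨fun _ => ⟨τ, rfl⟩, rfl⟩
      · have := yy_ray_le i n σ
        linarith
  have h2 : (k0 : ℤ) ≤ sg e * ⌊yy p⌋ := by
    have a1 := Int.floor_le (yy p)
    have a2 := Int.lt_floor_add_one (yy p)
    have : (k0 : ℝ) ≤ (sg e : ℝ) * (⌊yy p⌋ : ℝ) := by
      cases e <;> simp only [sg] at hp ⊢ <;> push_cast at hp ⊢ <;> linarith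
    exact_mod_cast this
  obtain ⟨s0, s1⟩ := sc_mem p.1 (yy p)
  obtain ⟨c1, c2⟩ := hk0 e p.1 _ h1.1 h2 _ ⟨s0, s1.le⟩
  rw [mk_sc, ← h1.2] at c1 c2
  rcases le_total (sc p.1 (yy p)) (5 * MM p.1 ⌊yy p⌋ - 1) with h | h
  · exact ⟨_, Wc_subset_WW e _ (om_mem_Wc e _ (by linarith)), c1 h⟩
  · exact ⟨_, Wc_subset_WW e _ (om_mem_Wc e _ (by linarith)), c2 (by linarith)⟩

/-- A set that is exhausted by closed parts up to a neighbourhood of a closed part is closed. -/
lemma closed_of_near_h16 {T B : Set Cyl} (hB : IsClosed B) (hBT : B ⊆ T)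
    (h : ∀ ε : ℝ, 0 < ε → ∃ C, IsClosed C ∧ C ⊆ T ∧ ∀ x ∈ T, x ∈ C ∨ ∃ w ∈ B, dist x w < ε) :
    IsClosed T := by
  refine isClosed_of_closure_subset fun x hx => ?_
  by_cases hxB : x ∈ B
  · exact hBT hxB
  obtain ⟨δ, hδ, h1⟩ := Metric.isOpen_iff.1 hB.isOpen_compl x hxB
  obtain ⟨C, hC, hCT, h2⟩ := h (δ / 2) (half_pos hδ)
  by_cases hxC : x ∈ C
  · exact hCT hxC
  obtain ⟨δ', hδ', h3⟩ := Metric.isOpen_iff.1 hC.isOpen_compl x hxC
  obtain ⟨y, hy, h4⟩ := Metric.mem_closure_iff.1 hx _ (lt_min hδ' (half_pos hδ))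
  rcases h2 y hy with h5 | ⟨w, hw, h5⟩
  · exact absurd h5 (h3 (by rw [Metric.mem_ball']; exact h4.trans_le (min_le_left _ _)))
  · refine absurd hw (h1 ?_)
    rw [Metric.mem_ball']
    have := h4.trans_le (min_le_right _ _)
    linarith [dist_triangle x y w]

lemma closed_tail_h16 (e : Bool) (k : ℤ) (S : ℝ) :
    IsClosed (om e k '' Ici S ∪ om e (k + 1) '' Icc (-2) (-1)) := by
  refine closed_of_near_h16 (isCompact_Icc.image (continuous_om e (k + 1))).isClosed
    subset_union_right fun ε hε => ?_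
  obtain ⟨S', -, hS⟩ := thl_large hε
  refine ⟨om e k '' Icc S S', (isCompact_Icc.image (continuous_om e k)).isClosed,
    (image_mono Icc_subset_Ici_self).trans subset_union_left, ?_⟩
  rintro x (⟨s, hs, rfl⟩ | hx)
  · rcases le_total s S' with h | h
    · exact Or.inl ⟨s, ⟨hs, h⟩, rfl⟩
    · exact Or.inr ⟨_, ⟨-1 - uu s, ⟨by linarith [uu_le_one s], by linarith [uu_nonneg s]⟩, rfl⟩,
        (dist_om_bar e k s).trans_lt (hS s h)⟩
  · exact Or.inr ⟨x, hx, by simpa using hε⟩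

lemma isClosed_WW (e : Bool) : IsClosed (WW e) := by
  have hb : ∀ k, om e k '' Icc (-2) (-1) ⊆ WW e := fun k =>
    (image_mono Icc_subset_Ici_self).trans (Wc_subset_WW e k)
  have : WW e = (om e 0 '' Ici (-2) ∪ om e (0 + 1) '' Icc (-2) (-1)) ∪
      (om e (0 + 1) '' Ici (-2) ∪ om e (0 + 1 + 1) '' Icc (-2) (-1)) := by
    refine Subset.antisymm (fun x hx => ?_) (union_subset (union_subset (Wc_subset_WW e _) (hb _))
      (union_subset (Wc_subset_WW e _) (hb _)))
    exact (mem_Wc_or hx 0).elim (fun h => Or.inl (Or.inl h)) fun h => Or.inr (Or.inl h)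
  rw [this]
  exact (closed_tail_h16 e _ _).union (closed_tail_h16 e _ _)

lemma compact_of_snd_h16 {T : Set Cyl} (hT : IsClosed T) (h : ∀ x ∈ T, -4 ≤ x.2 ∧ x.2 ≤ 20) :
    IsCompact T :=
  (isCompact_univ.prod (isCompact_Icc (a := (-4 : ℝ)) (b := 20))).of_isClosed_subset hT
    fun x hx => ⟨mem_univ _, h x hx⟩

lemma snd_WW_h16 {e : Bool} {x : Cyl} (h : x ∈ WW e) : -4 ≤ x.2 ∧ x.2 ≤ 20 := by
  cases e
  · exact ⟨(snd_of_WW_false h).1, by linarith [(snd_of_WW_false h).2]⟩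
  · exact ⟨by linarith [(snd_of_WW_true h).1], (snd_of_WW_true h).2⟩

lemma isCompact_WW (e : Bool) : IsCompact (WW e) :=
  compact_of_snd_h16 (isClosed_WW e) fun _ h => snd_WW_h16 h

lemma isClosed_tail (e : Bool) (k : ℤ) (S : ℝ) :
    IsClosed (om e k '' Ici S ∪ om e (k + 1) '' Icc (-2) (-1)) := closed_tail_h16 e k S

/-- A compact set of parameters that covers a band. -/
lemma band_piece_h16 (a b : ℝ) : ∃ Q : Set Par, IsCompact Q ∧ Q ⊆ {p | a ≤ yy p ∧ yy p ≤ b} ∧
    Phi '' Q = Phi '' {p | a ≤ yy p ∧ yy p ≤ b} := by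
  have hc : IsClosed {p | a ≤ yy p ∧ yy p ≤ b} :=
    (isClosed_le continuous_const continuous_yy).inter (isClosed_le continuous_yy continuous_const)
  refine ⟨univ ×ˢ Icc a (max b 13) ∩ {p | a ≤ yy p ∧ yy p ≤ b},
    (isCompact_univ.prod isCompact_Icc).inter_right hc, inter_subset_right,
    Subset.antisymm (image_mono inter_subset_right) ?_⟩
  rintro _ ⟨⟨τ | ⟨i, n⟩, σ⟩, hp, rfl⟩
  · exact ⟨_, ⟨⟨mem_univ _, hp.1, le_max_of_le_left hp.2⟩, hp⟩, rfl⟩
  · have e : yy (Sum.inr (i, n), min σ (rE i)) = yy (Sum.inr (i, n), σ) := by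
      simp only [yy, min_assoc, min_self]
    have h1 : yy (Sum.inr (i, n), σ) ≤ min σ (rE i) := by
      have : 0 ≤ fold i (min σ (rE i)) := le_max_left _ _
      simp only [yy, ppi]
      linarith
    have h2 : rE i ≤ 13 := by fin_cases i <;> norm_num [rE]
    refine ⟨(Sum.inr (i, n), min σ (rE i)), ⟨⟨mem_univ _, hp.1.trans h1,
      le_max_of_le_right ((min_le_right _ _).trans h2)⟩, ?_⟩, (Phi_clip i n σ).symm⟩
    change a ≤ _ ∧ _ ≤ b
    rw [e]
    exact hp

lemma isCompact_band (a b : ℝ) : IsCompact (Phi '' {p | a ≤ yy p ∧ yy p ≤ b}) := by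
  obtain ⟨Q, h1, -, h3⟩ := band_piece_h16 a b
  exact h3 ▸ h1.image continuous_Phi

lemma isClosed_deep (e : Bool) (R : ℝ) :
    IsClosed (Phi '' {p | R ≤ (sg e : ℝ) * yy p} ∪ WW e) := by
  refine closed_of_near_h16 (isClosed_WW e) subset_union_right fun ε hε => ?_
  obtain ⟨R', -, hR⟩ := near_end hε
  have hc : IsClosed (Phi '' {p | R ≤ (sg e : ℝ) * yy p ∧ (sg e : ℝ) * yy p ≤ R'}) := by
    cases e
    · have : {p : Par | R ≤ (sg false : ℝ) * yy p ∧ (sg false : ℝ) * yy p ≤ R'} =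
          {p | -R' ≤ yy p ∧ yy p ≤ -R} := by
        ext p
        simp only [sg, mem_ofPred_eq]
        push_cast
        constructor <;> rintro ⟨h1, h2⟩ <;> constructor <;> linarith
      rw [this]
      exact (isCompact_band _ _).isClosed
    · have : {p : Par | R ≤ (sg true : ℝ) * yy p ∧ (sg true : ℝ) * yy p ≤ R'} =
          {p | R ≤ yy p ∧ yy p ≤ R'} := by
        ext p
        simp [sg]
      rw [this]
      exact (isCompact_band _ _).isClosed
  refine ⟨_, hc, (image_mono fun p hp => hp.1).trans subset_union_left, ?_⟩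
  rintro x (⟨p, hp, rfl⟩ | hx)
  · rcases le_total ((sg e : ℝ) * yy p) R' with h | h
    · exact Or.inl ⟨p, ⟨hp, h⟩, rfl⟩
    · exact Or.inr (hR e p h)
  · exact Or.inr ⟨x, hx, by simpa using hε⟩

lemma isCompact_KS : IsCompact KS := by
  have e : KS = (Phi '' {p | 0 ≤ (sg false : ℝ) * yy p} ∪ WW false) ∪
      (Phi '' {p | 0 ≤ (sg true : ℝ) * yy p} ∪ WW true) := by
    refine Subset.antisymm ?_ (union_subset
      (union_subset ((image_subset_range _ _).trans DD_subset_KS) (WW_subset_KS _))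
      (union_subset ((image_subset_range _ _).trans DD_subset_KS) (WW_subset_KS _)))
    rintro x (⟨p, rfl⟩ | hx | hx)
    · rcases le_total (yy p) 0 with h | h
      · exact Or.inl (Or.inl ⟨p, by simpa [sg] using h, rfl⟩)
      · exact Or.inr (Or.inl ⟨p, by simpa [sg] using h, rfl⟩)
    · exact Or.inl (Or.inr hx)
    · exact Or.inr (Or.inr hx)
  refine compact_of_snd_h16 (e ▸ (isClosed_deep false 0).union (isClosed_deep true 0)) ?_
  rintro x (⟨p, rfl⟩ | hx | hx)
  · obtain ⟨a1, a2⟩ := prof_mem p.1 (yy p)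
    have a3 := Real.sigmoid_pos (th p + pos p)
    have a4 := Real.sigmoid_lt_one (th p + pos p)
    have a5 := le_max_left (-2 : ℝ) (min (th p + pos p) 9)
    have a6 : max (-2 : ℝ) (min (th p + pos p) 9) ≤ 9 := max_le (by norm_num) (min_le_right _ _)
    simp only [Phi, bet]
    constructor <;> linarith
  · exact snd_WW_h16 hx
  · exact snd_WW_h16 hx

/-- A leaf accumulates on the whole of each of its ends. -/
lemma WW_closure_h16 {e : Bool} {L : Leaf} (hL : HasEnd e L) :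
    WW e ⊆ closure (range fun σ : ℝ => Phi (L, σ)) := by
  intro x hx
  obtain ⟨k, s, hs, rfl⟩ := mem_iUnion.1 hx
  refine Metric.mem_closure_iff.2 fun ε hε => ?_
  obtain ⟨k0, hk0⟩ := shadow hε
  obtain ⟨k1, hk1⟩ := NN_large (⌈s⌉₊ + 1)
  obtain ⟨m, hm⟩ : ∃ m : ℤ, (k0 + k1 + 1 : ℤ) ≤ sg e * (k + 2 * m) := by
    refine ⟨sg e * (k0 + k1 + 1 + |k|), ?_⟩
    have := le_abs_self k
    have := neg_abs_le k
    cases e <;> simp only [sg] <;> push_cast <;> omega
  have hs' : (-2 : ℝ) ≤ s := hs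
  rcases le_total 0 s with h | h
  · have a0 : k1 ≤ (k + 2 * m).natAbs := by
      cases e <;> simp only [sg] at hm <;> push_cast at hm <;> omega
    have a1 : ((⌈s⌉₊ + 1 : ℕ) : ℝ) ≤ MM L (k + 2 * m) :=
      Nat.cast_le.2 ((hk1 _ a0).trans (NN_le_MM L _))
    have a2 := Nat.le_ceil s
    push_cast at a1
    have := (hk0 e L (k + 2 * m) hL (by omega) s ⟨h, by linarith⟩).1 (by linarith)
    rw [om_add_two_mul, dist_comm] at this
    exact ⟨_, ⟨_, rfl⟩, this⟩
  · have a1 : (1 : ℝ) ≤ MM L (k + 2 * m - 1) := by exact_mod_cast one_le_MM L _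
    have a0 : (k0 : ℤ) ≤ sg e * (k + 2 * m - 1) := by
      cases e <;> simp only [sg] at hm ⊢ <;> push_cast at hm ⊢ <;> omega
    have := (hk0 e L (k + 2 * m - 1) hL a0 (s + 5 * MM L (k + 2 * m - 1))
      ⟨by linarith, by linarith⟩).2 (by linarith)
    rw [sub_add_cancel, add_sub_cancel_right, om_add_two_mul, dist_comm] at this
    exact ⟨_, ⟨_, rfl⟩, this⟩

lemma isConnected_KS : IsConnected KS := by
  have hl : ∀ L : Leaf, IsPreconnected (range fun σ : ℝ => Phi (L, σ)) := fun L =>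
    isPreconnected_range (continuous_Phi.comp (Continuous.prodMk_right L))
  have hf : ∀ L : Leaf, HasEnd false L := fun L h => absurd h (by simp)
  have h0 : om false 0 0 ∈ WW false := Wc_subset_WW _ _ (om_mem_Wc false 0 (by norm_num))
  have hsub : ∀ L : Leaf, (range fun σ : ℝ => Phi (L, σ)) ⊆ KS := by
    rintro L _ ⟨σ, rfl⟩
    exact Phi_mem_KS _
  refine ⟨⟨_, WW_subset_KS _ h0⟩, isPreconnected_of_forall (om false 0 0) fun y hy => ?_⟩
  have hJ : y ∈ WW false ∪ WW true → ∃ t ⊆ KS, om false 0 0 ∈ t ∧ y ∈ t ∧ IsPreconnected t :=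
    fun h => ⟨(range fun σ : ℝ => Phi (J0, σ)) ∪ (WW false ∪ WW true),
      union_subset (hsub _) subset_union_right, Or.inr (Or.inl h0), Or.inr h,
      (hl J0).subset_closure subset_union_left (union_subset subset_closure (union_subset
        (WW_closure_h16 (hf _)) (WW_closure_h16 fun _ => ⟨w0, rfl⟩)))⟩
  rcases hy with ⟨⟨L, σ⟩, rfl⟩ | hy
  · exact ⟨(range fun σ : ℝ => Phi (L, σ)) ∪ WW false, union_subset (hsub _) (WW_subset_KS _),
      Or.inr h0, Or.inl ⟨σ, rfl⟩, (hl L).subset_closure subset_union_left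
        (union_subset subset_closure (WW_closure_h16 (hf _)))⟩
  · exact hJ hy

/-- A band is a neighbourhood in the continuum of its inner points. -/
lemma band_nhds_h16 {a b : ℝ} {p : Par} (ha : a < yy p) (hb : yy p < b) :
    Phi '' {q | a ≤ yy q ∧ yy q ≤ b} ∈ 𝓝[KS] (Phi p) := by
  have hc := ((isClosed_deep false (-a)).union (isClosed_deep true b)).isOpen_compl
  refine mem_nhdsWithin.2 ⟨_, hc, ?_, ?_⟩
  · rintro ((⟨q, hq, e⟩ | h) | (⟨q, hq, e⟩ | h))
    · have h1 := (Phi_inj e).2.2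
      simp only [sg, mem_ofPred_eq] at hq
      push_cast at hq
      linarith
    · exact notMem_WW_of_DD (Phi_mem_DD p) _ h
    · have h1 := (Phi_inj e).2.2
      simp only [sg, mem_ofPred_eq] at hq
      push_cast at hq
      linarith
    · exact notMem_WW_of_DD (Phi_mem_DD p) _ h
  · rintro x ⟨hx, ⟨q, rfl⟩ | h | h⟩
    · refine ⟨q, ⟨not_lt.1 fun h => hx (Or.inl (Or.inl ⟨q, ?_, rfl⟩)),
        not_lt.1 fun h => hx (Or.inr (Or.inl ⟨q, ?_, rfl⟩))⟩, rfl⟩
      · simpa [sg] using h.le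
      · simpa [sg] using h.le
    · exact absurd (Or.inl (Or.inr h)) hx
    · exact absurd (Or.inr (Or.inr h)) hx

lemma contOn_image_h16 {A B Z : Type*} [TopologicalSpace A] [TopologicalSpace B] [T2Space B]
    [TopologicalSpace Z] {f : A → B} {g : A → Z} {G : B → Z} {Q : Set A} (hQ : IsCompact Q)
    (hf : Continuous f) (hg : Continuous g) (h : ∀ q ∈ Q, G (f q) = g q) :
    ContinuousOn G (f '' Q) := by
  refine continuousOn_iff_isClosed.2 fun t ht => ⟨f '' (Q ∩ g ⁻¹' t),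
    ((hQ.inter_right (ht.preimage hg)).image hf).isClosed, Subset.antisymm ?_ ?_⟩
  · rintro _ ⟨h1, q, hq, rfl⟩
    exact ⟨⟨q, ⟨hq, by rw [mem_preimage, ← h q hq]; exact h1⟩, rfl⟩, q, hq, rfl⟩
  · rintro _ ⟨⟨q, ⟨hq, h1⟩, rfl⟩, h2⟩
    exact ⟨by rw [mem_preimage, h q hq]; exact h1, h2⟩

/-- Descent of continuity to the leaves. -/
lemma descent {X Z : Type*} [TopologicalSpace X] [CompactSpace X] [T2Space X] [TopologicalSpace Z]
    (G : Cyl × X → Z) (g : Par × X → Z) (a : ℝ) (hg : Continuous g)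
    (hG : ∀ p t, a < yy p → G (Phi p, t) = g (p, t)) (p : Par) (t : X) (hp : a < yy p) :
    ContinuousWithinAt G (KS ×ˢ univ) (Phi p, t) := by
  obtain ⟨Q, h1, h2, h3⟩ := band_piece_h16 ((a + yy p) / 2) (yy p + 1)
  have hn := band_nhds_h16 (a := (a + yy p) / 2) (b := yy p + 1) (p := p) (by linarith)
    (by linarith)
  rw [← h3] at hn
  have hc : ContinuousOn G (Prod.map Phi id '' (Q ×ˢ (univ : Set X))) :=
    contOn_image_h16 (h1.prod isCompact_univ) (continuous_Phi.prodMap continuous_id) hg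
      fun q hq => hG q.1 q.2 (by have := (h2 hq.1).1; linarith)
  rw [prodMap_image_prod, image_id] at hc
  exact (hc _ ⟨mem_of_mem_nhdsWithin (Phi_mem_KS p) hn, mem_univ _⟩).mono_of_mem_nhdsWithin
    (nhdsWithin_prod hn self_mem_nhdsWithin)

lemma descent0_h16 {Z : Type*} [TopologicalSpace Z] (G : Cyl → Z) (g : Par → Z) (a : ℝ)
    (hg : Continuous g) (hG : ∀ p, a < yy p → G (Phi p) = g p) (p : Par) (hp : a < yy p) :
    ContinuousWithinAt G KS (Phi p) := by
  obtain ⟨Q, h1, h2, h3⟩ := band_piece_h16 ((a + yy p) / 2) (yy p + 1)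
  have hn := band_nhds_h16 (a := (a + yy p) / 2) (b := yy p + 1) (p := p) (by linarith)
    (by linarith)
  rw [← h3] at hn
  have hc : ContinuousOn G (Phi '' Q) :=
    contOn_image_h16 h1 continuous_Phi hg fun q hq => hG q (by have := (h2 hq).1; linarith)
  exact (hc _ (mem_of_mem_nhdsWithin (Phi_mem_KS p) hn)).mono_of_mem_nhdsWithin hn

lemma continuousWithinAt_yc {x : Cyl} (h : x ∈ DD) : ContinuousWithinAt yc KS x := by
  obtain ⟨p, rfl⟩ := h
  exact descent0_h16 yc yy (yy p - 1) continuous_yy (fun q _ => yc_Phi q) p (by linarith)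
lemma continuousWithinAt_tc {x : Cyl} (h : x ∈ DD) : ContinuousWithinAt tc KS x := by
  obtain ⟨p, rfl⟩ := h
  exact descent0_h16 tc th (yy p - 1) continuous_th (fun q _ => tc_Phi q) p (by linarith)
lemma continuousWithinAt_pc {x : Cyl} (h : x ∈ DD) : ContinuousWithinAt pc KS x := by
  obtain ⟨p, rfl⟩ := h
  exact descent0_h16 pc pos (yy p - 1) continuous_pos (fun q _ => pc_Phi q) p (by linarith)
lemma continuousWithinAt_Jc {x : Cyl} (h : x ∈ DD) {j : ℕ} (hj : -(j : ℝ) < yc x) :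
    ContinuousWithinAt (Jc j) KS x := by
  obtain ⟨p, rfl⟩ := h
  rw [yc_Phi] at hj
  exact descent0_h16 (Jc j) (fun q => JJ j q.1) (-(j : ℝ)) ((continuous_JJ j).comp continuous_fst)
    (fun q hq => Jc_Phi q hq) p hj
lemma DD_mem_nhdsWithin {x : Cyl} (h : x ∈ DD) : DD ∈ 𝓝[KS] x := by
  obtain ⟨p, rfl⟩ := h
  exact mem_of_superset (band_nhds_h16 (a := yy p - 1) (b := yy p + 1) (by linarith) (by linarith))
    (image_subset_range _ _)
lemma tc_bounds (x : Cyl) : yc x - 1 < tc x ∧ tc x < yc x + 2 := ang_bounds _ _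
/-- A limit in the cylinder of leaf points with bounded angle is a leaf point. -/
lemma isCompact_tc_band (a b : ℝ) :
    ∃ C : Set Cyl, IsCompact C ∧ C ⊆ DD ∧ ∀ x ∈ DD, a ≤ tc x → tc x ≤ b → x ∈ C := by
  refine ⟨_, isCompact_band (a - 2) (b + 1), image_subset_range _ _, ?_⟩
  rintro _ ⟨p, rfl⟩ h1 h2
  obtain ⟨h3, h4⟩ := tc_bounds (Phi p)
  rw [yc_Phi] at h3 h4
  exact ⟨p, ⟨by linarith, by linarith⟩, rfl⟩
lemma exists_embedding : ∃ E : Cyl → ℝ × ℝ, Continuous E ∧ Function.Injective E := by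
  have hc : Continuous fun x : Cyl => (Real.exp x.2 : ℂ) * (AddCircle.toCircle x.1 : ℂ) :=
    (Complex.continuous_ofReal.comp (Real.continuous_exp.comp continuous_snd)).mul
      (continuous_subtype_val.comp (AddCircle.continuous_toCircle.comp continuous_fst))
  refine ⟨fun x => (((Real.exp x.2 : ℂ) * (AddCircle.toCircle x.1 : ℂ)).re,
    ((Real.exp x.2 : ℂ) * (AddCircle.toCircle x.1 : ℂ)).im),
    (Complex.continuous_re.comp hc).prodMk (Complex.continuous_im.comp hc), fun x y h => ?_⟩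
  have e : (Real.exp x.2 : ℂ) * (AddCircle.toCircle x.1 : ℂ) =
      (Real.exp y.2 : ℂ) * (AddCircle.toCircle y.1 : ℂ) :=
    Complex.ext (congrArg Prod.fst h) (congrArg Prod.snd h)
  have e2 : x.2 = y.2 := by
    have := congrArg norm e
    rw [norm_mul, norm_mul, Circle.norm_coe, Circle.norm_coe, mul_one, mul_one, Complex.norm_real,
      Complex.norm_real, Real.norm_of_nonneg (Real.exp_pos _).le,
      Real.norm_of_nonneg (Real.exp_pos _).le] at this
    exact Real.exp_injective this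
  rw [e2] at e
  have e3 := mul_left_cancel₀ (Complex.ofReal_ne_zero.2 (Real.exp_pos y.2).ne') e
  exact Prod.ext (AddCircle.injective_toCircle two_ne_zero (Circle.ext e3)) e2

end Pool.Agent.Lib.MP_3a0c72_gt.Bing
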