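import Pool.Agent.Lib.MP_3a0c72_gt.Bing.Geom3

/-! Paths in the continuum. -/

set_option autoImplicit false

noncomputable section

open Set Filter Topology

namespace Pool.Agent.Lib.MP_3a0c72_gt.Bing

/-- A continuous self map without fixed point. -/
structure Free (H : Cyl → Cyl) : Prop where
  cont : ContinuousOn H KS
  maps : MapsTo H KS KS
  free : ∀ x ∈ KS, H x ≠ x

lemma cont_tc_h2 {γ : ℝ → Cyl} {S : Set ℝ} (hγ : ContinuousOn γ S) (hD : MapsTo γ S DD) :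
    ContinuousOn (fun x => tc (γ x)) S := fun x hx =>
  (continuousWithinAt_tc (hD hx)).comp (hγ x hx) fun _ hy => DD_subset_KS (hD hy)

lemma path_angle {γ : ℝ → Cyl} {S : Set ℝ} (hS : IsPreconnected S) (hγ : ContinuousOn γ S)
    (hD : MapsTo γ S DD) {α : ℝ} (hα : ∀ x ∈ S, ∀ m : ℤ, tc (γ x) ≠ α + 2 * m)
    {a b : ℝ} (ha : a ∈ S) (hb : b ∈ S) {m : ℤ} (h1 : α + 2 * m < tc (γ a))
    (h2 : tc (γ a) < α + 2 * m + 2) : α + 2 * m < tc (γ b) ∧ tc (γ b) < α + 2 * m + 2 := by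
  have hc := cont_tc_h2 hγ hD
  refine ⟨lt_of_not_ge fun h => ?_, lt_of_not_ge fun h => ?_⟩
  · obtain ⟨x, hx, e⟩ := hS.intermediate_value hb ha hc ⟨h, h1.le⟩
    exact hα x hx m e
  · obtain ⟨x, hx, e⟩ := hS.intermediate_value ha hb hc ⟨h2.le, h⟩
    refine hα x hx (m + 1) (e.trans ?_)
    push_cast
    ring

lemma path_DD_h2 {γ : ℝ → Cyl} (hγ : ContinuousOn γ (Icc 0 1)) (hK : MapsTo γ (Icc 0 1) KS)
    (h : γ 0 ∈ DD) : γ 1 ∈ DD := by
  by_contra hn
  have hcl : IsClosed (Icc (0 : ℝ) 1 ∩ γ ⁻¹' (WW false ∪ WW true)) :=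
    hγ.preimage_isClosed_of_isClosed isClosed_Icc ((isClosed_WW _).union (isClosed_WW _))
  obtain ⟨c, ⟨hc, hcW⟩, hl⟩ := (isCompact_Icc.of_isClosed_subset hcl
    inter_subset_left).exists_isLeast ⟨1, ⟨zero_le_one, le_rfl⟩,
      (hK ⟨zero_le_one, le_rfl⟩).resolve_left hn⟩
  have hcD : γ c ∉ DD := fun e => hcW.elim (notMem_WW_of_DD e _) (notMem_WW_of_DD e _)
  have c0 : 0 < c := hc.1.lt_of_ne fun e => hcD (e ▸ h)
  have hD : ∀ x, 0 ≤ x → x < c → γ x ∈ DD := fun x h0 h1 =>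
    (hK ⟨h0, h1.le.trans hc.2⟩).resolve_right fun e => h1.not_ge (hl ⟨⟨h0, h1.le.trans hc.2⟩, e⟩)
  obtain ⟨θ, hθ⟩ : ∃ θ : ℝ, (γ c).1 = (θ : AddCircle (2 : ℝ)) :=
    QuotientAddGroup.induction_on (γ c).1 fun θ => ⟨θ, rfl⟩
  obtain ⟨δ, δ0, hδ⟩ := Metric.continuousWithinAt_iff.1 (hγ c hc) 1 one_pos
  obtain ⟨c', c1, c2, c3⟩ : ∃ c', 0 ≤ c' ∧ c' < c ∧ c - δ < c' :=
    ⟨max 0 (c - δ / 2), le_max_left _ _, max_lt c0 (by linarith),
      lt_max_of_lt_right (by linarith)⟩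
  have hsub : Ico c' c ⊆ Icc 0 1 := fun x hx => ⟨c1.trans hx.1, hx.2.le.trans hc.2⟩
  have hM : MapsTo γ (Ico c' c) DD := fun x hx => hD x (c1.trans hx.1) hx.2
  have hα : ∀ x ∈ Ico c' c, ∀ m : ℤ, tc (γ x) ≠ θ + 1 + 2 * m := by
    intro x hx m e
    have h1 : dist (γ x).1 (γ c).1 < 1 := (le_max_left _ _).trans_lt
      (hδ (hsub hx) (by rw [Real.dist_eq, abs_lt]; constructor <;> linarith [hx.1, hx.2]))
    rw [fst_eq_tc (hM hx), hθ, e] at h1
    obtain ⟨l, hl⟩ := exists_int_of_dist_lt h1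
    have h2 : |1 + 2 * m - 2 * l| < (1 : ℤ) := by
      have : θ + 1 + 2 * m - (θ + 2 * l) = ((1 + 2 * m - 2 * l : ℤ) : ℝ) := by
        push_cast
        ring
      rw [this] at hl
      exact_mod_cast hl
    rw [abs_lt] at h2
    omega
  have hc' : c' ∈ Ico c' c := ⟨le_rfl, c2⟩
  have f1 := Int.floor_le ((tc (γ c') - (θ + 1)) / 2)
  have f2 := Int.lt_floor_add_one ((tc (γ c') - (θ + 1)) / 2)
  generalize ⌊(tc (γ c') - (θ + 1)) / 2⌋ = m at f1 f2
  obtain ⟨C, h1, h2, h3⟩ := isCompact_tc_band (θ + 1 + 2 * m) (θ + 1 + 2 * m + 2)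
  refine hcD (h2 (h1.isClosed.closure_subset ?_))
  refine ((hγ c hc).mono hsub).mem_closure (by rw [closure_Ico c2.ne]; exact ⟨c2.le, le_rfl⟩)
    fun x hx => ?_
  have := path_angle isPreconnected_Ico (hγ.mono hsub) hM hα hc' hx
    (lt_of_le_of_ne (by linarith) (hα _ hc' m).symm) (by linarith)
  exact h3 _ (hM hx) this.1.le this.2.le

lemma path_DD {γ : ℝ → Cyl} {S : Set ℝ} (hS : IsPreconnected S) (hγ : ContinuousOn γ S)
    (hK : MapsTo γ S KS) {a b : ℝ} (ha : a ∈ S) (hb : b ∈ S) (h : γ a ∈ DD) : γ b ∈ DD := by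
  have hm : MapsTo (fun t : ℝ => a + t * (b - a)) (Icc 0 1) S := fun t ht => by
    refine hS.ordConnected.uIcc_subset ha hb ?_
    rcases le_total a b with h | h
    · exact mem_uIcc.2 (.inl ⟨by nlinarith [ht.1], by nlinarith [ht.2]⟩)
    · exact mem_uIcc.2 (.inr ⟨by nlinarith [ht.2], by nlinarith [ht.1]⟩)
  have := path_DD_h2 (γ := fun t => γ (a + t * (b - a))) (hγ.comp (by fun_prop) hm)
    (hK.comp hm) (by simpa using h)
  simpa using this

lemma ht_inj_h2 (e : Bool) (v v' : ℝ) : |ht e v - ht e v'| = |v - v'| := by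
  cases e
  · simp [ht]
  · simp only [ht, if_true]
    rw [abs_sub_comm]
    congr 1
    ring

lemma sep_h2 {γ : ℝ → Cyl} {S : Set ℝ} (hS : IsPreconnected S) (hγ : ContinuousOn γ S)
    {e : Bool} (hW : MapsTo γ S (WW e)) {c : ℝ} (hc : 0 ≤ c)
    (hne : ∀ x ∈ S, (γ x).2 ≠ ht e (uu c)) {a b : ℝ} (ha : a ∈ S) (hb : b ∈ S) {k : ℤ}
    (h : γ a ∈ Wc e k) (h' : γ b ∈ Wc e (k + 1)) : False := by
  obtain ⟨s, hs, e1⟩ := h
  obtain ⟨s', hs', e2⟩ := h'
  obtain ⟨n, hn⟩ := exists_nat_gt (max |s| |s'|)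
  have n1 := (le_abs_self s).trans (le_max_left _ |s'|)
  have n2 := (le_abs_self s').trans (le_max_right |s| _)
  have n0 : (0 : ℝ) ≤ n := Nat.cast_nonneg _
  obtain ⟨r, hr⟩ : ∃ r : ℝ, r = c + 5 * ((n : ℤ) : ℝ) := ⟨_, rfl⟩
  have r1 : (n : ℝ) ≤ r := by
    rw [hr]
    push_cast
    linarith
  have lt : ∀ t, t < r → thl t < thl r := fun t ht => by
    rcases le_total t (-1) with h | h
    · rw [thl_of_le h, ← thl_of_le (le_refl (-1 : ℝ))]
      exact thl_lt_thl le_rfl (by linarith)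
    · exact thl_lt_thl h ht
  let F : Cyl → ℝ := fun x =>
    ((AddCircle.toCircle (x.1 - ((k + thl r : ℝ) : AddCircle (2 : ℝ))) : Circle) : ℂ).im
  have hF : Continuous F := Complex.continuous_im.comp (continuous_subtype_val.comp
    (AddCircle.continuous_toCircle.comp (continuous_fst.sub continuous_const)))
  have hv : ∀ (l : ℤ) (t : ℝ), F (om e l t) = Real.sin (Real.pi * (l + thl t - (k + thl r))) := by
    intro l t
    simp only [F, om, ← AddCircle.coe_sub, AddCircle.toCircle_apply_mk, Circle.coe_exp,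
      Complex.exp_ofReal_mul_I_im]
    congr 1
    ring
  have p := Real.pi_pos
  have a1 : F (γ a) ≤ 0 := by
    rw [← e1, hv]
    exact Real.sin_nonpos_of_nonpos_of_neg_pi_le
      (by nlinarith [lt s (by linarith)]) (by nlinarith [thl_nonneg s, thl_lt_one r])
  have a2 : 0 ≤ F (γ b) := by
    rw [← e2, hv]
    push_cast
    exact Real.sin_nonneg_of_nonneg_of_le_pi
      (by nlinarith [thl_nonneg s', thl_lt_one r]) (by nlinarith [lt s' (by linarith)])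
  have key : ∀ x ∈ S, F (γ x) ≠ 0 := by
    intro x hx h0
    obtain ⟨l, t, -, e3⟩ := mem_iUnion.1 (hW hx)
    rw [← e3, hv, Real.sin_eq_zero_iff] at h0
    obtain ⟨m, hm⟩ := h0
    have h1 : thl t - thl r = ((m + k - l : ℤ) : ℝ) := by
      have := mul_left_cancel₀ p.ne' ((mul_comm _ _).trans hm)
      push_cast
      linarith
    have h2 : |m + k - l| < (1 : ℤ) := by
      have : |((m + k - l : ℤ) : ℝ)| < 1 := by
        rw [← h1, abs_lt]
        constructor <;> linarith [thl_nonneg t, thl_lt_one r, thl_nonneg r, thl_lt_one t]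
      exact_mod_cast this
    rw [Int.abs_lt_one_iff.1 h2, Int.cast_zero] at h1
    have h3 : t = r := by
      rcases lt_trichotomy t r with h | h | h
      · linarith [lt t h]
      · exact h
      · linarith [thl_lt_thl (by linarith : -1 ≤ r) h]
    refine hne x hx ?_
    rw [← e3, h3, hr]
    simp only [om, uu_add_int]
  obtain ⟨x, hx, h0⟩ := hS.intermediate_value ha hb (hF.comp_continuousOn hγ) ⟨a1, a2⟩
  exact key x hx h0

lemma path_Wc {γ : ℝ → Cyl} {S : Set ℝ} (hS : IsPreconnected S) (hγ : ContinuousOn γ S)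
    (hK : MapsTo γ S KS) {a b : ℝ} (ha : a ∈ S) (hb : b ∈ S) {e : Bool} {k : ℤ}
    (h : γ a ∈ Wc e k) : γ b ∈ Wc e k := by
  have h0 := Wc_subset_WW e k h
  have h1 : ∀ x ∈ S, γ x ∈ WW false ∪ WW true := fun x hx => (hK hx).resolve_left fun e' =>
    notMem_WW_of_DD (path_DD hS hγ hK hx ha e') _ h0
  have hc : ContinuousOn (fun x => (γ x).2) S := continuous_snd.comp_continuousOn hγ
  have h2 : ∀ u ∈ S, ∀ v ∈ S, γ u ∈ WW false → γ v ∈ WW true → False := by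
    intro u hu v hv a1 a2
    obtain ⟨x, hx, e0⟩ := hS.intermediate_value hu hv hc (show (0 : ℝ) ∈ Icc _ _ from
      ⟨by linarith [(snd_of_WW_false a1).2], by linarith [(snd_of_WW_true a2).1]⟩)
    rcases h1 x hx with a3 | a3
    · linarith [(snd_of_WW_false a3).2, show (γ x).2 = 0 from e0]
    · linarith [(snd_of_WW_true a3).1, show (γ x).2 = 0 from e0]
  have hW : MapsTo γ S (WW e) := fun x hx => by
    cases e
    · exact (h1 x hx).resolve_right (h2 a ha x hx h0)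
    · exact (h1 x hx).resolve_left fun a1 => h2 x hx a ha a1 h0
  refine hS.induction₂' (fun x y => γ x ∈ Wc e k → γ y ∈ Wc e k) (fun x hx => ?_)
    (fun _ _ _ _ _ _ a1 a2 a3 => a2 (a1 a3)) ha hb h
  obtain ⟨δ, δ0, hδ⟩ := Metric.continuousWithinAt_iff.1 (hc x hx) (1 / 2) (by norm_num)
  have hT : IsPreconnected (S ∩ Ioo (x - δ) (x + δ)) :=
    (hS.ordConnected.inter ordConnected_Ioo).isPreconnected
  obtain ⟨c, c0, hne⟩ : ∃ c : ℝ, 0 ≤ c ∧ ∀ y ∈ S ∩ Ioo (x - δ) (x + δ), (γ y).2 ≠ ht e (uu c) := by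
    obtain ⟨l, t, -, e3⟩ := mem_iUnion.1 (hW hx)
    have a1 : ∀ v, 1 / 2 ≤ |v - uu t| → ∀ y ∈ S ∩ Ioo (x - δ) (x + δ), (γ y).2 ≠ ht e v := by
      intro v hv y hy e4
      have := hδ hy.1 (by rw [Real.dist_eq, abs_lt]; constructor <;> linarith [hy.2.1, hy.2.2])
      rw [e4, ← e3, Real.dist_eq] at this
      change |ht e v - ht e (uu t)| < _ at this
      rw [ht_inj_h2] at this
      linarith
    rcases le_total (uu t) (1 / 2) with a2 | a2
    · refine ⟨2, by norm_num, a1 _ ?_⟩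
      rw [uu_eq_one le_rfl (by norm_num)]
      exact le_abs.2 (.inl (by linarith))
    · refine ⟨0, le_rfl, a1 _ ?_⟩
      rw [uu_eq_zero (by norm_num) (by norm_num)]
      exact le_abs.2 (.inr (by linarith))
  have hx' : x ∈ S ∩ Ioo (x - δ) (x + δ) := ⟨hx, by linarith, by linarith⟩
  have key : ∀ u ∈ S ∩ Ioo (x - δ) (x + δ), ∀ v ∈ S ∩ Ioo (x - δ) (x + δ),
      γ u ∈ Wc e k → γ v ∈ Wc e k := fun u hu v hv a1 =>
    (mem_Wc_or (hW hv.1) k).resolve_right (sep_h2 hT (hγ.mono inter_subset_left)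
      (hW.mono_left inter_subset_left) c0 hne hu hv a1)
  filter_upwards [inter_mem_nhdsWithin S (Ioo_mem_nhds hx'.2.1 hx'.2.2)] with y hy
  exact ⟨key x hx' y hy, key y hy x hx'⟩

lemma path_Jc {γ : ℝ → Cyl} {S : Set ℝ} (hS : IsPreconnected S) (hγ : ContinuousOn γ S) {j : ℕ}
    (hD : ∀ x ∈ S, γ x ∈ DD ∧ -(j : ℝ) < yc (γ x)) {a b : ℝ} (ha : a ∈ S) (hb : b ∈ S) :
    Jc j (γ a) = Jc j (γ b) :=
  hS.constant (f := fun x => Jc j (γ x)) (fun x hx =>
    (continuousWithinAt_Jc (hD x hx).1 (hD x hx).2).comp (hγ x hx)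
      fun y hy => DD_subset_KS (hD y hy).1) ha hb

lemma path_sim {γ : ℝ → Cyl} {S : Set ℝ} (hS : IsPreconnected S) (hγ : ContinuousOn γ S)
    (hD : MapsTo γ S DD) {a b : ℝ} (ha : a ∈ S) (hb : b ∈ S) :
    Sim (par (γ a)).1 (par (γ b)).1 := by
  have hsub := hS.ordConnected.uIcc_subset ha hb
  have hc : ContinuousOn (fun x => yc (γ x)) (uIcc a b) := fun x hx =>
    ((continuousWithinAt_yc (hD (hsub hx))).comp (hγ x (hsub hx))
      fun _ hy => DD_subset_KS (hD hy)).mono hsub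
  obtain ⟨x0, -, h0⟩ := isCompact_uIcc.exists_isMinOn nonempty_uIcc hc
  obtain ⟨n, hn⟩ := exists_nat_gt (-yc (γ x0))
  refine ⟨n, fun j hj => path_Jc isPreconnected_uIcc (hγ.mono hsub) (fun x hx => ⟨hD (hsub hx), ?_⟩)
    left_mem_uIcc right_mem_uIcc⟩
  have h1 : yc (γ x0) ≤ yc (γ x) := h0 hx
  have h2 : (n : ℝ) ≤ j := by exact_mod_cast hj
  linarith

/-- A path inside one component of an end has a continuous parameter. -/
lemma path_param {γ : ℝ → Cyl} {S : Set ℝ} (hγ : ContinuousOn γ S) {e : Bool} {k : ℤ}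
    (hW : MapsTo γ S (Wc e k)) :
    ∃ σ : ℝ → ℝ, ContinuousOn σ S ∧ ∀ x ∈ S, -2 ≤ σ x ∧ γ x = om e k (σ x) := by
  have h : ∀ x, ∃ s : ℝ, x ∈ S → -2 ≤ s ∧ γ x = om e k s := fun x => by
    by_cases hx : x ∈ S
    · obtain ⟨s, hs, e1⟩ := hW hx
      exact ⟨s, fun _ => ⟨hs, e1.symm⟩⟩
    · exact ⟨0, fun h => absurd h hx⟩
  choose σ hσ using h
  refine ⟨σ, fun x hx => Metric.tendsto_nhds.2 fun ε hε => ?_, hσ⟩
  have hA : IsClosed (om e k '' Icc (-2) (σ x - ε) ∪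
      (om e k '' Ici (σ x + ε) ∪ om e (k + 1) '' Icc (-2) (-1))) :=
    (isCompact_Icc.image (continuous_om e k)).isClosed.union (isClosed_tail e k _)
  have h1 := (hσ x hx).1
  have hn : γ x ∈ (om e k '' Icc (-2) (σ x - ε) ∪
      (om e k '' Ici (σ x + ε) ∪ om e (k + 1) '' Icc (-2) (-1)))ᶜ := by
    rw [(hσ x hx).2]
    rintro (⟨s, hs, e1⟩ | ⟨s, hs, e1⟩ | ⟨s, hs, e1⟩)
    · linarith [(om_inj hs.1 h1 e1).2.2, hs.2]
    · have h2 : σ x + ε ≤ s := hs
      linarith [(om_inj (by linarith) h1 e1).2.2]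
    · exact notMem_Wc_succ (om_mem_Wc e k h1) ⟨s, hs.1, e1⟩
  filter_upwards [(hγ x hx).preimage_mem_nhdsWithin (hA.isOpen_compl.mem_nhds hn),
    self_mem_nhdsWithin] with y hy hyS
  rw [Real.dist_eq, abs_lt]
  exact ⟨lt_of_not_ge fun h => hy (.inl ⟨σ y, ⟨(hσ y hyS).1, by linarith⟩, (hσ y hyS).2.symm⟩),
    lt_of_not_ge fun h => hy (.inr (.inl ⟨σ y, show σ x + ε ≤ σ y by linarith,
      (hσ y hyS).2.symm⟩))⟩

lemma Free.not_self {H : Cyl → Cyl} (hH : Free H) (e : Bool) (k : ℤ) :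
    ¬ MapsTo H (Wc e k) (Wc e k) := by
  intro hM
  have hc : ∀ l : ℤ, ContinuousOn (fun s => H (om e l s)) (Ici (-2)) := fun l =>
    hH.cont.comp (continuous_om e l).continuousOn fun s hs => om_mem_KS e l hs
  obtain ⟨σ, h1, h2⟩ := path_param (hc k) fun s hs => hM (om_mem_Wc e k hs)
  have h3 : ∀ s, -2 ≤ s → s ≤ σ s := fun s hs => le_of_not_gt fun hlt => by
    obtain ⟨x, hx, e0⟩ := isPreconnected_Ici.intermediate_value₂ (a := -2) self_mem_Ici hs
      continuousOn_id h1 (h2 _ self_mem_Ici).1 hlt.le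
    exact hH.free _ (om_mem_KS e k hx) ((h2 x hx).2.trans (congrArg _ e0.symm))
  have h4 : ∀ t ∈ Icc (-2 : ℝ) (-1), H (om e (k + 1) t) ∈ om e (k + 1) '' Icc (-2) (-1) := by
    intro t ht
    have a1 : ∀ R, -2 ≤ R → H (om e (k + 1) t) ∈
        om e k '' Ici R ∪ om e (k + 1) '' Icc (-2) (-1) := by
      intro R hR
      have hsub : om e k '' Ici R ⊆ KS := by
        rintro _ ⟨s, hs, rfl⟩
        exact om_mem_KS e k (hR.trans hs)
      refine (isClosed_tail e k R).closure_subset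
        (((hH.cont _ (om_mem_KS e _ ht.1)).mono hsub).mem_closure ?_ ?_)
      · refine Metric.mem_closure_iff.2 fun ε hε => ?_
        obtain ⟨T, T0, hT⟩ := thl_large hε
        obtain ⟨n, hn⟩ := exists_nat_gt (T + |R| + 2)
        have n1 : (n : ℝ) ≤ 5 * ((n : ℤ) : ℝ) := by
          push_cast
          linarith [Nat.cast_nonneg (α := ℝ) n]
        have a2 := dist_om_bar e k (t + 5 * ((n : ℤ) : ℝ))
        rw [uu_add_int, uu_bar ht.1 ht.2, show -1 - (-1 - t) = t by ring, dist_comm] at a2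
        exact ⟨_, ⟨_, show R ≤ _ by linarith [le_abs_self R, ht.1], rfl⟩,
          a2.trans_lt (hT _ (by linarith [abs_nonneg R, ht.1]))⟩
      · rintro _ ⟨s, hs, rfl⟩
        exact .inl ⟨σ s, le_trans hs (h3 s (hR.trans hs)), (h2 s (hR.trans hs)).2.symm⟩
    rcases a1 (-2) le_rfl with ⟨s, hs, e1⟩ | h
    · have hs' : -2 ≤ s := hs
      rcases a1 (s + 1) (by linarith) with ⟨s', hs2, e2⟩ | h
      · have h5 : s + 1 ≤ s' := hs2
        linarith [(om_inj hs' (by linarith) (e1.trans e2.symm)).2.2]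
      · exact h
    · exact h
  obtain ⟨ρ, h5, h6⟩ := path_param (S := Icc (-2) (-1)) ((hc (k + 1)).mono Icc_subset_Ici_self)
    fun t ht => image_mono Icc_subset_Ici_self (h4 t ht)
  obtain ⟨x, hx, e0⟩ := exists_mem_Icc_isFixedPt_of_mapsTo h5 (by norm_num) fun t ht => by
    obtain ⟨s, hs, e1⟩ := h4 t ht
    rw [← (om_inj hs.1 (h6 t ht).1 (e1.trans (h6 t ht).2)).2.2]
    exact hs
  exact hH.free _ (om_mem_KS e _ hx.1) ((h6 x hx).2.trans (congrArg _ e0))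

lemma Free.cont_leaf {H : Cyl → Cyl} (hH : Free H) (L : Leaf) :
    Continuous fun σ : ℝ => H (Phi (L, σ)) :=
  hH.cont.comp_continuous (continuous_Phi.comp (Continuous.prodMk_right L)) fun _ => Phi_mem_KS _
lemma Free.cont_par {H : Cyl → Cyl} (hH : Free H) : Continuous fun p : Par => H (Phi p) :=
  hH.cont.comp_continuous continuous_Phi Phi_mem_KS
lemma Free.unif {H : Cyl → Cyl} (hH : Free H) {ε : ℝ} (hε : 0 < ε) :
    ∃ δ > 0, ∀ x ∈ KS, ∀ x' ∈ KS, dist x x' < δ → dist (H x) (H x') < ε :=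
  Metric.uniformContinuousOn_iff.1 (isCompact_KS.uniformContinuousOn_of_continuous hH.cont) ε hε

end Pool.Agent.Lib.MP_3a0c72_gt.Bing
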