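import Pool.Agent.Lib.MP_3a0c72_gt.Bing.Bits

/-! The wiggle program. -/

set_option autoImplicit false

noncomputable section

open Set Filter Topology

namespace Pool.Agent.Lib.MP_3a0c72_gt.Bing

lemma one_le_NN (k : ℤ) : 1 ≤ NN k := Nat.le_add_left _ _
lemma NN_le_MM (L : Leaf) (k : ℤ) : NN k ≤ MM L k := Nat.le_add_right _ _
lemma one_le_MM (L : Leaf) (k : ℤ) : 1 ≤ MM L k := (one_le_NN k).trans (NN_le_MM L k)
lemma NN_mono {k k' : ℤ} (h : k.natAbs ≤ k'.natAbs) : NN k ≤ NN k' :=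
  Nat.succ_le_succ (Nat.clog_mono_right 4 h)
lemma NN_large (n : ℕ) : ∃ k0 : ℕ, ∀ k : ℤ, k0 ≤ k.natAbs → n ≤ NN k := by
  refine ⟨4 ^ n, fun k hk => ?_⟩
  have := Nat.clog_mono_right 4 hk
  rw [Nat.clog_pow 4 n (by norm_num)] at this
  unfold NN
  omega
lemma base_phi (L : Leaf) : base (phi L) = sh (base L) := by
  rcases L with τ | ⟨i, n⟩
  · rfl
  · simp only [phi]
    split_ifs <;> rfl
lemma dd_cases (τ : Word) : dd τ = 1 ∨ dd τ = -1 := by
  unfold dd
  split_ifs <;> simp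
lemma dd_w0 : dd w0 = 1 := by simp [dd, w0]
lemma dd_of_sh_eq {τ : Word} (h : sh τ = τ) : dd τ = 1 := by
  have h0 : τ 1 = τ 0 := congrFun h 0
  have h1 : τ 2 = τ 1 := congrFun h 1
  unfold dd
  rw [h1, h0]
  cases τ 0 <;> simp

lemma ee_ray_h2 (κ : ℕ) (i : Fin 5) (m : ℕ) : ee κ (Sum.inr (i, (m : ℕ∞))) =
    if m + rk i < κ then
      (if κ % 8 = (i : ℕ) then κ - rk i else if κ % 8 = 4 + rk i then 2 * κ else κ) else κ := by
  have e : ((m : ℕ∞) + (rk i : ℕ∞) < (κ : ℕ∞)) ↔ m + rk i < κ := by norm_cast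
  simp only [ee, e]
lemma ee_top_h2 (κ : ℕ) (i : Fin 5) : ee κ (Sum.inr (i, ⊤)) = κ := by simp [ee]
lemma ee_J0_h2 (κ : ℕ) : ee κ J0 = κ := by simp [ee, J0, w0]
lemma rk_h2 (i : Fin 5) : 1 ≤ rk i ∧ rk i ≤ 3 := by fin_cases i <;> simp [rk]
lemma ee_ge_h2 (κ : ℕ) (L : Leaf) : κ ≤ ee κ L + 3 ∧ (κ % 8 = 5 → κ ≤ ee κ L) := by
  rcases L with τ | ⟨i, n⟩
  · simp only [ee]
    split_ifs <;> omega
  · have := rk_h2 i
    have := i.2
    simp only [ee]
    split_ifs <;> omega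
lemma ee_phi_h2 (κ : ℕ) (L : Leaf) : ee κ (phi L) ≤ ee (κ + 1) L := by
  rcases L with τ | ⟨i, n⟩
  · simp only [phi, ee, sh]
    split_ifs <;> omega
  · simp only [phi]
    split_ifs with h
    · have : rk i = 1 := by rcases h with rfl | rfl <;> rfl
      rw [ee_J0_h2]
      simp only [ee]
      split_ifs <;> omega
    · induction n using ENat.recTopCoe with
      | top => simp [ee_top_h2]
      | coe m =>
        have h1 : rk (i - 1) + 1 = rk i ∧ ((i - 1 : Fin 5) : ℕ) + 1 = i := by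
          revert h
          fin_cases i <;> simp [rk]
        have := rk_h2 i
        have := i.2
        rw [ee_ray_h2, ee_ray_h2]
        split_ifs <;> omega

lemma MM_zero (L : Leaf) : MM L 0 = 1 := by
  simp [MM, NN, mW]
lemma MM_neg_h2 (L : Leaf) {k : ℤ} (hk : k < 0) :
    MM L k = NN k + (ee k.natAbs L).factorial := by simp only [MM, if_pos hk]
lemma MM_pos_h2 (L : Leaf) {k : ℤ} (hk : 0 ≤ k) :
    MM L k = NN k + mW k.natAbs (base L) := by simp only [MM, if_neg (not_lt.2 hk)]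
lemma MM_phi_lo (L : Leaf) {k : ℤ} (hk : k < 0) : MM (phi L) (k + 1) ≤ MM L k + 2 := by
  by_cases h : k + 1 = 0
  · rw [h, MM_zero]
    omega
  have h1 := Nat.factorial_le (ee_phi_h2 (k + 1).natAbs L)
  have h2 : NN (k + 1) ≤ NN k := NN_mono (by omega)
  rw [MM_neg_h2 _ hk, MM_neg_h2 _ (by omega : k + 1 < 0),
    show k.natAbs = (k + 1).natAbs + 1 by omega]
  omega

lemma mW_le_h2 (k : ℕ) (τ : Word) : mW k τ ≤ k := by
  unfold mW
  split_ifs <;> omega
lemma per_iff_h2 (a j : ℕ) :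
    per a j = true ↔ (j % (2 * a + 3)) % 2 = 0 ∧ j % (2 * a + 3) ≠ 2 * a + 2 := by simp [per]
lemma per_false_h2 (a j : ℕ) :
    per a j = false ↔ (j % (2 * a + 3)) % 2 = 1 ∨ j % (2 * a + 3) = 2 * a + 2 := by
  rw [← Bool.not_eq_true, per_iff_h2]
  omega
lemma succ_mod_h2 (p j : ℕ) (hp : 0 < p) :
    j % p < p ∧ ((j + 1) % p = j % p + 1 ∨ (j % p + 1 = p ∧ (j + 1) % p = 0)) := by
  have h := Nat.mod_lt j hp
  refine ⟨h, ?_⟩
  rw [← Nat.mod_add_mod]
  rcases (Nat.succ_le_of_lt h).lt_or_eq with h1 | h1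
  · exact .inl (Nat.mod_eq_of_lt h1)
  · exact .inr ⟨h1, by rw [show j % p + 1 = p from h1, Nat.mod_self]⟩
lemma dd_per_h2 {τ : Word} {a c : ℕ} (h : ∀ j < 3, τ j = per a (j + c)) : dd τ = -1 := by
  unfold dd
  rw [if_neg]
  rw [h 0 (by omega), h 1 (by omega), h 2 (by omega), zero_add, add_comm 1 c,
    show 2 + c = c + 1 + 1 by omega]
  have a1 := succ_mod_h2 (2 * a + 3) c (by omega)
  have a2 := succ_mod_h2 (2 * a + 3) (c + 1) (by omega)
  have a3 := Nat.mod_lt (c + 1 + 1) (by omega : 2 * a + 3 > 0)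
  rintro ⟨h1, h2⟩
  cases h3 : per a c
  · rw [h3] at h1 h2
    have b1 := (per_false_h2 _ _).1 h3
    have b2 := (per_false_h2 _ _).1 h1.symm
    have b3 := (per_false_h2 _ _).1 (h2.resolve_left (by simp))
    generalize (c + 1 + 1) % (2 * a + 3) = z at *
    generalize (c + 1) % (2 * a + 3) = y at *
    generalize c % (2 * a + 3) = x at *
    omega
  · rw [h3] at h1
    have b1 := (per_iff_h2 _ _).1 h3
    have b2 := (per_iff_h2 _ _).1 h1.symm
    generalize (c + 1) % (2 * a + 3) = y at *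
    generalize c % (2 * a + 3) = x at *
    omega
lemma mW_down_h2 (k : ℕ) (τ : Word) (hk : 1 ≤ k) : mW k (sh τ) ≤ mW (k + 1) τ + 1 := by
  have h0 := mW_le_h2 k (sh τ)
  have h1 := Nat.le_pow_clog (b := 4) (by norm_num) (k + 1)
  conv_rhs => unfold mW
  split_ifs with h
  · rcases (Nat.clog_mono_right 4 (Nat.le_succ k)).lt_or_eq with h2 | h2
    · have h3 := Nat.le_pow_clog (b := 4) (by norm_num) k
      have h4 := Nat.pow_le_pow_right (n := 4) (by norm_num) (Nat.succ_le_of_lt h2)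
      rw [pow_succ] at h4
      change _ ≤ 4 ^ Nat.clog 4 (k + 1) at h4
      omega
    · change _ = Nat.clog 4 (k + 1) at h2
      unfold mW
      rw [h2, if_pos]
      · omega
      · intro j hj
        rw [show j + (4 ^ Nat.clog 4 (k + 1) - k) = j + 1 + (4 ^ Nat.clog 4 (k + 1) - (k + 1)) by
          omega]
        exact h (j + 1) (by omega)
  · omega
lemma MM_phi_hi (L : Leaf) {k : ℤ} (hk : 4 ≤ k) :
    MM (phi L) (k + dd (base L)) ≤ MM L k + 2 := by
  rcases dd_cases (base L) with h | h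
  · rw [h, MM_pos_h2 _ (by omega : 0 ≤ k), MM_pos_h2 _ (by omega : 0 ≤ k + 1)]
    have h1 := mW_le_h2 (k + 1).natAbs (base (phi L))
    have h2 : mW k.natAbs (base L) = k.natAbs := by
      unfold mW
      refine if_neg fun hc => ?_
      have := dd_per_h2 fun j hj => hc j (by omega)
      omega
    have h3 : NN (k + 1) ≤ NN k + 1 := by
      unfold NN
      refine Nat.succ_le_succ (Nat.clog_le_of_le_pow ?_)
      have := Nat.le_pow_clog (b := 4) (by norm_num) k.natAbs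
      rw [pow_succ]
      omega
    omega
  · rw [h, MM_pos_h2 _ (by omega : 0 ≤ k), MM_pos_h2 _ (by omega : 0 ≤ k + -1), base_phi]
    have h1 := mW_down_h2 (k + -1).natAbs (base L) (by omega)
    have h2 : NN (k + -1) ≤ NN k := NN_mono (by omega)
    rw [show (k + -1).natAbs + 1 = k.natAbs by omega] at h1
    omega
lemma MM_congr_base {L L' : Leaf} (h : base L = base L') {k : ℤ} (hk : 0 ≤ k) :
    MM L k = MM L' k := by rw [MM_pos_h2 _ hk, MM_pos_h2 _ hk, h]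
lemma iota_congr_base {L L' : Leaf} (h : base L = base L') {k : ℤ} (hk : 0 ≤ k) :
    iota L k = iota L' k := by simp only [iota, if_neg (not_lt.2 hk), h]
lemma JJ_J0 (j : ℕ) : JJ j J0 = 0 := by simp [JJ, J0, NB_w0]
lemma JJ_top (j : ℕ) (i : Fin 5) : JJ j (Sum.inr (i, ⊤)) = 0 := by simp [JJ]
lemma JJ_ray_h2 (j : ℕ) (i : Fin 5) (m : ℕ) : JJ j (Sum.inr (i, (m : ℕ∞))) =
    if m < j then -5 * ((j : ℤ) - m) + (i : ℕ) else 0 := by simp [JJ]
lemma JJ_ray_nonpos (j : ℕ) (i : Fin 5) (n : ℕ∞) : JJ j (Sum.inr (i, n)) ≤ 0 := by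
  induction n using ENat.recTopCoe with
  | top => rw [JJ_top]
  | coe m =>
    have := i.2
    rw [JJ_ray_h2]
    split_ifs <;> omega
lemma eq_ray_of_JJ {j : ℕ} {i : Fin 5} {n : ℕ∞} {L : Leaf} (hn : n < (j : ℕ∞))
    (h : JJ j L = JJ j (Sum.inr (i, n))) : L = Sum.inr (i, n) := by
  lift n to ℕ using hn.ne_top
  have h1 : n < j := by exact_mod_cast hn
  have h2 := i.2
  rw [JJ_ray_h2, if_pos h1] at h
  rcases L with τ | ⟨i', n'⟩
  · simp only [JJ] at h
    omega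
  · induction n' using ENat.recTopCoe with
    | top =>
      rw [JJ_top] at h
      omega
    | coe m =>
      have h3 := i'.2
      rw [JJ_ray_h2] at h
      split_ifs at h
      · obtain rfl : i' = i := Fin.ext (by omega)
        obtain rfl : m = n := by omega
        rfl
      · omega

/-- A leaf is a ray that has left the zero word before level `j`, or behaves like its base. -/
lemma deep_h2 (j : ℕ) (L : Leaf) : (∃ i n, n < (j : ℕ∞) ∧ L = Sum.inr (i, n)) ∨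
    ∀ j' ≤ j, JJ j' L = NB j' (base L) ∧ JJ j' (phi L) = NB j' (sh (base L)) ∧
      ee j' L = ee j' (Sum.inl (base L)) := by
  rcases L with τ | ⟨i, n⟩
  · exact .inr fun _ _ => ⟨rfl, rfl, rfl⟩
  by_cases h : n < (j : ℕ∞)
  · exact .inl ⟨i, n, h, rfl⟩
  refine .inr fun j' hj => ?_
  have h1 : ¬ n < (j' : ℕ∞) := fun e => h (e.trans_le (by exact_mod_cast hj))
  have h2 : ¬ n + (rk i : ℕ∞) < (j' : ℕ∞) := fun e => h1 (le_self_add.trans_lt e)
  refine ⟨by simp only [JJ, base, if_neg h1, NB_w0, Nat.cast_zero], ?_,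
    by simp [ee, base, h2, w0]⟩
  simp only [phi, base, sh_w0, NB_w0]
  split_ifs
  · exact JJ_J0 _
  · simp only [JJ, if_neg h1, Nat.cast_zero]
lemma ee_eq_of_JJ {κ : ℕ} {L L' : Leaf} (h : JJ (κ + 1) L = JJ (κ + 1) L') :
    ee κ L = ee κ L' := by
  rcases deep_h2 (κ + 1) L with ⟨i, n, hn, rfl⟩ | h1
  · rw [eq_ray_of_JJ hn h.symm]
  rcases deep_h2 (κ + 1) L' with ⟨i, n, hn, rfl⟩ | h2
  · rw [eq_ray_of_JJ hn h]
  rw [(h1 _ le_rfl).1, (h2 _ le_rfl).1, Nat.cast_inj] at h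
  rw [(h1 κ (by omega)).2.2, (h2 κ (by omega)).2.2]
  simp only [ee, bit_eq_of_NB_eq h]
lemma mW_congr_h2 {k : ℕ} {τ τ' : Word} (h : ∀ j < k, τ j = τ' j) : mW k τ = mW k τ' := by
  unfold mW
  exact if_congr (forall₂_congr fun j hj => by rw [h j hj]) rfl rfl
lemma MM_eq_of_iota {L L' : Leaf} {k : ℤ} (h : iota L k = iota L' k) : MM L k = MM L' k := by
  rcases lt_or_ge k 0 with hk | hk
  · simp only [iota, if_pos hk] at h
    rw [MM_neg_h2 _ hk, MM_neg_h2 _ hk, ee_eq_of_JJ h]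
  simp only [iota, if_neg (not_lt.2 hk), neg_inj] at h
  rw [MM_pos_h2 _ hk, MM_pos_h2 _ hk, mW_congr_h2 fun j hj => bit_eq_of_NB_eq ?_]
  have hj' : j ∈ Finset.range (k.natAbs + 1) := Finset.mem_range.2 (by omega)
  rcases NB_compare (base L) (base L') with h1 | h1
  · exact_mod_cast (Finset.sum_eq_sum_iff_of_le fun i _ => Int.ofNat_le.2 (h1 i)).1 h j hj'
  · exact_mod_cast
      ((Finset.sum_eq_sum_iff_of_le fun i _ => Int.ofNat_le.2 (h1 i)).1 h.symm j hj').symm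
lemma JJ_phi_eq {j : ℕ} {L L' : Leaf} (h : JJ (j + 1) L = JJ (j + 1) L') :
    JJ j (phi L) = JJ j (phi L') := by
  rcases deep_h2 (j + 1) L with ⟨i, n, hn, rfl⟩ | h1
  · rw [eq_ray_of_JJ hn h.symm]
  rcases deep_h2 (j + 1) L' with ⟨i, n, hn, rfl⟩ | h2
  · rw [eq_ray_of_JJ hn h]
  rw [(h1 _ le_rfl).1, (h2 _ le_rfl).1, Nat.cast_inj] at h
  rw [(h1 j (by omega)).2.1, (h2 j (by omega)).2.1, NB_sh, NB_sh, h]

lemma ev_top_h2 (m : ℕ) : ∀ᶠ n : ℕ∞ in 𝓝 ⊤, (m : ℕ∞) < n :=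
  ENat.tendsto_nhds_top_iff_natCast_lt.1 tendsto_id m
lemma cont_leaf_h2 {X : Type*} [TopologicalSpace X] (f : Leaf → X)
    (h1 : Continuous fun τ => f (Sum.inl τ)) (m : ℕ)
    (h2 : ∀ i n, (m : ℕ∞) < n → f (Sum.inr (i, n)) = f (Sum.inr (i, ⊤))) : Continuous f := by
  refine continuous_sum_dom.2 ⟨h1, continuous_prod_of_discrete_left.2 fun i =>
    continuous_iff_continuousAt.2 fun n => ?_⟩
  by_cases hn : n = ⊤
  · subst hn
    refine (continuousAt_const (y := f (Sum.inr (i, ⊤)))).congr ?_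
    filter_upwards [ev_top_h2 m] with n hn
    exact (h2 i n hn).symm
  · unfold ContinuousAt
    rw [ENat.nhds_eq_pure hn]
    exact tendsto_pure_nhds _ _
lemma continuous_base : Continuous base := cont_leaf_h2 _ continuous_id 0 fun _ _ _ => rfl
lemma continuous_JJ (j : ℕ) : Continuous (JJ j) :=
  cont_leaf_h2 _ (continuous_of_discreteTopology.comp (continuous_NB j)) j fun i n hn => by
    simp only [JJ, if_neg hn.not_gt, if_neg not_top_lt]
lemma continuous_MM (k : ℤ) : Continuous fun L => MM L k := by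
  rcases lt_or_ge k 0 with hk | hk
  · refine cont_leaf_h2 _ (continuous_of_finite_dep _ (k.natAbs + 1) fun τ τ' h => ?_) k.natAbs
      fun i n hn => ?_
    · simp only [MM_neg_h2 _ hk, ee, h _ le_rfl]
    · have h2 : ¬ n + (rk i : ℕ∞) < (k.natAbs : ℕ∞) := fun e => hn.not_gt (le_self_add.trans_lt e)
      simp only [MM_neg_h2 _ hk, ee_top_h2]
      simp only [ee, if_neg h2]
  · refine cont_leaf_h2 _ (continuous_of_finite_dep _ k.natAbs fun τ τ' h => ?_) 0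
      fun i n _ => MM_congr_base (by rfl) hk
    simp only [MM_pos_h2 _ hk, base]
    rw [mW_congr_h2 fun j hj => h j hj.le]
lemma continuous_iota (k : ℤ) : Continuous fun L => iota L k := by
  rcases lt_or_ge k 0 with hk | hk
  · simp only [iota, if_pos hk]
    exact continuous_JJ _
  · simp only [iota, if_neg (not_lt.2 hk)]
    exact (continuous_finsetSum _ fun j _ => continuous_of_discreteTopology.comp
      ((continuous_NB j).comp continuous_base)).neg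
lemma continuous_phi : Continuous phi := by
  refine continuous_sum_dom.2 ⟨continuous_inl.comp continuous_sh,
    continuous_prod_of_discrete_left.2 fun i => ?_⟩
  change Continuous fun n : ℕ∞ => if i = 0 ∨ i = 3 then J0 else Sum.inr (i - 1, n)
  split_ifs
  · exact continuous_const
  · exact continuous_inr.comp (Continuous.prodMk_right _)
lemma continuous_dd : Continuous dd := continuous_of_finite_dep _ 2 fun τ τ' h => by
  simp only [dd, h 0 (by omega), h 1 (by omega), h 2 le_rfl]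
lemma continuous_wt : Continuous wt := by
  refine continuous_iff_continuousAt.2 fun n => ?_
  by_cases hn : n = ⊤
  · subst hn
    have h0 : wt ⊤ = 0 := by simp [wt]
    refine Metric.tendsto_nhds.2 fun ε hε => ?_
    obtain ⟨m, hm⟩ := exists_pow_lt_of_lt_one hε (by norm_num : (1 / 2 : ℝ) < 1)
    filter_upwards [ev_top_h2 m] with n hn
    rw [h0, Real.dist_eq, sub_zero]
    induction n using ENat.recTopCoe with
    | top => simpa [h0] using hε
    | coe l =>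
      have h1 : m ≤ l := by exact_mod_cast hn.le
      have h2 : wt l = (1 / 2) ^ l := by simp [wt]
      rw [h2, abs_of_nonneg (by positivity)]
      exact (pow_le_pow_of_le_one (by norm_num) (by norm_num) h1).trans_lt hm
  · unfold ContinuousAt
    rw [ENat.nhds_eq_pure hn]
    exact tendsto_pure_nhds _ _

lemma Sim.refl (L : Leaf) : Sim L L := ⟨0, fun _ _ => rfl⟩
lemma Sim.symm {L L' : Leaf} (h : Sim L L') : Sim L' L := by
  obtain ⟨j0, h⟩ := h
  exact ⟨j0, fun j hj => (h j hj).symm⟩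
lemma Sim.trans {L L' L'' : Leaf} (h : Sim L L') (h' : Sim L' L'') : Sim L L'' := by
  obtain ⟨j0, h⟩ := h
  obtain ⟨j1, h'⟩ := h'
  exact ⟨max j0 j1, fun j hj =>
    (h j (le_trans (le_max_left _ _) hj)).trans (h' j (le_trans (le_max_right _ _) hj))⟩
lemma eq_ray_of_sim {i : Fin 5} {n : ℕ∞} {L : Leaf} (hn : n ≠ ⊤) (h : Sim L (Sum.inr (i, n))) :
    L = Sum.inr (i, n) := by
  lift n to ℕ using hn
  obtain ⟨j0, h⟩ := h
  exact eq_ray_of_JJ (j := j0 + n + 1) (by exact_mod_cast (by omega)) (h _ (by omega))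
lemma sim_word_iff {τ τ' : Word} :
    Sim (Sum.inl τ') (Sum.inl τ) ↔ ∃ j0, ∀ j, j0 ≤ j → NB j τ' = NB j τ := by
  simp only [Sim, JJ, Nat.cast_inj]
lemma ray_or_base_h2 (L : Leaf) :
    (∃ i n, n ≠ ⊤ ∧ L = Sum.inr (i, n)) ∨ ∀ j, JJ j L = NB j (base L) := by
  rcases L with τ | ⟨i, n⟩
  · exact .inr fun _ => rfl
  by_cases hn : n = ⊤
  · subst hn
    exact .inr fun j => by simp only [JJ_top, base, NB_w0, Nat.cast_zero]
  · exact .inl ⟨i, n, hn, rfl⟩
/-- Every leaf is a finite ray or is in the class of a word. -/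
lemma ray_or_word (L : Leaf) :
    (∃ i n, n ≠ ⊤ ∧ L = Sum.inr (i, n)) ∨ ∃ τ, Sim L (Sum.inl τ) :=
  (ray_or_base_h2 L).imp_right fun h => ⟨base L, 0, fun j _ => h j⟩
lemma sim_level (L : Leaf) : ∃ g : ℕ, ∀ L', Sim L' L → ∀ j, g ≤ j → JJ j L' = JJ j L := by
  rcases ray_or_base_h2 L with ⟨i, n, hn, rfl⟩ | h
  · exact ⟨0, fun L' h' j _ => by rw [eq_ray_of_sim hn h']⟩
  obtain ⟨g, hg⟩ : ∃ g : ℕ, ∀ τ', (∃ j0, ∀ j, j0 ≤ j → NB j τ' = NB j (base L)) →
      ∀ j, g ≤ j → NB j τ' = NB j (base L) := by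
    rcases class_cases (base L) with h1 | ⟨τ1, g, h1, -, h2⟩
    · exact ⟨0, fun τ' h' j _ => by rw [h1 τ' h']⟩
    · refine ⟨g + 1, fun τ' h' j hj => ?_⟩
      rcases h2 τ' h' with rfl | rfl
      exacts [rfl, h1 j hj]
  refine ⟨g, fun L' h' j hj => ?_⟩
  rcases ray_or_base_h2 L' with ⟨i, n, hn, rfl⟩ | h2
  · rw [eq_ray_of_sim hn h'.symm]
  obtain ⟨j0, h'⟩ := h'
  rw [h, h2, hg _ ⟨j0, fun l hl => ?_⟩ j hj]
  have := h' l hl
  rwa [h, h2, Nat.cast_inj] at this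

/-- The inner program allows the shift `j` from `L` to `L'`. -/
def Prog (L L' : Leaf) (j : ℤ) : Prop :=
  ∃ κ1 : ℕ, ∀ κ κ' : ℕ, κ1 ≤ κ → (κ' : ℤ) = κ - j → ee κ' L' ≤ ee κ L

lemma prog_of_count {L L' : Leaf} {j : ℤ} {lm k0 : ℕ}
    (h : ∀ k : ℤ, k ≤ -(k0 : ℤ) → MM L' (k + j) ≤ lm * (MM L k + 1)) : Prog L L' j := by
  refine ⟨k0 + j.natAbs + 7 * lm + 5, fun κ κ' h1 h2 => le_of_not_gt fun hc => ?_⟩
  have h3 := h (-κ) (by omega)
  rw [MM_neg_h2 _ (by omega : -(κ : ℤ) + j < 0), MM_neg_h2 _ (by omega : -(κ : ℤ) < 0),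
    show (-(κ : ℤ) + j).natAbs = κ' by omega, show (-(κ : ℤ)).natAbs = κ by omega] at h3
  have h4 := Nat.factorial_le (Nat.succ_le_of_lt hc)
  rw [Nat.factorial_succ] at h4
  have h5 := (ee_ge_h2 κ L).1
  have h6 : NN (-κ) ≤ κ + 1 := by
    unfold NN
    rw [show (-(κ : ℤ)).natAbs = κ by omega]
    exact Nat.succ_le_succ (Nat.clog_le_of_le_pow (Nat.lt_pow_self (by norm_num)).le)
  have h7 := Nat.self_le_factorial (ee κ L)
  have h8 := Nat.factorial_pos (ee κ L)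
  have h9 : lm * (NN (-κ) + (ee κ L).factorial + 1) ≤ lm * (7 * (ee κ L).factorial) :=
    Nat.mul_le_mul_left _ (by omega)
  have h10 : (ee κ L + 1) * (ee κ L).factorial ≤ 7 * lm * (ee κ L).factorial := by
    rw [mul_comm 7 lm, mul_assoc]
    omega
  have := Nat.le_of_mul_le_mul_right h10 h8
  omega
lemma prog_J0_nonneg {L' : Leaf} {j : ℤ} (h : Prog J0 L' j) : 0 ≤ j := by
  obtain ⟨κ1, h⟩ := h
  have h1 := h (8 * (κ1 + j.natAbs) + 5 + j).toNat (8 * (κ1 + j.natAbs) + 5) (by omega) (by omega)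
  have h2 := (ee_ge_h2 (8 * (κ1 + j.natAbs) + 5) L').2 (by omega)
  rw [ee_J0_h2] at h1
  omega
lemma prog_J0_ray {i : Fin 5} {n : ℕ∞} {j : ℤ} (h : Prog J0 (Sum.inr (i, n)) j) : n = ⊤ := by
  by_contra hn
  lift n to ℕ using hn
  obtain ⟨κ1, h⟩ := h
  have h1 := h (8 * (κ1 + j.natAbs + n) + 4 + rk i + j).toNat (8 * (κ1 + j.natAbs + n) + 4 + rk i)
    (by omega) (by omega)
  have := rk_h2 i
  have := i.2
  rw [ee_J0_h2, ee_ray_h2, if_pos (by omega), if_neg (by omega), if_pos (by omega)] at h1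
  omega
lemma per_add_h2 (a j t : ℕ) : per a (j + (2 * a + 3) * t) = per a j := by
  simp only [per, Nat.add_mul_mod_self_left]
lemma prog_per {a r : ℕ} {τ' : Word} (hτ : ∀ j, τ' j = per a (j + r))
    (h : Prog (Sum.inl (per a)) (Sum.inl τ') (2 * a + 3)) : τ' = per a := by
  obtain ⟨κ1, h⟩ := h
  have key : ∀ x, 1 ≤ x → per a x = false → per a (x + r) = false := by
    intro x hx h0
    have b1 : κ1 + 2 ≤ (2 * a + 3) * (κ1 + 2) := Nat.le_mul_of_pos_left _ (by omega)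
    have b2 : (2 * a + 3) * 2 ≤ (2 * a + 3) * (κ1 + 2) := Nat.mul_le_mul_left _ (by omega)
    have b3 : (2 * a + 3) * (κ1 + 2 + 1) = (2 * a + 3) * (κ1 + 2) + (2 * a + 3) := by ring
    have h1 := h (x - 1 + (2 * a + 3) * (κ1 + 2 + 1)) (x - 1 + (2 * a + 3) * (κ1 + 2))
      (by omega) (by rw [b3]; omega)
    simp only [ee] at h1
    rw [show x - 1 + (2 * a + 3) * (κ1 + 2 + 1) + 1 = x + (2 * a + 3) * (κ1 + 2 + 1) by omega,
      per_add_h2, h0, hτ, show x - 1 + (2 * a + 3) * (κ1 + 2) + 1 + r =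
        x + r + (2 * a + 3) * (κ1 + 2) by omega, per_add_h2] at h1
    cases h2 : per a (x + r)
    · rfl
    · rw [h2] at h1
      simp only [if_true, Bool.false_eq_true, if_false] at h1
      omega
  have k1 := (per_false_h2 _ _).1 (key (2 * a + 1) (by omega)
    ((per_false_h2 _ _).2 (by rw [Nat.mod_eq_of_lt (by omega : 2 * a + 1 < 2 * a + 3)]; omega)))
  have k2 := (per_false_h2 _ _).1 (key (2 * a + 2) (by omega)
    ((per_false_h2 _ _).2 (.inr (Nat.mod_eq_of_lt (by omega)))))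
  rw [show 2 * a + 2 + r = 2 * a + 1 + r + 1 by omega] at k2
  have a1 := succ_mod_h2 (2 * a + 3) (2 * a + 1 + r) (by omega)
  have a3 := Nat.mod_lt (2 * a + 1 + r + 1) (by omega : 2 * a + 3 > 0)
  have a2 : (2 * a + 1 + r) % (2 * a + 3) = (2 * a + 1) % (2 * a + 3) := by
    rw [Nat.mod_eq_of_lt (by omega : 2 * a + 1 < 2 * a + 3)]
    generalize (2 * a + 1 + r + 1) % (2 * a + 3) = y at *
    generalize (2 * a + 1 + r) % (2 * a + 3) = x at *
    omega
  obtain ⟨t, rfl⟩ : 2 * a + 3 ∣ r := by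
    have := (Nat.modEq_iff_dvd' (Nat.le_add_right (2 * a + 1) r)).1 (Eq.symm a2)
    rwa [Nat.add_sub_cancel_left] at this
  funext j
  rw [hτ, per_add_h2]
lemma prog_ray {i : Fin 5} {n : ℕ∞} {L' : Leaf} (hi : i ≠ 0 ∧ i ≠ 3) (hn : n ≠ ⊤)
    (h : Prog (Sum.inr (i, n)) L' 1) : ∃ n', n' ≠ ⊤ ∧ L' = Sum.inr (i - 1, n') := by
  lift n to ℕ using hn
  obtain ⟨κ1, h⟩ := h
  have h1 : 2 ≤ rk i ∧ rk i ≤ 3 ∧ ((i - 1 : Fin 5) : ℕ) + 1 = i := by
    revert hi
    fin_cases i <;> simp [rk]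
  have h0 := i.2
  have h2 := h (8 * (κ1 + n + 1) + i) (8 * (κ1 + n + 1) + i - 1) (by omega) (by omega)
  rw [ee_ray_h2, if_pos (by omega), if_pos (by omega)] at h2
  rcases L' with τ | ⟨i', n'⟩
  · simp only [ee] at h2
    split_ifs at h2 <;> omega
  induction n' using ENat.recTopCoe with
  | top =>
    rw [ee_top_h2] at h2
    omega
  | coe m =>
    rw [ee_ray_h2] at h2
    refine ⟨m, ENat.natCast_ne_top m, ?_⟩
    obtain rfl : i' = i - 1 := Fin.ext (by split_ifs at h2 <;> omega)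
    rfl
lemma per_ones (a r m : ℕ) : ∃ j, m ≤ j ∧ per a (j + r) = true := by
  have h : m + r ≤ (2 * a + 3) * (m + r) := Nat.le_mul_of_pos_left _ (by omega)
  refine ⟨(2 * a + 3) * (m + r) - r, by omega, ?_⟩
  rw [show (2 * a + 3) * (m + r) - r + r = 0 + (2 * a + 3) * (m + r) by omega, per_add_h2]
  simp [per]
lemma per_zero_ne_one (r r' : ℕ) : ¬ ∀ j, per 0 (j + r) = per 1 (j + r') := by
  intro h
  have h1 : ∀ j, per 1 (j + 3 + r') = per 1 (j + r') := fun j => by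
    rw [← h, ← h, show j + 3 + r = j + r + (2 * 0 + 3) * 1 by omega, per_add_h2]
  have h2 := h1 (4 * r')
  rw [show 4 * r' + 3 + r' = 3 + (2 * 1 + 3) * r' by omega,
    show 4 * r' + r' = 0 + (2 * 1 + 3) * r' by omega, per_add_h2, per_add_h2] at h2
  simp [per] at h2
lemma pow_big_h2 {c i : ℕ} (h : c ≤ i) : c * (i + 2) < 4 ^ i := by
  have h1 : i + 1 ≤ 2 ^ i := Nat.lt_two_pow_self
  have h2 : 4 ^ i = 2 ^ i * 2 ^ i := by rw [← mul_pow]; rfl
  have h3 := Nat.mul_le_mul h1 h1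
  have h4 := Nat.mul_le_mul_right (i + 2) h
  nlinarith
lemma count_per {a : ℕ} {τ' : Word} {n : ℤ} {lm k0 : ℕ}
    (h : ∀ k : ℤ, (k0 : ℤ) ≤ k →
      MM (Sum.inl τ') (k + n) ≤ lm * (MM (Sum.inl (per a)) k + 1)) :
    ∃ r : ℕ, n = -(r : ℤ) ∧ ∀ j, τ' j = per a (j + r) := by
  have key : ∀ B : ℕ, n ≤ 0 ∧ ∀ j < B, τ' j = per a (j + n.natAbs) := by
    intro B
    obtain ⟨i, hi, hu⟩ : ∃ i, 4 * (lm + n.natAbs + B + k0 + 1) ≤ i ∧ (Nat.unpair i).1 = a :=
      ⟨Nat.pair a _, Nat.right_le_pair _ _, by rw [Nat.unpair_pair]⟩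
    have h1 := pow_big_h2 hi
    obtain ⟨i, rfl⟩ : ∃ l, i = l + 1 := ⟨i - 1, by omega⟩
    have h2 : lm * (i + 1 + 2) + n.natAbs + B + k0 < 4 ^ i := by
      rw [pow_succ] at h1
      have a1 : n.natAbs + B + k0 + 1 ≤ (n.natAbs + B + k0 + 1) * (i + 1 + 2) :=
        Nat.le_mul_of_pos_right _ (by omega)
      have a2 : 4 * (lm + n.natAbs + B + k0 + 1) * (i + 1 + 2) =
          4 * (lm * (i + 1 + 2) + (n.natAbs + B + k0 + 1) * (i + 1 + 2)) := by ring
      omega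
    have e1 : 4 ^ (i + 1) = 4 * 4 ^ i := by ring
    have e2 : 4 ^ (i + 1 + 1) = 16 * 4 ^ i := by ring
    have h3 := h (4 ^ (i + 1) : ℕ) (by omega)
    obtain ⟨k, hk⟩ : ∃ k : ℕ, ((4 ^ (i + 1) : ℕ) : ℤ) + n = k :=
      ⟨_, (Int.toNat_of_nonneg (by omega)).symm⟩
    have h4 : MM (Sum.inl (per a)) (4 ^ (i + 1) : ℕ) = i + 1 + 1 := by
      rw [MM_pos_h2 _ (Int.natCast_nonneg _), NN, Int.natAbs_natCast, mW,
        Nat.clog_pow 4 _ (by norm_num), hu, if_pos fun j _ => by rw [Nat.sub_self]; rfl]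
      omega
    rw [hk, h4, MM_pos_h2 _ (Int.natCast_nonneg _), Int.natAbs_natCast, mW] at h3
    change _ ≤ lm * (i + 1 + 2) at h3
    have c1 : ∀ l, 4 ^ l < k → k ≤ 4 ^ (l + 1) → Nat.clog 4 k = l + 1 := fun l a1 a2 =>
      le_antisymm (Nat.clog_le_of_le_pow a2)
        (Nat.succ_le_of_lt ((Nat.lt_clog_iff_pow_lt (by norm_num)).2 a1))
    rcases le_or_gt n 0 with hn | hn
    · rw [c1 i (by omega) (by omega), hu] at h3
      split_ifs at h3 with hc
      · refine ⟨hn, fun j hj => ?_⟩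
        rw [show n.natAbs = 4 ^ (i + 1) - k by omega]
        exact hc j (by omega)
      · omega
    · rw [c1 (i + 1) (by omega) (by omega)] at h3
      split_ifs at h3 <;> omega
  exact ⟨n.natAbs, by have := (key 0).1; omega, fun j => (key (j + 1)).2 j (by omega)⟩

end Pool.Agent.Lib.MP_3a0c72_gt.Bing
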