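import Pool.Agent.Lib.MP_3a0c72_gt.Bing.Paths

/-! Rigidity of the lap shift and the wiggle count. -/

set_option autoImplicit false

noncomputable section

open Set Filter Topology

namespace Pool.Agent.Lib.MP_3a0c72_gt.Bing

/-- The markers of leaf `L` are moved by `n` laps near the end `e`. -/
def ShiftBy (H : Cyl → Cyl) (e : Bool) (s0 S : ℝ) (k0 : ℕ) (L : Leaf) (n : ℤ) : Prop :=
  ∀ k : ℤ, (k0 : ℤ) ≤ sg e * k →
    ((k + n : ℤ) : ℝ) + 1 / 4 < tc (H (Phi (L, mk L k s0))) ∧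
    tc (H (Phi (L, mk L k s0))) < ((k + n : ℤ) : ℝ) + thl S ∧
    ∀ y ∈ Icc (mk L k s0) (mk L (k + 1) s0),
      ((k + n : ℤ) : ℝ) - 1 < tc (H (Phi (L, y))) ∧ tc (H (Phi (L, y))) < ((k + n : ℤ) : ℝ) + 2

/-- The end `e` is mapped onto itself with its components swapped. -/
structure Ess (H : Cyl → Cyl) (e : Bool) (s0 S : ℝ) (k0 : ℕ) : Prop where
  s0_nonneg : 0 ≤ s0
  S_nonneg : 0 ≤ S
  s0_le : ∀ k : ℤ, (k0 : ℤ) ≤ sg e * k + 1 → s0 ≤ 5 * NN k - 3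
  k0_ge : 8 ≤ k0
  inD : ∀ L, HasEnd e L → ∀ σ, H (Phi (L, σ)) ∈ DD
  shift : ∀ L, HasEnd e L → ∃ n : ℤ, Odd n ∧ ShiftBy H e s0 S k0 L n

lemma sep_h71 {A B : Set Cyl} (hA : IsCompact A) (hB : IsClosed B) (h : Disjoint A B) :
    ∃ r > 0, ∀ x ∈ A, ∀ y ∈ B, r < dist x y := by
  obtain ⟨r, hr, h1⟩ := Metric.exists_pos_forall_lt_edist hA hB h
  refine ⟨r, by exact_mod_cast hr, fun x hx y hy => ?_⟩
  have h2 := h1 x hx y hy
  rw [edist_nndist] at h2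
  exact_mod_cast h2

lemma contOn_om_h71 {H : Cyl → Cyl} (hH : Free H) (e : Bool) (k : ℤ) :
    ContinuousOn (fun s => H (om e k s)) (Ici (-2)) :=
  hH.cont.comp (continuous_om e k).continuousOn fun _ hs => om_mem_KS e k hs

lemma far_h71 {H : Cyl → Cyl} (hH : Free H) {e e' : Bool} {a : ℤ}
    (h : ∀ k : ℤ, MapsTo H (Wc e k) (Wc e' (a + k))) (k : ℤ) :
    ∃ s1 : ℝ, 0 ≤ s1 ∧ ∀ s, s1 ≤ s → ∃ σ, 1 ≤ σ ∧ H (om e k s) = om e' (a + k) σ := by
  have hA : IsCompact ((fun s => H (om e (k + 1) s)) '' Icc (-2) (-1)) :=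
    isCompact_Icc.image_of_continuousOn ((contOn_om_h71 hH e (k + 1)).mono Icc_subset_Ici_self)
  have hB : IsCompact (om e' (a + k) '' Icc (-2) 1) := isCompact_Icc.image (continuous_om _ _)
  have hd : Disjoint ((fun s => H (om e (k + 1) s)) '' Icc (-2) (-1))
      (om e' (a + k) '' Icc (-2) 1) := by
    rw [Set.disjoint_left]
    rintro x ⟨s, hs, rfl⟩ ⟨t, ht, hx⟩
    have h1 := h (k + 1) (om_mem_Wc e (k + 1) hs.1)
    rw [← add_assoc] at h1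
    exact notMem_Wc_succ (show _ ∈ Wc e' (a + k) from ⟨t, ht.1, hx⟩) h1
  obtain ⟨r, hr, hsep⟩ := sep_h71 hA hB.isClosed hd
  obtain ⟨δ, hδ, hu⟩ := hH.unif hr
  obtain ⟨S, hS0, hS⟩ := thl_large hδ
  refine ⟨S, hS0, fun s hs => ?_⟩
  obtain ⟨σ, hσ, hσ'⟩ := h k (om_mem_Wc e k (show -2 ≤ s by linarith))
  refine ⟨σ, ?_, hσ'.symm⟩
  by_contra hcon
  have hb : -1 - uu s ∈ Icc (-2 : ℝ) (-1) :=
    ⟨by linarith [uu_le_one s], by linarith [uu_nonneg s]⟩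
  have h1 := hu _ (om_mem_KS e (k + 1) hb.1) _ (om_mem_KS e k (show -2 ≤ s by linarith))
    (by rw [dist_comm]; exact (dist_om_bar e k s).trans_lt (hS s hs))
  have h2 := hsep _ ⟨_, hb, rfl⟩ _ ⟨σ, ⟨hσ, (not_le.1 hcon).le⟩, hσ'⟩
  exact absurd h1 (not_lt.2 h2.le)

lemma bdd_h71 {H : Cyl → Cyl} (hH : Free H) {e e' : Bool} {a : ℤ}
    (h : ∀ k : ℤ, MapsTo H (Wc e k) (Wc e' (a + k))) (k : ℤ) (s1 : ℝ) :
    ∃ S : ℝ, ∀ s ∈ Icc (-2) s1, ∃ σ ∈ Icc (-2) S, H (om e k s) = om e' (a + k) σ := by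
  obtain ⟨σ, hσ, hσ'⟩ := path_param (S := Icc (-2) s1)
    ((contOn_om_h71 hH e k).mono Icc_subset_Ici_self)
    (e := e') (k := a + k) (fun s hs => h k (om_mem_Wc e k hs.1))
  obtain ⟨S, hS⟩ := (isCompact_Icc.image_of_continuousOn hσ).bddAbove
  exact ⟨S, fun s hs => ⟨σ s, ⟨(hσ' s hs).1, hS ⟨s, hs, rfl⟩⟩, (hσ' s hs).2⟩⟩

lemma om_red_h71 (e : Bool) (a k : ℤ) (s : ℝ) : om e (a + k) s = om e (a + k % 2) s := by
  have : a + k = a + k % 2 + 2 * (k / 2) := by omega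
  rw [this, om_add_two_mul]

lemma unif_h71 {H : Cyl → Cyl} (hH : Free H) {e e' : Bool} {a : ℤ}
    (h : ∀ k : ℤ, MapsTo H (Wc e k) (Wc e' (a + k))) :
    ∃ s0 S : ℝ, 0 ≤ s0 ∧ 1 ≤ S ∧
      (∀ k s, s0 ≤ s → ∃ σ, 1 ≤ σ ∧ H (om e k s) = om e' (a + k) σ) ∧
      (∀ k, ∀ s ∈ Icc (-2) s0, ∃ σ ∈ Icc (-2) S, H (om e k s) = om e' (a + k) σ) := by
  obtain ⟨s1, h1, h1'⟩ := far_h71 hH h 0
  obtain ⟨s2, -, h2'⟩ := far_h71 hH h 1
  obtain ⟨S1, hS1⟩ := bdd_h71 hH h 0 (max s1 s2)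
  obtain ⟨S2, hS2⟩ := bdd_h71 hH h 1 (max s1 s2)
  have hk : ∀ (k : ℤ) (s : ℝ), om e k s = om e (k % 2) s := fun k s => by
    simpa using om_red_h71 e 0 k s
  refine ⟨max s1 s2, max 1 (max S1 S2), h1.trans (le_max_left _ _), le_max_left _ _,
    fun k s hs => ?_, fun k s hs => ?_⟩
  · simp only [hk k, om_red_h71 e' a k]
    rcases Int.emod_two_eq_zero_or_one k with h0 | h0 <;> rw [h0]
    · exact h1' s ((le_max_left _ _).trans hs)
    · exact h2' s ((le_max_right _ _).trans hs)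
  · simp only [hk k, om_red_h71 e' a k]
    rcases Int.emod_two_eq_zero_or_one k with h0 | h0 <;> rw [h0]
    · obtain ⟨σ, hσ, h3⟩ := hS1 s hs
      exact ⟨σ, ⟨hσ.1, hσ.2.trans ((le_max_left _ _).trans (le_max_right _ _))⟩, h3⟩
    · obtain ⟨σ, hσ, h3⟩ := hS2 s hs
      exact ⟨σ, ⟨hσ.1, hσ.2.trans ((le_max_right _ _).trans (le_max_right _ _))⟩, h3⟩

lemma sg_cases_h71 (e : Bool) : (e = true ∧ sg e = 1) ∨ (e = false ∧ sg e = -1) := by
  cases e <;> simp [sg]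

lemma natAbs_h71 {e : Bool} {k : ℤ} {n : ℕ} (h : (n : ℤ) ≤ sg e * k) : n ≤ k.natAbs := by
  rcases sg_cases_h71 e with ⟨-, h1⟩ | ⟨-, h1⟩ <;> rw [h1] at h <;> omega

lemma MM_pos_h71 (L : Leaf) (k : ℤ) : (1 : ℝ) ≤ MM L k := by exact_mod_cast one_le_MM L k

lemma NN_le_h71 (L : Leaf) (k : ℤ) : (NN k : ℝ) ≤ MM L k := by exact_mod_cast NN_le_MM L k

lemma mk_inv_h71 (L : Leaf) (k : ℤ) (y : ℝ) : mk L k ((y - k) * (5 * MM L k)) = y := by
  have := MM_pos_h71 L k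
  unfold mk
  field_simp
  ring

lemma mk_le_iff_h71 (L : Leaf) (k : ℤ) (s y : ℝ) :
    mk L k s ≤ y ↔ s ≤ (y - k) * (5 * MM L k) := by
  have := MM_pos_h71 L k
  unfold mk
  rw [← div_le_iff₀ (by positivity)]
  constructor <;> intro h <;> linarith

lemma le_mk_iff_h71 (L : Leaf) (k : ℤ) (s y : ℝ) :
    y ≤ mk L k s ↔ (y - k) * (5 * MM L k) ≤ s := by
  have := MM_pos_h71 L k
  unfold mk
  rw [← le_div_iff₀ (by positivity)]
  constructor <;> intro h <;> linarith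

lemma angle_h71 {x : Cyl} {e : Bool} {k : ℤ} {σ ε θ : ℝ} (h : dist x (om e k σ) < ε)
    (hx : x.1 = ((θ : ℝ) : AddCircle (2 : ℝ))) :
    ∃ m : ℤ, |θ - ((k : ℝ) + thl σ + 2 * m)| < ε := by
  apply exists_int_of_dist_lt
  rw [← hx]
  rw [Prod.dist_eq] at h
  exact lt_of_le_of_lt (le_max_left _ _) h

lemma induct_h71 {e : Bool} {k0 : ℕ} {f : ℤ → ℤ}
    (h : ∀ k, (k0 : ℤ) ≤ sg e * k → (k0 : ℤ) ≤ sg e * (k + 1) → f (k + 1) = f k) :
    ∀ k, (k0 : ℤ) ≤ sg e * k → f k = f (sg e * k0) := by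
  rcases sg_cases_h71 e with ⟨-, h1⟩ | ⟨-, h1⟩ <;> rw [h1] at h ⊢
  · have key : ∀ j : ℕ, f (k0 + j) = f (1 * k0) := by
      intro j
      induction j with
      | zero => simp
      | succ j ih =>
        rw [← ih, ← h (k0 + j) (by omega) (by omega), Nat.cast_succ, add_assoc]
    intro k hk
    have := key (k - k0).toNat
    rwa [show (k0 : ℤ) + ((k - k0).toNat : ℤ) = k by omega] at this
  · have key : ∀ j : ℕ, f (-k0 - j) = f (-1 * k0) := by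
      intro j
      induction j with
      | zero => simp
      | succ j ih =>
        rw [← ih, ← h (-k0 - (j + 1 : ℕ)) (by omega) (by omega)]; congr 1; push_cast; ring
    intro k hk
    have := key (-k - k0).toNat
    rwa [show -(k0 : ℤ) - ((-k - k0).toNat : ℤ) = k by omega] at this

lemma seg_h71 {δ s0 : ℝ} {k1 : ℕ} (hs0 : 0 ≤ s0)
    (hsh : ∀ (e : Bool) (L : Leaf) (k : ℤ), HasEnd e L →
      (k1 : ℤ) ≤ sg e * k → ∀ s ∈ Icc (0 : ℝ) (5 * MM L k),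
      (s ≤ 5 * MM L k - 1 → dist (Phi (L, mk L k s)) (om e k s) < δ) ∧
      (5 * MM L k - 2 ≤ s → dist (Phi (L, mk L k s)) (om e (k + 1) (s - 5 * MM L k)) < δ))
    {e : Bool} {L : Leaf} {k : ℤ} (hL : HasEnd e L) (hk : (k1 : ℤ) ≤ sg e * k)
    (hk' : (k1 : ℤ) ≤ sg e * (k + 1)) (hN : s0 ≤ 5 * NN (k + 1) - 3) {y : ℝ}
    (hy : y ∈ Icc (mk L k s0) (mk L (k + 1) s0)) :
    (∃ s, s0 ≤ s ∧ dist (Phi (L, y)) (om e k s) < δ) ∨
      ∃ s ∈ Icc (-2) s0, dist (Phi (L, y)) (om e (k + 1) s) < δ := by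
  have hM := MM_pos_h71 L k
  have hM' := MM_pos_h71 L (k + 1)
  rcases le_total y (k + 1) with h1 | h1
  · have h2 := (mk_le_iff_h71 L k s0 y).1 hy.1
    have h3 : (y - k) * (5 * MM L k) ≤ 5 * MM L k := by nlinarith
    have h4 := hsh e L k hL hk _ ⟨hs0.trans h2, h3⟩
    rw [mk_inv_h71] at h4
    rcases le_total ((y - k) * (5 * MM L k)) (5 * MM L k - 1) with h5 | h5
    · exact Or.inl ⟨_, h2, h4.1 h5⟩
    · exact Or.inr ⟨_, ⟨by linarith, by linarith⟩, h4.2 (by linarith)⟩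
  · have h2 := (le_mk_iff_h71 L (k + 1) s0 y).1 hy.2
    have h3 : 0 ≤ (y - (k + 1 : ℤ)) * (5 * MM L (k + 1)) := by
      push_cast
      exact mul_nonneg (by linarith) (by linarith)
    have h5 := NN_le_h71 L (k + 1)
    have h4 := hsh e L (k + 1) hL hk' _ ⟨h3, by linarith⟩
    rw [mk_inv_h71] at h4
    exact Or.inr ⟨_, ⟨by linarith, h2⟩, h4.1 (by linarith)⟩

lemma hasEnd_J0_h71 (e : Bool) : HasEnd e J0 := fun _ => ⟨w0, rfl⟩

lemma tc_par_h71 (x : Cyl) : tc x = ang (par x).1 (yc x) := rfl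

lemma rig {H : Cyl → Cyl} (hH : Free H) {e e' : Bool} {a : ℤ}
    (h : ∀ k : ℤ, MapsTo H (Wc e k) (Wc e' (a + k))) : ∃ s0 S k0, Ess H e s0 S k0 := by
  obtain ⟨s0, S, hs0, hS, hU1, hU2⟩ := unif_h71 hH h
  have hμ : 0 < thl (S + 1) - thl S := sub_pos.2 (thl_lt_thl (by linarith) (by linarith))
  obtain ⟨ε, hε, hε1, hε2⟩ : ∃ ε : ℝ, 0 < ε ∧ ε ≤ thl (S + 1) - thl S ∧ ε ≤ 1 / 10 :=
    ⟨min _ _, lt_min hμ (by norm_num), min_le_left _ _, min_le_right _ _⟩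
  obtain ⟨δ, hδ, hu⟩ := hH.unif hε
  obtain ⟨k1, hsh⟩ := shadow hδ
  obtain ⟨k2, hk2⟩ := NN_large (⌈s0⌉₊ + 1)
  set k0 : ℕ := k1 + k2 + 9 with hk0
  have hT := thl_lt_one (S + 1)
  have hN : ∀ k : ℤ, (k0 : ℤ) ≤ sg e * k + 1 → s0 ≤ 5 * NN k - 3 := by
    intro k hk
    have h1 : ((⌈s0⌉₊ + 1 : ℕ) : ℝ) ≤ NN k := by
      exact_mod_cast hk2 k (natAbs_h71 (e := e) (by omega))
    have h2 := Nat.le_ceil s0
    push_cast at h1
    linarith
  have hstep : ∀ k : ℤ, (k0 : ℤ) ≤ sg e * k → (k0 : ℤ) ≤ sg e * (k + 1) + 1 := by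
    intro k hk
    rcases sg_cases_h71 e with ⟨-, h1⟩ | ⟨-, h1⟩ <;> rw [h1] at hk ⊢ <;> omega
  have hmark : ∀ L, HasEnd e L → ∀ k : ℤ, (k0 : ℤ) ≤ sg e * k + 1 →
      ∃ σ, 1 ≤ σ ∧ σ ≤ S ∧ dist (H (Phi (L, mk L k s0))) (om e' (a + k) σ) < ε := by
    intro L hL k hk
    have h1 := hN k hk
    have h2 := NN_le_h71 L k
    have h3 := (hsh e L k hL (by omega) s0 ⟨hs0, by linarith⟩).1 (by linarith)
    obtain ⟨σ, hσ, h4⟩ := hU1 k s0 le_rfl
    obtain ⟨σ', hσ', h5⟩ := hU2 k s0 ⟨by linarith, le_rfl⟩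
    have h6 := (om_inj (by linarith) hσ'.1 (h4.symm.trans h5)).2.2
    refine ⟨σ, hσ, h6 ▸ hσ'.2, ?_⟩
    rw [← h4]
    exact hu _ (Phi_mem_KS _) _ (om_mem_KS e k (by linarith)) h3
  have hmark' : ∀ L, HasEnd e L → ∀ k : ℤ, (k0 : ℤ) ≤ sg e * k + 1 → ∀ θ : ℝ,
      (H (Phi (L, mk L k s0))).1 = ((θ : ℝ) : AddCircle (2 : ℝ)) →
      ∃ m : ℤ, ((k + (a + 2 * m) : ℤ) : ℝ) + 1 / 4 < θ ∧
        θ < ((k + (a + 2 * m) : ℤ) : ℝ) + thl (S + 1) := by
    intro L hL k hk θ hθ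
    obtain ⟨σ, h1, h2, h3⟩ := hmark L hL k hk
    obtain ⟨m, hm⟩ := angle_h71 h3 hθ
    have h4 := thl_mono h1
    have h5 := thl_mono h2
    rw [thl_one] at h4
    rw [abs_lt] at hm
    refine ⟨m, ?_, ?_⟩ <;> push_cast at hm ⊢ <;> linarith [hm.1, hm.2]
  have hseg : ∀ L, HasEnd e L → ∀ k : ℤ, (k0 : ℤ) ≤ sg e * k →
      ∀ y ∈ Icc (mk L k s0) (mk L (k + 1) s0), ∀ θ : ℝ,
      (H (Phi (L, y))).1 = ((θ : ℝ) : AddCircle (2 : ℝ)) → ∀ m : ℤ, θ ≠ ((a + k : ℤ) : ℝ) + 2 * m := by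
    intro L hL k hk y hy θ hθ m hm
    have hk' := hstep k hk
    rcases seg_h71 hs0 hsh hL (by omega) (by omega) (hN _ hk') hy with ⟨s, hs, h1⟩ | ⟨s, hs, h1⟩
    · obtain ⟨σ, hσ, h2⟩ := hU1 k s hs
      have h3 := hu _ (Phi_mem_KS _) _ (om_mem_KS e k (by linarith)) h1
      rw [h2] at h3
      obtain ⟨m', hm'⟩ := angle_h71 h3 hθ
      have h4 := thl_mono hσ
      rw [thl_one] at h4
      have h5 := thl_lt_one σ
      rw [hm, abs_lt] at hm'
      have h6 : (0 : ℝ) < ((m - m' : ℤ) : ℝ) := by push_cast; linarith [hm'.1]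
      have h7 : ((m - m' : ℤ) : ℝ) < 1 := by push_cast; linarith [hm'.2]
      have h8 : 0 < m - m' := by exact_mod_cast h6
      have h9 : m - m' < 1 := by exact_mod_cast h7
      omega
    · obtain ⟨σ, hσ, h2⟩ := hU2 (k + 1) s hs
      have h3 := hu _ (Phi_mem_KS _) _ (om_mem_KS e (k + 1) hs.1) h1
      rw [h2] at h3
      obtain ⟨m', hm'⟩ := angle_h71 h3 hθ
      have h4 := thl_mono hσ.2
      have h5 := thl_nonneg σ
      rw [hm, abs_lt] at hm'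
      have h6 : (0 : ℝ) < ((m - m' : ℤ) : ℝ) := by push_cast at hm' ⊢; linarith [hm'.1]
      have h7 : ((m - m' : ℤ) : ℝ) < 1 := by push_cast at hm' ⊢; linarith [hm'.2]
      have h8 : 0 < m - m' := by exact_mod_cast h6
      have h9 : m - m' < 1 := by exact_mod_cast h7
      omega
  have hinD : ∀ L, HasEnd e L → ∀ σ, H (Phi (L, σ)) ∈ DD := by
    intro L hL σ
    by_contra hcon
    obtain ⟨e2, h1⟩ := (mem_KS_cases (hH.maps (Phi_mem_KS (L, σ)))).resolve_left hcon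
    obtain ⟨b, hb⟩ := mem_iUnion.1 h1
    have h2 : ∀ y, H (Phi (L, y)) ∈ Wc e2 b := fun y =>
      path_Wc isPreconnected_univ (hH.cont_leaf L).continuousOn
        (fun x _ => hH.maps (Phi_mem_KS _)) (mem_univ σ) (mem_univ y) hb
    have h3 : ∀ k : ℤ, (k0 : ℤ) ≤ sg e * k + 1 → ∃ m : ℤ, b = k + (a + 2 * m) := by
      intro k hk
      obtain ⟨s, -, hs⟩ := h2 (mk L k s0)
      obtain ⟨m, h4, h5⟩ := hmark' L hL k hk (b + thl s) (by rw [← hs]; rfl)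
      have h6 := thl_nonneg s
      have h7 := thl_lt_one s
      have h8 : ((k + (a + 2 * m) : ℤ) : ℝ) < ((b + 1 : ℤ) : ℝ) := by
        rw [Int.cast_add b]; push_cast at h4 ⊢; linarith
      have h9 : ((b : ℤ) : ℝ) < ((k + (a + 2 * m) + 1 : ℤ) : ℝ) := by
        push_cast at h5 ⊢; linarith
      have h10 := Int.cast_lt.1 h8
      have h11 := Int.cast_lt.1 h9
      exact ⟨m, by omega⟩
    have hk : (k0 : ℤ) ≤ sg e * (sg e * k0) := by
      rcases sg_cases_h71 e with ⟨-, h1⟩ | ⟨-, h1⟩ <;> rw [h1] <;> omega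
    obtain ⟨m, hm⟩ := h3 _ (hk.trans (le_add_of_nonneg_right zero_le_one))
    obtain ⟨m', hm'⟩ := h3 _ (hstep _ hk)
    omega
  have hshift : ∀ L, HasEnd e L → ∃ m : ℤ, ShiftBy H e s0 (S + 1) k0 L (a + 2 * m) := by
    intro L hL
    have h1 : ∀ k : ℤ, ∃ m : ℤ, (k0 : ℤ) ≤ sg e * k + 1 →
        ((k + (a + 2 * m) : ℤ) : ℝ) + 1 / 4 < tc (H (Phi (L, mk L k s0))) ∧
        tc (H (Phi (L, mk L k s0))) < ((k + (a + 2 * m) : ℤ) : ℝ) + thl (S + 1) := by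
      intro k
      by_cases hk : (k0 : ℤ) ≤ sg e * k + 1
      · obtain ⟨m, hm⟩ := hmark' L hL k hk _ (fst_eq_tc (hinD L hL _))
        exact ⟨m, fun _ => hm⟩
      · exact ⟨0, fun h => absurd h hk⟩
    choose f hf using h1
    have h2 : ∀ k : ℤ, (k0 : ℤ) ≤ sg e * k → ∀ y ∈ Icc (mk L k s0) (mk L (k + 1) s0),
        ((a + k : ℤ) : ℝ) + 2 * f k < tc (H (Phi (L, y))) ∧
        tc (H (Phi (L, y))) < ((a + k : ℤ) : ℝ) + 2 * f k + 2 := by
      intro k hk y hy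
      have h3 := hf k (by omega)
      refine path_angle isPreconnected_Icc (hH.cont_leaf L).continuousOn
        (fun x _ => hinD L hL x) (fun x hx => hseg L hL k hk x hx _ (fst_eq_tc (hinD L hL x)))
        (a := mk L k s0) ⟨le_rfl, hy.1.trans hy.2⟩ hy ?_ ?_
      · push_cast at h3 ⊢; linarith [h3.1]
      · push_cast at h3 ⊢; linarith [h3.2]
    have hle : ∀ k : ℤ, (k0 : ℤ) ≤ sg e * k → mk L k s0 ≤ mk L (k + 1) s0 := by
      intro k hk
      have h3 := hN k (by omega)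
      have h4 := hN _ (hstep k hk)
      have h5 := NN_le_h71 L k
      have h6 := NN_le_h71 L (k + 1)
      have h7 := (mk_mem L k (s := s0) ⟨hs0, by linarith⟩).2
      have h8 := (mk_mem L (k + 1) (s := s0) ⟨hs0, by linarith⟩).1
      push_cast at h8
      linarith
    have h4 : ∀ k, (k0 : ℤ) ≤ sg e * k → f k = f (sg e * k0) := by
      refine induct_h71 fun k hk _ => ?_
      have h5 := h2 k hk _ ⟨hle k hk, le_rfl⟩
      have h6 := hf (k + 1) (hstep k hk)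
      have h7 : ((2 * f k : ℤ) : ℝ) < ((2 * f (k + 1) + 2 : ℤ) : ℝ) := by
        push_cast at h5 h6 ⊢; linarith [h5.1, h6.2]
      have h8 : ((2 * f (k + 1) + 1 : ℤ) : ℝ) < ((2 * f k + 2 : ℤ) : ℝ) := by
        push_cast at h5 h6 ⊢; linarith [h5.2, h6.1]
      have h9 := Int.cast_lt.1 h7
      have h10 := Int.cast_lt.1 h8
      omega
    refine ⟨f (sg e * k0), fun k hk => ?_⟩
    rw [← h4 k hk]
    refine ⟨(hf k (by omega)).1, (hf k (by omega)).2, fun y hy => ?_⟩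
    have h5 := h2 k hk y hy
    constructor <;> push_cast at h5 ⊢ <;> linarith [h5.1, h5.2]
  have hee : e' = e := by
    by_contra hne
    obtain ⟨m, hm⟩ := hshift J0 (hasEnd_J0_h71 e)
    obtain ⟨R, -, hR⟩ := near_end one_pos
    obtain ⟨j, hj⟩ := exists_nat_ge (R + 2)
    set c : ℕ := k0 + j + (a + 2 * m).natAbs with hc
    have hk : (k0 : ℤ) ≤ sg e * (sg e * c) := by
      rcases sg_cases_h71 e with ⟨-, h1⟩ | ⟨-, h1⟩ <;> rw [h1] <;> omega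
    obtain ⟨h1, h2, -⟩ := hm _ hk
    obtain ⟨σ, hσ, -, h3⟩ := hmark J0 (hasEnd_J0_h71 e) _ (hk.trans (le_add_of_nonneg_right zero_le_one))
    have hx := hinD J0 (hasEnd_J0_h71 e) (mk J0 (sg e * c) s0)
    have h4 := tc_bounds (H (Phi (J0, mk J0 (sg e * c) s0)))
    have h5 : R ≤ (sg e : ℝ) * yy (par (H (Phi (J0, mk J0 (sg e * c) s0)))) := by
      change R ≤ (sg e : ℝ) * yc _
      rcases sg_cases_h71 e with ⟨-, h6⟩ | ⟨-, h6⟩
      · have h7 : ((j : ℤ) : ℝ) ≤ ((sg e * c + (a + 2 * m) : ℤ) : ℝ) :=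
          Int.cast_le.2 (by rw [h6]; omega)
        rw [Int.cast_natCast] at h7
        have h8 : (sg e : ℝ) = 1 := by rw [h6]; simp
        rw [h8]
        linarith [h4.2]
      · have h7 : ((sg e * c + (a + 2 * m) : ℤ) : ℝ) ≤ ((-j : ℤ) : ℝ) :=
          Int.cast_le.2 (by rw [h6]; omega)
        rw [Int.cast_neg, Int.cast_natCast] at h7
        have h8 : (sg e : ℝ) = -1 := by rw [h6]; simp
        rw [h8]
        linarith [h4.1]
    obtain ⟨w, hw, h6⟩ := hR e _ h5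
    rw [Phi_par hx] at h6
    have hw' := Wc_subset_WW _ _ (om_mem_Wc e' (a + sg e * c) (show -2 ≤ σ by linarith))
    have h7 := dist_triangle_left w (om e' (a + sg e * c) σ) (H (Phi (J0, mk J0 (sg e * c) s0)))
    have h8 : |w.2 - (om e' (a + sg e * c) σ).2| ≤ dist w (om e' (a + sg e * c) σ) := by
      rw [Prod.dist_eq, ← Real.dist_eq]; exact le_max_right _ _
    rw [abs_le] at h8
    cases e <;> cases e'
    · exact hne rfl
    · linarith [h8.1, (snd_of_WW_false hw).2, (snd_of_WW_true hw').1]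
    · linarith [h8.2, (snd_of_WW_false hw').2, (snd_of_WW_true hw).1]
    · exact hne rfl
  have hodd : Odd a := by
    rcases Int.even_or_odd a with ⟨c, hc⟩ | h1
    · refine absurd ?_ (hH.not_self e 0)
      have h1 := h 0
      rwa [hee, show a + 0 = 0 + 2 * c by omega, Wc_add_two_mul] at h1
    · exact h1
  refine ⟨s0, S + 1, k0, hs0, by linarith, hN, by omega, hinD, fun L hL => ?_⟩
  obtain ⟨m, hm⟩ := hshift L hL
  exact ⟨a + 2 * m, hodd.add_even (even_two_mul m), hm⟩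

lemma steps_h71 {c : ℝ → ℝ} (hc : Continuous c) {α β η Q S : ℝ} (hη : 0 < η) (hS : 0 ≤ S)
    (h0 : c α ≤ S) (h : ∀ t ∈ Icc α β, ∀ t' ∈ Icc α β, |t - t'| ≤ η → ∀ i : ℕ,
      5 * (i : ℝ) + 2 ≤ Q → c t = 5 * i → c t' ≠ 5 * i + 2) (N : ℕ) :
    ∀ t ∈ Icc α β, t ≤ α + N * η → min (c t) Q ≤ S + 7 * N := by
  induction N with
  | zero =>
    intro t ht h1
    have h2 : t = α := le_antisymm (by simpa using h1) ht.1
    rw [h2]
    simpa using Or.inl h0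
  | succ N ih =>
    intro t ht h1
    by_contra hcon
    push_cast at h1 hcon
    rw [not_le, lt_min_iff] at hcon
    have hN : (0 : ℝ) ≤ N := Nat.cast_nonneg N
    have hm : max α (t - η) ≤ t := max_le ht.1 (by linarith)
    have h2 := ih (max α (t - η)) ⟨le_max_left _ _, hm.trans ht.2⟩
      (max_le (by nlinarith) (by linarith))
    have h3 : c (max α (t - η)) ≤ S + 7 * N := by
      rcases min_le_iff.1 h2 with h3 | h3
      · exact h3
      · linarith [hcon.2]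
    set i : ℕ := ⌈(S + 7 * N) / 5⌉₊ with hi
    have h4 : (S + 7 * N) / 5 ≤ i := Nat.le_ceil _
    have h5 : (i : ℝ) < (S + 7 * N) / 5 + 1 := Nat.ceil_lt_add_one (by positivity)
    obtain ⟨t1, ht1, h6⟩ := intermediate_value_Icc hm hc.continuousOn
      (show 5 * (i : ℝ) ∈ Icc _ _ from ⟨by linarith, by linarith [hcon.1]⟩)
    obtain ⟨t2, ht2, h7⟩ := intermediate_value_Icc hm hc.continuousOn
      (show 5 * (i : ℝ) + 2 ∈ Icc _ _ from ⟨by linarith, by linarith [hcon.1]⟩)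
    have h8 := le_max_left α (t - η)
    have h9 := le_max_right α (t - η)
    refine h t1 ⟨h8.trans ht1.1, ht1.2.trans ht.2⟩ t2 ⟨h8.trans ht2.1, ht2.2.trans ht.2⟩ ?_ i
      (by linarith [hcon.2]) h6 h7
    rw [abs_le]
    constructor <;> linarith [ht1.1, ht1.2, ht2.1, ht2.2]

lemma cont_yc_h71 {H : Cyl → Cyl} (hH : Free H) {L : Leaf} (hD : ∀ σ, H (Phi (L, σ)) ∈ DD) :
    Continuous fun y : ℝ => yc (H (Phi (L, y))) :=
  ContinuousOn.comp_continuous (g := yc) (s := DD)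
    (fun _ hx => (continuousWithinAt_yc hx).mono DD_subset_KS) (hH.cont_leaf L) hD

lemma height_h71 (e : Bool) (k : ℤ) (i : ℕ) :
    1 ≤ dist (om e k (5 * i)) (om e k (5 * i + 2)) := by
  have h1 : uu (5 * i) = 0 := by
    have := uu_add_int 0 i
    rw [uu_eq_zero (s := 0) (by norm_num) (by norm_num)] at this
    simpa using this
  have h2 : uu (5 * i + 2) = 1 := by
    have := uu_add_int 2 i
    rw [uu_eq_one (s := 2) (by norm_num) (by norm_num)] at this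
    rw [add_comm]
    simpa using this
  rw [Prod.dist_eq]
  refine le_trans ?_ (le_max_right _ _)
  simp only [om, h1, h2, ht, Real.dist_eq]
  cases e <;> norm_num

lemma cnt {H : Cyl → Cyl} (hH : Free H) {e : Bool} {s0 S : ℝ} {k0 : ℕ} (hE : Ess H e s0 S k0)
    {L L' : Leaf} (hL : HasEnd e L) (hL' : HasEnd e L') {n : ℤ} (hn : ShiftBy H e s0 S k0 L n)
    {y1 : ℝ} (hT : ∀ y, y1 ≤ (sg e : ℝ) * y → H (Phi (L, y)) = Phi (L', yc (H (Phi (L, y))))) :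
    ∃ lm k2 : ℕ, ∀ k : ℤ, (k2 : ℤ) ≤ sg e * k → MM L' (k + n) ≤ lm * (MM L k + 1) := by
  obtain ⟨δ, hδ, hu⟩ := hH.unif (show (0 : ℝ) < 1 / 4 by norm_num)
  obtain ⟨η, hη, hη1, hη2⟩ : ∃ η : ℝ, 0 < η ∧ η ≤ δ / 3 ∧ η ≤ 1 :=
    ⟨min _ _, lt_min (by positivity) one_pos, min_le_left _ _, min_le_right _ _⟩
  obtain ⟨k1, hsh⟩ := shadow (show 0 < δ / 3 by positivity)
  obtain ⟨k3, hsh'⟩ := shadow (show (0 : ℝ) < 1 / 8 by norm_num)
  obtain ⟨k4, hk4⟩ := NN_large (⌈S⌉₊ + 1)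
  obtain ⟨j, hj⟩ := exists_nat_ge (y1 + 2)
  obtain ⟨q, hq⟩ := exists_nat_ge (1 / η)
  have hs0 := hE.s0_nonneg
  have hS := hE.S_nonneg
  refine ⟨⌈S⌉₊ + 1 + 7 * q, k0 + k1 + k3 + k4 + j + n.natAbs + 8, fun k hk => ?_⟩
  have hk' : (k0 : ℤ) ≤ sg e * k ∧ (k0 : ℤ) ≤ sg e * (k + 1) ∧ (k1 : ℤ) ≤ sg e * k ∧
      (k1 : ℤ) ≤ sg e * (k + 1) ∧ (k3 : ℤ) ≤ sg e * (k + n) ∧ (k4 : ℤ) ≤ sg e * (k + n) ∧
      (k + n < 0 ∨ 6 ≤ k + n) ∧ (j : ℤ) ≤ sg e * k := by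
    rcases sg_cases_h71 e with ⟨-, h1⟩ | ⟨-, h1⟩ <;> rw [h1] at hk ⊢ <;> omega
  obtain ⟨a1, a2, a3, a4, a5, a6, a7, a8⟩ := hk'
  have hM := MM_pos_h71 L k
  have hM2 := MM_pos_h71 L (k + 1)
  have hM' := MM_pos_h71 L' (k + n)
  have hN1 := hE.s0_le k (by omega)
  have hN2 := hE.s0_le (k + 1) (by omega)
  have hN1' := NN_le_h71 L k
  have hN2' := NN_le_h71 L (k + 1)
  have hN3' := NN_le_h71 L' (k + n)
  have hN3 : S ≤ 5 * NN (k + n) - 3 := by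
    have h1 : ((⌈S⌉₊ + 1 : ℕ) : ℝ) ≤ NN (k + n) := by exact_mod_cast hk4 _ (natAbs_h71 a6)
    have h2 := Nat.le_ceil S
    push_cast at h1
    linarith
  set yt : ℝ → ℝ := fun t => k + min t (5 * MM L k) / (5 * MM L k)
    + max (t - 5 * MM L k) 0 / (5 * MM L (k + 1)) with hyt
  have hy1 : ∀ t : ℝ, t ≤ 5 * MM L k → yt t = mk L k t := by
    intro t h1
    simp only [hyt, mk, min_eq_left h1, max_eq_right (sub_nonpos.2 h1), zero_div, add_zero]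
  have hy2 : ∀ t, 5 * (MM L k : ℝ) ≤ t → yt t = mk L (k + 1) (t - 5 * MM L k) := by
    intro t h1
    simp only [hyt, mk, min_eq_right h1, max_eq_left (sub_nonneg.2 h1)]
    rw [div_self (by positivity)]
    push_cast
    ring
  have hyc : Continuous yt := by
    rw [hyt]
    fun_prop
  have hyb : ∀ t ∈ Icc s0 (5 * MM L k + s0), y1 ≤ (sg e : ℝ) * yt t := by
    intro t ht
    have h1 : (k : ℝ) ≤ yt t ∧ yt t ≤ k + 2 := by
      rcases le_total t (5 * MM L k) with h2 | h2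
      · have := mk_mem L k (s := t) ⟨hs0.trans ht.1, h2⟩
        rw [hy1 t h2]
        exact ⟨this.1, by linarith [this.2]⟩
      · have := mk_mem L (k + 1) (s := t - 5 * MM L k) ⟨by linarith, by linarith [ht.2]⟩
        rw [hy2 t h2]
        push_cast at this
        exact ⟨by linarith [this.1], by linarith [this.2]⟩
    have h2 : ((j : ℤ) : ℝ) ≤ ((sg e * k : ℤ) : ℝ) := Int.cast_le.2 a8
    rcases sg_cases_h71 e with ⟨-, h3⟩ | ⟨-, h3⟩ <;> rw [h3] at h2 ⊢ <;> push_cast at h2 ⊢ <;>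
      linarith [h1.1, h1.2]
  have hA : ∀ t ∈ Icc s0 (5 * MM L k + s0), t ≤ 5 * MM L k - 1 →
      dist (Phi (L, yt t)) (om e k t) < δ / 3 := by
    intro t ht h1
    rw [hy1 t (by linarith)]
    exact (hsh e L k hL a3 t ⟨hs0.trans ht.1, by linarith⟩).1 h1
  have hB : ∀ t ∈ Icc s0 (5 * MM L k + s0), 5 * (MM L k : ℝ) - 2 ≤ t →
      dist (Phi (L, yt t)) (om e (k + 1) (t - 5 * MM L k)) < δ / 3 := by
    intro t ht h1
    rcases le_total t (5 * MM L k) with h2 | h2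
    · rw [hy1 t h2]
      exact (hsh e L k hL a3 t ⟨hs0.trans ht.1, h2⟩).2 h1
    · rw [hy2 t h2]
      exact (hsh e L (k + 1) hL a4 _ ⟨by linarith, by linarith [ht.2]⟩).1 (by linarith [ht.2])
  have hclose : ∀ t ∈ Icc s0 (5 * MM L k + s0), ∀ t' ∈ Icc s0 (5 * MM L k + s0), |t - t'| ≤ η →
      dist (Phi (L, yt t)) (Phi (L, yt t')) < δ := by
    intro t ht t' ht' h1
    have h2 := abs_le.1 h1
    by_cases h3 : t ≤ 5 * MM L k - 1 ∧ t' ≤ 5 * MM L k - 1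
    · have h4 := dist_triangle4_right (Phi (L, yt t)) (Phi (L, yt t')) (om e k t) (om e k t')
      linarith [hA t ht h3.1, hA t' ht' h3.2, dist_om_le e k t t']
    · have h5 : 5 * (MM L k : ℝ) - 2 ≤ t ∧ 5 * (MM L k : ℝ) - 2 ≤ t' := by
        rcases not_and_or.1 h3 with h4 | h4 <;> rw [not_le] at h4 <;>
          constructor <;> linarith [h2.1, h2.2]
      have h4 := dist_triangle4_right (Phi (L, yt t)) (Phi (L, yt t'))
        (om e (k + 1) (t - 5 * MM L k)) (om e (k + 1) (t' - 5 * MM L k))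
      have h6 := dist_om_le e (k + 1) (t - 5 * MM L k) (t' - 5 * MM L k)
      rw [sub_sub_sub_cancel_right] at h6
      linarith [hB t ht h5.1, hB t' ht' h5.2]
  set Y : ℝ → ℝ := fun y => yc (H (Phi (L, y))) with hY
  have hYc : Continuous Y := cont_yc_h71 hH (hE.inD L hL)
  have htc : ∀ t ∈ Icc s0 (5 * MM L k + s0), tc (H (Phi (L, yt t))) = ang L' (Y (yt t)) := by
    intro t ht
    have h1 := hT _ (hyb t ht)
    have h2 : Y (yt t) = yy (L', Y (yt t)) := by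
      rw [← yc_Phi, ← h1]
    rw [h1, tc_Phi]
    change ang L' (yy (L', Y (yt t))) = _
    rw [← h2]
  set c : ℝ → ℝ := fun t => (Y (yt t) - (k + n : ℤ)) * (5 * MM L' (k + n)) with hc
  have hcc : Continuous c := ((hYc.comp hyc).sub continuous_const).mul continuous_const
  have hpt : ∀ t ∈ Icc s0 (5 * MM L k + s0), H (Phi (L, yt t)) = Phi (L', mk L' (k + n) (c t)) := by
    intro t ht
    rw [hc, mk_inv_h71]
    exact hT _ (hyb t ht)
  have hstart : c s0 ≤ S := by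
    have h1 := (hn k a1).2.1
    rw [← hy1 s0 (by linarith), htc s0 ⟨le_rfl, by linarith⟩] at h1
    have h2 := ang_mk L' a7 (s := S) ⟨hS, by linarith⟩
    rw [ThL, Th_link (good_lap L' _) hN3] at h2
    rw [← h2] at h1
    exact (le_mk_iff_h71 L' (k + n) S _).1 ((ang_strictMono L').lt_iff_lt.1 h1).le
  have hend : 5 * (MM L' (k + n) : ℝ) ≤ c (5 * MM L k + s0) := by
    have h1 := (hn (k + 1) a2).1
    have h2 := hy2 (5 * MM L k + s0) (by linarith)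
    rw [add_sub_cancel_left] at h2
    rw [← h2, htc _ ⟨by linarith, le_rfl⟩, lt_ang_iff] at h1
    push_cast at h1
    simp only [hc]
    push_cast
    nlinarith
  have key := steps_h71 hcc (α := s0) (β := 5 * MM L k + s0) (Q := 5 * MM L' (k + n) - 1) hη hS
    hstart (fun t ht t' ht' h1 i hi h2 h3 => by
      have h4 := hu _ (Phi_mem_KS _) _ (Phi_mem_KS _) (hclose t ht t' ht' h1)
      rw [hpt t ht, hpt t' ht', h2, h3] at h4
      have hi0 : (0 : ℝ) ≤ i := Nat.cast_nonneg i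
      have h5 := (hsh' e L' (k + n) hL' a5 (5 * i) ⟨by linarith, by linarith⟩).1 (by linarith)
      have h6 := (hsh' e L' (k + n) hL' a5 (5 * i + 2) ⟨by linarith, by linarith⟩).1 hi
      have h7 := height_h71 e (k + n) i
      have h8 := dist_triangle4_left (Phi (L', mk L' (k + n) (5 * i)))
        (Phi (L', mk L' (k + n) (5 * i + 2))) (om e (k + n) (5 * i)) (om e (k + n) (5 * i + 2))
      linarith) (5 * MM L k * q) _ ⟨by linarith, le_rfl⟩ (by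
      rw [div_le_iff₀ hη] at hq
      push_cast
      nlinarith)
  rw [min_eq_right (by linarith)] at key
  have h1 := Nat.le_ceil S
  have hq0 : (0 : ℝ) ≤ q := Nat.cast_nonneg q
  have h2 : (MM L' (k + n) : ℝ) ≤ ((⌈S⌉₊ + 1 + 7 * q : ℕ) : ℝ) * ((MM L k + 1 : ℕ) : ℝ) := by
    push_cast at key ⊢
    nlinarith
  exact_mod_cast h2

end Pool.Agent.Lib.MP_3a0c72_gt.Bing
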